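import Pool.Agent.Helper29.PB.GDefs
namespace Pool.Agent.Helper29.PB

/-! PB-3 -/

/-- The group of order eight with `(a, b, c) (a', b', c') = (a + a', b + b', c + c' + a b')`. -/
@[ext] structure CupH where
  a : ZMod 2
  b : ZMod 2
  c : ZMod 2

namespace CupH

instance : Mul CupH := ⟨fun g h => ⟨g.a + h.a, g.b + h.b, g.c + h.c + g.a * h.b⟩⟩
instance : One CupH := ⟨⟨0, 0, 0⟩⟩
instance : Inv CupH := ⟨fun g => ⟨-g.a, -g.b, -g.c + g.a * g.b⟩⟩

@[simp] theorem mul_a (g h : CupH) : (g * h).a = g.a + h.a := rfl
@[simp] theorem mul_b (g h : CupH) : (g * h).b = g.b + h.b := rfl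
@[simp] theorem mul_c (g h : CupH) : (g * h).c = g.c + h.c + g.a * h.b := rfl
@[simp] theorem one_a : (1 : CupH).a = 0 := rfl
@[simp] theorem one_b : (1 : CupH).b = 0 := rfl
@[simp] theorem one_c : (1 : CupH).c = 0 := rfl
@[simp] theorem inv_a (g : CupH) : (g⁻¹).a = -g.a := rfl
@[simp] theorem inv_b (g : CupH) : (g⁻¹).b = -g.b := rfl
@[simp] theorem inv_c (g : CupH) : (g⁻¹).c = -g.c + g.a * g.b := rfl

instance : Group CupH :=
  Group.ofLeftAxioms
    (by intro x y z; ext <;> simp <;> ring)
    (by intro x; ext <;> simp)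
    (by
      rintro ⟨a, b, c⟩
      ext
      · change -a + a = 0
        ring
      · change -b + b = 0
        ring
      · change (-c + a * b) + c + -a * b = 0
        ring)

/-- first coordinate -/
def homA : CupH →* Multiplicative (ZMod 2) where
  toFun g := Multiplicative.ofAdd g.a
  map_one' := rfl
  map_mul' _ _ := rfl

/-- second coordinate -/
def homB : CupH →* Multiplicative (ZMod 2) where
  toFun g := Multiplicative.ofAdd g.b
  map_one' := rfl
  map_mul' _ _ := rfl

/-- the centre -/
def cen : Multiplicative (ZMod 2) →* CupH where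
  toFun g := ⟨0, 0, g.toAdd⟩
  map_one' := rfl
  map_mul' g h := by ext <;> simp

end CupH

private theorem liftable_iff {G : Type*} [Group G] (x y : G →* Multiplicative (ZMod 2)) :
    Liftable x y ↔ ∃ ψ : G →* CupH, CupH.homA.comp ψ = x ∧ CupH.homB.comp ψ = y := by
  constructor
  · rintro ⟨z, hz⟩
    refine ⟨MonoidHom.mk' (fun g => ⟨(x g).toAdd, (y g).toAdd, z g⟩) ?_, ?_, ?_⟩
    · intro g h
      ext
      · simp
      · simp
      · simp [hz]
    · ext g; rfl
    · ext g; rfl
  · rintro ⟨ψ, hx, hy⟩
    refine ⟨fun g => (ψ g).c, fun g h => ?_⟩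
    subst hx hy
    simp [CupH.homA, CupH.homB]

theorem Liftable.comp {G H : Type} [Group G] [Group H] (f : H →* G)
    {x y : G →* Multiplicative (ZMod 2)} (h : Liftable x y) : Liftable (x.comp f) (y.comp f) := by
  obtain ⟨z, hz⟩ := h
  exact ⟨fun g => z (f g), fun g h => by simp [hz]⟩

theorem liftable_of_isFreeGroup {G : Type} [Group G] [IsFreeGroup G]
    (x y : G →* Multiplicative (ZMod 2)) : Liftable x y := by
  rw [liftable_iff]
  refine ⟨IsFreeGroup.lift (fun a => ⟨(x (IsFreeGroup.of a)).toAdd,
    (y (IsFreeGroup.of a)).toAdd, 0⟩), ?_, ?_⟩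
  · apply IsFreeGroup.ext_hom
    intro a
    simp [CupH.homA]
  · apply IsFreeGroup.ext_hom
    intro a
    simp [CupH.homB]

section Presented

variable {α : Type} (w : FreeGroup α)

/-- the lift with vanishing third coordinates on the letters -/
private def base (x y : α → ZMod 2) : FreeGroup α →* CupH :=
  FreeGroup.lift (fun a => ⟨x a, y a, 0⟩)

private theorem base_a (x y : α → ZMod 2) (g : FreeGroup α) :
    (base x y g).a = (FreeGroup.lift (fun a => Multiplicative.ofAdd (x a)) g).toAdd := by
  have h : CupH.homA.comp (base x y) = FreeGroup.lift (fun a => Multiplicative.ofAdd (x a)) := by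
    apply FreeGroup.ext_hom
    intro a
    simp [base, CupH.homA]
  have h2 := DFunLike.congr_fun h g
  rw [← h2]
  rfl

private theorem base_b (x y : α → ZMod 2) (g : FreeGroup α) :
    (base x y g).b = (FreeGroup.lift (fun a => Multiplicative.ofAdd (y a)) g).toAdd := by
  have h : CupH.homB.comp (base x y) = FreeGroup.lift (fun a => Multiplicative.ofAdd (y a)) := by
    apply FreeGroup.ext_hom
    intro a
    simp [base, CupH.homB]
  have h2 := DFunLike.congr_fun h g
  rw [← h2]
  rfl

private theorem base_add (x y₁ y₂ : α → ZMod 2) (g : FreeGroup α) :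
    (base x (fun a => y₁ a + y₂ a) g).b = (base x y₁ g).b + (base x y₂ g).b ∧
    (base x (fun a => y₁ a + y₂ a) g).c = (base x y₁ g).c + (base x y₂ g).c := by
  have ha : ∀ (y y' : α → ZMod 2) (g : FreeGroup α), (base x y g).a = (base x y' g).a := by
    intro y y' g
    rw [base_a, base_a]
  induction g using FreeGroup.induction_on with
  | C1 => simp
  | of a => simp [base]
  | inv_of a ih =>
    constructor
    · simp [base]
      ring
    · simp [base, mul_add]
  | mul g h ihg ihh =>
    obtain ⟨h1, h2⟩ := ihg
    obtain ⟨h3, h4⟩ := ihh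
    refine ⟨?_, ?_⟩
    · simp only [map_mul, CupH.mul_b, h1, h3]; ring
    · simp only [map_mul, CupH.mul_c, h2, h3, h4]
      rw [ha (fun a => y₁ a + y₂ a) y₁ g, ha y₂ y₁ g]
      ring

/-- the letters of a character of a presented group -/
private def lets (x : PresentedGroup {w} →* Multiplicative (ZMod 2)) : α → ZMod 2 :=
  fun a => (x (PresentedGroup.of a)).toAdd

private theorem lift_lets (x : PresentedGroup {w} →* Multiplicative (ZMod 2)) (g : FreeGroup α) :
    FreeGroup.lift (fun a => Multiplicative.ofAdd (lets w x a)) g =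
      x (PresentedGroup.mk {w} g) := by
  have h : FreeGroup.lift (fun a => Multiplicative.ofAdd (lets w x a)) =
      x.comp (PresentedGroup.mk {w}) := by
    apply FreeGroup.ext_hom
    intro a
    simp [lets, PresentedGroup.of]
  rw [h]
  rfl

private theorem mk_w : PresentedGroup.mk {w} w = 1 := by
  apply PresentedGroup.one_of_mem
  simp

private theorem liftable_presented (hw : ∀ χ : FreeGroup α →* Multiplicative (ZMod 2), χ w = 1)
    (x y : PresentedGroup {w} →* Multiplicative (ZMod 2)) :
    Liftable x y ↔ (base (lets w x) (lets w y) w).c = 0 := by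
  rw [liftable_iff]
  constructor
  · rintro ⟨ψ, hx, hy⟩
    set ζ : FreeGroup α →* Multiplicative (ZMod 2) :=
      FreeGroup.lift (fun a => Multiplicative.ofAdd (ψ (PresentedGroup.of a)).c) with hζ
    let F : FreeGroup α →* CupH :=
      MonoidHom.mk' (fun g => base (lets w x) (lets w y) g * CupH.cen (ζ g)) (by
        intro g h
        ext
        · simp [CupH.cen]
        · simp [CupH.cen]
        · simp [CupH.cen]; ring)
    have hF : F = ψ.comp (PresentedGroup.mk {w}) := by
      apply FreeGroup.ext_hom
      intro a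
      have hxa : (ψ (PresentedGroup.of a)).a = lets w x a := by
        rw [← hx]; rfl
      have hya : (ψ (PresentedGroup.of a)).b = lets w y a := by
        rw [← hy]; rfl
      have h1 : F (FreeGroup.of a) =
          (⟨lets w x a, lets w y a, 0⟩ : CupH) * ⟨0, 0, (ψ (PresentedGroup.of a)).c⟩ := by
        simp [F, base, hζ, CupH.cen]
      have h2 : (ψ.comp (PresentedGroup.mk {w})) (FreeGroup.of a) = ψ (PresentedGroup.of a) := rfl
      rw [h1, h2]
      ext
      · simp [hxa]
      · simp [hya]
      · simp
    have h1 : F w = 1 := by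
      rw [hF]
      simp [mk_w]
    have h2 : F w = base (lets w x) (lets w y) w * CupH.cen (ζ w) := rfl
    rw [hw ζ, map_one, mul_one] at h2
    rw [← h2, h1]
    rfl
  · intro h0
    have hrel : ∀ r ∈ ({w} : Set (FreeGroup α)),
        FreeGroup.lift (fun a => (⟨lets w x a, lets w y a, 0⟩ : CupH)) r = 1 := by
      intro r hr
      obtain rfl : r = w := by simpa using hr
      ext
      · have := base_a (lets r x) (lets r y) r
        rw [hw] at this
        exact this
      · have := base_b (lets r x) (lets r y) r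
        rw [hw] at this
        exact this
      · exact h0
    refine ⟨PresentedGroup.toGroup hrel, ?_, ?_⟩
    · apply PresentedGroup.ext
      intro a
      simp [CupH.homA, lets]
    · apply PresentedGroup.ext
      intro a
      simp [CupH.homB, lets]

private theorem add_presented (hw : ∀ χ : FreeGroup α →* Multiplicative (ZMod 2), χ w = 1)
    (x y₁ y₂ : PresentedGroup {w} →* Multiplicative (ZMod 2)) :
    Liftable x y₁ ∨ Liftable x y₂ ∨ Liftable x (y₁ * y₂) := by
  rw [liftable_presented w hw, liftable_presented w hw, liftable_presented w hw]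
  have h1 : lets w (y₁ * y₂) = fun a => lets w y₁ a + lets w y₂ a := by
    ext a
    simp [lets]
  rw [h1, (base_add (lets w x) (lets w y₁) (lets w y₂) w).2]
  generalize (base (lets w x) (lets w y₁) w).c = u
  generalize (base (lets w x) (lets w y₂) w).c = v
  revert u v
  decide

private theorem exists_char (hw : ∀ χ : FreeGroup α →* Multiplicative (ZMod 2), χ w = 1)
    (f : α → ZMod 2) : ∃ y : PresentedGroup {w} →* Multiplicative (ZMod 2), lets w y = f := by
  refine ⟨PresentedGroup.toGroup (f := fun a => Multiplicative.ofAdd (f a)) ?_, ?_⟩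
  · intro r hr
    obtain rfl : r = w := by simpa using hr
    exact hw _
  · ext a
    simp [lets]

private theorem exists_letter (x : PresentedGroup {w} →* Multiplicative (ZMod 2)) (hx : x ≠ 1) :
    ∃ a, lets w x a = 1 := by
  by_contra hcon
  push Not at hcon
  apply hx
  apply PresentedGroup.ext
  intro a
  have h1 := hcon a
  have h2 : lets w x a = 0 := by
    generalize lets w x a = u at h1
    revert u
    decide
  have h3 : x (PresentedGroup.of a) = Multiplicative.ofAdd (lets w x a) := rfl
  rw [h3, h2]
  rfl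

end Presented

private theorem even_or (g : ℕ) (χ : FreeGroup (Fin g × Bool) →* Multiplicative (ZMod 2)) :
    χ (orientableRelator g) = 1 := by
  unfold orientableRelator
  rw [map_list_prod, List.map_ofFn]
  apply List.prod_eq_one
  intro z hz
  rw [List.mem_ofFn] at hz
  obtain ⟨i, rfl⟩ := hz
  simp only [Function.comp, map_mul, map_inv]
  have := mul_comm (χ (FreeGroup.of (i, false))) (χ (FreeGroup.of (i, true)))
  rw [this]
  group

private theorem even_non (k : ℕ) (χ : FreeGroup (Fin k) →* Multiplicative (ZMod 2)) :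
    χ (nonorientableRelator k) = 1 := by
  unfold nonorientableRelator
  rw [map_list_prod, List.map_ofFn]
  apply List.prod_eq_one
  intro z hz
  rw [List.mem_ofFn] at hz
  obtain ⟨i, rfl⟩ := hz
  simp only [Function.comp, map_mul]
  generalize χ (FreeGroup.of i) = u
  revert u
  decide

private theorem form_or (g : ℕ) (x y : Fin g × Bool → ZMod 2) :
    (base x y (orientableRelator g)).c =
      ∑ i : Fin g, (x (i, false) * y (i, true) + x (i, true) * y (i, false)) := by
  unfold orientableRelator
  rw [map_list_prod, List.map_ofFn]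
  have h1 : (⇑(base x y) ∘ fun i : Fin g => FreeGroup.of (i, false) * FreeGroup.of (i, true) *
      (FreeGroup.of (i, false))⁻¹ * (FreeGroup.of (i, true))⁻¹) =
      ⇑CupH.cen ∘ fun i : Fin g => Multiplicative.ofAdd
        (x (i, false) * y (i, true) + x (i, true) * y (i, false)) := by
    funext i
    simp only [Function.comp, map_mul, map_inv, base, FreeGroup.lift_apply_of]
    generalize x (i, false) = p
    generalize x (i, true) = q
    generalize y (i, false) = r
    generalize y (i, true) = s
    ext
    · simp [CupH.cen]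
      revert p q
      decide
    · simp [CupH.cen]
      revert r s
      decide
    · simp [CupH.cen]
      revert p q r s
      decide
  rw [h1, ← List.map_ofFn, ← map_list_prod, List.prod_ofFn]
  simp [CupH.cen]

private theorem form_non (k : ℕ) (x y : Fin k → ZMod 2) :
    (base x y (nonorientableRelator k)).c = ∑ i : Fin k, x i * y i := by
  unfold nonorientableRelator
  rw [map_list_prod, List.map_ofFn]
  have h1 : (⇑(base x y) ∘ fun i : Fin k => FreeGroup.of i * FreeGroup.of i) =
      ⇑CupH.cen ∘ fun i : Fin k => Multiplicative.ofAdd (x i * y i) := by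
    funext i
    simp only [Function.comp, map_mul, base, FreeGroup.lift_apply_of]
    generalize x i = p
    generalize y i = q
    ext
    · simp [CupH.cen]
      revert p
      decide
    · simp [CupH.cen]
      revert q
      decide
    · simp [CupH.cen]
  rw [h1, ← List.map_ofFn, ← map_list_prod, List.prod_ofFn]
  simp [CupH.cen]

private theorem not_or (g : ℕ) (x : OrientableSurfaceGroup g →* Multiplicative (ZMod 2))
    (hx : x ≠ 1) : ∃ y : OrientableSurfaceGroup g →* Multiplicative (ZMod 2), ¬ Liftable x y := by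
  obtain ⟨⟨i, β⟩, hi⟩ := exists_letter _ x hx
  obtain ⟨y, hy⟩ := exists_char (orientableRelator g) (even_or g)
    (fun a => if a = (i, !β) then 1 else 0)
  refine ⟨y, ?_⟩
  rw [liftable_presented _ (even_or g), form_or, hy]
  rw [Finset.sum_eq_single i]
  · cases β
    · simp [hi]
    · simp [hi]
  · intro j _ hj
    simp [hj]
  · simp

private theorem not_non (k : ℕ) (x : NonorientableSurfaceGroup k →* Multiplicative (ZMod 2))
    (hx : x ≠ 1) :
    ∃ y : NonorientableSurfaceGroup k →* Multiplicative (ZMod 2), ¬ Liftable x y := by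
  obtain ⟨i, hi⟩ := exists_letter _ x hx
  obtain ⟨y, hy⟩ := exists_char (nonorientableRelator k) (even_non k)
    (fun a => if a = i then 1 else 0)
  refine ⟨y, ?_⟩
  rw [liftable_presented _ (even_non k), form_non, hy]
  rw [Finset.sum_eq_single i]
  · simp [hi]
  · intro j _ hj
    simp [hj]
  · simp

theorem IsSurfaceGroup.liftable_add {G : Type} [Group G] (h : IsSurfaceGroup G)
    (x y₁ y₂ : G →* Multiplicative (ZMod 2)) :
    Liftable x y₁ ∨ Liftable x y₂ ∨ Liftable x (y₁ * y₂) := by
  have key : ∀ {P : Type} [Group P] (e : G ≃* P),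
      (Liftable (x.comp e.symm.toMonoidHom) (y₁.comp e.symm.toMonoidHom) ∨
        Liftable (x.comp e.symm.toMonoidHom) (y₂.comp e.symm.toMonoidHom) ∨
        Liftable (x.comp e.symm.toMonoidHom)
          ((y₁.comp e.symm.toMonoidHom) * (y₂.comp e.symm.toMonoidHom))) →
      Liftable x y₁ ∨ Liftable x y₂ ∨ Liftable x (y₁ * y₂) := by
    intro P _ e hP
    have hc : ∀ z : G →* Multiplicative (ZMod 2),
        (z.comp e.symm.toMonoidHom).comp e.toMonoidHom = z := by
      intro z
      ext g
      simp
    rcases hP with hP | hP | hP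
    · left
      have := hP.comp e.toMonoidHom
      rwa [hc, hc] at this
    · right; left
      have := hP.comp e.toMonoidHom
      rwa [hc, hc] at this
    · right; right
      have := hP.comp e.toMonoidHom
      rw [hc] at this
      have h2 : ((y₁.comp e.symm.toMonoidHom) * (y₂.comp e.symm.toMonoidHom)).comp
          e.toMonoidHom = y₁ * y₂ := by
        ext g
        simp
      rwa [h2] at this
  rcases h with ⟨g, ⟨e⟩⟩ | ⟨k, _, ⟨e⟩⟩
  · exact key e (add_presented _ (even_or g) _ _ _)
  · exact key e (add_presented _ (even_non k) _ _ _)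

theorem IsSurfaceGroup.exists_not_liftable {G : Type} [Group G] (h : IsSurfaceGroup G)
    (x : G →* Multiplicative (ZMod 2)) (hx : x ≠ 1) :
    ∃ y : G →* Multiplicative (ZMod 2), ¬ Liftable x y := by
  have key : ∀ {P : Type} [Group P] (e : G ≃* P),
      (∀ x' : P →* Multiplicative (ZMod 2), x' ≠ 1 → ∃ y, ¬ Liftable x' y) →
      ∃ y : G →* Multiplicative (ZMod 2), ¬ Liftable x y := by
    intro P _ e hP
    have hne : x.comp e.symm.toMonoidHom ≠ 1 := by
      intro h1
      apply hx
      ext g
      have := DFunLike.congr_fun h1 (e g)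
      simpa using this
    obtain ⟨y, hy⟩ := hP _ hne
    refine ⟨y.comp e.toMonoidHom, fun hl => hy ?_⟩
    have := hl.comp e.symm.toMonoidHom
    have h2 : (y.comp e.toMonoidHom).comp e.symm.toMonoidHom = y := by
      ext g
      simp
    rwa [h2] at this
  rcases h with ⟨g, ⟨e⟩⟩ | ⟨k, _, ⟨e⟩⟩
  · exact key e (not_or g)
  · exact key e (not_non k)

theorem HasFreeLetter.not_isSurfaceGroup {G : Type} [Group G] (h : HasFreeLetter G) :
    ¬ IsSurfaceGroup G := by
  intro hs
  obtain ⟨S, t, hcl, hext⟩ := h
  obtain ⟨x, hxt, hxs⟩ := hext (Multiplicative (ZMod 2)) 1 (Multiplicative.ofAdd 1)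
  have hx : x ≠ 1 := by
    intro h1
    rw [h1] at hxt
    have h3 : (1 : Multiplicative (ZMod 2)) = Multiplicative.ofAdd 1 := hxt
    exact absurd h3 (by decide)
  obtain ⟨y, hy⟩ := hs.exists_not_liftable x hx
  apply hy
  rw [liftable_iff]
  let ψ : G →* CupH := MonoidHom.mk' (fun g => ⟨0, (y g).toAdd, 0⟩) (by
    intro g h
    ext <;> simp)
  obtain ⟨ψ', h1, h2⟩ := hext CupH ψ ⟨1, (y t).toAdd, 0⟩
  refine ⟨ψ', ?_, ?_⟩
  · apply MonoidHom.eq_of_eqOn_dense hcl
    intro g hg
    rcases Set.mem_insert_iff.mp hg with rfl | hg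
    · rw [hxt, MonoidHom.comp_apply, h1]
      rfl
    · rw [hxs g hg, MonoidHom.comp_apply, h2 g hg]
      rfl
  · apply MonoidHom.eq_of_eqOn_dense hcl
    intro g hg
    rcases Set.mem_insert_iff.mp hg with rfl | hg
    · rw [MonoidHom.comp_apply, h1]
      rfl
    · rw [MonoidHom.comp_apply, h2 g hg]
      rfl

theorem IsSurfaceGroup.of_equiv {G H : Type} [Group G] [Group H] (e : G ≃* H)
    (h : IsSurfaceGroup G) : IsSurfaceGroup H := by
  rcases h with ⟨g, ⟨e'⟩⟩ | ⟨k, hk, ⟨e'⟩⟩
  · exact Or.inl ⟨g, ⟨e.symm.trans e'⟩⟩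
  · exact Or.inr ⟨k, hk, ⟨e.symm.trans e'⟩⟩

end Pool.Agent.Helper29.PB
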