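import Pool.Agent.Helper29.PB.GDefs

/-!
# Graphs, Świątkowski's square complex and graph braid groups
-/

namespace Pool.Agent.Helper29.PB

open CategoryTheory

/-- A graph, given by vertices, edges and half-edges. Every half-edge lies on the edge `edge h` and
is glued to the vertex `vert h`. Every edge has at most two half-edges; an end of an edge which is
not glued to a vertex is a free end (a leaf). All points of valence `≥ 3` are vertices. -/
structure HGraph where
  /-- vertices -/
  V : Type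
  /-- edges -/
  E : Type
  /-- half-edges -/
  H : Type
  /-- the vertex of a half-edge -/
  vert : H → V
  /-- the edge of a half-edge -/
  edge : H → E

namespace HGraph

variable (Γ : HGraph)

/-- The place of a particle: on a vertex or inside an edge. -/
abbrev Pos : Type := Γ.V ⊕ Γ.E

/-- The 0-cells of Świątkowski's complex: `n` particles, at most one on each vertex. -/
def State (n : ℕ) : Type :=
  {s : Multiset Γ.Pos // Multiset.card s = n ∧ ∀ v r, s ≠ Sum.inl v ::ₘ Sum.inl v ::ₘ r}

variable {Γ}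

/-- The 1-cells: a particle leaves the vertex `vert h` along the half-edge `h`, the other
particles `r` rest. -/
structure Move {n : ℕ} (s t : Γ.State n) where
  /-- the half-edge -/
  h : Γ.H
  /-- the resting particles -/
  r : Multiset Γ.Pos
  /-- the source -/
  src : s.1 = Sum.inl (Γ.vert h) ::ₘ r
  /-- the target -/
  tgt : t.1 = Sum.inr (Γ.edge h) ::ₘ r

instance (n : ℕ) : Quiver (Γ.State n) := ⟨Move⟩

/-- The 2-cells: two particles leave two vertices independently. -/
inductive Sq (n : ℕ) : HomRel (Quiver.FreeGroupoid (Γ.State n))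
  | mk {s a b t : Γ.State n} (e₁ : s ⟶ a) (e₂ : a ⟶ t) (e₃ : s ⟶ b) (e₄ : b ⟶ t)
      (h₁ : e₁.h = e₄.h) (h₂ : e₂.h = e₃.h) :
      Sq n ((Quiver.FreeGroupoid.of (Γ.State n)).map e₁ ≫ (Quiver.FreeGroupoid.of (Γ.State n)).map e₂)
        ((Quiver.FreeGroupoid.of (Γ.State n)).map e₃ ≫ (Quiver.FreeGroupoid.of (Γ.State n)).map e₄)

variable (Γ)

/-- The fundamental groupoid of (the 2-skeleton of) Świątkowski's complex: the free groupoid on the
1-cells modulo the 2-cells. -/
abbrev PiG (n : ℕ) : Type := CategoryTheory.Quotient (Sq (Γ := Γ) n)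

variable {Γ}

/-- a state as an object of the fundamental groupoid -/
def pt {n : ℕ} (s : Γ.State n) : Γ.PiG n := ⟨(Quiver.FreeGroupoid.of (Γ.State n)).obj s⟩

/-- The `n`-particle braid group of `Γ` with base state `s`: the vertex group at `s` of the
fundamental groupoid (multiplication is concatenation of paths). -/
abbrev Braid {n : ℕ} (s : Γ.State n) : Type := pt s ⟶ pt s

end HGraph

/-- The pulsar graph with `m` parallel edges joining the vertices `p = false` and `q = true`,
`r` arcs at `p` and `s` arcs at `q`. The edges are numbered `0, …, r+m+s-1`; the first `r` are the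
arcs at `p`, the next `m` are the parallel edges, the last `s` are the arcs at `q`. -/
abbrev pulsar (r m s : ℕ) : HGraph where
  V := Bool
  E := Fin (r + m + s)
  H := {x : Bool × Fin (r + m + s) //
    (x.1 = false → (x.2 : ℕ) < r + m) ∧ (x.1 = true → r ≤ (x.2 : ℕ))}
  vert h := h.1.1
  edge h := h.1.2

/-- The sun graph: a cycle with vertices `0, …, K-1` (`K ≥ 1`), the cycle edge `c_v` going from
`v` to `v+1`, and `N` arcs, the arc `a` glued to the vertex `b a`. The half-edge `(v, false)` is the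
end at `v` of `c_v`, the half-edge `(v, true)` is the end at `v` of `c_{v-1}`. -/
abbrev sun (K N : ℕ) [NeZero K] (b : Fin N → Fin K) : HGraph where
  V := Fin K
  E := Fin K ⊕ Fin N
  H := (Fin K × Bool) ⊕ Fin N
  vert := Sum.elim (fun x => x.1) b
  edge := Sum.elim (fun x => Sum.inl (if x.2 then x.1 - 1 else x.1)) Sum.inr

/-! ## Cocycles for three particles -/

/-- A `1`-cocycle with values in `X` on the 3-particle complex: `φ h x y` is the value of the move
along `h` with resting particles at `x` and `y`. -/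
structure Cocycle3 (Γ : HGraph) (X : Type) [Group X] where
  φ : Γ.H → Γ.Pos → Γ.Pos → X
  symm : ∀ h x y, φ h x y = φ h y x
  sq : ∀ h h' z, Γ.vert h ≠ Γ.vert h' → z ≠ Sum.inl (Γ.vert h) → z ≠ Sum.inl (Γ.vert h') →
    φ h (Sum.inl (Γ.vert h')) z * φ h' (Sum.inr (Γ.edge h)) z =
      φ h' (Sum.inl (Γ.vert h)) z * φ h (Sum.inr (Γ.edge h')) z

/-- `(h, x, y)` is a move of three particles. -/
def Valid {Γ : HGraph} (h : Γ.H) (x y : Γ.Pos) : Prop :=
  x ≠ Sum.inl (Γ.vert h) ∧ y ≠ Sum.inl (Γ.vert h) ∧ ∀ v, ¬ (x = Sum.inl v ∧ y = Sum.inl v)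

/-- source of a move, as a multiset -/
def msrc {Γ : HGraph} (h : Γ.H) (x y : Γ.Pos) : Multiset Γ.Pos := Sum.inl (Γ.vert h) ::ₘ {x, y}
/-- target of a move, as a multiset -/
def mtgt {Γ : HGraph} (h : Γ.H) (x y : Γ.Pos) : Multiset Γ.Pos := Sum.inr (Γ.edge h) ::ₘ {x, y}

/-- Reachability of states through tree moves (`up`: the child is the target; `dn`: the child is
the source). -/
inductive Reach {Γ : HGraph} (Tup Tdn : Γ.H → Γ.Pos → Γ.Pos → Prop) (s0 : Multiset Γ.Pos) :
    Multiset Γ.Pos → Prop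
  | base : Reach Tup Tdn s0 s0
  | up (h x y) : Valid h x y → Tup h x y → Reach Tup Tdn s0 (msrc h x y) →
      Reach Tup Tdn s0 (mtgt h x y)
  | dn (h x y) : Valid h x y → Tdn h x y → Reach Tup Tdn s0 (mtgt h x y) →
      Reach Tup Tdn s0 (msrc h x y)

/-- Spanning tree of the 3-particle complex. -/
structure Tree3 (Γ : HGraph) (s0 : Γ.State 3) where
  /-- tree moves whose child is the target -/
  Tup : Γ.H → Γ.Pos → Γ.Pos → Prop
  /-- tree moves whose child is the source -/
  Tdn : Γ.H → Γ.Pos → Γ.Pos → Prop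
  reach : ∀ s : Γ.State 3, Reach Tup Tdn s0.1 s.1
  up_ne : ∀ h x y, Valid h x y → Tup h x y → mtgt h x y ≠ s0.1
  dn_ne : ∀ h x y, Valid h x y → Tdn h x y → msrc h x y ≠ s0.1
  up_unique : ∀ h x y h' x' y', Valid h x y → Valid h' x' y' → Tup h x y → Tup h' x' y' →
    mtgt h x y = mtgt h' x' y' → h = h' ∧ ({x, y} : Multiset Γ.Pos) = {x', y'}
  dn_unique : ∀ h x y h' x' y', Valid h x y → Valid h' x' y' → Tdn h x y → Tdn h' x' y' →
    msrc h x y = msrc h' x' y' → h = h' ∧ ({x, y} : Multiset Γ.Pos) = {x', y'}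
  up_dn : ∀ h x y h' x' y', Valid h x y → Valid h' x' y' → Tup h x y → Tdn h' x' y' →
    mtgt h x y ≠ msrc h' x' y'

/-- The cocycle `c` is trivial on the moves satisfying `Tr`. -/
def Cocycle3.IsNorm {Γ : HGraph} {X : Type} [Group X] (c : Cocycle3 Γ X)
    (Tr : Γ.H → Γ.Pos → Γ.Pos → Prop) : Prop :=
  ∀ h x y, Valid h x y → Tr h x y → c.φ h x y = 1

/-- A universal cocycle among those trivial on `Tr`, with values in the group `B`. -/
structure UnivCocycle (Γ : HGraph) (Tr : Γ.H → Γ.Pos → Γ.Pos → Prop) (B : Type) [Group B] where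
  κ : Cocycle3 Γ B
  norm : κ.IsNorm Tr
  univ : ∀ (X : Type) [Group X] (c : Cocycle3 Γ X), c.IsNorm Tr →
    ∃ f : B →* X, ∀ h x y, Valid h x y → f (κ.φ h x y) = c.φ h x y
  gen : Subgroup.closure {g | ∃ h x y, Valid h x y ∧ g = κ.φ h x y} = ⊤

/-- the tree moves of a tree -/
def Tree3.Tr {Γ : HGraph} {s0 : Γ.State 3} (T : Tree3 Γ s0) (h : Γ.H) (x y : Γ.Pos) : Prop :=
  T.Tup h x y ∨ T.Tdn h x y

end Pool.Agent.Helper29.PB
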