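import Pool.Agent.Helper29.PB.GDefs
namespace Pool.Agent.Helper29.PB

/-! PB-2 -/

/-- The wreath-like group `(ZMod 2)[G] ⋊ G`. -/
structure ChainGroup (G : Type) where
  /-- the chain -/
  c : G →₀ ZMod 2
  /-- the group element -/
  g : G

namespace ChainGroup

variable {G : Type} [Group G]

theorem ext' {a b : ChainGroup G} (h1 : a.c = b.c) (h2 : a.g = b.g) : a = b := by
  cases a; cases b; simp_all

noncomputable instance : Mul (ChainGroup G) :=
  ⟨fun a b => ⟨a.c + Finsupp.equivMapDomain (Equiv.mulLeft a.g) b.c, a.g * b.g⟩⟩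

noncomputable instance : One (ChainGroup G) := ⟨⟨0, 1⟩⟩

noncomputable instance : Inv (ChainGroup G) :=
  ⟨fun a => ⟨-(Finsupp.equivMapDomain (Equiv.mulLeft a.g⁻¹) a.c), a.g⁻¹⟩⟩

theorem mul_c (a b : ChainGroup G) :
    (a * b).c = a.c + Finsupp.equivMapDomain (Equiv.mulLeft a.g) b.c := rfl

theorem mul_g (a b : ChainGroup G) : (a * b).g = a.g * b.g := rfl

theorem one_c : (1 : ChainGroup G).c = 0 := rfl

theorem one_g : (1 : ChainGroup G).g = 1 := rfl

theorem inv_c (a : ChainGroup G) :
    (a⁻¹).c = -(Finsupp.equivMapDomain (Equiv.mulLeft a.g⁻¹) a.c) := rfl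

theorem inv_g (a : ChainGroup G) : (a⁻¹).g = a.g⁻¹ := rfl

theorem act_apply (g : G) (c : G →₀ ZMod 2) (x : G) :
    (Finsupp.equivMapDomain (Equiv.mulLeft g) c) x = c (g⁻¹ * x) := rfl

noncomputable instance : Group (ChainGroup G) :=
  Group.ofLeftAxioms
    (by
      intro a b c
      apply ext'
      · rw [mul_c, mul_c, mul_c, mul_c, mul_g]
        ext x
        simp only [Finsupp.add_apply, act_apply, add_assoc, mul_assoc, mul_inv_rev]
      · simp only [mul_g, mul_assoc])
    (by
      intro a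
      apply ext'
      · rw [mul_c, one_c, one_g]
        ext x
        simp only [Finsupp.add_apply, act_apply, inv_one, one_mul, Finsupp.zero_apply, zero_add]
      · simp only [mul_g, one_g, one_mul])
    (by
      intro a
      apply ext'
      · rw [mul_c, inv_c, inv_g, one_c]
        ext x
        simp only [Finsupp.add_apply, act_apply, Finsupp.neg_apply, Finsupp.zero_apply,
          neg_add_cancel]
      · simp only [mul_g, inv_g, one_g, inv_mul_cancel])

/-- the trivial section -/
noncomputable def sec : G →* ChainGroup G where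
  toFun g := ⟨0, g⟩
  map_one' := rfl
  map_mul' a b := by
    apply ext'
    · rw [mul_c]
      ext x
      simp only [Finsupp.add_apply, act_apply, Finsupp.zero_apply, zero_add]
    · rfl

/-- the projection -/
noncomputable def proj : ChainGroup G →* G where
  toFun a := a.g
  map_one' := rfl
  map_mul' _ _ := rfl

end ChainGroup

open ChainGroup

theorem key_single {G : Type} [Group G] {x : G} (hx : x ≠ 1) :
    (Finsupp.single (1 : G) (1 : ZMod 2)) x⁻¹ = 0 := by
  classical
  rw [Finsupp.single_apply, if_neg]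
  intro h
  apply hx
  rw [eq_comm, inv_eq_one] at h
  exact h

theorem key_sum {G : Type} [Group G] (t : G) (b : G → ZMod 2) (hb : (Function.support b).Finite)
    (h : ∀ x, b (x * t) = b x + (Finsupp.single (1 : G) (1 : ZMod 2)) x⁻¹) : False := by
  have h1 : (∑ᶠ x, b (x * t)) = ∑ᶠ x, b x := by
    have := finsum_comp_equiv (Equiv.mulRight t) (f := b)
    simpa using this
  have hs : (Function.support (fun x : G => (Finsupp.single (1 : G) (1 : ZMod 2)) x⁻¹)).Finite := by
    apply Set.Finite.subset (Set.finite_singleton (1 : G))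
    intro x hx
    rw [Set.mem_singleton_iff]
    by_contra hne
    exact hx (key_single hne)
  have h2 : (∑ᶠ x, b (x * t)) =
      (∑ᶠ x, b x) + ∑ᶠ x : G, (Finsupp.single (1 : G) (1 : ZMod 2)) x⁻¹ := by
    rw [← finsum_add_distrib hb hs]
    exact finsum_congr h
  have h3 : (∑ᶠ x : G, (Finsupp.single (1 : G) (1 : ZMod 2)) x⁻¹) = 1 := by
    rw [finsum_eq_single _ (1 : G)]
    · simp
    · intro x hx
      exact key_single hx
  rw [h1, h3] at h2
  have : (1 : ZMod 2) = 0 := by
    have := h2
    rw [eq_comm, add_eq_left] at this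
    exact this
  exact absurd this (by decide)

theorem HasFreeLetter.not_oneEnded {G : Type} [Group G] (h : HasFreeLetter G) : ¬ OneEnded G := by
  obtain ⟨S, t, hS, hX⟩ := h
  rintro ⟨-, hA⟩
  obtain ⟨φ, hφt, hφS⟩ := hX (ChainGroup G) sec ⟨Finsupp.single 1 1, t⟩
  have hproj : proj.comp φ = MonoidHom.id G := by
    apply MonoidHom.eq_of_eqOn_dense hS
    intro x hx
    rcases Set.mem_insert_iff.1 hx with rfl | hx
    · show (φ x).g = x
      rw [hφt]
    · show (φ x).g = x
      rw [hφS x hx]
      rfl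
  have hg : ∀ x, (φ x).g = x := fun x => DFunLike.congr_fun hproj x
  have hd : ∀ x y z, (φ (x * y)).c z = (φ x).c z + (φ y).c (x⁻¹ * z) := by
    intro x y z
    rw [map_mul, mul_c, hg]
    simp only [Finsupp.add_apply, act_apply]
  set a : G → ZMod 2 := fun x => (φ x).c 1 with ha
  have hab : ∀ x y, a (x * y) = a x + (φ y).c x⁻¹ := by
    intro x y
    rw [ha]
    simp only
    rw [hd, mul_one]
  have hinv : AlmostInvariant {x | a x ≠ 0} := by
    intro k
    apply Set.Finite.subset ((φ k⁻¹).c.support.finite_toSet.image (fun x => x⁻¹))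
    intro x hx
    refine ⟨x⁻¹, ?_, inv_inv x⟩
    rw [Finset.mem_coe, Finsupp.mem_support_iff]
    intro h0
    have h1 : a (x * k⁻¹) = a x := by rw [hab, h0, add_zero]
    rw [Set.mem_symmDiff] at hx
    have h2 : x ∈ (fun x => x * k) '' {x | a x ≠ 0} ↔ a (x * k⁻¹) ≠ 0 := by
      constructor
      · rintro ⟨y, hy, rfl⟩
        simpa using hy
      · intro hy
        exact ⟨x * k⁻¹, hy, by simp⟩
    rw [h2, h1, Set.mem_ofPred_eq] at hx
    tauto
  have hat : ∀ x, a (x * t) = a x + (Finsupp.single (1 : G) (1 : ZMod 2)) x⁻¹ := by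
    intro x
    rw [hab, hφt]
  rcases hA _ hinv with hf | hf
  · exact key_sum t a hf hat
  · refine key_sum t (fun x => 1 + a x) ?_ ?_
    · apply hf.subset
      intro x hx
      rw [Set.mem_compl_iff, Set.mem_ofPred_eq, not_not]
      rw [Function.mem_support] at hx
      revert hx
      generalize a x = y
      revert y
      decide
    · intro x
      rw [hat, add_assoc]

theorem HasFreeLetter.of_equiv {G H : Type} [Group G] [Group H] (e : G ≃* H)
    (h : HasFreeLetter G) : HasFreeLetter H := by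
  obtain ⟨S, t, hS, hX⟩ := h
  refine ⟨e '' S, e t, ?_, ?_⟩
  · rw [← Set.image_insert_eq]
    have := MonoidHom.map_closure e.toMonoidHom (insert t S)
    rw [hS, Subgroup.map_top_of_surjective _ e.surjective] at this
    exact this.symm
  · intro X _ ψ x
    obtain ⟨φ, h1, h2⟩ := hX X (ψ.comp e.toMonoidHom) x
    refine ⟨φ.comp e.symm.toMonoidHom, ?_, ?_⟩
    · show φ (e.symm (e t)) = x
      rw [e.symm_apply_apply, h1]
    · rintro _ ⟨s, hs, rfl⟩
      show φ (e.symm (e s)) = ψ (e s)
      rw [e.symm_apply_apply, h2 s hs]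
      rfl

theorem hasFreeLetter_freeGroup (κ : Type) [Nonempty κ] : HasFreeLetter (FreeGroup κ) := by
  classical
  obtain ⟨k0⟩ := ‹Nonempty κ›
  refine ⟨FreeGroup.of '' {k | k ≠ k0}, FreeGroup.of k0, ?_, ?_⟩
  · rw [eq_top_iff, ← FreeGroup.closure_range_of κ]
    apply Subgroup.closure_mono
    rintro _ ⟨k, rfl⟩
    by_cases hk : k = k0
    · subst hk
      exact Set.mem_insert _ _
    · exact Set.mem_insert_of_mem _ ⟨k, hk, rfl⟩
  · intro X _ ψ x
    refine ⟨FreeGroup.lift (fun k => if k = k0 then x else ψ (FreeGroup.of k)), ?_, ?_⟩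
    · rw [FreeGroup.lift_apply_of, if_pos rfl]
    · rintro _ ⟨k, hk, rfl⟩
      rw [FreeGroup.lift_apply_of, if_neg hk]

theorem hasFreeLetter_coprod (G : Type) [Group G] (κ : Type) [Nonempty κ] :
    HasFreeLetter (Monoid.Coprod G (FreeGroup κ)) := by
  classical
  obtain ⟨S, t, hS, hX⟩ := hasFreeLetter_freeGroup κ
  refine ⟨Set.range Monoid.Coprod.inl ∪ Monoid.Coprod.inr '' S, Monoid.Coprod.inr t, ?_, ?_⟩
  · rw [eq_top_iff, ← Monoid.Coprod.range_inl_sup_range_inr]
    refine sup_le ?_ ?_
    · rintro _ ⟨g, rfl⟩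
      exact Subgroup.subset_closure (Set.mem_insert_of_mem _ (Or.inl ⟨g, rfl⟩))
    · rw [MonoidHom.range_eq_map, ← hS, MonoidHom.map_closure, Set.image_insert_eq]
      apply Subgroup.closure_mono
      exact Set.insert_subset_insert Set.subset_union_right
  · intro X _ ψ x
    obtain ⟨φ, h1, h2⟩ := hX X (ψ.comp Monoid.Coprod.inr) x
    refine ⟨Monoid.Coprod.lift (ψ.comp Monoid.Coprod.inl) φ, ?_, ?_⟩
    · rw [Monoid.Coprod.lift_apply_inr, h1]
    · rintro s (⟨g, rfl⟩ | ⟨s, hs, rfl⟩)
      · rw [Monoid.Coprod.lift_apply_inl]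
        rfl
      · rw [Monoid.Coprod.lift_apply_inr, h2 s hs]
        rfl

end Pool.Agent.Helper29.PB
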