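import Pool.Agent.Helper29.PB.Defs

/-!
# PB-9: the vertex group of the fundamental groupoid is the universal cocycle group
-/

namespace Pool.Agent.Helper29.PB
open HGraph CategoryTheory

variable {Γ : HGraph}

/-- the class of a move -/
def gen {n : ℕ} {s t : Γ.State n} (e : s ⟶ t) : pt s ⟶ pt t :=
  (CategoryTheory.Quotient.functor (Sq (Γ := Γ) n)).map ((Quiver.FreeGroupoid.of (Γ.State n)).map e)

theorem gen_sq {n : ℕ} {s a b t : Γ.State n} (e₁ : s ⟶ a) (e₂ : a ⟶ t) (e₃ : s ⟶ b) (e₄ : b ⟶ t)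
    (h₁ : e₁.h = e₄.h) (h₂ : e₂.h = e₃.h) : gen e₁ ≫ gen e₂ = gen e₃ ≫ gen e₄ :=
  CategoryTheory.Quotient.sound (Sq (Γ := Γ) n) (Sq.mk e₁ e₂ e₃ e₄ h₁ h₂)

/-- induction on morphisms of the fundamental groupoid with fixed source -/
theorem ind_from {n : ℕ} (s0 : Γ.State n) (P : ∀ t : Γ.State n, (pt s0 ⟶ pt t) → Prop)
    (h0 : P s0 (𝟙 _))
    (fwd : ∀ {t u : Γ.State n} (f : pt s0 ⟶ pt t) (e : t ⟶ u), P t f → P u (f ≫ gen e))
    (bwd : ∀ {t u : Γ.State n} (f : pt s0 ⟶ pt u) (e : t ⟶ u), P u f →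
      P t (f ≫ Groupoid.inv (gen e))) :
    ∀ (t : Γ.State n) (f : pt s0 ⟶ pt t), P t f := by
  have key : ∀ (t : Γ.State n) (p : @Quiver.Path (Quiver.Symmetrify (Γ.State n)) _ s0 t),
      P t (Quot.mk _ (Quot.mk _ p) : pt s0 ⟶ pt t) := by
    intro t p
    induction p with
    | nil => exact h0
    | cons p e ih =>
      rcases e with e | e
      · exact fwd _ e ih
      · exact bwd _ e ih
  intro t f
  obtain ⟨g, rfl⟩ := Quot.exists_rep f
  obtain ⟨p, rfl⟩ := Quot.exists_rep g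
  exact key t p

section eval

variable {n : ℕ} {X : Type} [Group X] (φ : ∀ {s t : Γ.State n}, (s ⟶ t) → X)

/-- the prefunctor of a cochain -/
def preF : Γ.State n ⥤q SingleObj Xᵐᵒᵖ where
  obj _ := SingleObj.star _
  map e := MulOpposite.op (φ e)

theorem preF_map {s t : Γ.State n} (e : s ⟶ t) :
    ((Quiver.FreeGroupoid.lift (preF φ)).map ((Quiver.FreeGroupoid.of (Γ.State n)).map e) : Xᵐᵒᵖ) =
      MulOpposite.op (φ e) := by
  have := Quiver.FreeGroupoid.lift_spec (preF φ)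
  exact congrArg (fun F : (Γ.State n ⥤q SingleObj Xᵐᵒᵖ) => (F.map e : Xᵐᵒᵖ)) this

/-- the functor of a cocycle -/
def evF (hφ : ∀ {s a b t : Γ.State n} (e₁ : s ⟶ a) (e₂ : a ⟶ t) (e₃ : s ⟶ b) (e₄ : b ⟶ t),
    e₁.h = e₄.h → e₂.h = e₃.h → φ e₁ * φ e₂ = φ e₃ * φ e₄) : Γ.PiG n ⥤ SingleObj Xᵐᵒᵖ :=
  CategoryTheory.Quotient.lift _ (Quiver.FreeGroupoid.lift (preF φ)) (by
    rintro x y f₁ f₂ ⟨e₁, e₂, e₃, e₄, h₁, h₂⟩
    rw [Functor.map_comp, Functor.map_comp, SingleObj.comp_as_mul, SingleObj.comp_as_mul]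
    have h := hφ e₁ e₂ e₃ e₄ h₁ h₂
    have h' := congrArg MulOpposite.op h
    simp only [MulOpposite.op_mul] at h'
    rw [← preF_map φ e₁, ← preF_map φ e₂, ← preF_map φ e₃, ← preF_map φ e₄] at h'
    exact h')

/-- the value of a cocycle on a morphism -/
def ev (hφ : ∀ {s a b t : Γ.State n} (e₁ : s ⟶ a) (e₂ : a ⟶ t) (e₃ : s ⟶ b) (e₄ : b ⟶ t),
    e₁.h = e₄.h → e₂.h = e₃.h → φ e₁ * φ e₂ = φ e₃ * φ e₄) {a b : Γ.PiG n} (f : a ⟶ b) : X :=
  MulOpposite.unop ((evF φ hφ).map f : Xᵐᵒᵖ)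

variable (hφ : ∀ {s a b t : Γ.State n} (e₁ : s ⟶ a) (e₂ : a ⟶ t) (e₃ : s ⟶ b) (e₄ : b ⟶ t),
    e₁.h = e₄.h → e₂.h = e₃.h → φ e₁ * φ e₂ = φ e₃ * φ e₄)

theorem ev_id (a : Γ.PiG n) : ev φ hφ (𝟙 a) = 1 := by
  unfold ev
  rw [(evF φ hφ).map_id]
  rfl

theorem ev_comp {a b c : Γ.PiG n} (f : a ⟶ b) (g : b ⟶ c) :
    ev φ hφ (f ≫ g) = ev φ hφ f * ev φ hφ g := by
  unfold ev
  rw [(evF φ hφ).map_comp, SingleObj.comp_as_mul, MulOpposite.unop_mul]

theorem ev_gen {s t : Γ.State n} (e : s ⟶ t) : ev φ hφ (gen e) = φ e := by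
  unfold ev
  have : ((evF φ hφ).map (gen e) : Xᵐᵒᵖ) = MulOpposite.op (φ e) := preF_map φ e
  rw [this, MulOpposite.unop_op]

theorem ev_inv {a b : Γ.PiG n} (f : a ⟶ b) :
    ev φ hφ (Groupoid.inv f) = (ev φ hφ f)⁻¹ := by
  rw [eq_inv_iff_mul_eq_one, ← ev_comp, Groupoid.inv_comp, ev_id]

/-- the homomorphism of a cocycle -/
def evHom (s : Γ.State n) : Braid s →* X where
  toFun f := ev φ hφ f
  map_one' := ev_id φ hφ _
  map_mul' f g := ev_comp φ hφ f g

end eval

/-! ### Moves given by valid triples -/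

theorem pair_eq {α : Type} {x y x' y' : α} (h : ({x, y} : Multiset α) = {x', y'}) :
    (x = x' ∧ y = y') ∨ (x = y' ∧ y = x') := by
  have h' : (x ::ₘ {y} : Multiset α) = x' ::ₘ {y'} := h
  rw [Multiset.cons_eq_cons] at h'
  rcases h' with ⟨h1, h2⟩ | ⟨h1, cs, h2, h3⟩
  · exact Or.inl ⟨h1, by simpa using h2⟩
  · right
    have hc : cs = 0 := by
      have := congrArg Multiset.card h2
      simp at this
      exact this
    subst hc
    simp at h2 h3
    exact ⟨h3.symm, h2⟩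

theorem pair_swap {α : Type} (x y : α) : ({x, y} : Multiset α) = {y, x} :=
  Multiset.pair_comm x y

/-- a multiset of card 2 is a pair -/
theorem exists_pair {α : Type} {r : Multiset α} (h : Multiset.card r = 2) :
    ∃ x y, r = {x, y} := by
  rw [Multiset.card_eq_two] at h
  exact h

theorem move_card {s t : Γ.State 3} (e : s ⟶ t) : Multiset.card e.r = 2 := by
  have h := s.2.1
  rw [e.src] at h
  simp at h
  exact h

theorem Valid.symm {h : Γ.H} {x y : Γ.Pos} (hv : Valid h x y) : Valid h y x :=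
  ⟨hv.2.1, hv.1, fun v hh => hv.2.2 v ⟨hh.2, hh.1⟩⟩

theorem move_valid {s t : Γ.State 3} (e : s ⟶ t) {x y : Γ.Pos} (hr : e.r = {x, y}) :
    Valid e.h x y := by
  have hs := s.2.2
  have hsrc := e.src
  rw [hr] at hsrc
  refine ⟨?_, ?_, ?_⟩
  · rintro rfl
    exact hs _ {y} hsrc
  · rintro rfl
    refine hs (Γ.vert e.h) {x} ?_
    rw [hsrc, pair_swap]
    rfl
  · rintro v ⟨rfl, rfl⟩
    refine hs v {Sum.inl (Γ.vert e.h)} ?_
    rw [hsrc]
    change Sum.inl (Γ.vert e.h) ::ₘ Sum.inl v ::ₘ Sum.inl v ::ₘ 0 =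
      Sum.inl v ::ₘ Sum.inl v ::ₘ Sum.inl (Γ.vert e.h) ::ₘ 0
    rw [Multiset.cons_swap, Multiset.cons_swap (Sum.inl (Γ.vert e.h))]

theorem msrc_state {h : Γ.H} {x y : Γ.Pos} (hv : Valid h x y) :
    Multiset.card (msrc h x y) = 3 ∧ ∀ v r, msrc h x y ≠ Sum.inl v ::ₘ Sum.inl v ::ₘ r := by
  classical
  refine ⟨by simp [msrc], ?_⟩
  intro v r heq
  obtain ⟨h1, h2, h3⟩ := hv
  have hc := congrArg (Multiset.count (Sum.inl v)) heq
  change Multiset.count (Sum.inl v) (Sum.inl (Γ.vert h) ::ₘ x ::ₘ y ::ₘ 0) = _ at hc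
  simp only [Multiset.count_cons, Multiset.count_zero] at hc
  split_ifs at hc <;> first
    | omega
    | (subst_vars; first
        | exact h1 rfl
        | exact h2 rfl
        | exact h3 v ⟨rfl, rfl⟩
        | simp_all)

theorem mtgt_state {h : Γ.H} {x y : Γ.Pos} (hv : Valid h x y) :
    Multiset.card (mtgt h x y) = 3 ∧ ∀ v r, mtgt h x y ≠ Sum.inl v ::ₘ Sum.inl v ::ₘ r := by
  classical
  refine ⟨by simp [mtgt], ?_⟩
  intro v r heq
  obtain ⟨h1, h2, h3⟩ := hv
  have hc := congrArg (Multiset.count (Sum.inl v)) heq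
  change Multiset.count (Sum.inl v) (Sum.inr (Γ.edge h) ::ₘ x ::ₘ y ::ₘ 0) = _ at hc
  simp only [Multiset.count_cons, Multiset.count_zero] at hc
  split_ifs at hc <;> first
    | omega
    | (subst_vars; first
        | exact h1 rfl
        | exact h2 rfl
        | exact h3 v ⟨rfl, rfl⟩)

/-- source state of a valid triple -/
def ssrc {h : Γ.H} {x y : Γ.Pos} (hv : Valid h x y) : Γ.State 3 := ⟨msrc h x y, msrc_state hv⟩
/-- target state of a valid triple -/
def stgt {h : Γ.H} {x y : Γ.Pos} (hv : Valid h x y) : Γ.State 3 := ⟨mtgt h x y, mtgt_state hv⟩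
/-- the move of a valid triple -/
def mv {h : Γ.H} {x y : Γ.Pos} (hv : Valid h x y) : ssrc hv ⟶ stgt hv :=
  { h := h, r := {x, y}, src := rfl, tgt := rfl }

theorem Move.ext' {n : ℕ} {s t : Γ.State n} {e e' : s ⟶ t} (h : e.h = e'.h) : e = e' := by
  obtain ⟨h1, r1, s1, t1⟩ := e
  obtain ⟨h2, r2, s2, t2⟩ := e'
  simp only at h
  subst h
  have : r1 = r2 := by
    rw [s1] at s2
    simpa using s2
  subst this
  rfl

/-! ### The value of a `Cocycle3` on a move -/

section onMove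

variable {X : Type} [Group X] (c : Cocycle3 Γ X)

/-- value on a multiset of card 2 -/
noncomputable def Cocycle3.onMove {s t : Γ.State 3} (e : s ⟶ t) : X :=
  c.φ e.h (exists_pair (move_card e)).choose (exists_pair (move_card e)).choose_spec.choose

theorem Cocycle3.pair_congr (h : Γ.H) {x y x' y' : Γ.Pos} (e : ({x, y} : Multiset Γ.Pos) = {x', y'}) :
    c.φ h x y = c.φ h x' y' := by
  rcases pair_eq e with ⟨h1, h2⟩ | ⟨h1, h2⟩
  · rw [← h1, ← h2]
  · rw [← h1, ← h2, c.symm]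

theorem Cocycle3.onMove_eq {s t : Γ.State 3} (e : s ⟶ t) {x y : Γ.Pos} (hr : e.r = {x, y}) :
    c.onMove e = c.φ e.h x y := by
  unfold Cocycle3.onMove
  exact c.pair_congr _ ((exists_pair (move_card e)).choose_spec.choose_spec.symm.trans hr)

theorem Cocycle3.onMove_sq {s a b t : Γ.State 3} (e₁ : s ⟶ a) (e₂ : a ⟶ t) (e₃ : s ⟶ b)
    (e₄ : b ⟶ t) (h₁ : e₁.h = e₄.h) (h₂ : e₂.h = e₃.h) :
    c.onMove e₁ * c.onMove e₂ = c.onMove e₃ * c.onMove e₄ := by
  have a1 := e₁.tgt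
  have a2 := e₂.src
  have s1 := e₁.src
  have s3 := e₃.src
  have b3 := e₃.tgt
  have b4 := e₄.src
  rw [a1] at a2
  rw [s1] at s3
  rw [b3] at b4
  -- `inl v' ∈ r₁`
  have hmem : (Sum.inl (Γ.vert e₂.h) : Γ.Pos) ∈ e₁.r := by
    have : (Sum.inl (Γ.vert e₂.h) : Γ.Pos) ∈ Sum.inr (Γ.edge e₁.h) ::ₘ e₁.r := by
      rw [a2]; simp
    simpa using this
  obtain ⟨r', hr'⟩ := Multiset.exists_cons_of_mem hmem
  have hc : Multiset.card r' = 1 := by
    have := move_card e₁
    rw [hr'] at this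
    simpa using this
  obtain ⟨z, rfl⟩ := Multiset.card_eq_one.1 hc
  have hr1 : e₁.r = {Sum.inl (Γ.vert e₂.h), z} := hr'
  have hv1 := move_valid e₁ hr1
  have hr2 : e₂.r = {Sum.inr (Γ.edge e₁.h), z} := by
    rw [hr', Multiset.cons_swap] at a2
    have := (Multiset.cons_inj_right _).1 a2
    exact this.symm
  have hr3 : e₃.r = {Sum.inl (Γ.vert e₁.h), z} := by
    rw [hr', Multiset.cons_swap, ← h₂] at s3
    have := (Multiset.cons_inj_right _).1 s3
    exact this.symm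
  have hr4 : e₄.r = {Sum.inr (Γ.edge e₂.h), z} := by
    rw [hr3] at b4
    change Sum.inr (Γ.edge e₃.h) ::ₘ Sum.inl (Γ.vert e₁.h) ::ₘ {z} = _ at b4
    rw [Multiset.cons_swap, ← h₁, ← h₂] at b4
    have := (Multiset.cons_inj_right _).1 b4
    exact this.symm
  rw [c.onMove_eq e₁ hr1, c.onMove_eq e₂ hr2, c.onMove_eq e₃ hr3, c.onMove_eq e₄ hr4, ← h₂, ← h₁]
  apply c.sq
  · intro h
    exact hv1.1 (by rw [h])
  · exact hv1.2.1
  · intro h
    exact hv1.2.2 (Γ.vert e₂.h) ⟨rfl, h⟩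

end onMove


/-! ### Tree paths -/

section tree

variable {s0 : Γ.State 3} (T : Tree3 Γ s0)

/-- `γ` is a path of tree moves from `s0` to `s`. -/
inductive TreePath : ∀ s : Γ.State 3, (pt s0 ⟶ pt s) → Prop
  | base : TreePath s0 (𝟙 _)
  | up {s t : Γ.State 3} (e : s ⟶ t) (x y : Γ.Pos) (hr : e.r = {x, y}) (hT : T.Tup e.h x y)
      (γ : pt s0 ⟶ pt s) : TreePath s γ → TreePath t (γ ≫ gen e)
  | dn {s t : Γ.State 3} (e : s ⟶ t) (x y : Γ.Pos) (hr : e.r = {x, y}) (hT : T.Tdn e.h x y)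
      (γ : pt s0 ⟶ pt t) : TreePath t γ → TreePath s (γ ≫ Groupoid.inv (gen e))

theorem exists_treePath (s : Γ.State 3) : ∃ γ, TreePath T s γ := by
  have h : ∀ M : Multiset Γ.Pos, Reach T.Tup T.Tdn s0.1 M → ∀ s : Γ.State 3, s.1 = M →
      ∃ γ, TreePath T s γ := by
    intro M hM
    induction hM with
    | base =>
      intro s hs
      obtain rfl : s = s0 := Subtype.ext hs
      exact ⟨_, TreePath.base⟩
    | up h x y hv hT _ ih =>
      intro s hs
      obtain rfl : s = stgt hv := Subtype.ext hs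
      obtain ⟨γ, hγ⟩ := ih (ssrc hv) rfl
      exact ⟨_, TreePath.up (mv hv) x y rfl hT γ hγ⟩
    | dn h x y hv hT _ ih =>
      intro s hs
      obtain rfl : s = ssrc hv := Subtype.ext hs
      obtain ⟨γ, hγ⟩ := ih (stgt hv) rfl
      exact ⟨_, TreePath.dn (mv hv) x y rfl hT γ hγ⟩
  exact h s.1 (T.reach s) s rfl

theorem move_tgt {s t : Γ.State 3} (e : s ⟶ t) {x y : Γ.Pos} (hr : e.r = {x, y}) :
    t.1 = mtgt e.h x y := by rw [e.tgt, hr]; rfl

theorem move_src {s t : Γ.State 3} (e : s ⟶ t) {x y : Γ.Pos} (hr : e.r = {x, y}) :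
    s.1 = msrc e.h x y := by rw [e.src, hr]; rfl

theorem move_eq_of_tgt {s s' t : Γ.State 3} (e : s ⟶ t) (e' : s' ⟶ t) {x y x' y' : Γ.Pos}
    (hr : e.r = {x, y}) (hr' : e'.r = {x', y'}) (h : e.h = e'.h)
    (hp : ({x, y} : Multiset Γ.Pos) = {x', y'}) : s = s' := by
  apply Subtype.ext
  rw [e.src, e'.src, hr, hr', h, hp]

theorem move_eq_of_src {s t t' : Γ.State 3} (e : s ⟶ t) (e' : s ⟶ t') {x y x' y' : Γ.Pos}
    (hr : e.r = {x, y}) (hr' : e'.r = {x', y'}) (h : e.h = e'.h)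
    (hp : ({x, y} : Multiset Γ.Pos) = {x', y'}) : t = t' := by
  apply Subtype.ext
  rw [e.tgt, e'.tgt, hr, hr', h, hp]

theorem treePath_unique {s : Γ.State 3} {γ : pt s0 ⟶ pt s} (h : TreePath T s γ) :
    ∀ γ', TreePath T s γ' → γ = γ' := by
  induction h with
  | base =>
    intro γ' h'
    cases h' with
    | base => rfl
    | up e x y hr hT γ hγ =>
      exact absurd (move_tgt e hr).symm (T.up_ne _ _ _ (move_valid e hr) hT)
    | dn e x y hr hT γ hγ =>
      exact absurd (move_src e hr).symm (T.dn_ne _ _ _ (move_valid e hr) hT)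
  | up e x y hr hT γ hγ ih =>
    intro γ' h'
    cases h' with
    | base => exact absurd (move_tgt e hr).symm (T.up_ne _ _ _ (move_valid e hr) hT)
    | up e' x' y' hr' hT' γ' hγ' =>
      obtain ⟨h1, h2⟩ := T.up_unique _ _ _ _ _ _ (move_valid e hr) (move_valid e' hr') hT hT'
        ((move_tgt e hr).symm.trans (move_tgt e' hr'))
      obtain rfl := move_eq_of_tgt e e' hr hr' h1 h2
      obtain rfl : e = e' := Move.ext' h1
      rw [ih γ' hγ']
    | dn e' x' y' hr' hT' γ' hγ' =>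
      exact absurd ((move_tgt e hr).symm.trans (move_src e' hr'))
        (T.up_dn _ _ _ _ _ _ (move_valid e hr) (move_valid e' hr') hT hT')
  | dn e x y hr hT γ hγ ih =>
    intro γ' h'
    cases h' with
    | base => exact absurd (move_src e hr).symm (T.dn_ne _ _ _ (move_valid e hr) hT)
    | up e' x' y' hr' hT' γ' hγ' =>
      exact absurd ((move_tgt e' hr').symm.trans (move_src e hr))
        (T.up_dn _ _ _ _ _ _ (move_valid e' hr') (move_valid e hr) hT' hT)
    | dn e' x' y' hr' hT' γ' hγ' =>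
      obtain ⟨h1, h2⟩ := T.dn_unique _ _ _ _ _ _ (move_valid e hr) (move_valid e' hr') hT hT'
        ((move_src e hr).symm.trans (move_src e' hr'))
      obtain rfl := move_eq_of_src e e' hr hr' h1 h2
      obtain rfl : e = e' := Move.ext' h1
      rw [ih γ' hγ']

/-- the tree path to `s` -/
noncomputable def tp (s : Γ.State 3) : pt s0 ⟶ pt s := (exists_treePath T s).choose

theorem tp_spec (s : Γ.State 3) : TreePath T s (tp T s) := (exists_treePath T s).choose_spec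

/-- the loop of a move -/
noncomputable def loopOf {s t : Γ.State 3} (e : s ⟶ t) : Braid s0 :=
  tp T s ≫ gen e ≫ Groupoid.inv (tp T t)

theorem loopOf_congr {s t s' t' : Γ.State 3} (e : s ⟶ t) (e' : s' ⟶ t') (hs : s = s')
    (ht : t = t') (h : e.h = e'.h) : loopOf T e = loopOf T e' := by
  subst hs ht
  rw [Move.ext' h]

theorem loopOf_mul {s t u : Γ.State 3} (e : s ⟶ t) (e' : t ⟶ u) :
    loopOf T e * loopOf T e' = tp T s ≫ (gen e ≫ gen e') ≫ Groupoid.inv (tp T u) := by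
  change loopOf T e ≫ loopOf T e' = _
  unfold loopOf
  simp only [Category.assoc, Groupoid.inv_comp, Category.comp_id]
  rw [← Category.assoc (Groupoid.inv (tp T t)) (tp T t), Groupoid.inv_comp, Category.id_comp]

open Classical in
/-- the universal cocycle -/
noncomputable def univφ (h : Γ.H) (x y : Γ.Pos) : Braid s0 :=
  if hv : Valid h x y then loopOf T (mv hv) else 1

theorem univφ_eq {s t : Γ.State 3} (e : s ⟶ t) {x y : Γ.Pos} (hr : e.r = {x, y}) :
    univφ T e.h x y = loopOf T e := by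
  unfold univφ
  rw [dif_pos (move_valid e hr)]
  apply loopOf_congr
  · exact Subtype.ext (move_src e hr).symm
  · exact Subtype.ext (move_tgt e hr).symm
  · rfl

theorem univφ_symm (h : Γ.H) (x y : Γ.Pos) : univφ T h x y = univφ T h y x := by
  by_cases hv : Valid h x y
  · have := univφ_eq T (mv hv) (x := y) (y := x) (pair_swap x y)
    have h2 := univφ_eq T (mv hv) (x := x) (y := y) rfl
    change univφ T h y x = _ at this
    change univφ T h x y = _ at h2
    rw [this, h2]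
  · have hv' : ¬ Valid h y x := fun h' => hv h'.symm
    unfold univφ
    rw [dif_neg hv, dif_neg hv']

theorem valid_hub {h h' : Γ.H} {z : Γ.Pos} (hne : Γ.vert h ≠ Γ.vert h')
    (h1 : z ≠ Sum.inl (Γ.vert h)) (h2 : z ≠ Sum.inl (Γ.vert h')) :
    Valid h (Sum.inl (Γ.vert h')) z :=
  ⟨fun h => hne (Sum.inl.inj h).symm, h1, fun v hv => h2 (hv.2.trans hv.1.symm)⟩

theorem valid_edge {h h' : Γ.H} {z : Γ.Pos} (h2 : z ≠ Sum.inl (Γ.vert h')) :
    Valid h' (Sum.inr (Γ.edge h)) z :=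
  ⟨fun h => by simp at h, h2, fun v hv => by simp at hv⟩

theorem univφ_sq (h h' : Γ.H) (z : Γ.Pos) (hne : Γ.vert h ≠ Γ.vert h')
    (h1 : z ≠ Sum.inl (Γ.vert h)) (h2 : z ≠ Sum.inl (Γ.vert h')) :
    univφ T h (Sum.inl (Γ.vert h')) z * univφ T h' (Sum.inr (Γ.edge h)) z =
      univφ T h' (Sum.inl (Γ.vert h)) z * univφ T h (Sum.inr (Γ.edge h')) z := by
  have v1 := valid_hub hne h1 h2
  have v2 : Valid h' (Sum.inr (Γ.edge h)) z := valid_edge h2
  have v3 := valid_hub (Ne.symm hne) h2 h1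
  have v4 : Valid h (Sum.inr (Γ.edge h')) z := valid_edge h1
  let e₁ : ssrc v1 ⟶ stgt v1 := mv v1
  let e₂ : stgt v1 ⟶ stgt v2 :=
    { h := h', r := {Sum.inr (Γ.edge h), z}
      src := by
        change Sum.inr (Γ.edge h) ::ₘ Sum.inl (Γ.vert h') ::ₘ {z} = Sum.inl (Γ.vert h') ::ₘ
          Sum.inr (Γ.edge h) ::ₘ {z}
        rw [Multiset.cons_swap]
      tgt := rfl }
  let e₃ : ssrc v1 ⟶ stgt v3 :=
    { h := h', r := {Sum.inl (Γ.vert h), z}
      src := by
        change Sum.inl (Γ.vert h) ::ₘ Sum.inl (Γ.vert h') ::ₘ {z} = Sum.inl (Γ.vert h') ::ₘ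
          Sum.inl (Γ.vert h) ::ₘ {z}
        rw [Multiset.cons_swap]
      tgt := rfl }
  let e₄ : stgt v3 ⟶ stgt v2 :=
    { h := h, r := {Sum.inr (Γ.edge h'), z}
      src := by
        change Sum.inr (Γ.edge h') ::ₘ Sum.inl (Γ.vert h) ::ₘ {z} = Sum.inl (Γ.vert h) ::ₘ
          Sum.inr (Γ.edge h') ::ₘ {z}
        rw [Multiset.cons_swap]
      tgt := by
        change Sum.inr (Γ.edge h') ::ₘ Sum.inr (Γ.edge h) ::ₘ {z} = Sum.inr (Γ.edge h) ::ₘ
          Sum.inr (Γ.edge h') ::ₘ {z}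
        rw [Multiset.cons_swap] }
  have w1 : univφ T h (Sum.inl (Γ.vert h')) z = loopOf T e₁ := univφ_eq T e₁ rfl
  have w2 : univφ T h' (Sum.inr (Γ.edge h)) z = loopOf T e₂ := univφ_eq T e₂ rfl
  have w3 : univφ T h' (Sum.inl (Γ.vert h)) z = loopOf T e₃ := univφ_eq T e₃ rfl
  have w4 : univφ T h (Sum.inr (Γ.edge h')) z = loopOf T e₄ := univφ_eq T e₄ rfl
  rw [w1, w2, w3, w4, loopOf_mul, loopOf_mul, gen_sq e₁ e₂ e₃ e₄ rfl rfl]

theorem loopOf_tree {s t : Γ.State 3} (e : s ⟶ t) {x y : Γ.Pos} (hr : e.r = {x, y})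
    (hT : T.Tr e.h x y) : loopOf T e = 1 := by
  unfold loopOf
  rcases hT with hT | hT
  · have := treePath_unique T (TreePath.up e x y hr hT _ (tp_spec T s)) _ (tp_spec T t)
    rw [← this]
    change _ = 𝟙 _
    rw [← Category.assoc, Groupoid.comp_inv]
  · have := treePath_unique T (TreePath.dn e x y hr hT _ (tp_spec T t)) _ (tp_spec T s)
    rw [← this]
    change _ = 𝟙 _
    simp only [Category.assoc]
    rw [← Category.assoc (Groupoid.inv (gen e)) (gen e), Groupoid.inv_comp, Category.id_comp,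
      Groupoid.comp_inv]

theorem ev_tree {X : Type} [Group X] (c : Cocycle3 Γ X) (hc : c.IsNorm T.Tr)
    {s : Γ.State 3} {γ : pt s0 ⟶ pt s} (h : TreePath T s γ) :
    ev (fun e => c.onMove e) (fun e₁ e₂ e₃ e₄ h₁ h₂ => c.onMove_sq e₁ e₂ e₃ e₄ h₁ h₂) γ = 1 := by
  induction h with
  | base => exact ev_id _ _ _
  | up e x y hr hT γ _ ih =>
    rw [ev_comp, ih, ev_gen, one_mul, c.onMove_eq e hr]
    exact hc _ _ _ (move_valid e hr) (Or.inl hT)
  | dn e x y hr hT γ _ ih =>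
    rw [ev_comp, ih, ev_inv, ev_gen, one_mul, c.onMove_eq e hr,
      hc _ _ _ (move_valid e hr) (Or.inr hT), inv_one]

end tree

/-- **PB-9** -/
theorem GT3 {Γ : HGraph} {s0 : Γ.State 3} (T : Tree3 Γ s0) :
    Nonempty (UnivCocycle Γ T.Tr (Braid s0)) := by
  refine ⟨{ κ := ⟨univφ T, univφ_symm T, univφ_sq T⟩, norm := ?_, univ := ?_, gen := ?_ }⟩
  · intro h x y hv hT
    change univφ T h x y = 1
    have h2 := univφ_eq T (mv hv) (x := x) (y := y) rfl
    change univφ T h x y = _ at h2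
    rw [h2]
    exact loopOf_tree T (mv hv) rfl hT
  · intro X _ c hc
    refine ⟨evHom (fun e => c.onMove e) (fun e₁ e₂ e₃ e₄ h₁ h₂ => c.onMove_sq e₁ e₂ e₃ e₄ h₁ h₂) s0,
      ?_⟩
    intro h x y hv
    change ev _ _ (univφ T h x y) = _
    have h2 := univφ_eq T (mv hv) (x := x) (y := y) rfl
    change univφ T h x y = _ at h2
    rw [h2]
    unfold loopOf
    rw [ev_comp, ev_comp, ev_inv, ev_tree T c hc (tp_spec T _), ev_tree T c hc (tp_spec T _),
      one_mul, inv_one, mul_one, ev_gen, c.onMove_eq (mv hv) rfl]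
    rfl
  · rw [eq_top_iff]
    intro f _
    set N := Subgroup.closure {g | ∃ h x y, Valid h x y ∧ g = univφ T h x y} with hN
    have hloop : ∀ {s t : Γ.State 3} (e : s ⟶ t), loopOf T e ∈ N := by
      intro s t e
      obtain ⟨x, y, hr⟩ := exists_pair (move_card e)
      rw [← univφ_eq T e hr]
      exact Subgroup.subset_closure ⟨_, _, _, move_valid e hr, rfl⟩
    have key : ∀ (t : Γ.State 3) (f : pt s0 ⟶ pt t), (f ≫ Groupoid.inv (tp T t) : Braid s0) ∈ N := by
      apply ind_from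
      · have : tp T s0 = 𝟙 _ := treePath_unique T (tp_spec T s0) _ TreePath.base
        rw [this]
        have : (𝟙 (pt s0) ≫ Groupoid.inv (𝟙 (pt s0)) : Braid s0) = 1 := by
          rw [Groupoid.comp_inv]; rfl
        rw [this]
        exact N.one_mem
      · intro t u f e ih
        have : (f ≫ gen e) ≫ Groupoid.inv (tp T u) =
            (f ≫ Groupoid.inv (tp T t) : Braid s0) * loopOf T e := by
          change _ = (f ≫ Groupoid.inv (tp T t)) ≫ loopOf T e
          unfold loopOf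
          simp only [Category.assoc]
          rw [← Category.assoc (Groupoid.inv (tp T t)) (tp T t), Groupoid.inv_comp,
            Category.id_comp]
        rw [this]
        exact N.mul_mem ih (hloop e)
      · intro t u f e ih
        have : (f ≫ Groupoid.inv (gen e)) ≫ Groupoid.inv (tp T t) =
            (f ≫ Groupoid.inv (tp T u) : Braid s0) * (loopOf T e)⁻¹ := by
          rw [eq_mul_inv_iff_mul_eq]
          change ((f ≫ Groupoid.inv (gen e)) ≫ Groupoid.inv (tp T t)) ≫ loopOf T e = _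
          unfold loopOf
          simp only [Category.assoc]
          rw [← Category.assoc (Groupoid.inv (tp T t)) (tp T t), Groupoid.inv_comp,
            Category.id_comp, ← Category.assoc (Groupoid.inv (gen e)) (gen e), Groupoid.inv_comp,
            Category.id_comp]
        rw [this]
        exact N.mul_mem ih (N.inv_mem (hloop e))
    have h1 := key s0 f
    have : tp T s0 = 𝟙 _ := treePath_unique T (tp_spec T s0) _ TreePath.base
    rw [this] at h1
    have h2 : (f ≫ Groupoid.inv (𝟙 (pt s0)) : Braid s0) = f := by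
      have : Groupoid.inv (𝟙 (pt s0)) = 𝟙 _ := by
        have := Groupoid.inv_comp (𝟙 (pt s0))
        rwa [Category.comp_id] at this
      rw [this, Category.comp_id]
    rw [h2] at h1
    exact h1

theorem braid_base {Γ : HGraph} {s0 : Γ.State 3} (T : Tree3 Γ s0) (s : Γ.State 3) :
    Nonempty (Braid s ≃* Braid s0) :=
  ⟨(Groupoid.vertexGroupIsomOfMap (tp T s)).symm⟩

end Pool.Agent.Helper29.PB
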