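import Pool.Agent.Helper29.PB.GDefs
namespace Pool.Agent.Helper29.PB

/-!
PB-4: closed orientable surface groups are one-ended.

The boundary of an almost invariant set, read as a chain of faces of the Cayley complex, is a finite
cycle of the Cayley graph; it bounds a finite chain of faces because the Cayley complex is simply
connected (duality over `ZMod 2` and the covering associated with a cocycle), and a chain of faces
without boundary is everything or nothing.
-/

section genus

variable {g : ℕ}

/-- the letters -/
private def ll (s : Fin g × Bool) : OrientableSurfaceGroup g := PresentedGroup.of s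

/-- the commutators -/
private def cm (i : Fin g) : OrientableSurfaceGroup g :=
  ll (i, false) * ll (i, true) * (ll (i, false))⁻¹ * (ll (i, true))⁻¹

/-- the prefixes of the relator -/
private def rr (j : Fin (g + 1)) : OrientableSurfaceGroup g := Fin.partialProd cm j

private theorem partialProd_last {M : Type*} [Monoid M] (f : Fin g → M) :
    Fin.partialProd f (Fin.last g) = (List.ofFn f).prod := by
  unfold Fin.partialProd
  rw [List.take_of_length_le]
  simp

private theorem partialSum_last {M : Type*} [AddCommMonoid M] (f : Fin g → M) :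
    Fin.partialSum f (Fin.last g) = ∑ i, f i := by
  unfold Fin.partialSum
  rw [List.take_of_length_le]
  · exact List.sum_ofFn
  · simp

private theorem rr_zero : rr (0 : Fin (g + 1)) = 1 := Fin.partialProd_zero _

private theorem rr_succ (i : Fin g) : rr i.succ = rr i.castSucc * cm i :=
  Fin.partialProd_succ _ _

private theorem rr_last : rr (Fin.last g) = 1 := by
  unfold rr
  rw [partialProd_last]
  have h := PresentedGroup.one_of_mem (rels := {orientableRelator g}) (Set.mem_singleton _)
  rw [orientableRelator, map_list_prod, List.map_ofFn] at h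
  exact h

/-- first occurrence of a letter -/
private def e1 : Fin g × Bool → OrientableSurfaceGroup g
  | (i, false) => rr i.castSucc
  | (i, true) => rr i.castSucc * ll (i, false)

/-- second occurrence of a letter -/
private def e2 : Fin g × Bool → OrientableSurfaceGroup g
  | (i, false) => rr i.castSucc * ll (i, false) * ll (i, true) * (ll (i, false))⁻¹
  | (i, true) => rr i.succ

/-- the covering associated with `u`: the permutation of a letter -/
private def pm (u : OrientableSurfaceGroup g → Fin g × Bool → ZMod 2) (s : Fin g × Bool) :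
    Equiv.Perm (OrientableSurfaceGroup g × ZMod 2) where
  toFun y := (y.1 * ll s, y.2 + u y.1 s)
  invFun y := (y.1 * (ll s)⁻¹, y.2 - u (y.1 * (ll s)⁻¹) s)
  left_inv y := by simp
  right_inv y := by simp

private theorem pm_apply (u : OrientableSurfaceGroup g → Fin g × Bool → ZMod 2)
    (s : Fin g × Bool) (y : OrientableSurfaceGroup g) (t : ZMod 2) :
    pm u s (y, t) = (y * ll s, t + u y s) := rfl

private theorem pm_inv_apply (u : OrientableSurfaceGroup g → Fin g × Bool → ZMod 2)
    (s : Fin g × Bool) (y : OrientableSurfaceGroup g) (t : ZMod 2) :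
    (pm u s)⁻¹ (y, t) = (y * (ll s)⁻¹, t - u (y * (ll s)⁻¹) s) := rfl

open MulOpposite in
private theorem exists_prim (u : OrientableSurfaceGroup g → Fin g × Bool → ZMod 2)
    (hu : ∀ x, ∑ s, (u (x * e1 s) s + u (x * e2 s) s) = 0) :
    ∃ P : OrientableSurfaceGroup g → ZMod 2, ∀ h s, P (h * ll s) = P h + u h s := by
  have hrel : ∀ r ∈ ({orientableRelator g} : Set (FreeGroup (Fin g × Bool))),
      FreeGroup.lift (fun s => op (pm u s)) r = 1 := by
    intro r hr
    rw [Set.mem_singleton_iff] at hr
    subst hr
    rw [orientableRelator, map_list_prod, List.map_ofFn, ← partialProd_last]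
    apply MulOpposite.unop_injective
    apply Equiv.ext
    rintro ⟨x, t⟩
    set D : Fin g → OrientableSurfaceGroup g → ZMod 2 := fun i y =>
      u y (i, false) + u (y * ll (i, false)) (i, true) -
        u (y * ll (i, false) * ll (i, true) * (ll (i, false))⁻¹) (i, false) -
        u (y * cm i) (i, true) with hD
    have key : ∀ j : Fin (g + 1), (Fin.partialProd
        ((FreeGroup.lift fun s => op (pm u s)) ∘ fun i : Fin g => FreeGroup.of (i, false) *
          FreeGroup.of (i, true) * (FreeGroup.of (i, false))⁻¹ * (FreeGroup.of (i, true))⁻¹)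
        j).unop (x, t) =
        (x * rr j, t + Fin.partialSum (fun i => D i (x * rr i.castSucc)) j) := by
      intro j
      induction j using Fin.induction with
      | zero => simp [rr_zero]
      | succ i ih =>
        rw [Fin.partialProd_succ, MulOpposite.unop_mul, Equiv.Perm.mul_apply, ih,
          Fin.partialSum_succ, rr_succ]
        simp only [Function.comp_apply, map_mul, map_inv, FreeGroup.lift_apply_of,
          MulOpposite.unop_mul, MulOpposite.unop_inv, MulOpposite.unop_op, Equiv.Perm.mul_apply,
          pm_apply, pm_inv_apply]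
        refine Prod.ext ?_ ?_
        · simp only [cm, mul_assoc]
        · simp only [hD, cm, mul_assoc]
          ring
    rw [key, partialSum_last, rr_last, mul_one]
    have h1 : ∑ i : Fin g, D i (x * rr i.castSucc) = 0 := by
      rw [← hu x, Fintype.sum_prod_type]
      refine Finset.sum_congr rfl fun i _ => ?_
      rw [Fintype.sum_bool]
      simp only [hD, e1, e2, rr_succ, CharTwo.sub_eq_add]
      simp only [mul_assoc]
      ring
    rw [h1, add_zero]
    rfl
  set Ψ : OrientableSurfaceGroup g →* (Equiv.Perm (OrientableSurfaceGroup g × ZMod 2))ᵐᵒᵖ :=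
    PresentedGroup.toGroup hrel with hΨ
  have hΨof : ∀ s, Ψ (ll s) = op (pm u s) := fun s => PresentedGroup.toGroup.of hrel
  have hfst : ∀ h : OrientableSurfaceGroup g, ∀ y t, ((Ψ h).unop (y, t)).1 = y * h := by
    intro h
    let S : Subgroup (OrientableSurfaceGroup g) :=
      { carrier := {h | ∀ y t, ((Ψ h).unop (y, t)).1 = y * h}
        mul_mem' := by
          intro a b ha hb y t
          rw [map_mul, MulOpposite.unop_mul, Equiv.Perm.mul_apply, ← mul_assoc, ← ha y t]
          exact hb _ _
        one_mem' := by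
          intro y t
          simp
        inv_mem' := by
          intro a ha y t
          rw [map_inv, MulOpposite.unop_inv]
          have h1 := ha (((Ψ a).unop⁻¹ (y, t)).1) (((Ψ a).unop⁻¹ (y, t)).2)
          rw [Prod.mk.eta, ← Equiv.Perm.mul_apply, mul_inv_cancel, Equiv.Perm.one_apply] at h1
          exact eq_mul_inv_of_mul_eq h1.symm }
    have := PresentedGroup.generated_by {orientableRelator g} S (fun s y t => by
      have h1 := hΨof s
      unfold ll at h1
      rw [h1, MulOpposite.unop_op, pm_apply]
      rfl) h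
    exact this
  refine ⟨fun h => ((Ψ h).unop (1, 0)).2, fun h s => ?_⟩
  have h1 : (Ψ (h * ll s)).unop (1, 0) = pm u s ((Ψ h).unop (1, 0)) := by
    rw [map_mul, MulOpposite.unop_mul, Equiv.Perm.mul_apply, hΨof, MulOpposite.unop_op]
  have h2 := hfst h 1 0
  rw [one_mul] at h2
  change ((Ψ (h * ll s)).unop (1, 0)).2 = _
  rw [h1]
  change ((Ψ h).unop (1, 0)).2 + u ((Ψ h).unop (1, 0)).1 s = _
  rw [h2]

open Classical in
/-- the boundary of a chain of faces -/
private noncomputable def bd : (OrientableSurfaceGroup g →₀ ZMod 2) →ₗ[ZMod 2]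
    (OrientableSurfaceGroup g × (Fin g × Bool) →₀ ZMod 2) :=
  Finsupp.linearCombination (ZMod 2) fun x =>
    ∑ s, (Finsupp.single (x * e1 s, s) 1 + Finsupp.single (x * e2 s, s) 1)

private theorem bd_single (x : OrientableSurfaceGroup g) (t : ZMod 2) :
    bd (Finsupp.single x t) =
      t • ∑ s, (Finsupp.single (x * e1 s, s) 1 + Finsupp.single (x * e2 s, s) 1) :=
  Finsupp.linearCombination_single _ _ _

private theorem bd_apply (l : OrientableSurfaceGroup g →₀ ZMod 2) (h : OrientableSurfaceGroup g)
    (s : Fin g × Bool) : bd l (h, s) = l (h * (e1 s)⁻¹) + l (h * (e2 s)⁻¹) := by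
  classical
  induction l using Finsupp.induction_linear with
  | zero => simp
  | add a b ha hb =>
    rw [map_add, Finsupp.add_apply, ha, hb, Finsupp.add_apply, Finsupp.add_apply]
    ring
  | single x t =>
    rw [bd_single, Finsupp.smul_apply, Finsupp.finsetSum_apply, Finset.sum_eq_single s]
    · rw [Finsupp.add_apply, Finsupp.single_apply, Finsupp.single_apply, Finsupp.single_apply,
        Finsupp.single_apply]
      have h1 : ((x * e1 s, s) = (h, s)) ↔ x = h * (e1 s)⁻¹ := by
        rw [Prod.mk.injEq, eq_mul_inv_iff_mul_eq]; simp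
      have h2 : ((x * e2 s, s) = (h, s)) ↔ x = h * (e2 s)⁻¹ := by
        rw [Prod.mk.injEq, eq_mul_inv_iff_mul_eq]; simp
      simp only [h1, h2, smul_eq_mul, mul_add, mul_ite, mul_one, mul_zero]
    · intro b _ hb
      rw [Finsupp.add_apply, Finsupp.single_apply, Finsupp.single_apply, if_neg, if_neg, add_zero]
      · intro h; exact hb (Prod.mk.injEq .. ▸ h).2
      · intro h; exact hb (Prod.mk.injEq .. ▸ h).2
    · intro h; exact absurd (Finset.mem_univ _) h

/-- the boundary of a chain of edges -/
private noncomputable def dd : (OrientableSurfaceGroup g × (Fin g × Bool) →₀ ZMod 2) →ₗ[ZMod 2]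
    (OrientableSurfaceGroup g →₀ ZMod 2) :=
  Finsupp.linearCombination (ZMod 2) fun y =>
    Finsupp.single (y.1 * ll y.2) 1 + Finsupp.single y.1 1

private theorem dd_apply (c : OrientableSurfaceGroup g × (Fin g × Bool) →₀ ZMod 2)
    (v : OrientableSurfaceGroup g) : dd c v = ∑ s, (c (v, s) + c (v * (ll s)⁻¹, s)) := by
  classical
  induction c using Finsupp.induction_linear with
  | zero => simp
  | add a b ha hb =>
    rw [map_add, Finsupp.add_apply, ha, hb, ← Finset.sum_add_distrib]
    refine Finset.sum_congr rfl fun s _ => ?_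
    rw [Finsupp.add_apply, Finsupp.add_apply]
    ring
  | single x t =>
    obtain ⟨h, s⟩ := x
    unfold dd
    rw [Finsupp.linearCombination_single, Finset.sum_eq_single s]
    · rw [Finsupp.smul_apply, Finsupp.add_apply, Finsupp.single_apply, Finsupp.single_apply,
        Finsupp.single_apply, Finsupp.single_apply]
      have h1 : ((h, s) = (v, s)) ↔ h = v := by simp
      have h2 : ((h, s) = (v * (ll s)⁻¹, s)) ↔ h * ll s = v := by
        rw [Prod.mk.injEq, eq_mul_inv_iff_mul_eq]; simp
      simp only [h1, h2, smul_eq_mul, mul_add, mul_ite, mul_one, mul_zero]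
      ring
    · intro b _ hb
      rw [Finsupp.single_apply, Finsupp.single_apply, if_neg, if_neg, add_zero]
      · intro h; exact hb (Prod.mk.injEq .. ▸ h).2.symm
      · intro h; exact hb (Prod.mk.injEq .. ▸ h).2.symm
    · intro h; exact absurd (Finset.mem_univ _) h

private theorem cycle_mem (c : OrientableSurfaceGroup g × (Fin g × Bool) →₀ ZMod 2)
    (hc : dd c = 0) : ∃ l, bd l = c := by
  by_contra hcon
  have hnot : c ∉ LinearMap.range (bd (g := g)) := hcon
  obtain ⟨φ, hφc, hφ⟩ := Submodule.exists_le_ker_of_notMem hnot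
  obtain ⟨P, hP⟩ := exists_prim (fun h s => φ (Finsupp.single (h, s) 1)) (by
    intro x
    have h1 : bd (Finsupp.single x 1) ∈ LinearMap.ker φ := hφ ⟨_, rfl⟩
    rw [LinearMap.mem_ker, bd_single, one_smul, map_sum] at h1
    rw [← h1]
    refine Finset.sum_congr rfl fun s _ => ?_
    rw [map_add])
  apply hφc
  have h2 : φ = (Finsupp.linearCombination (ZMod 2) P) ∘ₗ dd := by
    apply Finsupp.lhom_ext'
    rintro ⟨h, s⟩
    apply LinearMap.ext_ring
    simp only [LinearMap.comp_apply, Finsupp.lsingle_apply, dd, Finsupp.linearCombination_single,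
      one_smul, map_add, smul_eq_mul, one_mul]
    rw [hP]
    have : P h + P h = 0 := CharTwo.add_self_eq_zero _
    linear_combination -this
  rw [h2, LinearMap.comp_apply, hc, map_zero]

private theorem telescope {n : ℕ} (ψ : Fin (n + 1) → ZMod 2) :
    ∑ i : Fin n, (ψ i.castSucc + ψ i.succ) = ψ 0 + ψ (Fin.last n) := by
  induction n with
  | zero =>
    simp only [Finset.univ_eq_empty, Finset.sum_empty]
    exact (CharTwo.add_self_eq_zero _).symm
  | succ n ih =>
    rw [Fin.sum_univ_castSucc]
    have h := ih (fun i => ψ i.castSucc)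
    simp only [Fin.succ_castSucc] at h ⊢
    rw [h]
    simp only [Fin.succ_last, Fin.castSucc_zero]
    have := CharTwo.add_self_eq_zero (ψ (Fin.last n).castSucc)
    linear_combination this

/-- The boundary of any function on the faces is a cycle. -/
private theorem cycle_fun (f : OrientableSurfaceGroup g → ZMod 2) (v : OrientableSurfaceGroup g) :
    ∑ s : Fin g × Bool, ((f (v * (e1 s)⁻¹) + f (v * (e2 s)⁻¹)) +
      (f (v * (ll s)⁻¹ * (e1 s)⁻¹) + f (v * (ll s)⁻¹ * (e2 s)⁻¹))) = 0 := by
  rw [Fintype.sum_prod_type]
  have h1 : ∀ i : Fin g, ∑ b : Bool, ((f (v * (e1 (i, b))⁻¹) + f (v * (e2 (i, b))⁻¹)) +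
      (f (v * (ll (i, b))⁻¹ * (e1 (i, b))⁻¹) + f (v * (ll (i, b))⁻¹ * (e2 (i, b))⁻¹))) =
      f (v * (rr i.castSucc)⁻¹) + f (v * (rr i.succ)⁻¹) := by
    intro i
    rw [Fintype.sum_bool]
    have a1 : v * (ll (i, false))⁻¹ * (e1 (i, false))⁻¹ = v * (e1 (i, true))⁻¹ := by
      simp only [e1, mul_inv_rev, mul_assoc]
    have a2 : v * (ll (i, false))⁻¹ * (e2 (i, false))⁻¹ =
        v * (ll (i, true))⁻¹ * (e1 (i, true))⁻¹ := by
      simp only [e1, e2]
      group
    have a3 : v * (ll (i, true))⁻¹ * (e2 (i, true))⁻¹ = v * (e2 (i, false))⁻¹ := by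
      simp only [e2, rr_succ, cm]
      group
    rw [a1, a2, a3]
    have b1 : e1 (i, false) = rr i.castSucc := rfl
    have b2 : e2 (i, true) = rr i.succ := rfl
    rw [b1, b2]
    have c1 := CharTwo.add_self_eq_zero (f (v * (e1 (i, true))⁻¹))
    have c2 := CharTwo.add_self_eq_zero (f (v * (e2 (i, false))⁻¹))
    have c3 := CharTwo.add_self_eq_zero (f (v * (ll (i, true))⁻¹ * (e1 (i, true))⁻¹))
    linear_combination c1 + c2 + c3
  rw [Finset.sum_congr rfl fun i _ => h1 i, telescope (fun j => f (v * (rr j)⁻¹)), rr_zero, rr_last]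
  exact CharTwo.add_self_eq_zero _

/-- A function with zero boundary is constant. -/
private theorem const_of_bd (f : OrientableSurfaceGroup g → ZMod 2)
    (hf : ∀ h s, f (h * (e1 s)⁻¹) = f (h * (e2 s)⁻¹)) (h : OrientableSurfaceGroup g) :
    f h = f 1 := by
  let S : Subgroup (OrientableSurfaceGroup g) :=
    { carrier := {x | ∀ h, f (h * x) = f h}
      mul_mem' := by
        intro a b ha hb h
        rw [← mul_assoc, hb, ha]
      one_mem' := by
        intro h
        rw [mul_one]
      inv_mem' := by
        intro a ha h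
        have := ha (h * a⁻¹)
        rw [inv_mul_cancel_right] at this
        exact this.symm }
  have hS : ∀ s, e1 s * (e2 s)⁻¹ ∈ S := by
    intro s h
    have := hf (h * e1 s) s
    rw [mul_inv_cancel_right, mul_assoc] at this
    exact this.symm
  have hstep : ∀ i : Fin g, rr i.castSucc ∈ S → ll (i, false) ∈ S ∧ ll (i, true) ∈ S := by
    intro i hi
    have h1 := hS (i, false)
    have h2 := hS (i, true)
    set a := ll (i, false) with ha
    set b := ll (i, true) with hb
    have t1 : a * b * a⁻¹ ∈ S := by
      have h3 := S.inv_mem (S.mul_mem (S.mul_mem (S.inv_mem hi) h1) hi)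
      have h4 : ((rr i.castSucc)⁻¹ * (e1 (i, false) * (e2 (i, false))⁻¹) * rr i.castSucc)⁻¹ =
          a * b * a⁻¹ := by
        simp only [e1, e2, ← ha, ← hb]
        group
      rw [h4] at h3
      exact h3
    have t2 : a * b * a * b⁻¹ * a⁻¹ ∈ S := by
      have h3 := S.mul_mem (S.mul_mem (S.inv_mem hi) h2) hi
      have h4 : (rr i.castSucc)⁻¹ * (e1 (i, true) * (e2 (i, true))⁻¹) * rr i.castSucc =
          a * b * a * b⁻¹ * a⁻¹ := by
        simp only [e1, e2, rr_succ, cm, ← ha, ← hb]
        group
      rw [h4] at h3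
      exact h3
    have t3 : a ∈ S := by
      have h3 := S.mul_mem (S.mul_mem (S.inv_mem t1) t2) t1
      have h4 : (a * b * a⁻¹)⁻¹ * (a * b * a * b⁻¹ * a⁻¹) * (a * b * a⁻¹) = a := by group
      rw [h4] at h3
      exact h3
    have t4 : b ∈ S := by
      have h3 := S.mul_mem (S.mul_mem (S.inv_mem t3) t1) t3
      have h4 : a⁻¹ * (a * b * a⁻¹) * a = b := by group
      rw [h4] at h3
      exact h3
    exact ⟨t3, t4⟩
  have hr : ∀ j : Fin (g + 1), rr j ∈ S := by
    intro j
    induction j using Fin.induction with
    | zero => rw [rr_zero]; exact S.one_mem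
    | succ i ih =>
      obtain ⟨h1, h2⟩ := hstep i ih
      rw [rr_succ]
      exact S.mul_mem ih (S.mul_mem (S.mul_mem (S.mul_mem h1 h2) (S.inv_mem h1)) (S.inv_mem h2))
  have hall := PresentedGroup.generated_by {orientableRelator g} S (fun s => by
    obtain ⟨i, b⟩ := s
    cases b
    · exact (hstep i (hr _)).1
    · exact (hstep i (hr _)).2) h
  have := hall 1
  rw [one_mul] at this
  exact this

private theorem infinite_orientable (hg : 1 ≤ g) : Infinite (OrientableSurfaceGroup g) := by
  classical
  let i0 : Fin g := ⟨0, hg⟩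
  let F : Fin g × Bool → Multiplicative ℤ := fun s =>
    if s = (i0, false) then Multiplicative.ofAdd 1 else 1
  have hrel : ∀ r ∈ ({orientableRelator g} : Set (FreeGroup (Fin g × Bool))),
      FreeGroup.lift F r = 1 := by
    intro r hr
    rw [Set.mem_singleton_iff] at hr
    subst hr
    rw [orientableRelator, map_list_prod, List.map_ofFn]
    apply List.prod_eq_one
    intro x hx
    rw [List.mem_ofFn] at hx
    obtain ⟨i, rfl⟩ := hx
    simp only [Function.comp_apply, map_mul, map_inv, FreeGroup.lift_apply_of]
    rw [mul_comm (F (i, false)), mul_inv_cancel_right, mul_inv_cancel]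
  have hsurj : Function.Surjective (PresentedGroup.toGroup hrel) := by
    intro x
    refine ⟨(ll (i0, false)) ^ x.toAdd, ?_⟩
    rw [map_zpow]
    have : PresentedGroup.toGroup hrel (ll (i0, false)) = Multiplicative.ofAdd 1 := by
      unfold ll
      rw [PresentedGroup.toGroup.of]
      simp [F]
    rw [this, ← ofAdd_zsmul]
    simp
  exact Infinite.of_surjective _ hsurj

private theorem finite_or (A : Set (OrientableSurfaceGroup g)) (hA : AlmostInvariant A) :
    A.Finite ∨ Aᶜ.Finite := by
  classical
  let f : OrientableSurfaceGroup g → ZMod 2 := fun x => if x ∈ A then 1 else 0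
  have hfin : ∀ y : OrientableSurfaceGroup g, {x | f x ≠ f (x * y)}.Finite := by
    intro y
    refine (hA y⁻¹).subset ?_
    intro x hx
    rw [Set.mem_symmDiff]
    have hmem : x ∈ (fun x => x * y⁻¹) '' A ↔ x * y ∈ A := by
      constructor
      · rintro ⟨z, hz, rfl⟩
        simpa using hz
      · intro hz
        exact ⟨x * y, hz, by simp⟩
    rw [hmem]
    by_cases h1 : x ∈ A <;> by_cases h2 : x * y ∈ A
    · exact absurd (by simp [f, h1, h2]) hx
    · exact Or.inl ⟨h1, h2⟩
    · exact Or.inr ⟨h2, h1⟩
    · exact absurd (by simp [f, h1, h2]) hx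
  let cf : OrientableSurfaceGroup g × (Fin g × Bool) → ZMod 2 := fun y =>
    f (y.1 * (e1 y.2)⁻¹) + f (y.1 * (e2 y.2)⁻¹)
  have hcf : (Function.support cf).Finite := by
    have : Function.support cf ⊆ ⋃ s : Fin g × Bool,
        (fun x => (x * e1 s, s)) '' {x | f x ≠ f (x * (e1 s * (e2 s)⁻¹))} := by
      rintro ⟨h, s⟩ hs
      rw [Set.mem_iUnion]
      refine ⟨s, h * (e1 s)⁻¹, ?_, by simp⟩
      intro heq
      apply hs
      have h3 : h * (e1 s)⁻¹ * (e1 s * (e2 s)⁻¹) = h * (e2 s)⁻¹ := by group
      rw [h3] at heq
      change f (h * (e1 s)⁻¹) + f (h * (e2 s)⁻¹) = 0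
      rw [heq]
      exact CharTwo.add_self_eq_zero _
    exact (Set.finite_iUnion fun s => (hfin _).image _).subset this
  let c : OrientableSurfaceGroup g × (Fin g × Bool) →₀ ZMod 2 := Finsupp.ofSupportFinite cf hcf
  have hc : ∀ h s, c (h, s) = f (h * (e1 s)⁻¹) + f (h * (e2 s)⁻¹) := fun h s => rfl
  have hdd : dd c = 0 := by
    ext v
    rw [dd_apply, Finsupp.zero_apply, ← cycle_fun f v]
    refine Finset.sum_congr rfl fun s _ => ?_
    rw [hc, hc]
  obtain ⟨l, hl⟩ := cycle_mem c hdd
  have hconst := const_of_bd (fun x => f x + l x) (by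
    intro h s
    have h1 := hc h s
    rw [← hl, bd_apply] at h1
    have c1 := CharTwo.add_self_eq_zero (f (h * (e2 s)⁻¹))
    have c2 := CharTwo.add_self_eq_zero (l (h * (e1 s)⁻¹))
    linear_combination c2 - h1 - c1)
  by_cases h0 : f 1 + l 1 = 0
  · left
    refine l.support.finite_toSet.subset fun x hx => ?_
    rw [Finset.mem_coe, Finsupp.mem_support_iff]
    intro hlx
    have h1 := hconst x
    have h2 : f x = 1 := if_pos hx
    simp only [h2, hlx, add_zero, h0] at h1
    exact one_ne_zero h1
  · right
    refine l.support.finite_toSet.subset fun x hx => ?_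
    rw [Finset.mem_coe, Finsupp.mem_support_iff]
    intro hlx
    have h1 := hconst x
    have h2 : f x = 0 := if_neg hx
    simp only [h2, hlx, add_zero] at h1
    exact h0 h1.symm

end genus

/-- PB-4 (only `g = 3` is used; prove the case `g = 3` if that is easier, with the name
`oneEnded_genus3`). -/
theorem oneEnded_orientable (g : ℕ) (hg : 1 ≤ g) : OneEnded (OrientableSurfaceGroup g) :=
  ⟨infinite_orientable hg, finite_or⟩

theorem oneEnded_genus3 : OneEnded (OrientableSurfaceGroup 3) := oneEnded_orientable 3 (by norm_num)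

end Pool.Agent.Helper29.PB
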