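import Pool.Agent.Helper29.PB.PDefs
namespace Pool.Agent.Helper29.PB
open HGraph

/-! PB-11 -/

section pulsarCocycle

variable {r m s : ℕ} {X : Type} [Group X]

private theorem P2_symm {hm : 0 < m} (d : PData r m s hm X) (i j k : Fin (r + m + s)) :
    d.P2 i j k = d.P2 i k j := by
  unfold PData.P2
  rw [min_comm j k, max_comm j k, d.f_symm i j k]
  simp only [and_comm]

private theorem Q2_symm {hm : 0 < m} (d : PData r m s hm X) (j i k : Fin (r + m + s)) :
    d.Q2 j i k = d.Q2 j k i := by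
  unfold PData.Q2
  rw [min_comm i k, max_comm i k, d.g_symm j i k]
  simp only [and_comm]

private theorem val_symm {hm : 0 < m} (d : PData r m s hm X) (h : (pulsar r m s).H)
    (x y : (pulsar r m s).Pos) : d.val h x y = d.val h y x := by
  obtain ⟨⟨v, i⟩, hv⟩ := h
  cases v <;> rcases x with (x | x) <;> rcases y with (y | y) <;> (try cases x) <;>
    (try cases y) <;> first | rfl | exact P2_symm d _ _ _ | exact Q2_symm d _ _ _

/-- the square relation for data -/
private theorem sq_data {hm : 0 < m} (d : PData r m s hm X) (i j z : Fin (r + m + s))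
    (hi : (i : ℕ) < r + m) (hj : r ≤ (j : ℕ)) :
    d.q z (max i z) * d.Q2 j i z = d.p z (min j z) * d.P2 i j z := by
  unfold PData.Q2 PData.P2
  have c1 : ¬ (r + m ≤ (i : ℕ) ∧ r + m ≤ (z : ℕ)) := fun h => absurd h.1 (not_le.2 hi)
  have c2 : ¬ ((j : ℕ) < r ∧ (z : ℕ) < r) := fun h => absurd h.1 (not_lt.2 hj)
  rw [if_neg c1, if_neg c2]
  rcases le_or_gt i j with hij | hij
  · rcases le_or_gt i z with hiz | hiz
    · rw [max_eq_right hiz, d.q_self, one_mul, if_pos (le_min hij hiz), mul_one]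
      rcases le_or_gt z j with hzj | hzj
      · rw [if_pos hzj, min_eq_right hzj, d.p_self]
      · rw [if_neg (not_le.2 hzj), min_eq_left hiz, if_pos hij, min_eq_left hzj.le]
    · rw [max_eq_left hiz.le, if_pos hij, mul_one]
      have hzj : z ≤ j := hiz.le.trans hij
      rw [min_eq_right hzj, d.p_self, one_mul, if_neg (not_le.2 hiz), max_eq_left hzj,
        if_pos hij]
  · rcases le_or_gt i z with hiz | hiz
    · have hjz : j ≤ z := hij.le.trans hiz
      rw [max_eq_right hiz, d.q_self, one_mul, if_neg (not_le.2 (hij.trans_le hiz)),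
        min_eq_left hiz, if_neg (not_le.2 hij), min_eq_left hjz, if_neg (not_le.2 hij),
        max_eq_right hjz, if_pos hiz]
    · rw [max_eq_left hiz.le, if_neg (not_le.2 hij), min_eq_right hiz.le]
      rcases le_or_gt z j with hzj | hzj
      · rw [if_pos hzj, min_eq_right hzj, d.p_self, one_mul, if_neg (not_le.2 hiz),
          max_eq_left hzj, if_neg (not_le.2 hij)]
      · rw [if_neg (not_le.2 hzj), min_eq_left hzj.le, if_neg (not_le.2 hij),
          max_eq_right hzj.le, if_neg (not_le.2 hiz)]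
        exact d.hex j z i hzj.le hiz.le hj hi

end pulsarCocycle

theorem PData.exists_cocycle {r m s : ℕ} {hm : 0 < m} {X : Type} [Group X]
    (d : PData r m s hm X) : ∃ c : Cocycle3 (pulsar r m s) X, c.φ = d.val ∧
      c.IsNorm (fun h x y => PTup h x y ∨ PTdn hm h x y) := by
  have hsq : ∀ (h h' : (pulsar r m s).H) (z : (pulsar r m s).Pos),
      (pulsar r m s).vert h ≠ (pulsar r m s).vert h' →
      z ≠ Sum.inl ((pulsar r m s).vert h) → z ≠ Sum.inl ((pulsar r m s).vert h') →
      d.val h (Sum.inl ((pulsar r m s).vert h')) z *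
          d.val h' (Sum.inr ((pulsar r m s).edge h)) z =
        d.val h' (Sum.inl ((pulsar r m s).vert h)) z *
          d.val h (Sum.inr ((pulsar r m s).edge h')) z := by
    rintro ⟨⟨v, i⟩, hv⟩ ⟨⟨w, j⟩, hw⟩ z hne hz1 hz2
    cases v <;> cases w
    · exact absurd rfl hne
    · rcases z with (z | z)
      · cases z
        · exact absurd rfl hz1
        · exact absurd rfl hz2
      · exact sq_data d i j z (hv.1 rfl) (hw.2 rfl)
    · rcases z with (z | z)
      · cases z
        · exact absurd rfl hz2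
        · exact absurd rfl hz1
      · exact (sq_data d j i z (hw.1 rfl) (hv.2 rfl)).symm
    · exact absurd rfl hne
  refine ⟨⟨d.val, val_symm d, hsq⟩, rfl, ?_⟩
  rintro ⟨⟨v, i⟩, hv⟩ x y - hT
  change d.val _ x y = 1
  rcases hT with hT | hT
  · rcases hT with ⟨h1, j, hj, ⟨rfl, rfl⟩ | ⟨rfl, rfl⟩⟩ | ⟨h1, k, hk, ⟨rfl, rfl⟩ | ⟨rfl, rfl⟩⟩ |
      ⟨h1, b, c, hb, hc, rfl, rfl⟩ | ⟨h1, a, b, ha, hb, hai, hbi, rfl, rfl⟩
    · cases h1
      change d.p j (min i j) = 1
      rw [min_eq_right hj, d.p_self]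
    · cases h1
      change d.p j (min i j) = 1
      rw [min_eq_right hj, d.p_self]
    · cases h1
      change d.q k (max i k) = 1
      rw [max_eq_right hk, d.q_self]
    · cases h1
      change d.q k (max i k) = 1
      rw [max_eq_right hk, d.q_self]
    · cases h1
      change d.P2 i b c = 1
      unfold PData.P2
      split_ifs with h2 h3
      · exact d.f_base i b c (Fin.lt_def.2 h2.1) (Fin.lt_def.2 h2.2) (Or.inr ⟨hb, hc⟩)
      · rfl
      · exact absurd (le_min hb hc) h3
      · exact absurd (le_min hb hc) h3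
    · cases h1
      change d.Q2 i a b = 1
      unfold PData.Q2
      rw [if_pos ⟨ha, hb⟩]
      exact d.g_base i a b ha hb (Or.inr ⟨hai, hbi⟩)
  · obtain ⟨hio, hT⟩ := hT
    change i = oo hm at hio
    subst hio
    rcases hT with ⟨h1, z, hz, ⟨rfl, rfl⟩ | ⟨rfl, rfl⟩⟩ | ⟨h1, a, ha, ⟨rfl, rfl⟩ | ⟨rfl, rfl⟩⟩ |
      ⟨h1, j, k, hj, hk, rfl, rfl⟩ | ⟨h1, j, k, hj, hk, rfl, rfl⟩
    · cases h1
      change d.p z (min (oo hm) z) = 1
      rw [min_eq_left hz.le]
      have h2 := d.p_inv (oo hm) z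
      rw [d.base_p z (Fin.lt_def.1 hz).le, one_mul] at h2
      exact h2
    · cases h1
      change d.p z (min (oo hm) z) = 1
      rw [min_eq_left hz.le]
      have h2 := d.p_inv (oo hm) z
      rw [d.base_p z (Fin.lt_def.1 hz).le, one_mul] at h2
      exact h2
    · cases h1
      change d.q a (max (oo hm) a) = 1
      rw [max_eq_left ha.le, d.base_q a ha]
    · cases h1
      change d.q a (max (oo hm) a) = 1
      rw [max_eq_left ha.le, d.base_q a ha]
    · cases h1
      change d.P2 (oo hm) j k = 1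
      unfold PData.P2
      rw [if_pos ⟨Fin.lt_def.1 hj, Fin.lt_def.1 hk⟩]
      exact d.f_base _ j k hj hk (Or.inl rfl)
    · cases h1
      change d.Q2 (oo hm) j k = 1
      unfold PData.Q2
      rw [if_pos ⟨hj, hk⟩]
      exact d.g_base _ j k hj hk (Or.inl rfl)

theorem exists_pdata {r m s : ℕ} {hm : 0 < m} {X : Type} [Group X]
    (c : Cocycle3 (pulsar r m s) X) (hc : c.IsNorm (fun h x y => PTup h x y ∨ PTdn hm h x y)) :
    ∃ d : PData r m s hm X, ∀ h x y, Valid h x y → c.φ h x y = d.val h x y := by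
  classical
  have hoo : ((oo hm : Fin (r + m + s)) : ℕ) = r := rfl
  -- the values on the four kinds of moves
  set Pq : ∀ i : Fin (r + m + s), (i : ℕ) < r + m → Fin (r + m + s) → X :=
    fun i hi z => c.φ (hP i hi) (pV true) (pE z) with hPq
  set Qp : ∀ j : Fin (r + m + s), r ≤ (j : ℕ) → Fin (r + m + s) → X :=
    fun j hj z => c.φ (hQ j hj) (pV false) (pE z) with hQp
  set P2 : ∀ i : Fin (r + m + s), (i : ℕ) < r + m → Fin (r + m + s) → Fin (r + m + s) → X :=
    fun i hi j k => c.φ (hP i hi) (pE j) (pE k) with hP2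
  set Q2 : ∀ j : Fin (r + m + s), r ≤ (j : ℕ) → Fin (r + m + s) → Fin (r + m + s) → X :=
    fun j hj i k => c.φ (hQ j hj) (pE i) (pE k) with hQ2
  have P2s : ∀ i hi j k, P2 i hi j k = P2 i hi k j := fun i hi j k => c.symm _ _ _
  have Q2s : ∀ j hj i k, Q2 j hj i k = Q2 j hj k i := fun j hj i k => c.symm _ _ _
  have vE : ∀ (h : (pulsar r m s).H) (j k : Fin (r + m + s)), Valid h (pE j) (pE k) := by
    intro h j k
    refine ⟨?_, ?_, ?_⟩
    · simp [pE]
    · simp [pE]
    · intro v hv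
      simp [pE] at hv
  have vP : ∀ (i : Fin (r + m + s)) (hi : (i : ℕ) < r + m) (z : Fin (r + m + s)),
      Valid (hP i hi : (pulsar r m s).H) (pV true) (pE z) := by
    intro i hi z
    refine ⟨?_, ?_, ?_⟩
    · simp [pV, hP]
    · simp [pE]
    · intro v hv
      simp [pE] at hv
  have vQ : ∀ (j : Fin (r + m + s)) (hj : r ≤ (j : ℕ)) (z : Fin (r + m + s)),
      Valid (hQ j hj : (pulsar r m s).H) (pV false) (pE z) := by
    intro i hi z
    refine ⟨?_, ?_, ?_⟩
    · simp [pV, hQ]
    · simp [pE]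
    · intro v hv
      simp [pE] at hv
  -- tree values
  have Qp1 : ∀ (j : Fin (r + m + s)) (hj : r ≤ (j : ℕ)) (z : Fin (r + m + s)), z ≤ j →
      Qp j hj z = 1 := fun j hj z hz =>
    hc _ _ _ (vQ j hj z) (Or.inl (Or.inl ⟨rfl, z, hz, Or.inl ⟨rfl, rfl⟩⟩))
  have Pq1 : ∀ (i : Fin (r + m + s)) (hi : (i : ℕ) < r + m) (z : Fin (r + m + s)), i ≤ z →
      Pq i hi z = 1 := fun i hi z hz =>
    hc _ _ _ (vP i hi z) (Or.inl (Or.inr (Or.inl ⟨rfl, z, hz, Or.inl ⟨rfl, rfl⟩⟩)))
  have P21 : ∀ (i : Fin (r + m + s)) (hi : (i : ℕ) < r + m) (j k : Fin (r + m + s)), i ≤ j →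
      i ≤ k → P2 i hi j k = 1 := fun i hi j k hj hk =>
    hc _ _ _ (vE _ j k) (Or.inl (Or.inr (Or.inr (Or.inl ⟨rfl, j, k, hj, hk, rfl, rfl⟩))))
  have Q21 : ∀ (j : Fin (r + m + s)) (hj : r ≤ (j : ℕ)) (a b : Fin (r + m + s)),
      r + m ≤ (a : ℕ) → r + m ≤ (b : ℕ) → a ≤ j → b ≤ j → Q2 j hj a b = 1 :=
    fun j hj a b ha hb haj hbj =>
    hc _ _ _ (vE _ a b) (Or.inl (Or.inr (Or.inr (Or.inr ⟨rfl, a, b, ha, hb, haj, hbj, rfl, rfl⟩))))
  have Qpo : ∀ (hj : r ≤ ((oo hm : Fin (r + m + s)) : ℕ)) (z : Fin (r + m + s)), oo hm ≤ z →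
      Qp (oo hm) hj z = 1 := by
    intro hj z hz
    rcases eq_or_lt_of_le hz with rfl | hz
    · exact Qp1 _ _ _ le_rfl
    · exact hc _ _ _ (vQ _ hj z) (Or.inr ⟨rfl, Or.inl ⟨rfl, z, hz, Or.inl ⟨rfl, rfl⟩⟩⟩)
  have Pqo : ∀ (hi : ((oo hm : Fin (r + m + s)) : ℕ) < r + m) (a : Fin (r + m + s)),
      a < oo hm → Pq (oo hm) hi a = 1 := by
    intro hi a ha
    exact hc _ _ _ (vP _ hi a) (Or.inr ⟨rfl, Or.inr (Or.inl ⟨rfl, a, ha, Or.inl ⟨rfl, rfl⟩⟩)⟩)
  have P2o : ∀ (hi : ((oo hm : Fin (r + m + s)) : ℕ) < r + m) (j k : Fin (r + m + s)),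
      j < oo hm → k < oo hm → P2 (oo hm) hi j k = 1 := by
    intro hi j k hj hk
    exact hc _ _ _ (vE _ j k) (Or.inr ⟨rfl, Or.inr (Or.inr (Or.inl ⟨rfl, j, k, hj, hk, rfl, rfl⟩))⟩)
  have Q2o : ∀ (hj : r ≤ ((oo hm : Fin (r + m + s)) : ℕ)) (j k : Fin (r + m + s)),
      r + m ≤ (j : ℕ) → r + m ≤ (k : ℕ) → Q2 (oo hm) hj j k = 1 := by
    intro hj' j k hj hk
    exact hc _ _ _ (vE _ j k) (Or.inr ⟨rfl, Or.inr (Or.inr (Or.inr ⟨rfl, j, k, hj, hk, rfl, rfl⟩))⟩)
  -- squares
  have sq : ∀ (z i j : Fin (r + m + s)) (hi : (i : ℕ) < r + m) (hj : r ≤ (j : ℕ)),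
      Pq i hi z * Q2 j hj i z = Qp j hj z * P2 i hi j z := by
    intro z i j hi hj
    have h1 := c.sq (hP i hi) (hQ j hj) (pE z) (by simp [hP, hQ]) (by simp [pE]) (by simp [pE])
    exact h1
  -- consequences
  have Q2a : ∀ (a b j : Fin (r + m + s)) (hj : r ≤ (j : ℕ)), (a : ℕ) < r + m → a ≤ b → b ≤ j →
      Q2 j hj a b = 1 := by
    intro a b j hj ha hab hbj
    have h1 := sq b a j ha hj
    rw [Pq1 a ha b hab, Qp1 j hj b hbj, P21 a ha j b (hab.trans hbj) hab, one_mul, one_mul] at h1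
    exact h1
  have Q2b : ∀ (a b j : Fin (r + m + s)) (hj : r ≤ (j : ℕ)), (a : ℕ) < r + m → a ≤ b → a ≤ j →
      Q2 j hj a b = Qp j hj b := by
    intro a b j hj ha hab haj
    have h1 := sq b a j ha hj
    rw [Pq1 a ha b hab, P21 a ha j b haj hab, one_mul, mul_one] at h1
    exact h1
  have P2a : ∀ (i j k : Fin (r + m + s)) (hi : (i : ℕ) < r + m), r ≤ (k : ℕ) → j ≤ k → j < i →
      i ≤ k → P2 i hi j k = Pq i hi j := by
    intro i j k hi hk hjk hji hik
    have h1 := sq j i k hi hk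
    have hj : (j : ℕ) < r + m := lt_of_le_of_lt (Fin.le_def.1 hji.le) hi
    rw [Qp1 k hk j hjk, Q2s k hk i j, Q2a j i k hk hj hji.le hik, mul_one, one_mul,
      P2s] at h1
    exact h1.symm
  have P2b : ∀ (i j k : Fin (r + m + s)) (hi : (i : ℕ) < r + m) (hk : r ≤ (k : ℕ)), j ≤ k →
      k < i → P2 i hi j k = Pq i hi j * Qp k hk i := by
    intro i j k hi hk hjk hki
    have h1 := sq j i k hi hk
    have hj : (j : ℕ) < r + m := lt_of_le_of_lt (Fin.le_def.1 (hjk.trans hki.le)) hi
    rw [Qp1 k hk j hjk, one_mul, Q2s k hk i j, Q2b j i k hk hj (hjk.trans hki.le) hjk,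
      P2s] at h1
    exact h1.symm
  have Q2c : ∀ (a b j : Fin (r + m + s)) (hj : r ≤ (j : ℕ)) (ha : (a : ℕ) < r + m), a ≤ b →
      j < a → Q2 j hj a b = Qp j hj b * Pq a ha j := by
    intro a b j hj ha hab hja
    have h1 := sq b a j ha hj
    have hb : r ≤ (b : ℕ) := hj.trans (Fin.le_def.1 (hja.le.trans hab))
    rw [Pq1 a ha b hab, one_mul, P2a a j b ha hb (hja.le.trans hab) hja hab] at h1
    exact h1
  -- the data
  set p : Fin (r + m + s) → Fin (r + m + s) → X := fun z j =>
    if h : r ≤ (z : ℕ) ∧ r ≤ (j : ℕ) then Qp j h.2 z * (Qp z h.1 j)⁻¹ else 1 with hp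
  set q : Fin (r + m + s) → Fin (r + m + s) → X := fun z i =>
    if h : (z : ℕ) < r + m ∧ (i : ℕ) < r + m then Pq i h.2 z * (Pq z h.1 i)⁻¹ else 1 with hq
  have p_lt : ∀ (z j : Fin (r + m + s)) (hj : r ≤ (j : ℕ)), j ≤ z → p z j = Qp j hj z := by
    intro z j hj hjz
    have hz : r ≤ (z : ℕ) := hj.trans (Fin.le_def.1 hjz)
    simp only [hp]
    rw [dif_pos ⟨hz, hj⟩, Qp1 z hz j hjz, inv_one, mul_one]
  have q_lt : ∀ (z i : Fin (r + m + s)) (hi : (i : ℕ) < r + m), z ≤ i → q z i = Pq i hi z := by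
    intro z i hi hzi
    have hz : (z : ℕ) < r + m := lt_of_le_of_lt (Fin.le_def.1 hzi) hi
    simp only [hq]
    rw [dif_pos ⟨hz, hi⟩, Pq1 z hz i hzi, inv_one, mul_one]
  let d : PData r m s hm X :=
    { p := p
      q := q
      f := fun i j k => if h : (i : ℕ) < r + m then P2 i h j k else 1
      g := fun j i k => if h : r ≤ (j : ℕ) then Q2 j h i k else 1
      p_self := by
        intro x
        simp only [hp]
        split_ifs with h
        · exact mul_inv_cancel _
        · rfl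
      p_inv := by
        intro x y
        simp only [hp]
        by_cases h : r ≤ (x : ℕ) ∧ r ≤ (y : ℕ)
        · rw [dif_pos h, dif_pos h.symm]
          group
        · rw [dif_neg h, dif_neg (fun h' => h h'.symm), one_mul]
      q_self := by
        intro x
        simp only [hq]
        split_ifs with h
        · exact mul_inv_cancel _
        · rfl
      q_inv := by
        intro x y
        simp only [hq]
        by_cases h : (x : ℕ) < r + m ∧ (y : ℕ) < r + m
        · rw [dif_pos h, dif_pos h.symm]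
          group
        · rw [dif_neg h, dif_neg (fun h' => h h'.symm), one_mul]
      hex := by
        intro a b c' hab hbc ha hc'
        have hb : r ≤ (b : ℕ) := ha.trans (Fin.le_def.1 hab)
        have hb' : (b : ℕ) < r + m := lt_of_le_of_lt (Fin.le_def.1 hbc) hc'
        rw [q_lt b c' hc' hbc, p_lt c' a ha (hab.trans hbc), q_lt a b hb' hab, p_lt b a ha hab,
          q_lt a c' hc' (hab.trans hbc), p_lt c' b hb hbc]
        rcases eq_or_lt_of_le hab with rfl | hab'
        · rw [Pq1 _ _ _ le_rfl, Qp1 _ _ _ le_rfl, one_mul, mul_one]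
        rcases eq_or_lt_of_le hbc with rfl | hbc'
        · rw [Pq1 _ _ _ le_rfl, Qp1 b _ _ le_rfl, one_mul, mul_one]
        rw [← P2b c' a b hc' hb hab hbc', ← Q2c b c' a ha hb' hbc hab', Q2s]
        exact sq b c' a hc' ha
      base_p := by
        intro y hy
        have hy' : oo hm ≤ y := Fin.le_def.2 hy
        simp only [hp]
        rw [dif_pos ⟨le_rfl, hy⟩, Qp1 y hy _ hy', Qpo _ y hy', inv_one, mul_one]
      base_q := by
        intro a ha
        have ha' : (a : ℕ) < r + m := lt_of_lt_of_le (Fin.lt_def.1 ha) (by rw [hoo]; omega)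
        simp only [hq]
        rw [dif_pos ⟨ha', by rw [hoo]; omega⟩, Pqo _ a ha, Pq1 a ha' _ ha.le, inv_one, mul_one]
      f_symm := by
        intro i j k
        split_ifs with h
        · exact P2s _ _ _ _
        · rfl
      g_symm := by
        intro i j k
        split_ifs with h
        · exact Q2s _ _ _ _
        · rfl
      f_base := by
        intro i j k hj hk hi
        split_ifs with h
        · rcases hi with rfl | hi
          · exact P2o _ _ _ hj hk
          · exact P21 _ _ _ _ hi.1 hi.2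
        · rfl
      g_base := by
        intro i j k hj hk hi
        split_ifs with h
        · rcases hi with rfl | hi
          · exact Q2o _ _ _ hj hk
          · exact Q21 _ _ _ _ hj hk hi.1 hi.2
        · rfl }
  have vq : ∀ (i : Fin (r + m + s)) (hi : (i : ℕ) < r + m) z, Pq i hi z = q z (max i z) := by
    intro i hi z
    rcases le_or_gt i z with h | h
    · rw [max_eq_right h, Pq1 i hi z h]
      exact (d.q_self z).symm
    · rw [max_eq_left h.le, q_lt z i hi h.le]
  have vp : ∀ (j : Fin (r + m + s)) (hj : r ≤ (j : ℕ)) z, Qp j hj z = p z (min j z) := by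
    intro j hj z
    rcases le_or_gt z j with h | h
    · rw [min_eq_right h, Qp1 j hj z h]
      exact (d.p_self z).symm
    · rw [min_eq_left h.le, p_lt z j hj h.le]
  have vP2' : ∀ (i : Fin (r + m + s)) (hi : (i : ℕ) < r + m) j k, j ≤ k →
      P2 i hi j k = d.P2 i j k := by
    intro i hi j k hjk
    unfold PData.P2
    by_cases h1 : (j : ℕ) < r ∧ (k : ℕ) < r
    · rw [if_pos h1]
      change _ = (if h : (i : ℕ) < r + m then P2 i h j k else 1)
      rw [dif_pos hi]
    rw [if_neg h1, min_eq_left hjk, max_eq_right hjk]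
    have hk : r ≤ (k : ℕ) := by
      by_contra hk
      push Not at hk
      exact h1 ⟨lt_of_le_of_lt (Fin.le_def.1 hjk) hk, hk⟩
    rcases le_or_gt i j with h2 | h2
    · rw [if_pos h2, P21 i hi j k h2 (h2.trans hjk)]
    rw [if_neg (not_le.2 h2)]
    rcases le_or_gt i k with h3 | h3
    · rw [if_pos h3, P2a i j k hi hk hjk h2 h3]
      exact (q_lt j i hi h2.le).symm
    · rw [if_neg (not_le.2 h3), P2b i j k hi hk hjk h3]
      change _ = q j i * p i k
      rw [q_lt j i hi h2.le, p_lt i k hk h3.le]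
  have vQ2' : ∀ (j : Fin (r + m + s)) (hj : r ≤ (j : ℕ)) a b, a ≤ b →
      Q2 j hj a b = d.Q2 j a b := by
    intro j hj a b hab
    unfold PData.Q2
    by_cases h1 : r + m ≤ (a : ℕ) ∧ r + m ≤ (b : ℕ)
    · rw [if_pos h1]
      change _ = (if h : r ≤ (j : ℕ) then Q2 j h a b else 1)
      rw [dif_pos hj]
    rw [if_neg h1, min_eq_left hab, max_eq_right hab]
    have ha : (a : ℕ) < r + m := by
      by_contra ha
      push Not at ha
      exact h1 ⟨ha, ha.trans (Fin.le_def.1 hab)⟩
    rcases le_or_gt b j with h2 | h2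
    · rw [if_pos h2, Q2a a b j hj ha hab h2]
    rw [if_neg (not_le.2 h2)]
    rcases le_or_gt a j with h3 | h3
    · rw [if_pos h3, Q2b a b j hj ha hab h3]
      exact (p_lt b j hj h2.le).symm
    · rw [if_neg (not_le.2 h3), Q2c a b j hj ha hab h3]
      change _ = p b j * q j a
      rw [q_lt j a ha h3.le, p_lt b j hj h2.le]
  refine ⟨d, ?_⟩
  rintro ⟨⟨v, i⟩, hv⟩ x y hval
  obtain ⟨hx, hy, hxy⟩ := hval
  cases v
  · rcases x with (x | x)
    · cases x
      · exact absurd rfl hx
      · rcases y with (y | y)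
        · cases y
          · exact absurd rfl hy
          · exact absurd ⟨rfl, rfl⟩ (hxy true)
        · exact vq i (hv.1 rfl) y
    · rcases y with (y | y)
      · cases y
        · exact absurd rfl hy
        · rw [c.symm]
          exact vq i (hv.1 rfl) x
      · change _ = d.P2 i x y
        rcases le_total x y with h | h
        · exact vP2' i (hv.1 rfl) x y h
        · rw [c.symm, P2_symm]
          exact vP2' i (hv.1 rfl) y x h
  · rcases x with (x | x)
    · cases x
      · rcases y with (y | y)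
        · cases y
          · exact absurd ⟨rfl, rfl⟩ (hxy false)
          · exact absurd rfl hy
        · exact vp i (hv.2 rfl) y
      · exact absurd rfl hx
    · rcases y with (y | y)
      · cases y
        · rw [c.symm]
          exact vp i (hv.2 rfl) x
        · exact absurd rfl hy
      · change _ = d.Q2 i x y
        rcases le_total x y with h | h
        · exact vQ2' i (hv.2 rfl) x y h
        · rw [c.symm, Q2_symm]
          exact vQ2' i (hv.2 rfl) y x h

end Pool.Agent.Helper29.PB
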