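import Pool.Agent.Helper29.PB.PDefs
namespace Pool.Agent.Helper29.PB
open HGraph

/-! PB-12 -/

/-- the free letters of the pulsar graph -/
abbrev PKappa (r m s : ℕ) (hm : 0 < m) : Type :=
  ({x : Fin (r + m + s) × Fin (r + m + s) // r ≤ (x.1 : ℕ) ∧ x.1 < x.2 ∧ r + m ≤ (x.2 : ℕ) ∧
      x.1 ≠ oo hm} ⊕
   {x : Fin (r + m + s) × Fin (r + m + s) // (x.1 : ℕ) < r ∧ x.1 < x.2 ∧ (x.2 : ℕ) < r + m ∧
      x.2 ≠ oo hm}) ⊕
  ({x : Fin (r + m + s) × Fin (r + m + s) × Fin (r + m + s) // (x.1 : ℕ) < r + m ∧ x.2.1 ≤ x.2.2 ∧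
      (x.2.2 : ℕ) < r ∧ x.1 ≠ oo hm ∧ x.2.1 < x.1} ⊕
   {x : Fin (r + m + s) × Fin (r + m + s) × Fin (r + m + s) // r ≤ (x.1 : ℕ) ∧ x.2.1 ≤ x.2.2 ∧
      r + m ≤ (x.2.1 : ℕ) ∧ x.1 ≠ oo hm ∧ x.1 < x.2.2})

namespace PB12

section theta

variable {E : Type} {o : E}

theorem theta_rel {w : FreeGroup (Bool × E × E)} (h : w ∈ thetaRels E o) :
    (PresentedGroup.mk (thetaRels E o) w) = 1 :=
  (PresentedGroup.one_of_mem h)

theorem P_self (x : E) : (ThetaGroup.P x x : ThetaGroup E o) = 1 :=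
  theta_rel (w := FreeGroup.of (false, x, x)) (Or.inl ⟨x, rfl⟩)

theorem P_inv (x y : E) : (ThetaGroup.P x y : ThetaGroup E o) * ThetaGroup.P y x = 1 :=
  theta_rel (w := FreeGroup.of (false, x, y) * FreeGroup.of (false, y, x))
    (Or.inr (Or.inl ⟨x, y, rfl⟩))

theorem Q_self (x : E) : (ThetaGroup.Q x x : ThetaGroup E o) = 1 :=
  theta_rel (w := FreeGroup.of (true, x, x)) (Or.inr (Or.inr (Or.inl ⟨x, rfl⟩)))

theorem Q_inv (x y : E) : (ThetaGroup.Q x y : ThetaGroup E o) * ThetaGroup.Q y x = 1 :=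
  theta_rel (w := FreeGroup.of (true, x, y) * FreeGroup.of (true, y, x))
    (Or.inr (Or.inr (Or.inr (Or.inl ⟨x, y, rfl⟩))))

theorem P_hex (x y z : E) : (ThetaGroup.P x y : ThetaGroup E o) * ThetaGroup.Q y z *
    ThetaGroup.P z x * ThetaGroup.Q x y * ThetaGroup.P y z * ThetaGroup.Q z x = 1 :=
  theta_rel (w := FreeGroup.of (false, x, y) * FreeGroup.of (true, y, z) *
    FreeGroup.of (false, z, x) * FreeGroup.of (true, x, y) * FreeGroup.of (false, y, z) *
    FreeGroup.of (true, z, x))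
    (Or.inr (Or.inr (Or.inr (Or.inr (Or.inl ⟨x, y, z, rfl⟩)))))

theorem P_base (y : E) : (ThetaGroup.P o y : ThetaGroup E o) = 1 :=
  theta_rel (w := FreeGroup.of (false, o, y)) (Or.inr (Or.inr (Or.inr (Or.inr (Or.inr ⟨y, rfl⟩)))))

/-- data give homomorphisms -/
def thetaLift {X : Type} [Group X] (d : ThetaData E o X) : ThetaGroup E o →* X :=
  PresentedGroup.toGroup (f := fun w : Bool × E × E => if w.1 then d.q w.2.1 w.2.2 else
    d.p w.2.1 w.2.2) (by
    intro w hw
    rcases hw with ⟨x, rfl⟩ | ⟨x, y, rfl⟩ | ⟨x, rfl⟩ | ⟨x, y, rfl⟩ | ⟨x, y, z, rfl⟩ | ⟨y, rfl⟩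
    · simpa using d.p_self x
    · simpa using d.p_inv x y
    · simpa using d.q_self x
    · simpa using d.q_inv x y
    · simpa using d.hex x y z
    · simpa using d.base y)

theorem thetaLift_P {X : Type} [Group X] (d : ThetaData E o X) (x y : E) :
    thetaLift d (ThetaGroup.P x y) = d.p x y := by
  simp [thetaLift, ThetaGroup.P]

theorem thetaLift_Q {X : Type} [Group X] (d : ThetaData E o X) (x y : E) :
    thetaLift d (ThetaGroup.Q x y) = d.q x y := by
  simp [thetaLift, ThetaGroup.Q]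

theorem theta_ext {X : Type} [Group X] {f g : ThetaGroup E o →* X}
    (hP : ∀ x y, f (ThetaGroup.P x y) = g (ThetaGroup.P x y))
    (hQ : ∀ x y, f (ThetaGroup.Q x y) = g (ThetaGroup.Q x y)) : f = g := by
  apply PresentedGroup.ext
  rintro ⟨b, x, y⟩
  cases b
  · exact hP x y
  · exact hQ x y

end theta

section hex

variable {E X : Type} [Group X] (p q : E → E → X)

/-- the hexagon relation -/
def Hex (x y z : E) : Prop := p x y * q y z * p z x * q x y * p y z * q z x = 1

variable {p q}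

theorem hex_cyc {x y z : E} (h : Hex p q x y z) : Hex p q y z x := by
  unfold Hex at *
  have h1 : p y z * q z x * (p x y * q y z * p z x * q x y) = 1 := by
    have h2 : (p x y * q y z * p z x * q x y) * (p y z * q z x) = 1 := by
      rw [← h]; group
    exact mul_eq_one_comm.mp h2
  rw [← h1]; group

theorem hex_swap (hp : ∀ x y, p x y * p y x = 1) (hq : ∀ x y, q x y * q y x = 1) {x y z : E}
    (h : Hex p q x y z) : Hex p q y x z := by
  unfold Hex at *
  have ep : ∀ a b, p b a = (p a b)⁻¹ := fun a b => eq_inv_of_mul_eq_one_right (hp a b)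
  have eq : ∀ a b, q b a = (q a b)⁻¹ := fun a b => eq_inv_of_mul_eq_one_right (hq a b)
  have h1 : p y x * q x z * p z y * q y x * p x z * q z y =
      (p x y)⁻¹ * (p x y * q y z * p z x * q x y * p y z * q z x)⁻¹ * p x y := by
    rw [ep x y, eq z x, ep y z, eq x y, ep z x, eq y z]
    group
  rw [h1, h]
  group

theorem hex_of_sorted [LinearOrder E] (hp : ∀ x y, p x y * p y x = 1)
    (hq : ∀ x y, q x y * q y x = 1) (h : ∀ x y z, x ≤ y → y ≤ z → Hex p q x y z) (x y z : E) :
    Hex p q x y z := by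
  rcases le_total x y with h1 | h1
  · rcases le_total y z with h2 | h2
    · exact h x y z h1 h2
    · rcases le_total x z with h3 | h3
      · exact hex_cyc (hex_swap hp hq (h x z y h3 h2))
      · exact hex_cyc (h z x y h3 h1)
  · rcases le_total y z with h2 | h2
    · rcases le_total x z with h3 | h3
      · exact hex_swap hp hq (h y x z h1 h3)
      · exact hex_cyc (hex_cyc (h y z x h2 h3))
    · exact hex_cyc (hex_cyc (hex_swap hp hq (h z y x h2 h1)))

end hex

section main

variable {r m s : ℕ}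

/-- the parallel edge `x` -/
def em (x : Fin (m + 1)) : Fin (r + (m + 1) + s) := ⟨r + x, by omega⟩

theorem em_le {x : Fin (m + 1)} : r ≤ ((em x : Fin (r + (m + 1) + s)) : ℕ) := by
  simp [em]

theorem em_lt {x : Fin (m + 1)} : ((em x : Fin (r + (m + 1) + s)) : ℕ) < r + (m + 1) := by
  have := x.2
  show r + (x : ℕ) < r + (m + 1)
  omega

theorem em_mono {x y : Fin (m + 1)} (h : x ≤ y) :
    (em x : Fin (r + (m + 1) + s)) ≤ em y := by
  simp only [em, Fin.mk_le_mk]
  have : (x : ℕ) ≤ y := h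
  omega

theorem em_zero : (em 0 : Fin (r + (m + 1) + s)) = oo (Nat.succ_pos m) := by
  apply Fin.ext
  simp [em, oo]

/-- the parallel edge with a given number -/
def de (x : Fin (r + (m + 1) + s)) (h : r ≤ (x : ℕ)) (h2 : (x : ℕ) < r + (m + 1)) :
    Fin (m + 1) := ⟨(x : ℕ) - r, by omega⟩

theorem em_de (x : Fin (r + (m + 1) + s)) (h : r ≤ (x : ℕ)) (h2 : (x : ℕ) < r + (m + 1)) :
    em (de x h h2) = x := by
  apply Fin.ext
  simp only [em, de]
  omega

theorem de_em (x : Fin (m + 1)) (h : r ≤ ((em x : Fin (r + (m + 1) + s)) : ℕ))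
    (h2 : ((em x : Fin (r + (m + 1) + s)) : ℕ) < r + (m + 1)) : de (em x) h h2 = x := by
  apply Fin.ext
  simp [em, de]

/-- data of a normalized cocycle give theta data -/
def ofPData {X : Type} [Group X] (d : PData r (m + 1) s (Nat.succ_pos m) X) :
    ThetaData (Fin (m + 1)) 0 X where
  p x y := d.p (em x) (em y)
  q x y := d.q (em x) (em y)
  p_self x := d.p_self _
  p_inv x y := d.p_inv _ _
  q_self x := d.q_self _
  q_inv x y := d.q_inv _ _
  hex := by
    have h := hex_of_sorted (p := fun x y : Fin (m + 1) => d.p (em x) (em y))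
      (q := fun x y => d.q (em x) (em y)) (fun x y => d.p_inv _ _) (fun x y => d.q_inv _ _) (by
        intro a b c hab hbc
        have h1 := d.hex (em a) (em b) (em c) (em_mono hab) (em_mono hbc) em_le em_lt
        unfold Hex
        have e1 : d.p (em b) (em a) = (d.p (em a) (em b))⁻¹ :=
          eq_inv_of_mul_eq_one_right (d.p_inv _ _)
        have e2 : d.p (em c) (em b) = (d.p (em b) (em c))⁻¹ :=
          eq_inv_of_mul_eq_one_right (d.p_inv _ _)
        have e3 : d.q (em c) (em a) = (d.q (em a) (em c))⁻¹ :=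
          eq_inv_of_mul_eq_one_right (d.q_inv _ _)
        rw [e1, e2] at h1
        show d.p (em a) (em b) * d.q (em b) (em c) * d.p (em c) (em a) * d.q (em a) (em b) *
          d.p (em b) (em c) * d.q (em c) (em a) = 1
        rw [e3]
        have h2 : d.p (em a) (em b) * d.q (em b) (em c) * d.p (em c) (em a) *
            d.q (em a) (em b) * d.p (em b) (em c) * (d.q (em a) (em c))⁻¹ =
            d.p (em a) (em b) * (d.q (em b) (em c) * (d.p (em c) (em a) * d.q (em a) (em b))) *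
            d.p (em b) (em c) * (d.q (em a) (em c))⁻¹ := by group
        rw [h2, h1]
        group)
    exact h
  base y := by
    show d.p (em 0) (em y) = 1
    rw [em_zero]
    exact d.base_p _ em_le

/-- the target group -/
abbrev TT (r m s : ℕ) : Type := Monoid.Coprod (ThetaGroup (Fin (m + 1)) 0)
  (FreeGroup (PKappa r (m + 1) s (Nat.succ_pos m)))

/-- the letter `p x y` for `x < y` -/
noncomputable def pl (x y : Fin (r + (m + 1) + s)) : TT r m s :=
  open Classical in
  if h : r ≤ (x : ℕ) ∧ x < y then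
    if h2 : (y : ℕ) < r + (m + 1) then
      Monoid.Coprod.inl (ThetaGroup.P (de x h.1 (lt_trans h.2 h2)) (de y (h.1.trans h.2.le) h2))
    else if h3 : x = oo (Nat.succ_pos m) then 1
    else Monoid.Coprod.inr (FreeGroup.of (Sum.inl (Sum.inl ⟨(x, y), h.1, h.2, not_lt.mp h2, h3⟩)))
  else 1

/-- the letter `q x y` for `x < y` -/
noncomputable def ql (x y : Fin (r + (m + 1) + s)) : TT r m s :=
  open Classical in
  if h : (y : ℕ) < r + (m + 1) ∧ x < y then
    if h2 : r ≤ (x : ℕ) then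
      Monoid.Coprod.inl (ThetaGroup.Q (de x h2 (lt_trans h.2 h.1)) (de y (h2.trans h.2.le) h.1))
    else if h3 : y = oo (Nat.succ_pos m) then 1
    else Monoid.Coprod.inr (FreeGroup.of (Sum.inl (Sum.inr ⟨(x, y), not_le.mp h2, h.2, h.1, h3⟩)))
  else 1

/-- the letters `p x y` -/
noncomputable def pT (x y : Fin (r + (m + 1) + s)) : TT r m s :=
  if x < y then pl x y else (pl y x)⁻¹

/-- the letters `q x y` -/
noncomputable def qT (x y : Fin (r + (m + 1) + s)) : TT r m s :=
  if x < y then ql x y else (ql y x)⁻¹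

/-- the letters `f i j k` -/
noncomputable def fT (i j k : Fin (r + (m + 1) + s)) : TT r m s :=
  open Classical in
  if h : (i : ℕ) < r + (m + 1) ∧ ((max j k : Fin (r + (m + 1) + s)) : ℕ) < r ∧
      i ≠ oo (Nat.succ_pos m) ∧ min j k < i then
    Monoid.Coprod.inr (FreeGroup.of (Sum.inr (Sum.inl
      ⟨(i, min j k, max j k), h.1, min_le_max, h.2.1, h.2.2.1, h.2.2.2⟩)))
  else 1

/-- the letters `g i j k` -/
noncomputable def gT (i j k : Fin (r + (m + 1) + s)) : TT r m s :=
  open Classical in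
  if h : r ≤ (i : ℕ) ∧ r + (m + 1) ≤ ((min j k : Fin (r + (m + 1) + s)) : ℕ) ∧
      i ≠ oo (Nat.succ_pos m) ∧ i < max j k then
    Monoid.Coprod.inr (FreeGroup.of (Sum.inr (Sum.inr
      ⟨(i, min j k, max j k), h.1, min_le_max, h.2.1, h.2.2.1, h.2.2.2⟩)))
  else 1

theorem pl_self (x : Fin (r + (m + 1) + s)) : (pl x x : TT r m s) = 1 := by
  unfold pl
  rw [dif_neg (by simp)]

theorem ql_self (x : Fin (r + (m + 1) + s)) : (ql x x : TT r m s) = 1 := by
  unfold ql
  rw [dif_neg (by simp)]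

theorem pT_self (x : Fin (r + (m + 1) + s)) : (pT x x : TT r m s) = 1 := by
  unfold pT
  rw [if_neg (lt_irrefl _), pl_self, inv_one]

theorem qT_self (x : Fin (r + (m + 1) + s)) : (qT x x : TT r m s) = 1 := by
  unfold qT
  rw [if_neg (lt_irrefl _), ql_self, inv_one]

theorem pT_inv (x y : Fin (r + (m + 1) + s)) : (pT x y : TT r m s) * pT y x = 1 := by
  rcases lt_trichotomy x y with h | h | h
  · unfold pT
    rw [if_pos h, if_neg (not_lt.mpr h.le), mul_inv_cancel]
  · subst h
    rw [pT_self, mul_one]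
  · unfold pT
    rw [if_pos h, if_neg (not_lt.mpr h.le), inv_mul_cancel]

theorem qT_inv (x y : Fin (r + (m + 1) + s)) : (qT x y : TT r m s) * qT y x = 1 := by
  rcases lt_trichotomy x y with h | h | h
  · unfold qT
    rw [if_pos h, if_neg (not_lt.mpr h.le), mul_inv_cancel]
  · subst h
    rw [qT_self, mul_one]
  · unfold qT
    rw [if_pos h, if_neg (not_lt.mpr h.le), inv_mul_cancel]

theorem pT_par {x y : Fin (r + (m + 1) + s)} (hx : r ≤ (x : ℕ)) (hx' : (x : ℕ) < r + (m + 1))
    (hy : r ≤ (y : ℕ)) (hy' : (y : ℕ) < r + (m + 1)) :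
    (pT x y : TT r m s) = Monoid.Coprod.inl (ThetaGroup.P (de x hx hx') (de y hy hy')) := by
  have key : ∀ {x y : Fin (r + (m + 1) + s)} (hx : r ≤ (x : ℕ)) (hx' : (x : ℕ) < r + (m + 1))
      (hy : r ≤ (y : ℕ)) (hy' : (y : ℕ) < r + (m + 1)), x < y →
      (pl x y : TT r m s) = Monoid.Coprod.inl (ThetaGroup.P (de x hx hx') (de y hy hy')) := by
    intro x y hx hx' hy hy' h
    unfold pl
    rw [dif_pos ⟨hx, h⟩, dif_pos hy']
  unfold pT
  rcases lt_trichotomy x y with h | h | h
  · rw [if_pos h, key hx hx' hy hy' h]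
  · subst h
    rw [if_neg (lt_irrefl _), pl_self, P_self, map_one, inv_one]
  · rw [if_neg (not_lt.mpr h.le), key hy hy' hx hx' h, ← map_inv]
    congr 1
    exact inv_eq_of_mul_eq_one_right (P_inv _ _)

theorem qT_par {x y : Fin (r + (m + 1) + s)} (hx : r ≤ (x : ℕ)) (hx' : (x : ℕ) < r + (m + 1))
    (hy : r ≤ (y : ℕ)) (hy' : (y : ℕ) < r + (m + 1)) :
    (qT x y : TT r m s) = Monoid.Coprod.inl (ThetaGroup.Q (de x hx hx') (de y hy hy')) := by
  have key : ∀ {x y : Fin (r + (m + 1) + s)} (hx : r ≤ (x : ℕ)) (hx' : (x : ℕ) < r + (m + 1))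
      (hy : r ≤ (y : ℕ)) (hy' : (y : ℕ) < r + (m + 1)), x < y →
      (ql x y : TT r m s) = Monoid.Coprod.inl (ThetaGroup.Q (de x hx hx') (de y hy hy')) := by
    intro x y hx hx' hy hy' h
    unfold ql
    rw [dif_pos ⟨hy', h⟩, dif_pos hx]
  unfold qT
  rcases lt_trichotomy x y with h | h | h
  · rw [if_pos h, key hx hx' hy hy' h]
  · subst h
    rw [if_neg (lt_irrefl _), ql_self, Q_self, map_one, inv_one]
  · rw [if_neg (not_lt.mpr h.le), key hy hy' hx hx' h, ← map_inv]
    congr 1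
    exact inv_eq_of_mul_eq_one_right (Q_inv _ _)

theorem pT_base {y : Fin (r + (m + 1) + s)} (hy : r ≤ (y : ℕ)) :
    (pT (oo (Nat.succ_pos m)) y : TT r m s) = 1 := by
  by_cases h : (y : ℕ) < r + (m + 1)
  · rw [pT_par (by simp [oo]) (by simp [oo]) hy h]
    have : de (oo (Nat.succ_pos m) : Fin (r + (m + 1) + s)) (by simp [oo]) (by simp [oo]) =
        (0 : Fin (m + 1)) := by
      apply Fin.ext
      simp [de, oo]
    rw [this, P_base, map_one]
  · have h2 : (oo (Nat.succ_pos m) : Fin (r + (m + 1) + s)) < y := by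
      rw [Fin.lt_def]
      simp only [oo]
      omega
    unfold pT
    rw [if_pos h2]
    unfold pl
    rw [dif_pos ⟨by simp [oo], h2⟩, dif_neg h, dif_pos rfl]

theorem qT_base {x : Fin (r + (m + 1) + s)} (hx : x < oo (Nat.succ_pos m)) :
    (qT x (oo (Nat.succ_pos m)) : TT r m s) = 1 := by
  have hx' : (x : ℕ) < r := by
    rw [Fin.lt_def] at hx
    simpa [oo] using hx
  unfold qT
  rw [if_pos hx]
  unfold ql
  rw [dif_pos ⟨by simp [oo], hx⟩, dif_neg (not_le.mpr hx'), dif_pos rfl]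

/-- the universal data -/
noncomputable def dT : PData r (m + 1) s (Nat.succ_pos m) (TT r m s) where
  p := pT
  q := qT
  f := fT
  g := gT
  p_self := pT_self
  p_inv := pT_inv
  q_self := qT_self
  q_inv := qT_inv
  hex a b c hab hbc ha hc := by
    have hb : r ≤ (b : ℕ) := ha.trans hab
    have hb' : (b : ℕ) < r + (m + 1) := lt_of_le_of_lt hbc hc
    have ha' : (a : ℕ) < r + (m + 1) := lt_of_le_of_lt hab hb'
    have hc' : r ≤ (c : ℕ) := hb.trans hbc
    rw [qT_par hb hb' hc' hc, pT_par hc' hc ha ha', qT_par ha ha' hb hb', pT_par hb hb' ha ha',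
      qT_par ha ha' hc' hc, pT_par hc' hc hb hb', ← map_mul, ← map_mul, ← map_mul, ← map_mul]
    congr 1
    have h := P_hex (o := (0 : Fin (m + 1))) (de a ha ha') (de b hb hb') (de c hc' hc)
    set A := de a ha ha'
    set B := de b hb hb'
    set C := de c hc' hc
    have e1 : (ThetaGroup.P B A : ThetaGroup (Fin (m + 1)) 0) = (ThetaGroup.P A B)⁻¹ :=
      eq_inv_of_mul_eq_one_right (P_inv _ _)
    have e2 : (ThetaGroup.P C B : ThetaGroup (Fin (m + 1)) 0) = (ThetaGroup.P B C)⁻¹ :=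
      eq_inv_of_mul_eq_one_right (P_inv _ _)
    have e3 : (ThetaGroup.Q C A : ThetaGroup (Fin (m + 1)) 0) = (ThetaGroup.Q A C)⁻¹ :=
      eq_inv_of_mul_eq_one_right (Q_inv _ _)
    rw [e3] at h
    rw [e1, e2]
    have h2 : ThetaGroup.Q B C * (ThetaGroup.P C A * ThetaGroup.Q A B) =
        (ThetaGroup.P A B : ThetaGroup (Fin (m + 1)) 0)⁻¹ *
        (ThetaGroup.P A B * ThetaGroup.Q B C * ThetaGroup.P C A * ThetaGroup.Q A B *
          ThetaGroup.P B C * (ThetaGroup.Q A C)⁻¹) *
        (ThetaGroup.Q A C * (ThetaGroup.P B C)⁻¹) := by group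
    rw [h2, h]
    group
  base_p y hy := pT_base hy
  base_q a ha := qT_base ha
  f_symm i j k := by
    unfold fT
    simp only [max_comm j k, min_comm j k]
  g_symm i j k := by
    unfold gT
    simp only [max_comm j k, min_comm j k]
  f_base i j k hj hk h := by
    unfold fT
    rw [dif_neg]
    rintro ⟨-, -, h1, h2⟩
    rcases h with h | h
    · exact h1 h
    · exact absurd h2 (not_lt.mpr (le_min h.1 h.2))
  g_base i j k hj hk h := by
    unfold gT
    rw [dif_neg]
    rintro ⟨-, -, h1, h2⟩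
    rcases h with h | h
    · exact h1 h
    · exact absurd h2 (not_lt.mpr (max_le h.1 h.2))

/-- the homomorphism given by data -/
noncomputable def F1 {X : Type} [Group X] (d : PData r (m + 1) s (Nat.succ_pos m) X) :
    TT r m s →* X :=
  Monoid.Coprod.lift (thetaLift (ofPData d)) (FreeGroup.lift (fun w => match w with
    | Sum.inl (Sum.inl x) => d.p x.1.1 x.1.2
    | Sum.inl (Sum.inr x) => d.q x.1.1 x.1.2
    | Sum.inr (Sum.inl x) => d.f x.1.1 x.1.2.1 x.1.2.2
    | Sum.inr (Sum.inr x) => d.g x.1.1 x.1.2.1 x.1.2.2))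

section F1

variable {X : Type} [Group X] (d : PData r (m + 1) s (Nat.succ_pos m) X)

theorem F1_inl (g : ThetaGroup (Fin (m + 1)) 0) :
    F1 d (Monoid.Coprod.inl g) = thetaLift (ofPData d) g := by
  simp [F1]

theorem F1_p {x y : Fin (r + (m + 1) + s)} (hx : r ≤ (x : ℕ)) (hy : r ≤ (y : ℕ)) :
    F1 d (pT x y) = d.p x y := by
  have key : ∀ {x y : Fin (r + (m + 1) + s)}, r ≤ (x : ℕ) → x < y → F1 d (pl x y) = d.p x y := by
    intro x y hx h
    unfold pl
    rw [dif_pos ⟨hx, h⟩]
    by_cases h2 : (y : ℕ) < r + (m + 1)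
    · rw [dif_pos h2, F1_inl, thetaLift_P]
      show d.p (em (de x _ _)) (em (de y _ _)) = _
      rw [em_de, em_de]
    · rw [dif_neg h2]
      by_cases h3 : x = oo (Nat.succ_pos m)
      · rw [dif_pos h3, map_one, h3, d.base_p y (hx.trans h.le)]
      · rw [dif_neg h3]
        simp [F1]
  unfold pT
  rcases lt_trichotomy x y with h | h | h
  · rw [if_pos h, key hx h]
  · subst h
    rw [if_neg (lt_irrefl _), pl_self, inv_one, map_one, d.p_self]
  · rw [if_neg (not_lt.mpr h.le), map_inv, key hy h]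
    exact inv_eq_of_mul_eq_one_right (d.p_inv _ _)

theorem F1_q {x y : Fin (r + (m + 1) + s)} (hx : (x : ℕ) < r + (m + 1))
    (hy : (y : ℕ) < r + (m + 1)) : F1 d (qT x y) = d.q x y := by
  have key : ∀ {x y : Fin (r + (m + 1) + s)}, (y : ℕ) < r + (m + 1) → x < y →
      F1 d (ql x y) = d.q x y := by
    intro x y hy h
    unfold ql
    rw [dif_pos ⟨hy, h⟩]
    by_cases h2 : r ≤ (x : ℕ)
    · rw [dif_pos h2, F1_inl, thetaLift_Q]
      show d.q (em (de x _ _)) (em (de y _ _)) = _
      rw [em_de, em_de]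
    · rw [dif_neg h2]
      by_cases h3 : y = oo (Nat.succ_pos m)
      · rw [dif_pos h3, map_one, h3, d.base_q x (h3 ▸ h)]
      · rw [dif_neg h3]
        simp [F1]
  unfold qT
  rcases lt_trichotomy x y with h | h | h
  · rw [if_pos h, key hy h]
  · subst h
    rw [if_neg (lt_irrefl _), ql_self, inv_one, map_one, d.q_self]
  · rw [if_neg (not_lt.mpr h.le), map_inv, key hx h]
    exact inv_eq_of_mul_eq_one_right (d.q_inv _ _)

theorem F1_f {i j k : Fin (r + (m + 1) + s)} (hi : (i : ℕ) < r + (m + 1)) (hj : (j : ℕ) < r)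
    (hk : (k : ℕ) < r) : F1 d (fT i j k) = d.f i j k := by
  have hmax : ((max j k : Fin (r + (m + 1) + s)) : ℕ) < r := by
    rcases max_choice j k with h | h <;> rw [h] <;> assumption
  have hj' : j < oo (Nat.succ_pos m) := by
    rw [Fin.lt_def]; simpa [oo] using hj
  have hk' : k < oo (Nat.succ_pos m) := by
    rw [Fin.lt_def]; simpa [oo] using hk
  unfold fT
  by_cases h : i ≠ oo (Nat.succ_pos m) ∧ min j k < i
  · rw [dif_pos ⟨hi, hmax, h.1, h.2⟩]
    have : F1 d (Monoid.Coprod.inr (FreeGroup.of (Sum.inr (Sum.inl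
      ⟨(i, min j k, max j k), hi, min_le_max, hmax, h.1, h.2⟩)))) = d.f i (min j k) (max j k) := by
      simp [F1]
    rw [this]
    rcases le_total j k with h1 | h1
    · rw [min_eq_left h1, max_eq_right h1]
    · rw [min_eq_right h1, max_eq_left h1, d.f_symm]
  · rw [dif_neg (fun h' => h ⟨h'.2.2.1, h'.2.2.2⟩), map_one]
    symm
    apply d.f_base i j k hj' hk'
    by_cases h1 : i = oo (Nat.succ_pos m)
    · exact Or.inl h1
    · right
      have h2 : i ≤ min j k := by
        by_contra h3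
        exact h ⟨h1, not_le.mp h3⟩
      exact le_min_iff.mp h2

theorem F1_g {i j k : Fin (r + (m + 1) + s)} (hi : r ≤ (i : ℕ)) (hj : r + (m + 1) ≤ (j : ℕ))
    (hk : r + (m + 1) ≤ (k : ℕ)) : F1 d (gT i j k) = d.g i j k := by
  have hmin : r + (m + 1) ≤ ((min j k : Fin (r + (m + 1) + s)) : ℕ) := by
    rcases min_choice j k with h | h <;> rw [h] <;> assumption
  unfold gT
  by_cases h : i ≠ oo (Nat.succ_pos m) ∧ i < max j k
  · rw [dif_pos ⟨hi, hmin, h.1, h.2⟩]
    have : F1 d (Monoid.Coprod.inr (FreeGroup.of (Sum.inr (Sum.inr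
      ⟨(i, min j k, max j k), hi, min_le_max, hmin, h.1, h.2⟩)))) = d.g i (min j k) (max j k) := by
      simp [F1]
    rw [this]
    rcases le_total j k with h1 | h1
    · rw [min_eq_left h1, max_eq_right h1]
    · rw [min_eq_right h1, max_eq_left h1, d.g_symm]
  · rw [dif_neg (fun h' => h ⟨h'.2.2.1, h'.2.2.2⟩), map_one]
    symm
    apply d.g_base i j k hj hk
    by_cases h1 : i = oo (Nat.succ_pos m)
    · exact Or.inl h1
    · right
      have h2 : max j k ≤ i := by
        by_contra h3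
        exact h ⟨h1, not_le.mp h3⟩
      exact max_le_iff.mp h2

end F1

section val

variable {X Y : Type} [Group X] [Group Y] (d : PData r (m + 1) s (Nat.succ_pos m) X)
  (d' : PData r (m + 1) s (Nat.succ_pos m) Y) (φ : X →* Y)

theorem val_of
    (hp : ∀ x y : Fin (r + (m + 1) + s), r ≤ (x : ℕ) → r ≤ (y : ℕ) → φ (d.p x y) = d'.p x y)
    (hq : ∀ x y : Fin (r + (m + 1) + s), (x : ℕ) < r + (m + 1) → (y : ℕ) < r + (m + 1) →
      φ (d.q x y) = d'.q x y)
    (hf : ∀ i j k : Fin (r + (m + 1) + s), (i : ℕ) < r + (m + 1) → (j : ℕ) < r → (k : ℕ) < r →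
      φ (d.f i j k) = d'.f i j k)
    (hg : ∀ i j k : Fin (r + (m + 1) + s), r ≤ (i : ℕ) → r + (m + 1) ≤ (j : ℕ) →
      r + (m + 1) ≤ (k : ℕ) → φ (d.g i j k) = d'.g i j k)
    (h : (pulsar r (m + 1) s).H) (x y : (pulsar r (m + 1) s).Pos) (hv : Valid h x y) :
    φ (d.val h x y) = d'.val h x y := by
  have q1 : ∀ (i z : Fin (r + (m + 1) + s)), (i : ℕ) < r + (m + 1) →
      φ (d.q z (max i z)) = d'.q z (max i z) := by
    intro i z hi
    rcases le_total i z with h1 | h1
    · rw [max_eq_right h1, d.q_self, d'.q_self, map_one]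
    · rw [max_eq_left h1]
      exact hq z i (lt_of_le_of_lt h1 hi) hi
  have p1 : ∀ (j z : Fin (r + (m + 1) + s)), r ≤ (j : ℕ) →
      φ (d.p z (min j z)) = d'.p z (min j z) := by
    intro j z hj
    rcases le_total z j with h1 | h1
    · rw [min_eq_right h1, d.p_self, d'.p_self, map_one]
    · rw [min_eq_left h1]
      exact hp z j (hj.trans h1) hj
  have P1 : ∀ (i j k : Fin (r + (m + 1) + s)), (i : ℕ) < r + (m + 1) →
      φ (d.P2 i j k) = d'.P2 i j k := by
    intro i j k hi
    unfold PData.P2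
    by_cases h1 : (j : ℕ) < r ∧ (k : ℕ) < r
    · rw [if_pos h1, if_pos h1]
      exact hf i j k hi h1.1 h1.2
    rw [if_neg h1, if_neg h1]
    have hmax : r ≤ ((max j k : Fin (r + (m + 1) + s)) : ℕ) := by
      by_contra h2
      apply h1
      have h3 : j ≤ max j k := le_max_left _ _
      have h4 : k ≤ max j k := le_max_right _ _
      rw [Fin.le_def] at h3 h4
      omega
    by_cases h2 : i ≤ min j k
    · rw [if_pos h2, if_pos h2, map_one]
    rw [if_neg h2, if_neg h2]
    have h2' : ((min j k : Fin (r + (m + 1) + s)) : ℕ) < r + (m + 1) := by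
      have := not_le.mp h2
      rw [Fin.lt_def] at this
      omega
    by_cases h3 : i ≤ max j k
    · rw [if_pos h3, if_pos h3]
      exact hq _ _ h2' hi
    · rw [if_neg h3, if_neg h3, map_mul]
      have h3' := not_le.mp h3
      rw [Fin.lt_def] at h3'
      rw [hq _ _ h2' hi, hp _ _ (by omega) hmax]
  have Q1 : ∀ (j i k : Fin (r + (m + 1) + s)), r ≤ (j : ℕ) →
      φ (d.Q2 j i k) = d'.Q2 j i k := by
    intro j i k hj
    unfold PData.Q2
    by_cases h1 : r + (m + 1) ≤ (i : ℕ) ∧ r + (m + 1) ≤ (k : ℕ)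
    · rw [if_pos h1, if_pos h1]
      exact hg j i k hj h1.1 h1.2
    rw [if_neg h1, if_neg h1]
    have hmin : ((min i k : Fin (r + (m + 1) + s)) : ℕ) < r + (m + 1) := by
      by_contra h2
      apply h1
      have h3 : min i k ≤ i := min_le_left _ _
      have h4 : min i k ≤ k := min_le_right _ _
      rw [Fin.le_def] at h3 h4
      omega
    by_cases h2 : max i k ≤ j
    · rw [if_pos h2, if_pos h2, map_one]
    rw [if_neg h2, if_neg h2]
    have h2' : r ≤ ((max i k : Fin (r + (m + 1) + s)) : ℕ) := by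
      have := not_le.mp h2
      rw [Fin.lt_def] at this
      omega
    by_cases h3 : min i k ≤ j
    · rw [if_pos h3, if_pos h3]
      exact hp _ _ h2' hj
    · rw [if_neg h3, if_neg h3, map_mul]
      have h3' := not_le.mp h3
      rw [Fin.lt_def] at h3'
      rw [hp _ _ h2' hj, hq _ _ (by omega) hmin]
  obtain ⟨⟨b, i⟩, hh⟩ := h
  obtain ⟨hx, hy, hxy⟩ := hv
  cases b
  · have hi : (i : ℕ) < r + (m + 1) := hh.1 rfl
    rcases x with v | a
    · cases v
      · exact absurd rfl hx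
      · rcases y with w | c
        · cases w
          · exact absurd rfl hy
          · exact absurd ⟨rfl, rfl⟩ (hxy true)
        · exact q1 i c hi
    · rcases y with w | c
      · cases w
        · exact absurd rfl hy
        · exact q1 i a hi
      · exact P1 i a c hi
  · have hi : r ≤ (i : ℕ) := hh.2 rfl
    rcases x with v | a
    · cases v
      · rcases y with w | c
        · cases w
          · exact absurd ⟨rfl, rfl⟩ (hxy false)
          · exact absurd rfl hy
        · exact p1 i c hi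
      · exact absurd rfl hx
    · rcases y with w | c
      · cases w
        · exact p1 i a hi
        · exact absurd rfl hy
      · exact Q1 i a c hi

variable (hφ : ∀ (h : (pulsar r (m + 1) s).H) (x y : (pulsar r (m + 1) s).Pos), Valid h x y →
    φ (d.val h x y) = d'.val h x y)

include hφ

theorem p_of_val (x y : Fin (r + (m + 1) + s)) (hx : r ≤ (x : ℕ)) (hy : r ≤ (y : ℕ)) :
    φ (d.p x y) = d'.p x y := by
  have key : ∀ x y : Fin (r + (m + 1) + s), r ≤ (y : ℕ) → y ≤ x → φ (d.p x y) = d'.p x y := by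
    intro x y hy hyx
    have h := hφ (hQ y hy) (Sum.inl false) (Sum.inr x) ⟨by simp [hQ], by simp, by simp⟩
    change φ (d.p x (min y x)) = d'.p x (min y x) at h
    rwa [min_eq_left hyx] at h
  rcases le_total y x with h | h
  · exact key x y hy h
  · have h1 := key y x hx h
    rw [eq_inv_of_mul_eq_one_right (d.p_inv y x), eq_inv_of_mul_eq_one_right (d'.p_inv y x),
      map_inv, h1]

theorem q_of_val (x y : Fin (r + (m + 1) + s)) (hx : (x : ℕ) < r + (m + 1))
    (hy : (y : ℕ) < r + (m + 1)) : φ (d.q x y) = d'.q x y := by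
  have key : ∀ x y : Fin (r + (m + 1) + s), (y : ℕ) < r + (m + 1) → x ≤ y →
      φ (d.q x y) = d'.q x y := by
    intro x y hy hyx
    have h := hφ (hP y hy) (Sum.inl true) (Sum.inr x) ⟨by simp [hP], by simp, by simp⟩
    change φ (d.q x (max y x)) = d'.q x (max y x) at h
    rwa [max_eq_left hyx] at h
  rcases le_total x y with h | h
  · exact key x y hy h
  · have h1 := key y x hx h
    rw [eq_inv_of_mul_eq_one_right (d.q_inv y x), eq_inv_of_mul_eq_one_right (d'.q_inv y x),
      map_inv, h1]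

theorem f_of_val (i j k : Fin (r + (m + 1) + s)) (hi : (i : ℕ) < r + (m + 1)) (hj : (j : ℕ) < r)
    (hk : (k : ℕ) < r) : φ (d.f i j k) = d'.f i j k := by
  have h := hφ (hP i hi) (Sum.inr j) (Sum.inr k) ⟨by simp, by simp, by simp⟩
  change φ (d.P2 i j k) = d'.P2 i j k at h
  unfold PData.P2 at h
  rwa [if_pos ⟨hj, hk⟩, if_pos ⟨hj, hk⟩] at h

theorem g_of_val (i j k : Fin (r + (m + 1) + s)) (hi : r ≤ (i : ℕ))
    (hj : r + (m + 1) ≤ (j : ℕ)) (hk : r + (m + 1) ≤ (k : ℕ)) :
    φ (d.g i j k) = d'.g i j k := by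
  have h := hφ (hQ i hi) (Sum.inr j) (Sum.inr k) ⟨by simp, by simp, by simp⟩
  change φ (d.Q2 i j k) = d'.Q2 i j k at h
  unfold PData.Q2 at h
  rwa [if_pos ⟨hj, hk⟩, if_pos ⟨hj, hk⟩] at h

end val

end main

end PB12

open PB12 in
theorem pulsar_iso {r m s : ℕ} {B : Type} [Group B]
    (u : UnivCocycle (pulsar r (m + 1) s)
      (fun h x y => PTup h x y ∨ PTdn (Nat.succ_pos m) h x y) B)
    (hE : ∀ (X : Type) [Group X] (d : PData r (m + 1) s (Nat.succ_pos m) X),
      ∃ c : Cocycle3 (pulsar r (m + 1) s) X, c.φ = d.val ∧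
        c.IsNorm (fun h x y => PTup h x y ∨ PTdn (Nat.succ_pos m) h x y))
    (hU : ∀ (X : Type) [Group X] (c : Cocycle3 (pulsar r (m + 1) s) X),
      c.IsNorm (fun h x y => PTup h x y ∨ PTdn (Nat.succ_pos m) h x y) →
      ∃ d : PData r (m + 1) s (Nat.succ_pos m) X, ∀ h x y, Valid h x y → c.φ h x y = d.val h x y) :
    Nonempty (B ≃* Monoid.Coprod (ThetaGroup (Fin (m + 1)) 0)
      (FreeGroup (PKappa r (m + 1) s (Nat.succ_pos m)))) := by
  obtain ⟨dB, hdB⟩ := hU B u.κ u.norm
  obtain ⟨c, hc, hcn⟩ := hE (TT r m s) dT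
  obtain ⟨f2, hf2⟩ := u.univ (TT r m s) c hcn
  have h2 : ∀ (h : (pulsar r (m + 1) s).H) (x y : (pulsar r (m + 1) s).Pos), Valid h x y →
      f2 (dB.val h x y) = (dT : PData r (m + 1) s (Nat.succ_pos m) (TT r m s)).val h x y := by
    intro h x y hv
    rw [← hdB h x y hv, hf2 h x y hv, hc]
  have h1 : ∀ (h : (pulsar r (m + 1) s).H) (x y : (pulsar r (m + 1) s).Pos), Valid h x y →
      F1 dB ((dT : PData r (m + 1) s (Nat.succ_pos m) (TT r m s)).val h x y) = dB.val h x y := by
    apply val_of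
    · intro x y hx hy
      exact F1_p dB hx hy
    · intro x y hx hy
      exact F1_q dB hx hy
    · intro i j k hi hj hk
      exact F1_f dB hi hj hk
    · intro i j k hi hj hk
      exact F1_g dB hi hj hk
  have e1 : (F1 dB).comp f2 = MonoidHom.id B := by
    have hset : Set.EqOn ((F1 dB).comp f2) (MonoidHom.id B)
        {g | ∃ h x y, Valid h x y ∧ g = u.κ.φ h x y} := by
      rintro g ⟨h, x, y, hv, rfl⟩
      show F1 dB (f2 (u.κ.φ h x y)) = u.κ.φ h x y
      rw [hdB h x y hv, h2 h x y hv, h1 h x y hv]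
    exact MonoidHom.eq_of_eqOn_dense u.gen hset
  have e2 : f2.comp (F1 dB) = MonoidHom.id (TT r m s) := by
    apply Monoid.Coprod.hom_ext
    · apply theta_ext
      · intro x y
        show f2 (F1 dB (Monoid.Coprod.inl (ThetaGroup.P x y))) = Monoid.Coprod.inl (ThetaGroup.P x y)
        rw [F1_inl, thetaLift_P]
        show f2 (dB.p (em x) (em y)) = _
        rw [p_of_val dB dT f2 h2 _ _ em_le em_le]
        show pT (em x) (em y) = _
        rw [pT_par em_le em_lt em_le em_lt, de_em, de_em]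
      · intro x y
        show f2 (F1 dB (Monoid.Coprod.inl (ThetaGroup.Q x y))) = Monoid.Coprod.inl (ThetaGroup.Q x y)
        rw [F1_inl, thetaLift_Q]
        show f2 (dB.q (em x) (em y)) = _
        rw [q_of_val dB dT f2 h2 _ _ em_lt em_lt]
        show qT (em x) (em y) = _
        rw [qT_par em_le em_lt em_le em_lt, de_em, de_em]
    · apply FreeGroup.ext_hom
      rintro ((⟨⟨x, y⟩, k1, k2, k3, k4⟩ | ⟨⟨x, y⟩, k1, k2, k3, k4⟩) |
        (⟨⟨i, j, k⟩, k1, k2, k3, k4, k5⟩ | ⟨⟨i, j, k⟩, k1, k2, k3, k4, k5⟩))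
      · have t : F1 dB (Monoid.Coprod.inr (FreeGroup.of (Sum.inl (Sum.inl
          ⟨(x, y), k1, k2, k3, k4⟩)))) = dB.p x y := by simp [F1]
        show f2 (F1 dB (Monoid.Coprod.inr (FreeGroup.of (Sum.inl (Sum.inl
          ⟨(x, y), k1, k2, k3, k4⟩))))) = Monoid.Coprod.inr (FreeGroup.of (Sum.inl (Sum.inl
          ⟨(x, y), k1, k2, k3, k4⟩)))
        have k2' : x < y := k2
        rw [t, p_of_val dB dT f2 h2 _ _ k1 (k1.trans k2'.le)]
        show pT x y = _
        unfold pT
        rw [if_pos k2']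
        unfold pl
        rw [dif_pos ⟨k1, k2⟩, dif_neg (not_lt.mpr k3), dif_neg k4]
      · have t : F1 dB (Monoid.Coprod.inr (FreeGroup.of (Sum.inl (Sum.inr
          ⟨(x, y), k1, k2, k3, k4⟩)))) = dB.q x y := by simp [F1]
        show f2 (F1 dB (Monoid.Coprod.inr (FreeGroup.of (Sum.inl (Sum.inr
          ⟨(x, y), k1, k2, k3, k4⟩))))) = Monoid.Coprod.inr (FreeGroup.of (Sum.inl (Sum.inr
          ⟨(x, y), k1, k2, k3, k4⟩)))
        have k2' : x < y := k2
        rw [t, q_of_val dB dT f2 h2 _ _ (lt_trans k2' k3) k3]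
        show qT x y = _
        unfold qT
        rw [if_pos k2']
        unfold ql
        rw [dif_pos ⟨k3, k2⟩, dif_neg (not_le.mpr k1), dif_neg k4]
      · have t : F1 dB (Monoid.Coprod.inr (FreeGroup.of (Sum.inr (Sum.inl
          ⟨(i, j, k), k1, k2, k3, k4, k5⟩)))) = dB.f i j k := by simp [F1]
        show f2 (F1 dB (Monoid.Coprod.inr (FreeGroup.of (Sum.inr (Sum.inl
          ⟨(i, j, k), k1, k2, k3, k4, k5⟩))))) = Monoid.Coprod.inr (FreeGroup.of (Sum.inr (Sum.inl
          ⟨(i, j, k), k1, k2, k3, k4, k5⟩)))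
        have k2' : j ≤ k := k2
        rw [t, f_of_val dB dT f2 h2 _ _ _ k1 (lt_of_le_of_lt k2' k3) k3]
        show fT i j k = _
        have m1 : min j k = j := min_eq_left k2'
        have m2 : max j k = k := max_eq_right k2'
        unfold fT
        simp only [m1, m2]
        rw [dif_pos ⟨k1, k3, k4, k5⟩]
      · have t : F1 dB (Monoid.Coprod.inr (FreeGroup.of (Sum.inr (Sum.inr
          ⟨(i, j, k), k1, k2, k3, k4, k5⟩)))) = dB.g i j k := by simp [F1]
        show f2 (F1 dB (Monoid.Coprod.inr (FreeGroup.of (Sum.inr (Sum.inr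
          ⟨(i, j, k), k1, k2, k3, k4, k5⟩))))) = Monoid.Coprod.inr (FreeGroup.of (Sum.inr (Sum.inr
          ⟨(i, j, k), k1, k2, k3, k4, k5⟩)))
        have k2' : j ≤ k := k2
        rw [t, g_of_val dB dT f2 h2 _ _ _ k1 k3 (k3.trans k2')]
        show gT i j k = _
        have m1 : min j k = j := min_eq_left k2'
        have m2 : max j k = k := max_eq_right k2'
        unfold gT
        simp only [m1, m2]
        rw [dif_pos ⟨k1, k3, k4, k5⟩]
  exact ⟨MonoidHom.toMulEquiv f2 (F1 dB) e1 e2⟩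

end Pool.Agent.Helper29.PB
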