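import Pool.Agent.Helper29.PB.PDefs
namespace Pool.Agent.Helper29.PB
open HGraph

private theorem h55_ms2 {α : Type*} {b c b' c' : α}
    (h : ({b, c} : Multiset α) = {b', c'}) : (b = b' ∧ c = c') ∨ (b = c' ∧ c = b') := by
  have hb : b ∈ ({b', c'} : Multiset α) := by rw [← h]; simp
  have hb' : b = b' ∨ b = c' := by simpa using hb
  rcases hb' with rfl | rfl
  · left
    have h1 : b ::ₘ ({c} : Multiset α) = b ::ₘ {c'} := h
    rw [Multiset.cons_inj_right, Multiset.singleton_inj] at h1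
    exact ⟨rfl, h1⟩
  · right
    have h1 : b ::ₘ ({c} : Multiset α) = b ::ₘ {b'} := by
      rw [show (b ::ₘ ({b'} : Multiset α)) = {b', b} from Multiset.pair_comm _ _]
      exact h
    rw [Multiset.cons_inj_right, Multiset.singleton_inj] at h1
    exact ⟨rfl, h1⟩

private theorem h55_ms3 {α : Type*} {a b c a' b' c' : α}
    (h : (a ::ₘ ({b, c} : Multiset α)) = a' ::ₘ {b', c'}) :
    (a = a' ∧ b = b' ∧ c = c') ∨ (a = a' ∧ b = c' ∧ c = b') ∨ (a = b' ∧ b = a' ∧ c = c') ∨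
      (a = b' ∧ b = c' ∧ c = a') ∨ (a = c' ∧ b = a' ∧ c = b') ∨ (a = c' ∧ b = b' ∧ c = a') := by
  have ha : a ∈ (a' ::ₘ ({b', c'} : Multiset α)) := by rw [← h]; simp
  have ha' : a = a' ∨ a = b' ∨ a = c' := by simpa using ha
  rcases ha' with rfl | rfl | rfl
  · rw [Multiset.cons_inj_right] at h
    rcases h55_ms2 h with ⟨h1, h2⟩ | ⟨h1, h2⟩
    · exact Or.inl ⟨rfl, h1, h2⟩
    · exact Or.inr (Or.inl ⟨rfl, h1, h2⟩)
  · have h0 : a' ::ₘ ({a, c'} : Multiset α) = a ::ₘ {a', c'} := Multiset.cons_swap _ _ _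
    rw [h0, Multiset.cons_inj_right] at h
    rcases h55_ms2 h with ⟨h1, h2⟩ | ⟨h1, h2⟩
    · exact Or.inr (Or.inr (Or.inl ⟨rfl, h1, h2⟩))
    · exact Or.inr (Or.inr (Or.inr (Or.inl ⟨rfl, h1, h2⟩)))
  · have h0 : a' ::ₘ ({b', a} : Multiset α) = a ::ₘ {a', b'} := by
      rw [Multiset.pair_comm b' a]
      exact Multiset.cons_swap _ _ _
    rw [h0, Multiset.cons_inj_right] at h
    rcases h55_ms2 h with ⟨h1, h2⟩ | ⟨h1, h2⟩
    · exact Or.inr (Or.inr (Or.inr (Or.inr (Or.inl ⟨rfl, h1, h2⟩))))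
    · exact Or.inr (Or.inr (Or.inr (Or.inr (Or.inr ⟨rfl, h1, h2⟩))))

section h55

variable {r m s : ℕ}

/-- canonical form of the upward tree moves -/
private theorem h55_up {h : (pulsar r m s).H} {x y : (pulsar r m s).Pos} (H : PTup h x y) :
    ∃ (v : Bool) (k : Fin (r + m + s)) (hk : (v = false → (k : ℕ) < r + m) ∧ (v = true → r ≤ (k : ℕ)))
      (x' y' : (pulsar r m s).Pos), h = ⟨(v, k), hk⟩ ∧ ({x, y} : Multiset _) = {x', y'} ∧
      ((v = true ∧ x' = pV false ∧ ∃ j : Fin (r + m + s), (j : ℕ) ≤ k ∧ y' = pE j) ∨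
       (v = false ∧ x' = pV true ∧ ∃ j : Fin (r + m + s), (k : ℕ) ≤ j ∧ y' = pE j) ∨
       (v = false ∧ ∃ b c : Fin (r + m + s), (k : ℕ) ≤ b ∧ (k : ℕ) ≤ c ∧ x' = pE b ∧ y' = pE c) ∨
       (v = true ∧ ∃ a b : Fin (r + m + s), r + m ≤ (a : ℕ) ∧ r + m ≤ (b : ℕ) ∧ (a : ℕ) ≤ k ∧
         (b : ℕ) ≤ k ∧ x' = pE a ∧ y' = pE b)) := by
  obtain ⟨⟨v, k⟩, hk⟩ := h
  refine ⟨v, k, hk, ?_⟩
  rcases H with ⟨hv, j, hj, ⟨hx, hy⟩ | ⟨hy, hx⟩⟩ | ⟨hv, j, hj, ⟨hx, hy⟩ | ⟨hy, hx⟩⟩ |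
    ⟨hv, b, c, hb, hc, hx, hy⟩ | ⟨hv, a, b, ha, hb, ha', hb', hx, hy⟩
  · exact ⟨x, y, rfl, rfl, Or.inl ⟨hv, hx, j, hj, hy⟩⟩
  · exact ⟨y, x, rfl, Multiset.pair_comm _ _, Or.inl ⟨hv, hy, j, hj, hx⟩⟩
  · exact ⟨x, y, rfl, rfl, Or.inr (Or.inl ⟨hv, hx, j, hj, hy⟩)⟩
  · exact ⟨y, x, rfl, Multiset.pair_comm _ _, Or.inr (Or.inl ⟨hv, hy, j, hj, hx⟩)⟩
  · exact ⟨x, y, rfl, rfl, Or.inr (Or.inr (Or.inl ⟨hv, b, c, hb, hc, hx, hy⟩))⟩
  · exact ⟨x, y, rfl, rfl, Or.inr (Or.inr (Or.inr ⟨hv, a, b, ha, hb, ha', hb', hx, hy⟩))⟩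

/-- canonical form of the downward tree moves -/
private theorem h55_dn {hm : 0 < m} {h : (pulsar r m s).H} {x y : (pulsar r m s).Pos}
    (H : PTdn hm h x y) :
    ∃ (v : Bool) (hk : (v = false → ((oo hm : Fin (r + m + s)) : ℕ) < r + m) ∧
        (v = true → r ≤ ((oo hm : Fin (r + m + s)) : ℕ)))
      (x' y' : (pulsar r m s).Pos), h = ⟨(v, oo hm), hk⟩ ∧ ({x, y} : Multiset _) = {x', y'} ∧
      ((v = true ∧ x' = pV false ∧ ∃ j : Fin (r + m + s), r < (j : ℕ) ∧ y' = pE j) ∨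
       (v = false ∧ x' = pV true ∧ ∃ j : Fin (r + m + s), (j : ℕ) < r ∧ y' = pE j) ∨
       (v = false ∧ ∃ b c : Fin (r + m + s), (b : ℕ) < r ∧ (c : ℕ) < r ∧ x' = pE b ∧ y' = pE c) ∨
       (v = true ∧ ∃ a b : Fin (r + m + s), r + m ≤ (a : ℕ) ∧ r + m ≤ (b : ℕ) ∧
         x' = pE a ∧ y' = pE b)) := by
  obtain ⟨⟨v, k⟩, hk⟩ := h
  obtain ⟨hko, H⟩ := H
  simp only at hko
  subst hko
  refine ⟨v, hk, ?_⟩
  rcases H with ⟨hv, j, hj, ⟨hx, hy⟩ | ⟨hy, hx⟩⟩ | ⟨hv, j, hj, ⟨hx, hy⟩ | ⟨hy, hx⟩⟩ |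
    ⟨hv, b, c, hb, hc, hx, hy⟩ | ⟨hv, a, b, ha, hb, hx, hy⟩
  · exact ⟨x, y, rfl, rfl, Or.inl ⟨hv, hx, j, hj, hy⟩⟩
  · exact ⟨y, x, rfl, Multiset.pair_comm _ _, Or.inl ⟨hv, hy, j, hj, hx⟩⟩
  · exact ⟨x, y, rfl, rfl, Or.inr (Or.inl ⟨hv, hx, j, hj, hy⟩)⟩
  · exact ⟨y, x, rfl, Multiset.pair_comm _ _, Or.inr (Or.inl ⟨hv, hy, j, hj, hx⟩)⟩
  · exact ⟨x, y, rfl, rfl, Or.inr (Or.inr (Or.inl ⟨hv, b, c, hb, hc, hx, hy⟩))⟩
  · exact ⟨x, y, rfl, rfl, Or.inr (Or.inr (Or.inr ⟨hv, a, b, ha, hb, hx, hy⟩))⟩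

private theorem h55_tgt {v : Bool} {k : Fin (r + m + s)}
    (hk : (v = false → (k : ℕ) < r + m) ∧ (v = true → r ≤ (k : ℕ)))
    {x y x' y' : (pulsar r m s).Pos} (h : ({x, y} : Multiset _) = {x', y'}) :
    mtgt (Γ := pulsar r m s) ⟨(v, k), hk⟩ x y = pE k ::ₘ {x', y'} := by
  rw [← h]
  rfl

private theorem h55_src {v : Bool} {k : Fin (r + m + s)}
    (hk : (v = false → (k : ℕ) < r + m) ∧ (v = true → r ≤ (k : ℕ)))
    {x y x' y' : (pulsar r m s).Pos} (h : ({x, y} : Multiset _) = {x', y'}) :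
    msrc (Γ := pulsar r m s) ⟨(v, k), hk⟩ x y = pV v ::ₘ {x', y'} := by
  rw [← h]
  rfl

private theorem h55_VV {u v : Bool} : (pV u : (pulsar r m s).Pos) = pV v ↔ u = v := by
  unfold pV
  exact Sum.inl_injective.eq_iff

private theorem h55_EE {i j : Fin (r + m + s)} :
    (pE i : (pulsar r m s).Pos) = pE j ↔ (i : ℕ) = j := by
  unfold pE
  rw [← Fin.ext_iff]
  exact Sum.inr_injective.eq_iff

private theorem h55_VE {u : Bool} {j : Fin (r + m + s)} :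
    (pV u : (pulsar r m s).Pos) = pE j ↔ False := by
  unfold pV pE
  simp

private theorem h55_EV {u : Bool} {j : Fin (r + m + s)} :
    (pE j : (pulsar r m s).Pos) = pV u ↔ False := by
  unfold pV pE
  simp

/-- elimination of an equality of two states of three edges and vertices -/
private theorem h55_up_unique {h : (pulsar r m s).H} {x y : (pulsar r m s).Pos}
    {h' : (pulsar r m s).H} {x' y' : (pulsar r m s).Pos} (H : PTup h x y) (H' : PTup h' x' y')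
    (he : mtgt h x y = mtgt h' x' y') :
    h = h' ∧ ({x, y} : Multiset (pulsar r m s).Pos) = {x', y'} := by
  obtain ⟨v, k, hk, x1, y1, rfl, hxy, hc⟩ := h55_up H
  obtain ⟨v', k', hk', x1', y1', rfl, hxy', hc'⟩ := h55_up H'
  rw [h55_tgt hk hxy, h55_tgt hk' hxy'] at he
  rw [hxy, hxy']
  have key : v = v' ∧ (k : ℕ) = k' := by
    rcases hc with ⟨hv, hx, j, hj, hy⟩ | ⟨hv, hx, j, hj, hy⟩ | ⟨hv, b, c, g1, g2, hx, hy⟩ |
      ⟨hv, b, c, g1, g2, g3, g4, hx, hy⟩ <;>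
    rcases hc' with ⟨hv', hx', j', hj', hy'⟩ | ⟨hv', hx', j', hj', hy'⟩ |
      ⟨hv', b', c', hb1, hc1, hx', hy'⟩ | ⟨hv', b', c', hb1, hc1, hb1', hc1', hx', hy'⟩ <;>
    subst hv hv' hx hy hx' hy' <;>
    rcases h55_ms3 he with ⟨e1, e2, e3⟩ | ⟨e1, e2, e3⟩ | ⟨e1, e2, e3⟩ | ⟨e1, e2, e3⟩ |
      ⟨e1, e2, e3⟩ | ⟨e1, e2, e3⟩ <;>
    simp only [h55_EE, h55_VV, h55_VE, h55_EV, reduceCtorEq] at e1 e2 e3 <;>
    first
      | exact ⟨rfl, by omega⟩
      | (exfalso; have h1 := hk.1; have h2 := hk'.1; simp only [forall_const] at h1 h2; omega)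
  obtain ⟨hv, hkk⟩ := key
  have hkk' : k = k' := Fin.ext hkk
  subst hv hkk'
  refine ⟨rfl, ?_⟩
  rwa [Multiset.cons_inj_right] at he

private theorem h55_dn_unique {hm : 0 < m} {h : (pulsar r m s).H} {x y : (pulsar r m s).Pos}
    {h' : (pulsar r m s).H} {x' y' : (pulsar r m s).Pos} (H : PTdn hm h x y)
    (H' : PTdn hm h' x' y') (he : msrc h x y = msrc h' x' y') :
    h = h' ∧ ({x, y} : Multiset (pulsar r m s).Pos) = {x', y'} := by
  obtain ⟨v, hk, x1, y1, rfl, hxy, hc⟩ := h55_dn H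
  obtain ⟨v', hk', x1', y1', rfl, hxy', hc'⟩ := h55_dn H'
  rw [h55_src hk hxy, h55_src hk' hxy'] at he
  rw [hxy, hxy']
  have key : v = v' := by
    rcases hc with ⟨hv, hx, j, hj, hy⟩ | ⟨hv, hx, j, hj, hy⟩ | ⟨hv, b, c, g1, g2, hx, hy⟩ |
      ⟨hv, b, c, g1, g2, hx, hy⟩ <;>
    rcases hc' with ⟨hv', hx', j', hj', hy'⟩ | ⟨hv', hx', j', hj', hy'⟩ |
      ⟨hv', b', c', hb1, hc1, hx', hy'⟩ | ⟨hv', b', c', hb1, hc1, hx', hy'⟩ <;>
    subst hv hv' hx hy hx' hy' <;>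
    rcases h55_ms3 he with ⟨e1, e2, e3⟩ | ⟨e1, e2, e3⟩ | ⟨e1, e2, e3⟩ | ⟨e1, e2, e3⟩ |
      ⟨e1, e2, e3⟩ | ⟨e1, e2, e3⟩ <;>
    simp only [h55_EE, h55_VV, h55_VE, h55_EV, reduceCtorEq] at e1 e2 e3 <;>
    first
      | rfl
      | (exfalso; omega)
  subst key
  refine ⟨rfl, ?_⟩
  rwa [Multiset.cons_inj_right] at he

private theorem h55_up_dn {hm : 0 < m} {h : (pulsar r m s).H} {x y : (pulsar r m s).Pos}
    {h' : (pulsar r m s).H} {x' y' : (pulsar r m s).Pos} (H : PTup h x y)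
    (H' : PTdn hm h' x' y') (he : mtgt h x y = msrc h' x' y') : False := by
  obtain ⟨v, k, hk, x1, y1, rfl, hxy, hc⟩ := h55_up H
  obtain ⟨v', hk', x1', y1', rfl, hxy', hc'⟩ := h55_dn H'
  rw [h55_tgt hk hxy, h55_src hk' hxy'] at he
  rcases hc with ⟨hv, hx, j, hj, hy⟩ | ⟨hv, hx, j, hj, hy⟩ | ⟨hv, b, c, g1, g2, hx, hy⟩ |
      ⟨hv, b, c, g1, g2, g3, g4, hx, hy⟩ <;>
    rcases hc' with ⟨hv', hx', j', hj', hy'⟩ | ⟨hv', hx', j', hj', hy'⟩ |
      ⟨hv', b', c', hb1, hc1, hx', hy'⟩ | ⟨hv', b', c', hb1, hc1, hx', hy'⟩ <;>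
    subst hv hv' hx hy hx' hy' <;>
    rcases h55_ms3 he with ⟨e1, e2, e3⟩ | ⟨e1, e2, e3⟩ | ⟨e1, e2, e3⟩ | ⟨e1, e2, e3⟩ |
      ⟨e1, e2, e3⟩ | ⟨e1, e2, e3⟩ <;>
    simp only [h55_EE, h55_VV, h55_VE, h55_EV, reduceCtorEq] at e1 e2 e3 <;>
    (have h1 := hk.1; have h2 := hk.2; simp only [forall_const, reduceCtorEq, false_imp_iff] at h1 h2; omega)

set_option linter.unusedSimpArgs false in
private theorem h55_up_ne {hm : 0 < m} {h : (pulsar r m s).H} {x y : (pulsar r m s).Pos}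
    (H : PTup h x y) : mtgt h x y ≠ (pBase hm : (pulsar r m s).State 3).1 := by
  intro he
  obtain ⟨v, k, hk, x1, y1, rfl, hxy, hc⟩ := h55_up H
  rw [h55_tgt hk hxy, show (pBase hm : (pulsar r m s).State 3).1 =
    pV false ::ₘ {pV true, pE (oo hm)} from rfl] at he
  rcases hc with ⟨hv, hx, j, hj, hy⟩ | ⟨hv, hx, j, hj, hy⟩ | ⟨hv, b, c, g1, g2, hx, hy⟩ |
      ⟨hv, b, c, g1, g2, g3, g4, hx, hy⟩ <;>
    subst hv hx hy <;>
    rcases h55_ms3 he with ⟨e1, e2, e3⟩ | ⟨e1, e2, e3⟩ | ⟨e1, e2, e3⟩ | ⟨e1, e2, e3⟩ |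
      ⟨e1, e2, e3⟩ | ⟨e1, e2, e3⟩ <;>
    simp only [h55_EE, h55_VV, h55_VE, h55_EV, reduceCtorEq] at e1 e2 e3

private theorem h55_dn_ne {hm : 0 < m} {h : (pulsar r m s).H} {x y : (pulsar r m s).Pos}
    (H : PTdn hm h x y) : msrc h x y ≠ (pBase hm : (pulsar r m s).State 3).1 := by
  intro he
  obtain ⟨v, hk, x1, y1, rfl, hxy, hc⟩ := h55_dn H
  rw [h55_src hk hxy, show (pBase hm : (pulsar r m s).State 3).1 =
    pV false ::ₘ {pV true, pE (oo hm)} from rfl] at he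
  have hr : ((oo hm : Fin (r + m + s)) : ℕ) = r := rfl
  rcases hc with ⟨hv, hx, j, hj, hy⟩ | ⟨hv, hx, j, hj, hy⟩ | ⟨hv, b, c, g1, g2, hx, hy⟩ |
      ⟨hv, b, c, g1, g2, hx, hy⟩ <;>
    subst hv hx hy <;>
    rcases h55_ms3 he with ⟨e1, e2, e3⟩ | ⟨e1, e2, e3⟩ | ⟨e1, e2, e3⟩ | ⟨e1, e2, e3⟩ |
      ⟨e1, e2, e3⟩ | ⟨e1, e2, e3⟩ <;>
    simp only [h55_EE, h55_VV, h55_VE, h55_EV, reduceCtorEq] at e1 e2 e3 <;> omega

/-- reachability -/
private abbrev h55R (hm : 0 < m) : Multiset (pulsar r m s).Pos → Prop :=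
  Reach (Γ := pulsar r m s) PTup (PTdn hm) (pBase hm : (pulsar r m s).State 3).1

private theorem h55_c (a b c : (pulsar r m s).Pos) :
    (a ::ₘ ({b, c} : Multiset (pulsar r m s).Pos)) = b ::ₘ {a, c} := Multiset.cons_swap _ _ _

private theorem h55_d (a b c : (pulsar r m s).Pos) :
    (a ::ₘ ({b, c} : Multiset (pulsar r m s).Pos)) = a ::ₘ {c, b} := by
  rw [Multiset.pair_comm]

private theorem h55_validE (v : Bool) (k : Fin (r + m + s))
    (hk : (v = false → (k : ℕ) < r + m) ∧ (v = true → r ≤ (k : ℕ))) (a b : Fin (r + m + s)) :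
    Valid (Γ := pulsar r m s) ⟨(v, k), hk⟩ (pE a) (pE b) := by
  refine ⟨?_, ?_, ?_⟩ <;> simp [pE]

private theorem h55_validV (v : Bool) (k : Fin (r + m + s))
    (hk : (v = false → (k : ℕ) < r + m) ∧ (v = true → r ≤ (k : ℕ))) (u : Bool) (hu : u ≠ v)
    (b : Fin (r + m + s)) :
    Valid (Γ := pulsar r m s) ⟨(v, k), hk⟩ (pV u) (pE b) := by
  refine ⟨?_, ?_, ?_⟩ <;> simp [pE, pV, hu]

/-- `(pq;z)` -/
private theorem h55_R1 (hm : 0 < m) (z : Fin (r + m + s)) :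
    h55R hm (pV false ::ₘ {pV true, pE z}) := by
  have hb : h55R hm (pV false ::ₘ {pV true, pE (oo hm : Fin (r + m + s))}) := Reach.base
  rcases lt_trichotomy z (oo hm) with hz | hz | hz
  · -- z < o
    have hz' : (z : ℕ) < r := hz
    have h1 : h55R hm (mtgt (Γ := pulsar r m s) (hP z (by omega)) (pV true) (pE (oo hm))) := by
      refine Reach.up _ _ _ (h55_validV _ _ _ _ (by decide) _) ?_ hb
      exact Or.inr (Or.inl ⟨rfl, oo hm, hz.le, Or.inl ⟨rfl, rfl⟩⟩)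
    have h2 : mtgt (Γ := pulsar r m s) (hP z (by omega)) (pV true) (pE (oo hm)) =
        mtgt (Γ := pulsar r m s) (hP (oo hm) (by unfold oo; simp only; omega)) (pV true) (pE z) := by
      change pE z ::ₘ {pV true, pE (oo hm)} = pE (oo hm) ::ₘ {pV true, pE z}
      rw [h55_d, h55_c, h55_d]
    rw [h2] at h1
    exact Reach.dn _ _ _ (h55_validV _ _ _ _ (by decide) _)
      ⟨rfl, Or.inr (Or.inl ⟨rfl, z, hz, Or.inl ⟨rfl, rfl⟩⟩)⟩ h1
  · rw [hz]
    exact hb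
  · have hz' : r < (z : ℕ) := hz
    have hb' : h55R hm (msrc (Γ := pulsar r m s) (hQ z (by omega)) (pV false) (pE (oo hm))) := by
      change h55R hm (pV true ::ₘ {pV false, pE (oo hm)})
      rw [h55_c]
      exact hb
    have h1 : h55R hm (mtgt (Γ := pulsar r m s) (hQ z (by omega)) (pV false) (pE (oo hm))) := by
      refine Reach.up _ _ _ (h55_validV _ _ _ _ (by decide) _) ?_ hb'
      exact Or.inl ⟨rfl, oo hm, hz.le, Or.inl ⟨rfl, rfl⟩⟩
    have h2 : mtgt (Γ := pulsar r m s) (hQ z (by omega)) (pV false) (pE (oo hm)) =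
        mtgt (Γ := pulsar r m s) (hQ (oo hm) (by unfold oo; simp only; omega)) (pV false) (pE z) := by
      change pE z ::ₘ {pV false, pE (oo hm)} = pE (oo hm) ::ₘ {pV false, pE z}
      rw [h55_d, h55_c, h55_d]
    rw [h2] at h1
    have h3 := Reach.dn _ _ _ (h55_validV _ _ _ _ (by decide) _)
      (show PTdn hm (hQ (oo hm) (by unfold oo; simp only; omega)) (pV false) (pE z) from
        ⟨rfl, Or.inl ⟨rfl, z, hz, Or.inl ⟨rfl, rfl⟩⟩⟩) h1
    have h4 : h55R hm (pV true ::ₘ {pV false, pE z}) := h3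
    rwa [h55_c] at h4

/-- `(p;jk)` with `j ≤ k`, `r ≤ k` -/
private theorem h55_R2a (hm : 0 < m) (j k : Fin (r + m + s)) (hjk : j ≤ k) (hk : r ≤ (k : ℕ)) :
    h55R hm (pV false ::ₘ {pE j, pE k}) := by
  have hb' : h55R hm (msrc (Γ := pulsar r m s) (hQ k hk) (pV false) (pE j)) := by
    change h55R hm (pV true ::ₘ {pV false, pE j})
    rw [h55_c]
    exact h55_R1 hm j
  have h1 : h55R hm (mtgt (Γ := pulsar r m s) (hQ k hk) (pV false) (pE j)) := by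
    refine Reach.up _ _ _ (h55_validV _ _ _ _ (by decide) _) ?_ hb'
    exact Or.inl ⟨rfl, j, hjk, Or.inl ⟨rfl, rfl⟩⟩
  have h2 : h55R hm (pE k ::ₘ {pV false, pE j}) := h1
  rwa [h55_c, h55_d] at h2

/-- `(q;jk)` with `j ≤ k`, `j < r + m` -/
private theorem h55_R3a (hm : 0 < m) (j k : Fin (r + m + s)) (hjk : j ≤ k)
    (hj : (j : ℕ) < r + m) : h55R hm (pV true ::ₘ {pE j, pE k}) := by
  have hb' : h55R hm (msrc (Γ := pulsar r m s) (hP j hj) (pV true) (pE k)) := by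
    change h55R hm (pV false ::ₘ {pV true, pE k})
    exact h55_R1 hm k
  have h1 : h55R hm (mtgt (Γ := pulsar r m s) (hP j hj) (pV true) (pE k)) := by
    refine Reach.up _ _ _ (h55_validV _ _ _ _ (by decide) _) ?_ hb'
    exact Or.inr (Or.inl ⟨rfl, k, hjk, Or.inl ⟨rfl, rfl⟩⟩)
  have h2 : h55R hm (pE j ::ₘ {pV true, pE k}) := h1
  rwa [h55_c] at h2

/-- `{a ≤ b ≤ c}` with `a < r + m`, `r ≤ c` -/
private theorem h55_R4a (hm : 0 < m) (a b c : Fin (r + m + s)) (hab : a ≤ b) (hbc : b ≤ c)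
    (ha : (a : ℕ) < r + m) (hc : r ≤ (c : ℕ)) : h55R hm (pE a ::ₘ {pE b, pE c}) := by
  have h1 : h55R hm (mtgt (Γ := pulsar r m s) (hP a ha) (pE b) (pE c)) := by
    refine Reach.up _ _ _ (h55_validE _ _ _ _ _) ?_ (h55_R2a hm b c hbc hc)
    exact Or.inr (Or.inr (Or.inl ⟨rfl, b, c, hab, hab.trans hbc, rfl, rfl⟩))
  exact h1

/-- `(p;jk)` with `j, k < r` -/
private theorem h55_R2b (hm : 0 < m) (j k : Fin (r + m + s)) (hjk : j ≤ k) (hk : (k : ℕ) < r) :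
    h55R hm (pV false ::ₘ {pE j, pE k}) := by
  have hjk' : (j : ℕ) ≤ k := hjk
  have h1 := h55_R4a hm j k (oo hm) hjk (show (k : ℕ) ≤ r by omega) (by omega)
    (by unfold oo; simp)
  have h2 : h55R hm (mtgt (Γ := pulsar r m s) (hP (oo hm) (by unfold oo; simp only; omega))
      (pE j) (pE k)) := by
    change h55R hm (pE (oo hm) ::ₘ {pE j, pE k})
    rw [h55_c, h55_d]
    exact h1
  exact Reach.dn _ _ _ (h55_validE _ _ _ _ _)
    ⟨rfl, Or.inr (Or.inr (Or.inl ⟨rfl, j, k, show (j : ℕ) < r by omega, hk, rfl, rfl⟩))⟩ h2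

/-- `(q;jk)` with `j, k ≥ r + m` -/
private theorem h55_R3b (hm : 0 < m) (j k : Fin (r + m + s)) (hjk : j ≤ k)
    (hj : r + m ≤ (j : ℕ)) : h55R hm (pV true ::ₘ {pE j, pE k}) := by
  have hjk' : (j : ℕ) ≤ k := hjk
  have h1 := h55_R4a hm (oo hm) j k (show r ≤ (j : ℕ) by omega) hjk (by unfold oo; simp only; omega)
    (by omega)
  have h2 : h55R hm (mtgt (Γ := pulsar r m s) (hQ (oo hm) (by unfold oo; simp))
      (pE j) (pE k)) := h1
  exact Reach.dn _ _ _ (h55_validE _ _ _ _ _)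
    ⟨rfl, Or.inr (Or.inr (Or.inr ⟨rfl, j, k, hj, by omega, rfl, rfl⟩))⟩ h2

private theorem h55_R2 (hm : 0 < m) (j k : Fin (r + m + s)) :
    h55R hm (pV false ::ₘ {pE j, pE k}) := by
  rcases le_total j k with h | h
  · rcases Nat.lt_or_ge (k : ℕ) r with hk | hk
    · exact h55_R2b hm j k h hk
    · exact h55_R2a hm j k h hk
  · rw [h55_d]
    rcases Nat.lt_or_ge (j : ℕ) r with hk | hk
    · exact h55_R2b hm k j h hk
    · exact h55_R2a hm k j h hk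

private theorem h55_R3 (hm : 0 < m) (j k : Fin (r + m + s)) :
    h55R hm (pV true ::ₘ {pE j, pE k}) := by
  rcases le_total j k with h | h
  · rcases Nat.lt_or_ge (j : ℕ) (r + m) with hk | hk
    · exact h55_R3a hm j k h hk
    · exact h55_R3b hm j k h hk
  · rw [h55_d]
    rcases Nat.lt_or_ge (k : ℕ) (r + m) with hk | hk
    · exact h55_R3a hm k j h hk
    · exact h55_R3b hm k j h hk

private theorem h55_R4s (hm : 0 < m) (a b c : Fin (r + m + s)) (hab : a ≤ b) (hbc : b ≤ c) :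
    h55R hm (pE a ::ₘ {pE b, pE c}) := by
  have hab' : (a : ℕ) ≤ b := hab
  have hbc' : (b : ℕ) ≤ c := hbc
  rcases Nat.lt_or_ge (a : ℕ) (r + m) with ha | ha
  · have h1 : h55R hm (mtgt (Γ := pulsar r m s) (hP a ha) (pE b) (pE c)) := by
      refine Reach.up _ _ _ (h55_validE _ _ _ _ _) ?_ (h55_R2 hm b c)
      exact Or.inr (Or.inr (Or.inl ⟨rfl, b, c, hab, hab.trans hbc, rfl, rfl⟩))
    exact h1
  · have h1 : h55R hm (mtgt (Γ := pulsar r m s) (hQ c (by omega)) (pE a) (pE b)) := by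
      refine Reach.up _ _ _ (h55_validE _ _ _ _ _) ?_ (h55_R3 hm a b)
      exact Or.inr (Or.inr (Or.inr ⟨rfl, a, b, ha, by omega, hab.trans hbc, hbc, rfl, rfl⟩))
    have h2 : h55R hm (pE c ::ₘ {pE a, pE b}) := h1
    rwa [h55_c, h55_d] at h2

private theorem h55_R4 (hm : 0 < m) (a b c : Fin (r + m + s)) :
    h55R hm (pE a ::ₘ {pE b, pE c}) := by
  rcases le_total a b with h1 | h1 <;> rcases le_total b c with h2 | h2 <;>
    rcases le_total a c with h3 | h3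
  · exact h55_R4s hm a b c h1 h2
  · exact h55_R4s hm a b c h1 h2
  · rw [h55_d]
    exact h55_R4s hm a c b h3 h2
  · rw [h55_d, h55_c]
    exact h55_R4s hm c a b h3 h1
  · rw [h55_c]
    exact h55_R4s hm b a c h1 h3
  · rw [h55_c, h55_d]
    exact h55_R4s hm b c a h2 h3
  · rw [h55_c, h55_d, h55_c]
    exact h55_R4s hm c b a h2 h1
  · rw [h55_c, h55_d, h55_c]
    exact h55_R4s hm c b a h2 h1

private theorem h55_reach (hm : 0 < m) (S : (pulsar r m s).State 3) : h55R hm S.1 := by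
  obtain ⟨M, hM, hV⟩ := S
  obtain ⟨x, y, z, rfl⟩ := Multiset.card_eq_three.1 hM
  change h55R hm (x ::ₘ {y, z})
  have hV' : ∀ v R, (x ::ₘ ({y, z} : Multiset (pulsar r m s).Pos)) ≠
    Sum.inl v ::ₘ Sum.inl v ::ₘ R := hV
  clear hM hV
  rcases x with u | a
  · rcases y with v | b
    · have huv : u ≠ v := by
        rintro rfl
        exact hV' u {z} rfl
      rcases z with w | c
      · exfalso
        have h1 : u ≠ w := by
          rintro rfl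
          exact hV' u {Sum.inl v} (h55_d _ _ _)
        have h2 : v ≠ w := by
          rintro rfl
          exact hV' v {Sum.inl u} (by rw [h55_c, h55_d]; rfl)
        have key : ∀ u v w : Bool, u ≠ v → u ≠ w → v ≠ w → False := by decide
        exact key u v w huv h1 h2
      · cases u <;> cases v
        · exact absurd rfl huv
        · exact h55_R1 hm c
        · rw [h55_c]
          exact h55_R1 hm c
        · exact absurd rfl huv
    · rcases z with w | c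
      · have huw : u ≠ w := by
          rintro rfl
          exact hV' u {Sum.inr b} (h55_d _ _ _)
        rw [h55_d]
        cases u <;> cases w
        · exact absurd rfl huw
        · exact h55_R1 hm b
        · rw [h55_c]
          exact h55_R1 hm b
        · exact absurd rfl huw
      · cases u
        · exact h55_R2 hm b c
        · exact h55_R3 hm b c
  · rcases y with v | b
    · rcases z with w | c
      · have hvw : v ≠ w := by
          rintro rfl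
          exact hV' v {Sum.inr a} (by rw [h55_c, h55_d]; rfl)
        rw [h55_c, h55_d]
        cases v <;> cases w
        · exact absurd rfl hvw
        · exact h55_R1 hm a
        · rw [h55_c]
          exact h55_R1 hm a
        · exact absurd rfl hvw
      · rw [h55_c]
        cases v
        · exact h55_R2 hm a c
        · exact h55_R3 hm a c
    · rcases z with w | c
      · rw [h55_d, h55_c]
        cases w
        · exact h55_R2 hm a b
        · exact h55_R3 hm a b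
      · exact h55_R4 hm a b c

end h55

/-- PB-10 -/
theorem exists_pulsarTree {r m s : ℕ} (hm : 0 < m) :
    ∃ T : Tree3 (pulsar r m s) (pBase hm), T.Tup = PTup ∧ T.Tdn = PTdn hm :=
  ⟨{ Tup := PTup
     Tdn := PTdn hm
     reach := h55_reach hm
     up_ne := fun _ _ _ _ H => h55_up_ne H
     dn_ne := fun _ _ _ _ H => h55_dn_ne H
     up_unique := fun _ _ _ _ _ _ _ _ H H' he => h55_up_unique H H' he
     dn_unique := fun _ _ _ _ _ _ _ _ H H' he => h55_dn_unique H H' he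
     up_dn := fun _ _ _ _ _ _ _ _ H H' he => h55_up_dn H H' he }, rfl, rfl⟩

end Pool.Agent.Helper29.PB
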