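import Pool.Agent.Helper29.PB.SDefs
namespace Pool.Agent.Helper29.PB
open HGraph

namespace SunIso

variable {K N : ℕ} [NeZero K]

/-- the letters of the free group -/
abbrev Letter (b : Fin N → Fin K) : Type :=
  Unit ⊕ Fin N ⊕ {p : Fin N × Fin N // b p.2 = b p.1 ∧ p.1 < p.2} ⊕
    {p : Fin N × Fin N // b p.2 = b p.1 ∧ p.1 ≤ p.2} ⊕
    {p : Fin N × Fin N × Fin N // b p.2.1 = b p.1 ∧ b p.2.2 = b p.1 ∧ p.2.1 ≤ p.2.2 ∧ p.1 < p.2.2}

/-- free data -/
def fd (b : Fin N → Fin K) : SData N (FreeGroup (Letter b)) where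
  t := FreeGroup.of (Sum.inl ())
  y a := FreeGroup.of (Sum.inr (Sum.inl a))
  s a a' := if h : b a' = b a ∧ a < a' then
    FreeGroup.of (Sum.inr (Sum.inr (Sum.inl ⟨(a, a'), h⟩))) else 1
  x a a' := if h : b (max a a') = b (min a a') ∧ min a a' ≤ max a a' then
    FreeGroup.of (Sum.inr (Sum.inr (Sum.inr (Sum.inl ⟨(min a a', max a a'), h⟩)))) else 1
  f a a' a'' := if h : b (min a' a'') = b a ∧ b (max a' a'') = b a ∧
      min a' a'' ≤ max a' a'' ∧ a < max a' a'' then
    FreeGroup.of (Sum.inr (Sum.inr (Sum.inr (Sum.inr ⟨(a, min a' a'', max a' a''), h⟩)))) else 1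
  x_symm a a' := by simp only [min_comm a a', max_comm a a']
  f_symm a a' a'' := by simp only [min_comm a' a'', max_comm a' a'']
  f_base a a' a'' h h' := by
    rw [dif_neg]
    rintro ⟨-, -, -, h3⟩
    exact absurd h3 (not_lt.mpr (max_le h h'))

/-- image of data under a homomorphism -/
def mapD {X Y : Type} [Group X] [Group Y] (g : X →* Y) (d : SData N X) : SData N Y where
  t := g d.t
  y a := g (d.y a)
  s a a' := g (d.s a a')
  x a a' := g (d.x a a')
  f a a' a'' := g (d.f a a' a'')
  x_symm a a' := by rw [d.x_symm]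
  f_symm a a' a'' := by rw [d.f_symm]
  f_base a a' a'' h h' := by rw [d.f_base a a' a'' h h', map_one]

variable {b : Fin N → Fin K}

theorem tr_map {X Y : Type} [Group X] [Group Y] (g : X →* Y) (d : SData N X) (v : Fin K) (w : X)
    (l : Fin K) : (mapD g d).tr v (g w) l = g (d.tr v w l) := by
  unfold SData.tr
  split_ifs
  · simp [mapD]
  · rfl

theorem arc1_map {X Y : Type} [Group X] [Group Y] (g : X →* Y) (d : SData N X) (a a' : Fin N)
    (l : Fin K) : (mapD g d).arc1 b a a' l = g (d.arc1 b a a' l) := by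
  unfold SData.arc1
  split_ifs
  · simp
  · exact tr_map g d _ _ _

theorem arcVal_map {X Y : Type} [Group X] [Group Y] (g : X →* Y) (d : SData N X) (a : Fin N)
    (x y : (sun K N b).Pos) : (mapD g d).arcVal a x y = g (d.arcVal a x y) := by
  rcases x with u | j | a' <;> rcases y with u' | j' | a'' <;>
    simp only [SData.arcVal, arc1_map] <;> first | (split_ifs <;> simp [mapD]) | simp

theorem sigVal_map {X Y : Type} [Group X] [Group Y] (g : X →* Y) (d : SData N X) (v : Fin K)
    (x y : (sun K N b).Pos) : (mapD g d).sigVal v x y = g (d.sigVal v x y) := by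
  have e : ∀ a l, (mapD g d).tr v ((mapD g d).y a) l = g (d.tr v (d.y a) l) :=
    fun a l => tr_map g d v _ l
  rcases x with u | j | a' <;> rcases y with u' | j' | a'' <;>
    simp only [SData.sigVal, e] <;> (split_ifs <;> simp [mapD])

theorem val_map {X Y : Type} [Group X] [Group Y] (g : X →* Y) (d : SData N X)
    (h : (sun K N b).H) (x y : (sun K N b).Pos) : (mapD g d).val h x y = g (d.val h x y) := by
  rcases h with ⟨v, e⟩ | a
  · simp only [SData.val]
    split_ifs
    · simp
    · exact sigVal_map g d v x y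
  · exact arcVal_map g d a x y

theorem tr_congr {X : Type} [Group X] (d e : SData N X) (ht : d.t = e.t) (v : Fin K) (w : X)
    (l : Fin K) : d.tr v w l = e.tr v w l := by
  unfold SData.tr
  rw [ht]

theorem arc1_congr {X : Type} [Group X] (d e : SData N X) (ht : d.t = e.t)
    (hs : ∀ a a', b a' = b a → a < a' → d.s a a' = e.s a a') (a a' : Fin N) (h : b a' = b a)
    (l : Fin K) : d.arc1 b a a' l = e.arc1 b a a' l := by
  unfold SData.arc1
  split_ifs with h1
  · rfl
  · rw [hs a a' h (not_le.mp h1), tr_congr d e ht]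

theorem arcVal_congr {X : Type} [Group X] (d e : SData N X) (ht : d.t = e.t)
    (hs : ∀ a a', b a' = b a → a < a' → d.s a a' = e.s a a')
    (hf : ∀ a a' a'', b a' = b a → b a'' = b a → d.f a a' a'' = e.f a a' a'')
    (a : Fin N) (x y : (sun K N b).Pos) : d.arcVal a x y = e.arcVal a x y := by
  have hs' := fun a a' h l => arc1_congr d e ht hs a a' h l
  rcases x with u | j | a' <;> rcases y with u' | j' | a'' <;>
    simp only [SData.arcVal] <;> first | rfl | (split_ifs <;> simp_all)

theorem sigVal_congr {X : Type} [Group X] (d e : SData N X) (ht : d.t = e.t)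
    (hy : ∀ a, d.y a = e.y a)
    (hx : ∀ a a', b a' = b a → d.x a a' = e.x a a')
    (v : Fin K) (x y : (sun K N b).Pos) : d.sigVal v x y = e.sigVal v x y := by
  have h1 := fun v w l => tr_congr (K := K) d e ht v w l
  rcases x with u | j | a' <;> rcases y with u' | j' | a'' <;>
    simp only [SData.sigVal, ht, hy, h1]
  split_ifs with h2 h3
  · exact hx a' a'' (h3.trans h2.symm)
  all_goals rfl

theorem val_congr {X : Type} [Group X] (d e : SData N X) (ht : d.t = e.t)
    (hy : ∀ a, d.y a = e.y a)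
    (hs : ∀ a a', b a' = b a → a < a' → d.s a a' = e.s a a')
    (hx : ∀ a a', b a' = b a → d.x a a' = e.x a a')
    (hf : ∀ a a' a'', b a' = b a → b a'' = b a → d.f a a' a'' = e.f a a' a'')
    (h : (sun K N b).H) (x y : (sun K N b).Pos) : d.val h x y = e.val h x y := by
  rcases h with ⟨v, r⟩ | a
  · simp only [SData.val]
    split_ifs
    · rfl
    · exact sigVal_congr d e ht hy hx v x y
  · exact arcVal_congr d e ht hs hf a x y

/-! letters as values -/

section letters
variable {X : Type} [Group X] (d : SData N X)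

theorem tr_zero (v : Fin K) (w : X) : d.tr v w 0 = w := by
  unfold SData.tr
  rw [if_neg]
  rintro ⟨h1, h2⟩
  exact h1 (nonpos_iff_eq_zero.mp h2)

theorem val_hS (v : Fin K) : d.val (b := b) (hS v) = d.sigVal v := by
  unfold hS
  simp only [SData.val]
  rw [if_neg]
  by_cases h : v = 0 <;> simp [h]

theorem val_t : d.val (b := b) (hS 0) (sC 0) (sC 0) = d.t := by
  rw [val_hS]
  simp [SData.sigVal, sC]

theorem val_y (a : Fin N) : d.val (b := b) (hS (b a)) (sA a) (sC 0) = d.y a := by
  rw [val_hS]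
  simp [SData.sigVal, sC, sA, loc, tr_zero]

theorem val_s (a a' : Fin N) (h : b a' = b a) (h' : a < a') :
    d.val (b := b) (hA a) (sA a') (sC 0) = d.s a a' := by
  simp [SData.val, hA, SData.arcVal, sC, sA, loc, tr_zero, h, SData.arc1, h']

theorem val_x (a a' : Fin N) (h : b a' = b a) :
    d.val (b := b) (hS (b a)) (sA a) (sA a') = d.x a a' := by
  rw [val_hS]
  simp [SData.sigVal, sA, h]

theorem val_f (a a' a'' : Fin N) (h : b a' = b a) (h' : b a'' = b a) :
    d.val (b := b) (hA a) (sA a') (sA a'') = d.f a a' a'' := by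
  simp [SData.val, hA, SData.arcVal, sA, h, h']

theorem valid_inr {Γ : HGraph} {h : Γ.H} (x y : Γ.E) :
    Valid (Γ := Γ) h (Sum.inr x) (Sum.inr y) := by
  refine ⟨by simp, by simp, ?_⟩
  rintro v ⟨h1, -⟩
  exact absurd h1 Sum.inr_ne_inl

end letters

end SunIso

open SunIso in
/-- PB-16 -/
theorem sun_iso {K N : ℕ} [NeZero K] {b : Fin N → Fin K} {B : Type} [Group B]
    (u : UnivCocycle (sun K N b) STr B)
    (hE : ∀ (X : Type) [Group X] (d : SData N X), ∃ c : Cocycle3 (sun K N b) X,
      c.φ = d.val ∧ c.IsNorm STr)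
    (hU : ∀ (X : Type) [Group X] (c : Cocycle3 (sun K N b) X), c.IsNorm STr →
      ∃ d : SData N X, ∀ h x y, Valid h x y → c.φ h x y = d.val h x y) :
    ∃ κ : Type, Nonempty κ ∧ Finite κ ∧ Nonempty (B ≃* FreeGroup κ) := by
  obtain ⟨dB, hdB⟩ := hU B u.κ u.norm
  obtain ⟨c, hc, hcn⟩ := hE _ (fd b)
  obtain ⟨f2, hf2⟩ := u.univ _ c hcn
  have hf2' : ∀ (h : (sun K N b).H) (x y : (sun K N b).Pos), Valid h x y →
      f2 (dB.val h x y) = (fd b).val h x y := by
    intro h x y hv
    rw [← hdB h x y hv, hf2 h x y hv, hc]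
  let f1 : FreeGroup (Letter b) →* B := FreeGroup.lift
    (Sum.elim (fun _ => dB.t) (Sum.elim dB.y (Sum.elim (fun p => dB.s p.1.1 p.1.2)
      (Sum.elim (fun p => dB.x p.1.1 p.1.2) (fun p => dB.f p.1.1 p.1.2.1 p.1.2.2)))))
  have h12 : ∀ z, f2 (f1 z) = z := by
    have : f2.comp f1 = MonoidHom.id _ := by
      refine FreeGroup.ext_hom _ _ ?_
      rintro (_ | a | ⟨⟨a, a'⟩, h1, h2⟩ | ⟨⟨a, a'⟩, h1, h2⟩ | ⟨⟨a, a', a''⟩, h1, h2, h3, h4⟩)
      · simp only [MonoidHom.comp_apply, f1, FreeGroup.lift_apply_of, Sum.elim_inl, MonoidHom.id_apply]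
        rw [← val_t (b := b) dB, hf2' (hS 0) (sC 0) (sC 0) (valid_inr _ _), val_t]
        rfl
      · simp only [MonoidHom.comp_apply, f1, FreeGroup.lift_apply_of, Sum.elim_inl, Sum.elim_inr, MonoidHom.id_apply]
        rw [← val_y (b := b) dB, hf2' (hS (b a)) (sA a) (sC 0) (valid_inr _ _), val_y]
        rfl
      · simp only [MonoidHom.comp_apply, f1, FreeGroup.lift_apply_of, Sum.elim_inl, Sum.elim_inr, MonoidHom.id_apply]
        rw [← val_s (b := b) dB a a' h1 h2, hf2' (hA a) (sA a') (sC 0) (valid_inr _ _), val_s _ _ _ h1 h2]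
        exact dif_pos ⟨h1, h2⟩
      · simp only [MonoidHom.comp_apply, f1, FreeGroup.lift_apply_of, Sum.elim_inl, Sum.elim_inr, MonoidHom.id_apply]
        rw [← val_x (b := b) dB a a' h1, hf2' (hS (b a)) (sA a) (sA a') (valid_inr _ _), val_x _ _ _ h1]
        have h2' : a ≤ a' := h2
        simp only [fd, min_eq_left h2', max_eq_right h2']
        exact dif_pos ⟨h1, h2⟩
      · simp only [MonoidHom.comp_apply, f1, FreeGroup.lift_apply_of, Sum.elim_inl, Sum.elim_inr, MonoidHom.id_apply]
        rw [← val_f (b := b) dB a a' a'' h1 h2, hf2' (hA a) (sA a') (sA a'') (valid_inr _ _), val_f _ _ _ _ h1 h2]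
        have h3' : a' ≤ a'' := h3
        simp only [fd, min_eq_left h3', max_eq_right h3']
        exact dif_pos ⟨h1, h2, h3, h4⟩
    intro z
    exact DFunLike.congr_fun this z
  have hval : ∀ (h : (sun K N b).H) (x y : (sun K N b).Pos),
      f1 ((fd b).val h x y) = dB.val h x y := by
    intro h x y
    rw [← val_map]
    refine val_congr _ _ ?_ ?_ ?_ ?_ ?_ h x y
    · simp [mapD, fd, f1]
    · intro a
      simp [mapD, fd, f1]
    · intro a a' h1 h2
      simp [mapD, fd, f1, h1, h2]
    · intro a a' h1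
      have h0 : b (max a a') = b (min a a') ∧ min a a' ≤ max a a' := by
        rcases le_total a a' with h | h
        · simp [h, h1]
        · simp [h, h1]
      simp only [mapD, fd]
      rw [dif_pos h0]
      simp only [f1, FreeGroup.lift_apply_of, Sum.elim_inl, Sum.elim_inr]
      rcases le_total a a' with h | h
      · simp [h]
      · simp only [min_eq_right h, max_eq_left h]
        exact dB.x_symm _ _
    · intro a a' a'' h1 h2
      by_cases h3 : a < max a' a''
      · have h0 : b (min a' a'') = b a ∧ b (max a' a'') = b a ∧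
            min a' a'' ≤ max a' a'' ∧ a < max a' a'' := by
          rcases le_total a' a'' with h | h
          · simp only [min_eq_left h, max_eq_right h] at h3 ⊢
            exact ⟨h1, h2, h, h3⟩
          · simp only [min_eq_right h, max_eq_left h] at h3 ⊢
            exact ⟨h2, h1, h, h3⟩
        simp only [mapD, fd]
        rw [dif_pos h0]
        simp only [f1, FreeGroup.lift_apply_of, Sum.elim_inl, Sum.elim_inr]
        rcases le_total a' a'' with h | h
        · simp [h]
        · simp only [min_eq_right h, max_eq_left h]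
          exact dB.f_symm _ _ _
      · have h4 : max a' a'' ≤ a := not_lt.mp h3
        rw [dB.f_base a a' a'' (le_trans (le_max_left _ _) h4) (le_trans (le_max_right _ _) h4),
          (mapD f1 (fd b)).f_base a a' a'' (le_trans (le_max_left _ _) h4)
            (le_trans (le_max_right _ _) h4)]
  have h21 : ∀ z, f1 (f2 z) = z := by
    have : f1.comp f2 = MonoidHom.id _ := by
      refine MonoidHom.eq_of_eqOn_dense u.gen ?_
      rintro _ ⟨h, x, y, hv, rfl⟩
      simp only [MonoidHom.comp_apply, MonoidHom.id_apply]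
      rw [hf2 h x y hv, hc, hval, hdB h x y hv]
    intro z
    exact DFunLike.congr_fun this z
  exact ⟨Letter b, ⟨Sum.inl ()⟩, inferInstance,
    ⟨{ toFun := f2, invFun := f1, left_inv := h21, right_inv := h12, map_mul' := map_mul f2 }⟩⟩

end Pool.Agent.Helper29.PB
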