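import Pool.Agent.Helper29.PB.SDefs
namespace Pool.Agent.Helper29.PB
open HGraph

namespace SunTreeAux

variable {K N : ℕ} [NeZero K] {b : Fin N → Fin K}

theorem ms2 {α : Type*} {b c b' c' : α}
    (h : ({b, c} : Multiset α) = {b', c'}) : (b = b' ∧ c = c') ∨ (b = c' ∧ c = b') := by
  have hb : b ∈ ({b', c'} : Multiset α) := by rw [← h]; simp
  have hb' : b = b' ∨ b = c' := by simpa using hb
  rcases hb' with rfl | rfl
  · left
    have h1 : b ::ₘ ({c} : Multiset α) = b ::ₘ {c'} := h
    rw [Multiset.cons_inj_right, Multiset.singleton_inj] at h1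
    exact ⟨rfl, h1⟩
  · right
    have h1 : b ::ₘ ({c} : Multiset α) = b ::ₘ {b'} := by
      rw [show (b ::ₘ ({b'} : Multiset α)) = {b', b} from Multiset.pair_comm _ _]
      exact h
    rw [Multiset.cons_inj_right, Multiset.singleton_inj] at h1
    exact ⟨rfl, h1⟩

theorem ms3 {α : Type*} {a b c a' b' c' : α}
    (h : (a ::ₘ ({b, c} : Multiset α)) = a' ::ₘ {b', c'}) :
    (a = a' ∧ b = b' ∧ c = c') ∨ (a = a' ∧ b = c' ∧ c = b') ∨ (a = b' ∧ b = a' ∧ c = c') ∨
      (a = b' ∧ b = c' ∧ c = a') ∨ (a = c' ∧ b = a' ∧ c = b') ∨ (a = c' ∧ b = b' ∧ c = a') := by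
  have ha : a ∈ (a' ::ₘ ({b', c'} : Multiset α)) := by rw [← h]; simp
  have ha' : a = a' ∨ a = b' ∨ a = c' := by simpa using ha
  rcases ha' with rfl | rfl | rfl
  · rw [Multiset.cons_inj_right] at h
    rcases ms2 h with ⟨h1, h2⟩ | ⟨h1, h2⟩
    · exact Or.inl ⟨rfl, h1, h2⟩
    · exact Or.inr (Or.inl ⟨rfl, h1, h2⟩)
  · have h0 : a' ::ₘ ({a, c'} : Multiset α) = a ::ₘ {a', c'} := Multiset.cons_swap _ _ _
    rw [h0, Multiset.cons_inj_right] at h
    rcases ms2 h with ⟨h1, h2⟩ | ⟨h1, h2⟩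
    · exact Or.inr (Or.inr (Or.inl ⟨rfl, h1, h2⟩))
    · exact Or.inr (Or.inr (Or.inr (Or.inl ⟨rfl, h1, h2⟩)))
  · have h0 : a' ::ₘ ({b', a} : Multiset α) = a ::ₘ {a', b'} := by
      rw [Multiset.pair_comm b' a]
      exact Multiset.cons_swap _ _ _
    rw [h0, Multiset.cons_inj_right] at h
    rcases ms2 h with ⟨h1, h2⟩ | ⟨h1, h2⟩
    · exact Or.inr (Or.inr (Or.inr (Or.inr (Or.inl ⟨rfl, h1, h2⟩))))
    · exact Or.inr (Or.inr (Or.inr (Or.inr (Or.inr ⟨rfl, h1, h2⟩))))

/-- no vertex occupied twice -/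
def NoDbl (s : Multiset (sun K N b).Pos) : Prop :=
  ∀ v r, s ≠ Sum.inl v ::ₘ Sum.inl v ::ₘ r

theorem noDbl_iff {p x y : (sun K N b).Pos} :
    NoDbl (p ::ₘ {x, y}) ↔ ∀ v, ¬ (p = sV v ∧ x = sV v) ∧ ¬ (p = sV v ∧ y = sV v) ∧
      ¬ (x = sV v ∧ y = sV v) := by
  constructor
  · intro h v
    refine ⟨?_, ?_, ?_⟩
    · rintro ⟨rfl, rfl⟩
      exact h v {y} rfl
    · rintro ⟨rfl, rfl⟩
      apply h v {x}
      rw [Multiset.pair_comm]
      rfl
    · rintro ⟨rfl, rfl⟩
      apply h v {p}
      show p ::ₘ sV v ::ₘ {sV v} = sV v ::ₘ sV v ::ₘ {p}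
      rw [Multiset.cons_swap p]
      congr 1
      exact Multiset.pair_comm _ _
  · intro h v r hr
    have hc : Multiset.card r = 1 := by
      have := congrArg Multiset.card hr
      simp at this
      omega
    obtain ⟨z, rfl⟩ := Multiset.card_eq_one.1 hc
    obtain ⟨h1, h2, h3⟩ := h v
    rcases ms3 (a := p) (b := x) (c := y) (a' := sV v) (b' := sV v) (c' := z) hr with
      ⟨e1, e2, e3⟩ | ⟨e1, e2, e3⟩ | ⟨e1, e2, e3⟩ | ⟨e1, e2, e3⟩ | ⟨e1, e2, e3⟩ | ⟨e1, e2, e3⟩
    · exact h1 ⟨e1, e2⟩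
    · exact h2 ⟨e1, e3⟩
    · exact h1 ⟨e1, e2⟩
    · exact h2 ⟨e1, e3⟩
    · exact h3 ⟨e2, e3⟩
    · exact h3 ⟨e2, e3⟩

/-- priority of a position: vertices (small first), then arcs (large first), then cycle edges -/
def pr : (sun K N b).Pos → ℕ
  | Sum.inl v => 3 * K + N + 1 - v
  | Sum.inr (Sum.inl j) => j
  | Sum.inr (Sum.inr a) => K + a

/-- weight of a position -/
def wt : (sun K N b).Pos → ℕ
  | Sum.inl v => if (v : ℕ) = 0 then 1 else 2 * v - 1
  | Sum.inr (Sum.inl j) => 2 * j
  | Sum.inr (Sum.inr _) => 2 * K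

theorem edge_hT (v : Fin K) : (sun K N b).edge (hT v) = Sum.inl (ix v) := by
  by_cases hv : v = 0
  · simp [hT, ix, hv]
  · simp [hT, ix, hv]

theorem edge_hS {v : Fin K} (hv : v ≠ 0) : (sun K N b).edge (hS v) = Sum.inl v := by
  simp [hS, hv]

theorem val_ix (v : Fin K) : ((ix v : Fin K) : ℕ) = (v : ℕ) - 1 := by
  unfold ix
  split_ifs with h
  · subst h
    simp
  · have h1 : (v : ℕ) ≠ 0 := fun h' => h (Fin.ext (by simpa using h'))
    rw [Fin.sub_def]
    have hK : 1 < K := by
      have := v.2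
      omega
    have h2 : ((1 : Fin K) : ℕ) = 1 := by
      rw [Fin.val_one']
      exact Nat.mod_eq_of_lt hK
    simp only [h2]
    have : K - 1 + (v : ℕ) = K + ((v : ℕ) - 1) := by omega
    rw [this, Nat.add_mod_left]
    exact Nat.mod_eq_of_lt (by have := v.2; omega)

theorem reach_all : ∀ (n : ℕ) (s : Multiset (sun K N b).Pos), Multiset.card s = 3 → NoDbl s →
    (s.map wt).sum = n → Reach STup STdn (sBase : (sun K N b).State 3).1 s := by
  intro n
  induction n using Nat.strong_induction_on with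
  | _ n ih =>
  intro s hs hd hn
  have hne : s ≠ 0 := by
    rintro rfl
    simp at hs
  obtain ⟨p, hp, hmax⟩ : ∃ p ∈ s, ∀ z ∈ s, pr z ≤ pr p := by
    obtain ⟨p, hp, hmax⟩ := Finset.exists_max_image s.toFinset pr
      (by
        obtain ⟨a, ha⟩ := Multiset.exists_mem_of_ne_zero hne
        exact ⟨a, Multiset.mem_toFinset.2 ha⟩)
    exact ⟨p, Multiset.mem_toFinset.1 hp, fun z hz => hmax z (Multiset.mem_toFinset.2 hz)⟩
  obtain ⟨r, rfl⟩ := Multiset.exists_cons_of_mem hp
  have hr : Multiset.card r = 2 := by simpa using hs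
  obtain ⟨x, y, rfl⟩ := Multiset.card_eq_two.1 hr
  have hx := hmax x (by simp)
  have hy := hmax y (by simp)
  rw [noDbl_iff] at hd
  simp only [Multiset.map_cons, Multiset.sum_cons, Multiset.insert_eq_cons,
    Multiset.map_singleton, Multiset.sum_singleton] at hn
  rcases p with v | j | a
  · -- a vertex
    have hV : Valid (Γ := sun K N b) (hT v) x y := by
      refine ⟨?_, ?_, ?_⟩
      · rintro rfl
        exact (hd v).1 ⟨rfl, rfl⟩
      · rintro rfl
        exact (hd v).2.1 ⟨rfl, rfl⟩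
      · intro u hu
        exact (hd u).2.2 hu
    have hlt : ∀ z : (sun K N b).Pos, pr z ≤ pr (Sum.inl v : (sun K N b).Pos) →
        z ≠ Sum.inl v → ∀ u, z = sV u → v < u := by
      rintro z hz hne u rfl
      have h1 : 3 * K + N + 1 - (u : ℕ) ≤ 3 * K + N + 1 - (v : ℕ) := hz
      have h2 : u ≠ v := fun h => hne (by rw [h]; rfl)
      have h3 : (u : ℕ) ≠ v := fun h => h2 (Fin.ext h)
      have := u.2
      have := v.2
      exact Fin.lt_def.2 (by omega)
    have hT' : STdn (hT v : (sun K N b).H) x y :=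
      ⟨v, rfl, hlt x hx hV.1, hlt y hy hV.2.1⟩
    refine Reach.dn (hT v) x y hV hT' ?_
    have htg : mtgt (hT v : (sun K N b).H) x y = sC (ix v) ::ₘ {x, y} := by
      unfold mtgt
      rw [edge_hT]
      rfl
    rw [htg]
    refine ih _ ?_ _ (by simp) ?_ rfl
    · rw [← hn]
      simp only [Multiset.map_cons, Multiset.sum_cons, Multiset.insert_eq_cons,
        Multiset.map_singleton, Multiset.sum_singleton]
      apply Nat.add_lt_add_right
      show 2 * ((ix v : Fin K) : ℕ) < if (v : ℕ) = 0 then 1 else 2 * (v : ℕ) - 1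
      rw [val_ix]
      split_ifs with h <;> omega
    · rw [noDbl_iff]
      intro u
      refine ⟨?_, ?_, (hd u).2.2⟩
      · rintro ⟨h, -⟩
        exact absurd h (by simp [sC, sV])
      · rintro ⟨h, -⟩
        exact absurd h (by simp [sC, sV])
  · -- a cycle edge
    have hC : ∀ z : (sun K N b).Pos, pr z ≤ pr (Sum.inr (Sum.inl j) : (sun K N b).Pos) →
        ∃ i, i ≤ j ∧ z = sC i := by
      rintro (u | i | a) hz
      · exfalso
        have h1 : 3 * K + N + 1 - (u : ℕ) ≤ (j : ℕ) := hz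
        have := u.2
        have := j.2
        omega
      · exact ⟨i, hz, rfl⟩
      · exfalso
        have h1 : K + (a : ℕ) ≤ (j : ℕ) := hz
        have := j.2
        omega
    obtain ⟨i, hi, rfl⟩ := hC x hx
    obtain ⟨k, hk, rfl⟩ := hC y hy
    by_cases hj : j = 0
    · subst hj
      have hi0 : i = 0 := Fin.ext (by have : (i : ℕ) ≤ ((0 : Fin K) : ℕ) := hi; simpa using this)
      have hk0 : k = 0 := Fin.ext (by have : (k : ℕ) ≤ ((0 : Fin K) : ℕ) := hk; simpa using this)
      subst hi0 hk0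
      exact Reach.base
    · have hV : Valid (Γ := sun K N b) (hS j) (sC i) (sC k) := by
        refine ⟨?_, ?_, ?_⟩
        · exact fun h => by simp [sC] at h
        · exact fun h => by simp [sC] at h
        · rintro u ⟨h, -⟩
          simp [sC] at h
      have hT' : STup (hS j : (sun K N b).H) (sC i) (sC k) :=
        Or.inr ⟨j, hj, rfl, ⟨i, hi, rfl⟩, ⟨k, hk, rfl⟩⟩
      have hr := Reach.up (Tup := STup) (Tdn := STdn)
        (s0 := (sBase : (sun K N b).State 3).1) (hS j) (sC i) (sC k) hV hT'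
      have htg : mtgt (hS j : (sun K N b).H) (sC i) (sC k) =
          (Sum.inr (Sum.inl j) : (sun K N b).Pos) ::ₘ {sC i, sC k} := by
        unfold mtgt
        rw [edge_hS hj]
      rw [htg] at hr
      apply hr
      have hsr : msrc (hS j : (sun K N b).H) (sC i) (sC k) = sV j ::ₘ {sC i, sC k} := rfl
      rw [hsr]
      have hj0 : (j : ℕ) ≠ 0 := fun h' => hj (Fin.ext (by simpa using h'))
      refine ih _ ?_ _ (by simp) ?_ rfl
      · rw [← hn]
        simp only [Multiset.map_cons, Multiset.sum_cons, Multiset.insert_eq_cons,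
          Multiset.map_singleton, Multiset.sum_singleton]
        apply Nat.add_lt_add_right
        show (if (j : ℕ) = 0 then 1 else 2 * (j : ℕ) - 1) < 2 * (j : ℕ)
        rw [if_neg hj0]
        omega
      · rw [noDbl_iff]
        intro u
        refine ⟨?_, ?_, ?_⟩
        · rintro ⟨-, h⟩
          exact absurd h (by simp [sC, sV])
        · rintro ⟨-, h⟩
          exact absurd h (by simp [sC, sV])
        · rintro ⟨h, -⟩
          exact absurd h (by simp [sC, sV])
  · -- an arc
    have hC : ∀ z : (sun K N b).Pos, pr z ≤ pr (Sum.inr (Sum.inr a) : (sun K N b).Pos) →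
        (∃ j, z = sC j) ∨ ∃ a', a' ≤ a ∧ z = sA a' := by
      rintro (u | i | a') hz
      · exfalso
        have h1 : 3 * K + N + 1 - (u : ℕ) ≤ K + (a : ℕ) := hz
        have := u.2
        have := a.2
        omega
      · exact Or.inl ⟨i, rfl⟩
      · refine Or.inr ⟨a', ?_, rfl⟩
        have h1 : K + (a' : ℕ) ≤ K + (a : ℕ) := hz
        exact Fin.le_def.2 (by omega)
    have hnv : ∀ z : (sun K N b).Pos, ((∃ j, z = sC j) ∨ ∃ a', a' ≤ a ∧ z = sA a') →
        ∀ u, z ≠ Sum.inl u := by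
      rintro z (⟨j, rfl⟩ | ⟨a', -, rfl⟩) u h
      · simp [sC] at h
      · simp [sA] at h
    have hx' := hC x hx
    have hy' := hC y hy
    have hV : Valid (Γ := sun K N b) (hA a) x y :=
      ⟨hnv x hx' _, hnv y hy' _, fun u h => hnv x hx' u h.1⟩
    have hT' : STup (hA a : (sun K N b).H) x y := Or.inl ⟨a, rfl, hx', hy'⟩
    have hr := Reach.up (Tup := STup) (Tdn := STdn)
      (s0 := (sBase : (sun K N b).State 3).1) (hA a) x y hV hT'
    have htg : mtgt (hA a : (sun K N b).H) x y =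
        (Sum.inr (Sum.inr a) : (sun K N b).Pos) ::ₘ {x, y} := rfl
    rw [htg] at hr
    apply hr
    have hsr : msrc (hA a : (sun K N b).H) x y = sV (b a) ::ₘ {x, y} := rfl
    rw [hsr]
    refine ih _ ?_ _ (by simp) ?_ rfl
    · rw [← hn]
      simp only [Multiset.map_cons, Multiset.sum_cons, Multiset.insert_eq_cons,
        Multiset.map_singleton, Multiset.sum_singleton]
      apply Nat.add_lt_add_right
      show (if ((b a : Fin K) : ℕ) = 0 then 1 else 2 * ((b a : Fin K) : ℕ) - 1) < 2 * K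
      have := (b a).2
      split_ifs <;> omega
    · rw [noDbl_iff]
      intro u
      exact ⟨fun h => hnv x hx' u h.2, fun h => hnv y hy' u h.2, fun h => hnv x hx' u h.1⟩

/-- no vertex in the target of an upward tree move -/
theorem up_novert {h : (sun K N b).H} {x y : (sun K N b).Pos} (H : STup h x y) (u : Fin K) :
    sV u ∉ mtgt h x y := by
  rcases H with ⟨a, rfl, hx, hy⟩ | ⟨v, hv, rfl, ⟨i, -, rfl⟩, ⟨j, -, rfl⟩⟩
  · intro hu
    have hu1 : sV u ∈ (sA a : (sun K N b).Pos) ::ₘ {x, y} := hu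
    have hu' : sV u = (sA a : (sun K N b).Pos) ∨ sV u = x ∨ sV u = y := by
      simpa using hu1
    rcases hu' with h | h | h
    · simp [sV, sA] at h
    · rcases hx with ⟨j, rfl⟩ | ⟨a', -, rfl⟩ <;> simp [sV, sA, sC] at h
    · rcases hy with ⟨j, rfl⟩ | ⟨a', -, rfl⟩ <;> simp [sV, sA, sC] at h
  · intro hu
    unfold mtgt at hu
    rw [edge_hS hv] at hu
    simp [sV, sC] at hu

theorem dn_vert {h : (sun K N b).H} {x y : (sun K N b).Pos} (H : STdn h x y) :
    ∃ v, h = hT v ∧ msrc h x y = sV v ::ₘ {x, y} := by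
  obtain ⟨v, rfl, -, -⟩ := H
  exact ⟨v, rfl, rfl⟩

theorem dn_unique {h : (sun K N b).H} {x y : (sun K N b).Pos}
    {h' : (sun K N b).H} {x' y' : (sun K N b).Pos} (H : STdn h x y)
    (H' : STdn h' x' y') (he : msrc h x y = msrc h' x' y') :
    h = h' ∧ ({x, y} : Multiset (sun K N b).Pos) = {x', y'} := by
  obtain ⟨v, rfl, hx, hy⟩ := H
  obtain ⟨v', rfl, hx', hy'⟩ := H'
  have he' : (sV v : (sun K N b).Pos) ::ₘ {x, y} = sV v' ::ₘ {x', y'} := he
  have h1 : v = v' ∨ v' < v := by
    have : (sV v : (sun K N b).Pos) ∈ (sV v' : (sun K N b).Pos) ::ₘ {x', y'} := by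
      rw [← he']; simp
    have : (sV v : (sun K N b).Pos) = sV v' ∨ (sV v : (sun K N b).Pos) = x' ∨
        (sV v : (sun K N b).Pos) = y' := by simpa using this
    rcases this with h | h | h
    · exact Or.inl (Sum.inl_injective h)
    · exact Or.inr (hx' v h.symm)
    · exact Or.inr (hy' v h.symm)
  have h2 : v' = v ∨ v < v' := by
    have : (sV v' : (sun K N b).Pos) ∈ (sV v : (sun K N b).Pos) ::ₘ {x, y} := by
      rw [he']; simp
    have : (sV v' : (sun K N b).Pos) = sV v ∨ (sV v' : (sun K N b).Pos) = x ∨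
        (sV v' : (sun K N b).Pos) = y := by simpa using this
    rcases this with h | h | h
    · exact Or.inl (Sum.inl_injective h)
    · exact Or.inr (hx v' h.symm)
    · exact Or.inr (hy v' h.symm)
  have hvv : v = v' := by
    rcases h1 with h | h
    · exact h
    · rcases h2 with h' | h'
      · exact h'.symm
      · exact absurd h (lt_asymm h')
  subst hvv
  rw [Multiset.cons_inj_right] at he'
  exact ⟨rfl, he'⟩

theorem up_unique {h : (sun K N b).H} {x y : (sun K N b).Pos}
    {h' : (sun K N b).H} {x' y' : (sun K N b).Pos} (H : STup h x y)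
    (H' : STup h' x' y') (he : mtgt h x y = mtgt h' x' y') :
    h = h' ∧ ({x, y} : Multiset (sun K N b).Pos) = {x', y'} := by
  -- the arc case against itself and the cycle case
  have arcs : ∀ (a : Fin N) (p x' y' : (sun K N b).Pos),
      (sA a : (sun K N b).Pos) ∈ p ::ₘ {x', y'} → sA a = p ∨ sA a = x' ∨ sA a = y' := by
    intro a p x' y' h
    simpa using h
  rcases H with ⟨a, rfl, hx, hy⟩ | ⟨v, hv, rfl, ⟨i, hi, rfl⟩, ⟨j, hj, rfl⟩⟩
  · have hl : mtgt (hA a : (sun K N b).H) x y = sA a ::ₘ {x, y} := rfl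
    rw [hl] at he
    have hle : ∀ (a a' : Fin N) (z : (sun K N b).Pos),
        ((∃ j, z = sC j) ∨ ∃ a'', a'' ≤ a' ∧ z = sA a'') → sA a = z → a ≤ a' := by
      rintro a a' z (⟨j, rfl⟩ | ⟨a'', h, rfl⟩) hz
      · simp [sA, sC] at hz
      · have : a = a'' := Sum.inr_injective (Sum.inr_injective hz)
        rw [this]
        exact h
    rcases H' with ⟨a', rfl, hx', hy'⟩ | ⟨v', hv', rfl, ⟨i', hi', rfl⟩, ⟨j', hj', rfl⟩⟩
    · have hl' : mtgt (hA a' : (sun K N b).H) x' y' = sA a' ::ₘ {x', y'} := rfl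
      rw [hl'] at he
      have h1 : a ≤ a' := by
        rcases arcs a (sA a') x' y' (by rw [← he]; simp) with h | h | h
        · exact le_of_eq (Sum.inr_injective (Sum.inr_injective h))
        · exact hle a a' x' hx' h
        · exact hle a a' y' hy' h
      have h2 : a' ≤ a := by
        rcases arcs a' (sA a) x y (by rw [he]; simp) with h | h | h
        · exact le_of_eq (Sum.inr_injective (Sum.inr_injective h))
        · exact hle a' a x hx h
        · exact hle a' a y hy h
      have h3 := le_antisymm h1 h2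
      subst h3
      rw [Multiset.cons_inj_right] at he
      exact ⟨rfl, he⟩
    · exfalso
      have hl' : mtgt (hS v' : (sun K N b).H) (sC i') (sC j') = sC v' ::ₘ {sC i', sC j'} := by
        unfold mtgt
        rw [edge_hS hv']
        rfl
      rw [hl'] at he
      rcases arcs a (sC v') (sC i') (sC j') (by rw [← he]; simp) with h | h | h <;>
        simp [sA, sC] at h
  · have hl : mtgt (hS v : (sun K N b).H) (sC i) (sC j) = sC v ::ₘ {sC i, sC j} := by
      unfold mtgt
      rw [edge_hS hv]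
      rfl
    rw [hl] at he
    rcases H' with ⟨a', rfl, hx', hy'⟩ | ⟨v', hv', rfl, ⟨i', hi', rfl⟩, ⟨j', hj', rfl⟩⟩
    · exfalso
      have hl' : mtgt (hA a' : (sun K N b).H) x' y' = sA a' ::ₘ {x', y'} := rfl
      rw [hl'] at he
      rcases arcs a' (sC v) (sC i) (sC j) (by rw [he]; simp) with h | h | h <;>
        simp [sA, sC] at h
    · have hl' : mtgt (hS v' : (sun K N b).H) (sC i') (sC j') = sC v' ::ₘ {sC i', sC j'} := by
        unfold mtgt
        rw [edge_hS hv']
        rfl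
      rw [hl'] at he
      have cyc : ∀ (a p x' y' : Fin K),
          (sC a : (sun K N b).Pos) ∈ (sC p : (sun K N b).Pos) ::ₘ {sC x', sC y'} →
          a = p ∨ a = x' ∨ a = y' := by
        intro a p x' y' h
        simpa [sC] using h
      have h1 : v ≤ v' := by
        rcases cyc v v' i' j' (by rw [← he]; simp) with h | h | h
        · exact le_of_eq h
        · rw [h]; exact hi'
        · rw [h]; exact hj'
      have h2 : v' ≤ v := by
        rcases cyc v' v i j (by rw [he]; simp) with h | h | h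
        · exact le_of_eq h
        · rw [h]; exact hi
        · rw [h]; exact hj
      have h3 := le_antisymm h1 h2
      subst h3
      rw [Multiset.cons_inj_right] at he
      exact ⟨rfl, he⟩

end SunTreeAux

open SunTreeAux

/-- PB-13 -/
theorem exists_sunTree (K N : ℕ) [NeZero K] (b : Fin N → Fin K) :
    ∃ T : Tree3 (sun K N b) sBase, T.Tup = STup ∧ T.Tdn = STdn := by
  refine ⟨{ Tup := STup, Tdn := STdn, reach := ?_, up_ne := ?_, dn_ne := ?_, up_unique := ?_,
            dn_unique := ?_, up_dn := ?_ }, rfl, rfl⟩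
  · intro s
    exact reach_all _ s.1 s.2.1 s.2.2 rfl
  · intro h x y _ H he
    rcases H with ⟨a, rfl, hx, hy⟩ | ⟨v, hv, rfl, ⟨i, hi, rfl⟩, ⟨j, hj, rfl⟩⟩
    · have h1 : (sA a : (sun K N b).Pos) ∈ mtgt (hA a : (sun K N b).H) x y := by
        show (sA a : (sun K N b).Pos) ∈ (sA a : (sun K N b).Pos) ::ₘ {x, y}
        simp
      rw [he] at h1
      simp [sBase, sA, sC] at h1
    · have h1 : (sC v : (sun K N b).Pos) ∈ mtgt (hS v : (sun K N b).H) (sC i) (sC j) := by
        unfold mtgt
        rw [edge_hS hv]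
        exact Multiset.mem_cons_self _ _
      rw [he] at h1
      have h2 : v = 0 := by simpa [sBase, sC] using h1
      exact hv h2
  · intro h x y _ H he
    obtain ⟨v, rfl, hs⟩ := dn_vert H
    have h1 : (sV v : (sun K N b).Pos) ∈ msrc (hT v : (sun K N b).H) x y := by
      rw [hs]; simp
    rw [he] at h1
    simp [sBase, sV, sC] at h1
  · intro h x y h' x' y' _ _ H H' he
    exact SunTreeAux.up_unique H H' he
  · intro h x y h' x' y' _ _ H H' he
    exact SunTreeAux.dn_unique H H' he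
  · intro h x y h' x' y' _ _ H H' he
    obtain ⟨v, rfl, hs⟩ := dn_vert H'
    apply up_novert H v
    rw [he, hs]
    simp

end Pool.Agent.Helper29.PB
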