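import Pool.Agent.Helper29.PB.SDefs
namespace Pool.Agent.Helper29.PB
open HGraph

namespace SunUnique

/-- the index of the cycle edge of `σ v` -/
def sg {K : ℕ} [NeZero K] (v : Fin K) : Fin K := if v = 0 then v - 1 else v

section chain

variable {K : ℕ} [NeZero K]

theorem val_sub_one {v : Fin K} (h : v ≠ 0) : ((v - 1 : Fin K) : ℕ) = (v : ℕ) - 1 :=
  Fin.val_sub_one_of_ne_zero h

theorem val_ne {v : Fin K} (h : v ≠ 0) : (v : ℕ) ≠ 0 := fun h0 => h (Fin.ext (by simpa using h0))

theorem le_last (l : Fin K) : l ≤ (0 : Fin K) - 1 := by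
  have hK : 0 < K := Nat.pos_of_ne_zero (NeZero.ne K)
  rw [Fin.le_def]
  have h1 : (((0 : Fin K) - 1 : Fin K) : ℕ) = K - 1 := by
    rw [Fin.sub_def]
    simp only [Fin.val_one', Fin.val_zero]
    rcases Nat.lt_or_ge 1 K with h | h
    · rw [Nat.mod_eq_of_lt h, Nat.add_zero, Nat.mod_eq_of_lt (by omega)]
    · have : K = 1 := by omega
      subst this
      simp
  rw [h1]
  have := l.2
  omega

theorem sub_one_le {v : Fin K} (h : v ≠ 0) : v - 1 ≤ v := by
  rw [Fin.le_def, val_sub_one h]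
  omega

theorem ix_ne {v : Fin K} (h : v ≠ 0) : ix v = v - 1 := if_neg h
theorem ix_zero : ix (0 : Fin K) = 0 := if_pos rfl
theorem sg_ne {v : Fin K} (h : v ≠ 0) : sg v = v := if_neg h
theorem sg_zero : sg (0 : Fin K) = 0 - 1 := if_pos rfl

/-- moving along the cycle -/
theorem chain_eq {X : Type} {w : Fin K → X} {i : Fin K} (n : ℕ) :
    ∀ j : Fin K, (j : ℕ) = n → i ≤ j →
      (∀ u : Fin K, u ≠ 0 → i < u → u ≤ j → w (u - 1) = w u) → w i = w j := by
  induction n with
  | zero =>
    intro j hj hij _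
    have : i = j := by
      rw [Fin.le_def] at hij
      exact Fin.ext (by omega)
    rw [this]
  | succ n ih =>
    intro j hj hij h
    rcases eq_or_lt_of_le hij with h1 | h1
    · rw [h1]
    · have hj0 : j ≠ 0 := by
        intro h0
        rw [h0] at hj
        simp at hj
      have h2 := val_sub_one hj0
      rw [← h j hj0 h1 le_rfl]
      refine ih (j - 1) (by omega) ?_ ?_
      · rw [Fin.le_def, h2]
        rw [Fin.lt_def] at h1
        omega
      · intro u hu hiu huj
        exact h u hu hiu (huj.trans (sub_one_le hj0))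

theorem transport {X : Type} [Group X] {w : Fin K → X} {v : Fin K} {t : X}
    (h1 : ∀ u : Fin K, u ≠ 0 → u ≠ v → w (u - 1) = w u)
    (h0 : v ≠ 0 → w 0 * t = t * w (0 - 1)) (l : Fin K) :
    w l = if v ≠ 0 ∧ v ≤ l then t⁻¹ * w 0 * t else w 0 := by
  split_ifs with h
  · have h2 : w l = w (0 - 1) := by
      refine chain_eq _ _ rfl (le_last l) ?_
      intro u hu hlu _
      exact h1 u hu (ne_of_gt (lt_of_le_of_lt h.2 hlu))
    rw [h2, mul_assoc, h0 h.1]
    group
  · symm
    refine chain_eq _ _ rfl (Fin.zero_le l) ?_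
    intro u hu _ hul
    refine h1 u hu ?_
    rintro rfl
    exact h ⟨hu, hul⟩

end chain

/-- the values of a normalized cocycle for resting particles in edges -/
structure Red (K N : ℕ) [NeZero K] (b : Fin N → Fin K) (X : Type) [Group X] where
  S : Fin K → Fin K ⊕ Fin N → Fin K ⊕ Fin N → X
  A : Fin N → Fin K ⊕ Fin N → Fin K ⊕ Fin N → X
  Ssymm : ∀ u e e', S u e e' = S u e' e
  Asymm : ∀ a e e', A a e e' = A a e' e
  hSS : ∀ u v, u ≠ v → ∀ e, S u (Sum.inl (ix v)) e * S v (Sum.inl (sg u)) e =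
    S v (Sum.inl (ix u)) e * S u (Sum.inl (sg v)) e
  hAS : ∀ a u, b a ≠ u → ∀ e, A a (Sum.inl (ix u)) e * S u (Sum.inr a) e =
    S u (Sum.inl (ix (b a))) e * A a (Sum.inl (sg u)) e
  hAA : ∀ a a', b a ≠ b a' → ∀ e, A a (Sum.inl (ix (b a'))) e * A a' (Sum.inr a) e =
    A a' (Sum.inl (ix (b a))) e * A a (Sum.inr a') e
  A_cc : ∀ a i j, A a (Sum.inl i) (Sum.inl j) = 1
  A_ac : ∀ a a' j, a' ≤ a → A a (Sum.inr a') (Sum.inl j) = 1
  A_aa : ∀ a a' a'', a' ≤ a → a'' ≤ a → A a (Sum.inr a') (Sum.inr a'') = 1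
  S_cc : ∀ v i j, v ≠ 0 → i ≤ v → j ≤ v → S v (Sum.inl i) (Sum.inl j) = 1

namespace Red

variable {K N : ℕ} [NeZero K] {b : Fin N → Fin K} {X : Type} [Group X] (R : Red K N b X)

/-- the values along the cycle -/
def tau (u : Fin K) : X := if u = 0 then R.S 0 (Sum.inl 0) (Sum.inl 0) else 1

theorem tau_ne {u : Fin K} (h : u ≠ 0) : R.tau u = 1 := if_neg h

theorem step {u v k : Fin K} (hu : u ≠ 0) (hv : v ≠ 0) (huv : u < v) (hk : k ≤ v) :
    R.S u (Sum.inl (v - 1)) (Sum.inl k) = R.S u (Sum.inl v) (Sum.inl k) := by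
  have h := R.hSS u v huv.ne (Sum.inl k)
  rw [ix_ne hv, sg_ne hu, ix_ne hu, sg_ne hv] at h
  rw [R.S_cc v u k hv huv.le hk, R.S_cc v (u - 1) k hv ((sub_one_le hu).trans huv.le) hk] at h
  simpa using h

theorem S_ne_aux {u : Fin K} (hu : u ≠ 0) (n : ℕ) : ∀ i j : Fin K, (i : ℕ) ≤ n → (j : ℕ) ≤ n →
    R.S u (Sum.inl i) (Sum.inl j) = 1 := by
  induction n with
  | zero =>
    intro i j hi hj
    refine R.S_cc u i j hu ?_ ?_
    · rw [Fin.le_def]; omega
    · rw [Fin.le_def]; omega
  | succ n ih =>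
    -- the larger index can be lowered
    have key : ∀ i j : Fin K, (i : ℕ) = n + 1 → (j : ℕ) ≤ n →
        R.S u (Sum.inl i) (Sum.inl j) = 1 := by
      intro i j hi hj
      by_cases h : i ≤ u
      · refine R.S_cc u i j hu h ?_
        rw [Fin.le_def] at h ⊢
        omega
      · have h' : u < i := not_le.1 h
        have hi0 : i ≠ 0 := by
          rintro rfl
          simp at hi
        rw [← R.step hu hi0 h' (by rw [Fin.le_def]; omega)]
        exact ih _ _ (by rw [val_sub_one hi0]; omega) hj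
    intro i j hi hj
    rcases Nat.lt_or_ge (i : ℕ) (n + 1) with h1 | h1
    · rcases Nat.lt_or_ge (j : ℕ) (n + 1) with h2 | h2
      · exact ih i j (by omega) (by omega)
      · rw [R.Ssymm]
        exact key j i (by omega) (by omega)
    · rcases Nat.lt_or_ge (j : ℕ) (n + 1) with h2 | h2
      · exact key i j (by omega) (by omega)
      · have hij : i = j := Fin.ext (by omega)
        subst hij
        by_cases h : i ≤ u
        · exact R.S_cc u i i hu h h
        · have h' : u < i := not_le.1 h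
          have hi0 : i ≠ 0 := by
            rintro rfl
            simp at h1
          rw [← R.step hu hi0 h' le_rfl, R.Ssymm]
          exact key i (i - 1) (by omega) (by rw [val_sub_one hi0]; omega)

theorem S_ne {u : Fin K} (hu : u ≠ 0) (i j : Fin K) : R.S u (Sum.inl i) (Sum.inl j) = 1 :=
  R.S_ne_aux hu K i j i.2.le j.2.le

theorem S_zero (i j : Fin K) :
    R.S 0 (Sum.inl i) (Sum.inl j) = R.S 0 (Sum.inl 0) (Sum.inl 0) := by
  have h : ∀ j i : Fin K, R.S 0 (Sum.inl 0) (Sum.inl j) = R.S 0 (Sum.inl i) (Sum.inl j) := by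
    intro j i
    refine chain_eq (w := fun i => R.S 0 (Sum.inl i) (Sum.inl j)) _ i rfl (Fin.zero_le i) ?_
    intro v hv _ _
    have h := R.hSS 0 v (Ne.symm hv) (Sum.inl j)
    rw [ix_ne hv, sg_ne hv, R.S_ne hv, R.S_ne hv] at h
    simpa using h
  rw [← h, R.Ssymm, ← h]

theorem S_cc' (u i j : Fin K) : R.S u (Sum.inl i) (Sum.inl j) = R.tau u := by
  by_cases hu : u = 0
  · subst hu
    rw [R.S_zero, tau, if_pos rfl]
  · rw [R.S_ne hu, R.tau_ne hu]

/-- one resting arc at another vertex -/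
theorem S_ac {u : Fin K} {a : Fin N} (h : b a ≠ u) (j : Fin K) :
    R.S u (Sum.inr a) (Sum.inl j) = R.tau u := by
  have h1 := R.hAS a u h (Sum.inl j)
  rw [R.A_cc, R.A_cc, R.S_cc'] at h1
  simpa using h1

/-- transport in the form needed -/
theorem transport' {w : Fin K → X} {v : Fin K}
    (h : ∀ u : Fin K, u ≠ v → w (ix u) * R.tau u = R.tau u * w (sg u)) (l : Fin K) :
    w l = if v ≠ 0 ∧ v ≤ l then (R.S 0 (Sum.inl 0) (Sum.inl 0))⁻¹ * w 0 *
      (R.S 0 (Sum.inl 0) (Sum.inl 0)) else w 0 := by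
  refine transport ?_ ?_ l
  · intro u hu huv
    have h1 := h u huv
    rw [R.tau_ne hu, ix_ne hu, sg_ne hu] at h1
    simpa using h1
  · intro hv
    have h1 := h 0 (Ne.symm hv)
    rw [ix_zero, sg_zero] at h1
    simpa [tau] using h1

/-- `σ` with a resting arc at the same vertex -/
theorem S_ac_same (a : Fin N) (l : Fin K) :
    R.S (b a) (Sum.inr a) (Sum.inl l) = if b a ≠ 0 ∧ b a ≤ l then
      (R.S 0 (Sum.inl 0) (Sum.inl 0))⁻¹ * R.S (b a) (Sum.inr a) (Sum.inl 0) *
      (R.S 0 (Sum.inl 0) (Sum.inl 0)) else R.S (b a) (Sum.inr a) (Sum.inl 0) := by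
  refine R.transport' (w := fun l => R.S (b a) (Sum.inr a) (Sum.inl l)) (v := b a) ?_ l
  intro u hu
  have h1 := R.hSS (b a) u (Ne.symm hu) (Sum.inr a)
  have h2 : ∀ j, R.S u (Sum.inl j) (Sum.inr a) = R.tau u := fun j => by
    rw [R.Ssymm, R.S_ac (Ne.symm hu)]
  rw [h2, h2, R.Ssymm (b a), R.Ssymm (b a) (Sum.inl (sg u))] at h1
  exact h1

/-- arcs: one resting arc at another vertex -/
theorem A_ac_ne {a a' : Fin N} (h : b a ≠ b a') (j : Fin K) :
    R.A a (Sum.inr a') (Sum.inl j) = 1 := by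
  rcases le_total a' a with h1 | h1
  · exact R.A_ac a a' j h1
  · have h2 := R.hAA a a' h (Sum.inl j)
    rw [R.A_cc, R.A_cc, R.A_ac a' a j h1] at h2
    simpa using h2.symm

/-- `σ` with two resting arcs at other vertices -/
theorem S_aa_le {u : Fin K} {a a' : Fin N} (h : b a ≠ u) (h' : b a' ≠ u) (hl : a ≤ a') :
    R.S u (Sum.inr a') (Sum.inr a) = R.tau u := by
  have h1 := R.hAS a' u h' (Sum.inr a)
  have h2 : ∀ j, R.A a' (Sum.inl j) (Sum.inr a) = 1 := fun j => by
    rw [R.Asymm, R.A_ac a' a j hl]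
  rw [h2, h2, R.Ssymm u (Sum.inl _), R.S_ac h] at h1
  simpa using h1

theorem S_aa {u : Fin K} {a a' : Fin N} (h : b a ≠ u) (h' : b a' ≠ u) :
    R.S u (Sum.inr a) (Sum.inr a') = R.tau u := by
  rcases le_total a a' with hl | hl
  · rw [R.Ssymm, R.S_aa_le h h' hl]
  · exact R.S_aa_le h' h hl

/-- arcs: one resting arc at the same vertex -/
theorem A_ac_same {a a' : Fin N} (h : b a' = b a) (l : Fin K) :
    R.A a (Sum.inr a') (Sum.inl l) = if b a ≠ 0 ∧ b a ≤ l then
      (R.S 0 (Sum.inl 0) (Sum.inl 0))⁻¹ * R.A a (Sum.inr a') (Sum.inl 0) *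
      (R.S 0 (Sum.inl 0) (Sum.inl 0)) else R.A a (Sum.inr a') (Sum.inl 0) := by
  refine R.transport' (w := fun l => R.A a (Sum.inr a') (Sum.inl l)) (v := b a) ?_ l
  intro u hu
  have h1 := R.hAS a u (Ne.symm hu) (Sum.inr a')
  rw [R.S_aa (Ne.symm hu) (by rw [h]; exact Ne.symm hu), R.Ssymm u, R.S_ac (by rw [h]; exact Ne.symm hu),
    R.Asymm a, R.Asymm a (Sum.inl (sg u))] at h1
  exact h1

/-- `σ` with two resting arcs, one of them at the vertex -/
theorem S_aa_mix {a a' : Fin N} (h : b a' ≠ b a) :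
    R.S (b a) (Sum.inr a) (Sum.inr a') = R.S (b a) (Sum.inr a) (Sum.inl (ix (b a'))) := by
  have h1 := R.hAS a' (b a) h (Sum.inr a)
  have h2 : ∀ j, R.A a' (Sum.inl j) (Sum.inr a) = 1 := fun j => by
    rw [R.Asymm, R.A_ac_ne h]
  rw [h2, h2, one_mul, mul_one] at h1
  rw [R.Ssymm, h1, R.Ssymm]

/-- arcs: two resting arcs, the first at the vertex, the second not; relative form -/
theorem A_mix {a a' a'' : Fin N} (h1 : b a' = b a) (h2 : b a'' ≠ b a) :
    R.A a (Sum.inr a'') (Sum.inr a') =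
      R.A a (Sum.inr a') (Sum.inl (ix (b a''))) * R.A a'' (Sum.inr a) (Sum.inr a') := by
  have h := R.hAA a a'' (Ne.symm h2) (Sum.inr a')
  have h3 : R.A a'' (Sum.inl (ix (b a))) (Sum.inr a') = 1 := by
    rw [R.Asymm, R.A_ac_ne (by rw [h1]; exact h2)]
  rw [h3, one_mul, R.Asymm a] at h
  exact h.symm

theorem A_two_le {a a' a'' : Fin N} (h1 : b a' = b a) (h2 : b a'' ≠ b a) (hl : a ≤ a') :
    R.A a'' (Sum.inr a) (Sum.inr a') = 1 := by
  rcases le_total a'' a' with h | h
  · have h3 := R.A_mix (a := a') (a' := a) (a'' := a'') h1.symm (by rw [h1]; exact h2)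
    rw [R.A_aa a' a'' a h hl, R.A_ac a' a _ hl, one_mul, R.Asymm] at h3
    exact h3.symm
  · exact R.A_aa a'' a a' (hl.trans h) h

theorem A_two {a a' a'' : Fin N} (h1 : b a' = b a) (h2 : b a'' ≠ b a) :
    R.A a'' (Sum.inr a) (Sum.inr a') = 1 := by
  rcases le_total a a' with h | h
  · exact R.A_two_le h1 h2 h
  · rw [R.Asymm]
    exact R.A_two_le h1.symm (by rw [h1]; exact h2) h

theorem A_mix' {a a' a'' : Fin N} (h1 : b a' = b a) (h2 : b a'' ≠ b a) :
    R.A a (Sum.inr a') (Sum.inr a'') = R.A a (Sum.inr a') (Sum.inl (ix (b a''))) := by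
  rw [R.Asymm, R.A_mix h1 h2, R.A_two h1 h2, mul_one]

/-- three arcs at different vertices -/
theorem A_three_le {a a' a'' : Fin N} (h1 : b a' ≠ b a) (h2 : b a'' ≠ b a) (h3 : b a' ≠ b a'')
    (hl : a' ≤ a'') : R.A a (Sum.inr a') (Sum.inr a'') = 1 := by
  rcases le_total a'' a with h | h
  · exact R.A_aa a a' a'' (hl.trans h) h
  · have h4 := R.hAA a a'' (Ne.symm h2) (Sum.inr a')
    have h5 : ∀ j, R.A a (Sum.inl j) (Sum.inr a') = 1 := fun j => by
      rw [R.Asymm, R.A_ac_ne (Ne.symm h1)]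
    have h6 : ∀ j, R.A a'' (Sum.inl j) (Sum.inr a') = 1 := fun j => by
      rw [R.Asymm, R.A_ac_ne (Ne.symm h3)]
    rw [h5, h6, one_mul, one_mul, R.A_aa a'' a a' h hl, R.Asymm] at h4
    exact h4.symm

theorem A_three {a a' a'' : Fin N} (h1 : b a' ≠ b a) (h2 : b a'' ≠ b a) :
    R.A a (Sum.inr a') (Sum.inr a'') = 1 := by
  by_cases h3 : b a' = b a''
  · exact R.A_two h3.symm (Ne.symm h1)
  · rcases le_total a' a'' with h | h
    · exact R.A_three_le h1 h2 h3 h
    · rw [R.Asymm]
      exact R.A_three_le h2 h1 (Ne.symm h3) h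

open Classical in
/-- the data -/
noncomputable def data : SData N X where
  t := R.S 0 (Sum.inl 0) (Sum.inl 0)
  y a := R.S (b a) (Sum.inr a) (Sum.inl 0)
  s a a' := R.A a (Sum.inr a') (Sum.inl 0)
  x a a' := if b a = b a' then R.S (b a) (Sum.inr a) (Sum.inr a') else 1
  f a a' a'' := R.A a (Sum.inr a') (Sum.inr a'')
  x_symm a a' := by
    by_cases h : b a = b a'
    · rw [if_pos h, if_pos h.symm, R.Ssymm, h]
    · rw [if_neg h, if_neg (Ne.symm h)]
  f_symm a a' a'' := R.Asymm _ _ _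
  f_base a a' a'' h h' := R.A_aa a a' a'' h h'

theorem arc1_eq {a a' : Fin N} (h : b a' = b a) (l : Fin K) :
    R.A a (Sum.inr a') (Sum.inl l) = R.data.arc1 b a a' l := by
  unfold SData.arc1
  split_ifs with h1
  · exact R.A_ac a a' l h1
  · rw [R.A_ac_same h]
    rfl

theorem tr_eq (a : Fin N) (l : Fin K) :
    R.S (b a) (Sum.inr a) (Sum.inl l) = R.data.tr (b a) (R.data.y a) l := by
  rw [R.S_ac_same]
  rfl

theorem arc_eq (a : Fin N) (e e' : Fin K ⊕ Fin N) :
    R.A a e e' = R.data.arcVal (b := b) a (Sum.inr e) (Sum.inr e') := by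
  rcases e with j | a' <;> rcases e' with j' | a''
  · exact R.A_cc a j j'
  · rw [R.Asymm]
    show _ = if b a'' = b a then R.data.arc1 b a a'' j else 1
    split_ifs with h
    · exact R.arc1_eq h j
    · exact R.A_ac_ne (Ne.symm h) j
  · show _ = if b a' = b a then R.data.arc1 b a a' j' else 1
    split_ifs with h
    · exact R.arc1_eq h j'
    · exact R.A_ac_ne (Ne.symm h) j'
  · show _ = if b a' = b a then
        (if b a'' = b a then R.data.f a a' a'' else R.data.arc1 b a a' (ix (b a'')))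
      else (if b a'' = b a then R.data.arc1 b a a'' (ix (b a')) else 1)
    split_ifs with h h' h'
    · rfl
    · rw [R.A_mix' h h', R.arc1_eq h]
    · rw [R.Asymm, R.A_mix' h' h, R.arc1_eq h']
    · exact R.A_three h h'

theorem sig_eq (v : Fin K) (e e' : Fin K ⊕ Fin N) :
    R.S v e e' = R.data.sigVal (b := b) v (Sum.inr e) (Sum.inr e') := by
  have ht : R.tau v = if v = 0 then R.data.t else 1 := rfl
  rcases e with j | a' <;> rcases e' with j' | a''
  · exact (R.S_cc' v j j').trans ht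
  · rw [R.Ssymm]
    show _ = if b a'' = v then R.data.tr v (R.data.y a'') j else if v = 0 then R.data.t else 1
    split_ifs with h h'
    · subst h
      exact R.tr_eq a'' j
    · rw [R.S_ac h, ht, if_pos h']
    · rw [R.S_ac h, ht, if_neg h']
  · show _ = if b a' = v then R.data.tr v (R.data.y a') j' else if v = 0 then R.data.t else 1
    split_ifs with h h'
    · subst h
      exact R.tr_eq a' j'
    · rw [R.S_ac h, ht, if_pos h']
    · rw [R.S_ac h, ht, if_neg h']
  · show _ = if b a' = v then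
        (if b a'' = v then R.data.x a' a'' else R.data.tr v (R.data.y a') (ix (b a'')))
      else (if b a'' = v then R.data.tr v (R.data.y a'') (ix (b a')) else
        if v = 0 then R.data.t else 1)
    by_cases h : b a' = v
    · subst h
      rw [if_pos rfl]
      by_cases h' : b a'' = b a'
      · rw [if_pos h']
        show _ = if b a' = b a'' then _ else _
        rw [if_pos h'.symm]
      · rw [if_neg h', R.S_aa_mix h', R.tr_eq]
    · rw [if_neg h]
      by_cases h' : b a'' = v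
      · subst h'
        rw [if_pos rfl, R.Ssymm, R.S_aa_mix h, R.tr_eq]
      · rw [if_neg h', R.S_aa h h', ht]

end Red

section main

variable {K N : ℕ} [NeZero K] {b : Fin N → Fin K} {X : Type} [Group X]
  (c : Cocycle3 (sun K N b) X)

theorem edge_hT (v : Fin K) : (sun K N b).edge (hT v) = Sum.inl (ix v) := by
  show Sum.inl (if decide (v ≠ 0) = true then v - 1 else v) = _
  by_cases h : v = 0
  · subst h
    simp [ix]
  · rw [if_pos (by simpa using h), ix_ne h]

theorem edge_hS (v : Fin K) : (sun K N b).edge (hS v) = Sum.inl (sg v) := by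
  show Sum.inl (if decide (v = 0) = true then v - 1 else v) = _
  by_cases h : v = 0
  · rw [if_pos (by simpa using h), sg, if_pos h]
  · rw [if_neg (by simpa using h), sg, if_neg h]

variable {c} (hc : c.IsNorm STr)

include hc in
theorem T_one {v : Fin K} {x y : (sun K N b).Pos} (hv : Valid (Γ := sun K N b) (hT v) x y)
    (hx : ∀ u, x = sV u → v < u) (hy : ∀ u, y = sV u → v < u) : c.φ (hT v) x y = 1 :=
  hc _ _ _ hv (Or.inr ⟨v, rfl, hx, hy⟩)

include hc in
/-- one resting particle is not on a smaller vertex -/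
theorem T_A {v : Fin K} {x y : (sun K N b).Pos} (hv : Valid (Γ := sun K N b) (hT v) x y)
    (hy : ∀ u, y = sV u → v < u) : c.φ (hT v) x y = 1 := by
  by_cases hx : ∀ u, x = sV u → v < u
  · exact T_one hc hv hx hy
  · push Not at hx
    obtain ⟨u, hu, huv⟩ := hx
    have hne : u ≠ v := by
      rintro rfl
      exact hv.1 hu
    have hlt : u < v := lt_of_le_of_ne huv hne
    have hyu : y ≠ sV u := by
      intro h
      exact hv.2.2 u ⟨hu, h⟩
    have h := c.sq (hT v) (hT u) y (Ne.symm hne) hv.2.1 hyu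
    have h1 : c.φ (hT u) (Sum.inr ((sun K N b).edge (hT v))) y = 1 := by
      refine T_one hc ⟨by simp, hyu, ?_⟩ ?_ ?_
      · rintro w ⟨hw, -⟩
        cases hw
      · intro w hw
        cases hw
      · intro w hw
        exact hlt.trans (hy w hw)
    have h2 : c.φ (hT u) (Sum.inl ((sun K N b).vert (hT v))) y = 1 := by
      refine T_one hc ⟨?_, hyu, ?_⟩ ?_ ?_
      · intro hw
        exact hne (Sum.inl.inj hw).symm
      · rintro w ⟨hw, hw'⟩
        have h3 : v = w := Sum.inl.inj hw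
        subst h3
        exact hv.2.1 hw'
      · intro w hw
        have h3 : v = w := Sum.inl.inj hw
        subst h3
        exact hlt
      · intro w hw
        exact hlt.trans (hy w hw)
    have h3 : c.φ (hT v) (Sum.inr ((sun K N b).edge (hT u))) y = 1 := by
      refine T_one hc ⟨by simp, hv.2.1, ?_⟩ ?_ hy
      · rintro w ⟨hw, -⟩
        cases hw
      · intro w hw
        cases hw
    rw [h1, h2, h3, mul_one, mul_one] at h
    rw [hu]
    exact h

include hc in
theorem T_all {v : Fin K} {x y : (sun K N b).Pos} (hv : Valid (Γ := sun K N b) (hT v) x y) :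
    c.φ (hT v) x y = 1 := by
  have swap : ∀ {x y : (sun K N b).Pos} {v : Fin K}, Valid (Γ := sun K N b) (hT v) x y →
      Valid (Γ := sun K N b) (hT v) y x := fun h => ⟨h.2.1, h.1, fun w hw => h.2.2 w ⟨hw.2, hw.1⟩⟩
  by_cases hy : ∀ u, y = sV u → v < u
  · exact T_A hc hv hy
  by_cases hx : ∀ u, x = sV u → v < u
  · rw [c.symm]
    exact T_A hc (swap hv) hx
  push Not at hx hy
  obtain ⟨u, hu, huv⟩ := hx
  obtain ⟨w, hw, hwv⟩ := hy
  -- reduce to `u < w`
  have key : ∀ (u w : Fin K), u < w → w ≤ v → Valid (Γ := sun K N b) (hT v) (sV u) (sV w) →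
      c.φ (hT v) (sV u) (sV w) = 1 := by
    intro u w huw hwv hval
    have huv : u < v := lt_of_lt_of_le huw hwv
    have hwv' : w ≠ v := by
      rintro rfl
      exact hval.2.1 rfl
    have hwu : (sV w : (sun K N b).Pos) ≠ sV u := fun h => huw.ne (Sum.inl.inj h).symm
    have h := c.sq (hT v) (hT u) (sV w) huv.ne' hval.2.1 hwu
    have h1 : c.φ (hT u) (Sum.inr ((sun K N b).edge (hT v))) (sV w) = 1 := by
      refine T_one hc ⟨by simp, hwu, ?_⟩ ?_ ?_
      · rintro z ⟨hz, -⟩
        cases hz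
      · intro z hz
        cases hz
      · intro z hz
        rw [← Sum.inl.inj hz]
        exact huw
    have h2 : c.φ (hT u) (Sum.inl ((sun K N b).vert (hT v))) (sV w) = 1 := by
      refine T_one hc ⟨?_, hwu, ?_⟩ ?_ ?_
      · intro hz
        exact huv.ne (Sum.inl.inj hz).symm
      · rintro z ⟨hz, hz'⟩
        have h3 : v = z := Sum.inl.inj hz
        have h4 : w = z := Sum.inl.inj hz'
        exact hwv' (h4.trans h3.symm)
      · intro z hz
        have h3 : v = z := Sum.inl.inj hz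
        rw [← h3]
        exact huv
      · intro z hz
        rw [← Sum.inl.inj hz]
        exact huw
    have h3 : c.φ (hT v) (Sum.inr ((sun K N b).edge (hT u))) (sV w) = 1 := by
      rw [c.symm]
      refine T_A hc ⟨hval.2.1, by simp, ?_⟩ ?_
      · rintro z ⟨-, hz⟩
        cases hz
      · intro z hz
        cases hz
    rw [h1, h2, h3, mul_one, mul_one] at h
    exact h
  subst hu hw
  rcases lt_trichotomy u w with h | h | h
  · exact key u w h hwv hv
  · subst h
    exact absurd ⟨rfl, rfl⟩ (hv.2.2 u)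
  · rw [c.symm]
    exact key w u h huv (swap hv)

include hc in
/-- a particle resting on a vertex may be moved along `τ` -/
theorem push {h : (sun K N b).H} {u : Fin K} {z : (sun K N b).Pos}
    (hu : (sun K N b).vert h ≠ u) (hz : z ≠ sV u) (hz' : z ≠ Sum.inl ((sun K N b).vert h)) :
    c.φ h (sV u) z = c.φ h (sC (ix u)) z := by
  have h0 := c.sq h (hT u) z hu hz' hz
  have h1 : c.φ (hT u) (Sum.inr ((sun K N b).edge h)) z = 1 := by
    refine T_all hc ⟨by simp, hz, ?_⟩
    rintro w ⟨hw, -⟩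
    cases hw
  have h2 : c.φ (hT u) (Sum.inl ((sun K N b).vert h)) z = 1 := by
    refine T_all hc ⟨?_, hz, ?_⟩
    · intro hw
      exact hu (Sum.inl.inj hw)
    · rintro w ⟨hw, hw'⟩
      rw [← Sum.inl.inj hw] at hw'
      exact hz' hw'
  rw [h1, h2, mul_one, one_mul, edge_hT] at h0
  exact h0

/-- the edge to which a resting particle may be pushed -/
def red : (sun K N b).Pos → Fin K ⊕ Fin N
  | Sum.inl u => Sum.inl (ix u)
  | Sum.inr e => e

include hc in
theorem push_all {h : (sun K N b).H} {x y : (sun K N b).Pos} (hv : Valid h x y) :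
    c.φ h x y = c.φ h (Sum.inr (red x)) (Sum.inr (red y)) := by
  have h1 : c.φ h x y = c.φ h (Sum.inr (red x)) y := by
    rcases x with u | e
    · refine push hc ?_ ?_ hv.2.1
      · rintro rfl
        exact hv.1 rfl
      · intro hy
        exact hv.2.2 u ⟨rfl, hy⟩
    · rfl
  rw [h1]
  rcases y with u | e
  · rw [c.symm]
    rw [show c.φ h (Sum.inr (red x)) (Sum.inr (red (Sum.inl u : (sun K N b).Pos))) =
      c.φ h (Sum.inr (red (Sum.inl u : (sun K N b).Pos))) (Sum.inr (red x)) from c.symm _ _ _]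
    refine push hc ?_ ?_ ?_
    · rintro rfl
      exact hv.2.1 rfl
    · simp [sV]
    · simp
  · rfl

include hc in
theorem rsq (h h' : (sun K N b).H) (e : Fin K ⊕ Fin N)
    (hh : (sun K N b).vert h ≠ (sun K N b).vert h') :
    c.φ h (Sum.inr (Sum.inl (ix ((sun K N b).vert h')))) (Sum.inr e) *
      c.φ h' (Sum.inr ((sun K N b).edge h)) (Sum.inr e) =
    c.φ h' (Sum.inr (Sum.inl (ix ((sun K N b).vert h)))) (Sum.inr e) *
      c.φ h (Sum.inr ((sun K N b).edge h')) (Sum.inr e) := by
  have h1 := c.sq h h' (Sum.inr e) hh (by simp) (by simp)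
  have h2 := push hc (h := h) (u := (sun K N b).vert h') (z := Sum.inr e) hh (by simp [sV]) (by simp)
  have h3 := push hc (h := h') (u := (sun K N b).vert h) (z := Sum.inr e) (Ne.symm hh)
    (by simp [sV]) (by simp)
  unfold sV at h2 h3
  rw [h2, h3] at h1
  exact h1

/-- the reduced values -/
def toRed (c : Cocycle3 (sun K N b) X) (hc : c.IsNorm STr) : Red K N b X where
  S u e e' := c.φ (hS u) (Sum.inr e) (Sum.inr e')
  A a e e' := c.φ (hA a) (Sum.inr e) (Sum.inr e')
  Ssymm u e e' := c.symm _ _ _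
  Asymm a e e' := c.symm _ _ _
  hSS u v huv e := by
    have h := rsq hc (hS u) (hS v) e huv
    rw [edge_hS, edge_hS] at h
    exact h
  hAS a u hau e := by
    have h := rsq hc (hA a) (hS u) e hau
    rw [edge_hS] at h
    exact h
  hAA a a' h e := rsq hc (hA a) (hA a') e h
  A_cc a i j := by
    refine hc _ _ _ ⟨by simp, by simp, ?_⟩ (Or.inl (Or.inl ⟨a, rfl, Or.inl ⟨i, rfl⟩, Or.inl ⟨j, rfl⟩⟩))
    rintro w ⟨hw, -⟩
    cases hw
  A_ac a a' j h := by
    refine hc _ _ _ ⟨by simp, by simp, ?_⟩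
      (Or.inl (Or.inl ⟨a, rfl, Or.inr ⟨a', h, rfl⟩, Or.inl ⟨j, rfl⟩⟩))
    rintro w ⟨hw, -⟩
    cases hw
  A_aa a a' a'' h h' := by
    refine hc _ _ _ ⟨by simp, by simp, ?_⟩
      (Or.inl (Or.inl ⟨a, rfl, Or.inr ⟨a', h, rfl⟩, Or.inr ⟨a'', h', rfl⟩⟩))
    rintro w ⟨hw, -⟩
    cases hw
  S_cc v i j hv hi hj := by
    refine hc _ _ _ ⟨by simp, by simp, ?_⟩
      (Or.inl (Or.inr ⟨v, hv, rfl, ⟨i, hi, rfl⟩, ⟨j, hj, rfl⟩⟩))
    rintro w ⟨hw, -⟩
    cases hw

theorem arcVal_red (d : SData N X) (a : Fin N) (x y : (sun K N b).Pos) :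
    d.arcVal a x y = d.arcVal (b := b) a (Sum.inr (red x)) (Sum.inr (red y)) := by
  rcases x with u | j | a' <;> rcases y with u' | j' | a'' <;> rfl

theorem sigVal_red (d : SData N X) (v : Fin K) (x y : (sun K N b).Pos) :
    d.sigVal v x y = d.sigVal (b := b) v (Sum.inr (red x)) (Sum.inr (red y)) := by
  rcases x with u | j | a' <;> rcases y with u' | j' | a'' <;> rfl

end main

end SunUnique

open SunUnique in
/-- PB-15 -/
theorem exists_sdata {K N : ℕ} [NeZero K] {b : Fin N → Fin K} {X : Type} [Group X]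
    (c : Cocycle3 (sun K N b) X) (hc : c.IsNorm STr) :
    ∃ d : SData N X, ∀ h x y, Valid h x y → c.φ h x y = d.val h x y := by
  refine ⟨(toRed c hc).data, ?_⟩
  intro h x y hv
  rcases h with ⟨v, e⟩ | a
  · by_cases he : e = decide (v ≠ 0)
    · subst he
      have h1 : (toRed c hc).data.val (b := b) (Sum.inl (v, decide (v ≠ 0))) x y = 1 := by
        unfold SData.val
        simp
      rw [h1]
      exact T_all hc hv
    · have he' : e = decide (v = 0) := by
        by_cases h0 : v = 0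
        · simp [h0] at he ⊢
          exact he
        · simp [h0] at he ⊢
          exact he
      have h1 : (toRed c hc).data.val (b := b) (Sum.inl (v, e)) x y =
          (toRed c hc).data.sigVal (b := b) v x y := by
        unfold SData.val
        simp only [if_neg he]
      rw [h1, push_all hc hv, sigVal_red, ← Red.sig_eq]
      subst he'
      rfl
  · have h1 : (toRed c hc).data.val (b := b) (Sum.inr a) x y =
        (toRed c hc).data.arcVal (b := b) a x y := rfl
    rw [h1, push_all hc hv, arcVal_red, ← Red.arc_eq]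
    rfl

end Pool.Agent.Helper29.PB
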