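import Pool.Agent.Helper29.PB.GDefs
namespace Pool.Agent.Helper29.PB

section
variable {G : Type*} [Group G]

private theorem cyc' {u v : G} (h : u * v = 1) : v * u = 1 := mul_eq_one_comm.mp h

private theorem hexCyc {E : Type} {p q : E → E → G} {x y z : E}
    (h : p x y * q y z * p z x * q x y * p y z * q z x = 1) :
    p y z * q z x * p x y * q y z * p z x * q x y = 1 := by
  have h1 : (p x y * q y z * p z x * q x y) * (p y z * q z x) = 1 := by
    rw [← h]; group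
  have h2 := cyc' h1
  rw [← h2]; group

private theorem hexRev {E : Type} {p q : E → E → G} {x y z : E}
    (hp : ∀ x y, p x y * p y x = 1) (hq : ∀ x y, q x y * q y x = 1)
    (h : p x y * q y z * p z x * q x y * p y z * q z x = 1) :
    p y x * q x z * p z y * q y x * p x z * q z y = 1 := by
  have ep : ∀ a b, p a b = (p b a)⁻¹ := fun a b => eq_inv_of_mul_eq_one_left (hp a b)
  have eq' : ∀ a b, q a b = (q b a)⁻¹ := fun a b => eq_inv_of_mul_eq_one_left (hq a b)
  have h1 : q x z * p z y * q y x * p x z * q z y * p y x = 1 := by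
    rw [ep z y, ep x z, ep y x, eq' x z, eq' y x, eq' z y]
    rw [← inv_inj, inv_one, ← h]
    group
  have h2 : (q x z * p z y * q y x * p x z * q z y) * p y x = 1 := h1
  have h3 := cyc' h2
  rw [← h3]; group

private def pfun (A B C : G) : Fin 4 → Fin 4 → G :=
  ![![1, 1, 1, 1], ![1, 1, A, C⁻¹], ![1, A⁻¹, 1, B], ![1, C, B⁻¹, 1]]

private def xfun (x1 x2 x3 : G) : Fin 4 → G := ![1, x1, x2, x3]

private def qfun (A B C x1 x2 x3 : G) : Fin 4 → Fin 4 → G := fun a b =>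
  xfun x1 x2 x3 b * (pfun A B C a b)⁻¹ * (xfun x1 x2 x3 a)⁻¹

private theorem pfun_inv (A B C : G) (a b : Fin 4) : pfun A B C a b * pfun A B C b a = 1 := by
  fin_cases a <;> fin_cases b <;> simp [pfun]

private theorem qfun_inv (A B C x1 x2 x3 : G) (a b : Fin 4) :
    qfun A B C x1 x2 x3 a b * qfun A B C x1 x2 x3 b a = 1 := by
  have h : pfun A B C b a = (pfun A B C a b)⁻¹ := eq_inv_of_mul_eq_one_right (pfun_inv A B C a b)
  simp only [qfun, h]
  group

private theorem hexZero (A B C x1 x2 x3 : G) (a b : Fin 4) :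
    pfun A B C 0 a * qfun A B C x1 x2 x3 a b * pfun A B C b 0 * qfun A B C x1 x2 x3 0 a *
      pfun A B C a b * qfun A B C x1 x2 x3 b 0 = 1 := by
  have h0 : ∀ c, pfun A B C 0 c = 1 := by intro c; fin_cases c <;> simp [pfun]
  have h1 : ∀ c, pfun A B C c 0 = 1 := by intro c; fin_cases c <;> simp [pfun]
  simp only [qfun, h0, h1, xfun]
  simp

private theorem hexSame (A B C x1 x2 x3 : G) (a b : Fin 4) :
    pfun A B C a a * qfun A B C x1 x2 x3 a b * pfun A B C b a * qfun A B C x1 x2 x3 a a *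
      pfun A B C a b * qfun A B C x1 x2 x3 b a = 1 := by
  have h0 : ∀ c, pfun A B C c c = 1 := by intro c; fin_cases c <;> simp [pfun]
  have h : pfun A B C b a = (pfun A B C a b)⁻¹ := eq_inv_of_mul_eq_one_right (pfun_inv A B C a b)
  simp only [qfun, h0, h]
  group

private theorem hexAll (A B C x1 x2 x3 : G)
    (hR : A * x3 * B⁻¹ * x2⁻¹ * C * x2 * A⁻¹ * x1⁻¹ * B * x1 * C⁻¹ * x3⁻¹ = 1)
    (x y z : Fin 4) :
    pfun A B C x y * qfun A B C x1 x2 x3 y z * pfun A B C z x * qfun A B C x1 x2 x3 x y *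
      pfun A B C y z * qfun A B C x1 x2 x3 z x = 1 := by
  have h123 : pfun A B C 1 2 * qfun A B C x1 x2 x3 2 3 * pfun A B C 3 1 *
      qfun A B C x1 x2 x3 1 2 * pfun A B C 2 3 * qfun A B C x1 x2 x3 3 1 = 1 := by
    simp only [pfun, qfun, xfun]
    simp only [Matrix.cons_val]
    rw [← hR]; group
  have h231 := hexCyc h123
  have h312 := hexCyc h231
  have hp := pfun_inv A B C
  have hq := qfun_inv A B C x1 x2 x3
  have h213 := hexRev hp hq h123
  have h132 := hexCyc h213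
  have h321 := hexCyc h132
  by_cases hx : x = 0
  · subst hx; exact hexZero A B C x1 x2 x3 y z
  by_cases hy : y = 0
  · subst hy; exact hexCyc (hexCyc (hexZero A B C x1 x2 x3 z x))
  by_cases hz : z = 0
  · subst hz; exact hexCyc (hexZero A B C x1 x2 x3 x y)
  by_cases hxy : x = y
  · subst hxy; exact hexSame A B C x1 x2 x3 x z
  by_cases hyz : y = z
  · subst hyz; exact hexCyc (hexCyc (hexSame A B C x1 x2 x3 y x))
  by_cases hzx : z = x
  · subst hzx; exact hexCyc (hexSame A B C x1 x2 x3 z y)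
  fin_cases x <;> fin_cases y <;> fin_cases z <;>
    first
    | exact absurd rfl hx
    | exact absurd rfl hy
    | exact absurd rfl hz
    | exact absurd rfl hxy
    | exact absurd rfl hyz
    | exact absurd rfl hzx
    | exact h123
    | exact h231
    | exact h312
    | exact h213
    | exact h132
    | exact h321

private def letterMap (A B C x1 x2 x3 : G) : Bool × Fin 4 × Fin 4 → G := fun l =>
  match l.1 with
  | false => pfun A B C l.2.1 l.2.2
  | true => qfun A B C x1 x2 x3 l.2.1 l.2.2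

private theorem letterMap_rels (A B C x1 x2 x3 : G)
    (hR : A * x3 * B⁻¹ * x2⁻¹ * C * x2 * A⁻¹ * x1⁻¹ * B * x1 * C⁻¹ * x3⁻¹ = 1) :
    ∀ r ∈ thetaRels (Fin 4) 0, FreeGroup.lift (letterMap A B C x1 x2 x3) r = 1 := by
  intro r hr
  simp only [thetaRels, Set.mem_ofPred_eq] at hr
  rcases hr with ⟨x, rfl⟩ | ⟨x, y, rfl⟩ | ⟨x, rfl⟩ | ⟨x, y, rfl⟩ | ⟨x, y, z, rfl⟩ | ⟨y, rfl⟩
  · simp only [FreeGroup.lift_apply_of, letterMap]
    fin_cases x <;> simp [pfun]
  · simp only [map_mul, FreeGroup.lift_apply_of, letterMap]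
    exact pfun_inv A B C x y
  · simp only [FreeGroup.lift_apply_of, letterMap, qfun]
    fin_cases x <;> simp [pfun]
  · simp only [map_mul, FreeGroup.lift_apply_of, letterMap]
    exact qfun_inv A B C x1 x2 x3 x y
  · simp only [map_mul, FreeGroup.lift_apply_of, letterMap]
    exact hexAll A B C x1 x2 x3 hR x y z
  · simp only [FreeGroup.lift_apply_of, letterMap]
    fin_cases y <;> simp [pfun]

end

section surf

private abbrev S3 : Type := OrientableSurfaceGroup 3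

private def sg (i : Fin 3) (b : Bool) : S3 := PresentedGroup.of (i, b)

private theorem s3_rel :
    (sg 0 false * sg 0 true * (sg 0 false)⁻¹ * (sg 0 true)⁻¹) *
    (sg 1 false * sg 1 true * (sg 1 false)⁻¹ * (sg 1 true)⁻¹) *
    (sg 2 false * sg 2 true * (sg 2 false)⁻¹ * (sg 2 true)⁻¹) = 1 := by
  have h : (PresentedGroup.mk {orientableRelator 3}) (orientableRelator 3) = 1 := by
    rw [PresentedGroup.one_of_mem (Set.mem_singleton _)]
  have e : orientableRelator 3 = 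
    (FreeGroup.of ((0 : Fin 3), false) * FreeGroup.of (0, true) * (FreeGroup.of (0, false))⁻¹ *
      (FreeGroup.of (0, true))⁻¹) *
    (FreeGroup.of (1, false) * FreeGroup.of (1, true) * (FreeGroup.of (1, false))⁻¹ *
      (FreeGroup.of (1, true))⁻¹) *
    (FreeGroup.of (2, false) * FreeGroup.of (2, true) * (FreeGroup.of (2, false))⁻¹ *
      (FreeGroup.of (2, true))⁻¹) := by
    simp only [orientableRelator, List.ofFn_succ, List.ofFn_zero, List.prod_cons, List.prod_nil,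
      mul_one]
    simp only [mul_assoc]
    rfl
  have h2 := congrArg (PresentedGroup.mk {orientableRelator 3}) e
  rw [h] at h2
  simp only [map_mul, map_inv] at h2
  exact h2.symm

private theorem s3_R :
    (sg 0 true) * (sg 0 false)⁻¹ *
      ((sg 0 true)⁻¹ * (sg 2 false)⁻¹ * (sg 0 true))⁻¹ *
      ((sg 2 false)⁻¹ * (sg 1 false)⁻¹ * sg 2 false * sg 0 true)⁻¹ *
      ((sg 2 false)⁻¹ * sg 1 true * sg 2 false) *
      ((sg 2 false)⁻¹ * (sg 1 false)⁻¹ * sg 2 false * sg 0 true) *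
      (sg 0 true)⁻¹ *
      ((sg 0 true)⁻¹ * ((sg 2 true)⁻¹ * ((sg 2 false)⁻¹ * sg 1 true * sg 2 false)))⁻¹ *
      ((sg 0 true)⁻¹ * (sg 2 false)⁻¹ * (sg 0 true)) *
      ((sg 0 true)⁻¹ * ((sg 2 true)⁻¹ * ((sg 2 false)⁻¹ * sg 1 true * sg 2 false))) *
      ((sg 2 false)⁻¹ * sg 1 true * sg 2 false)⁻¹ *
      ((sg 0 false)⁻¹)⁻¹ = 1 := by
  have h := s3_rel
  have h1 : (sg 0 false) * (((sg 0 false * sg 0 true * (sg 0 false)⁻¹ * (sg 0 true)⁻¹) *
    (sg 1 false * sg 1 true * (sg 1 false)⁻¹ * (sg 1 true)⁻¹) *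
    (sg 2 false * sg 2 true * (sg 2 false)⁻¹ * (sg 2 true)⁻¹))⁻¹) * (sg 0 false)⁻¹ = 1 := by
    rw [h]; group
  have h2 : (sg 0 false)⁻¹ * (((sg 0 false * sg 0 true * (sg 0 false)⁻¹ * (sg 0 true)⁻¹) *
    (sg 1 false * sg 1 true * (sg 1 false)⁻¹ * (sg 1 true)⁻¹) *
    (sg 2 false * sg 2 true * (sg 2 false)⁻¹ * (sg 2 true)⁻¹))) * (sg 0 false) = 1 := by
    rw [h]; group
  rw [← h2]; group

private def fwd : ThetaGroup (Fin 4) 0 →* S3 :=
  PresentedGroup.toGroup (letterMap_rels (sg 0 true)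
    ((sg 0 true)⁻¹ * (sg 2 false)⁻¹ * (sg 0 true))
    ((sg 2 false)⁻¹ * sg 1 true * sg 2 false)
    ((sg 0 true)⁻¹ * ((sg 2 true)⁻¹ * ((sg 2 false)⁻¹ * sg 1 true * sg 2 false)))
    ((sg 2 false)⁻¹ * (sg 1 false)⁻¹ * sg 2 false * sg 0 true)
    ((sg 0 false)⁻¹) s3_R)

end surf

section theta

private abbrev TG : Type := ThetaGroup (Fin 4) 0

private abbrev tp (x y : Fin 4) : TG := ThetaGroup.P x y
private abbrev tq (x y : Fin 4) : TG := ThetaGroup.Q x y

private theorem tg_mem {r : FreeGroup (Bool × Fin 4 × Fin 4)} (hr : r ∈ thetaRels (Fin 4) 0) :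
    PresentedGroup.mk (thetaRels (Fin 4) 0) r = 1 := PresentedGroup.one_of_mem hr

private theorem tp_self (x : Fin 4) : tp x x = 1 :=
  tg_mem (Or.inl ⟨x, rfl⟩)
private theorem tp_inv (x y : Fin 4) : tp x y * tp y x = 1 := by
  have h := tg_mem (r := FreeGroup.of (false, x, y) * FreeGroup.of (false, y, x))
    (Or.inr (Or.inl ⟨x, y, rfl⟩))
  simp only [map_mul] at h
  exact h
private theorem tq_self (x : Fin 4) : tq x x = 1 :=
  tg_mem (Or.inr (Or.inr (Or.inl ⟨x, rfl⟩)))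
private theorem tq_inv (x y : Fin 4) : tq x y * tq y x = 1 := by
  have h := tg_mem (r := FreeGroup.of (true, x, y) * FreeGroup.of (true, y, x))
    (Or.inr (Or.inr (Or.inr (Or.inl ⟨x, y, rfl⟩))))
  simp only [map_mul] at h
  exact h
private theorem t_hex (x y z : Fin 4) :
    tp x y * tq y z * tp z x * tq x y * tp y z * tq z x = 1 := by
  have h := tg_mem (r := FreeGroup.of (false, x, y) * FreeGroup.of (true, y, z) *
      FreeGroup.of (false, z, x) * FreeGroup.of (true, x, y) * FreeGroup.of (false, y, z) *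
      FreeGroup.of (true, z, x))
    (Or.inr (Or.inr (Or.inr (Or.inr (Or.inl ⟨x, y, z, rfl⟩)))))
  simp only [map_mul] at h
  exact h
private theorem tp_zero (y : Fin 4) : tp 0 y = 1 :=
  tg_mem (Or.inr (Or.inr (Or.inr (Or.inr (Or.inr ⟨y, rfl⟩)))))

private theorem tp_zero' (y : Fin 4) : tp y 0 = 1 := by
  have h := tp_inv 0 y
  rwa [tp_zero, one_mul] at h

private theorem tp_sym (x y : Fin 4) : tp x y = (tp y x)⁻¹ :=
  eq_inv_of_mul_eq_one_left (tp_inv x y)
private theorem tq_sym (x y : Fin 4) : tq x y = (tq y x)⁻¹ :=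
  eq_inv_of_mul_eq_one_left (tq_inv x y)

private theorem tq_eq (a b : Fin 4) : tq a b = tq 0 b * (tp a b)⁻¹ * (tq 0 a)⁻¹ := by
  have h := t_hex 0 a b
  rw [tp_zero, tp_zero', one_mul, mul_one, tq_sym b 0] at h
  have h1 : tq a b * (tq 0 a * tp a b * (tq 0 b)⁻¹) = 1 := by rw [← h]; group
  rw [eq_inv_of_mul_eq_one_left h1]; group

private theorem t_R :
    tp 1 2 * tq 0 3 * (tp 2 3)⁻¹ * (tq 0 2)⁻¹ * tp 3 1 * tq 0 2 * (tp 1 2)⁻¹ * (tq 0 1)⁻¹ *
      tp 2 3 * tq 0 1 * (tp 3 1)⁻¹ * (tq 0 3)⁻¹ = 1 := by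
  have h := t_hex 1 2 3
  rw [tq_eq 2 3, tq_eq 1 2, tq_eq 3 1] at h
  rw [← h]; group

private def bmap : Fin 3 × Bool → TG := fun l =>
  (![![(tq 0 3)⁻¹, tp 1 2],
    ![(tp 1 2 * tp 2 3 * (tp 1 2)⁻¹)⁻¹ * (tq 0 2 * (tp 1 2)⁻¹)⁻¹ *
        (tp 1 2 * tp 2 3 * (tp 1 2)⁻¹),
      (tp 1 2 * tp 2 3 * (tp 1 2)⁻¹)⁻¹ * tp 3 1 * (tp 1 2 * tp 2 3 * (tp 1 2)⁻¹)],
    ![(tp 1 2 * tp 2 3 * (tp 1 2)⁻¹)⁻¹, tp 3 1 * (tp 1 2 * tq 0 1)⁻¹]] : Fin 3 → Fin 2 → TG)
    l.1 (if l.2 then 1 else 0)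

private theorem b00 : bmap (0, false) = (tq 0 3)⁻¹ := rfl
private theorem b01 : bmap (0, true) = tp 1 2 := rfl
private theorem b10 : bmap (1, false) = (tp 1 2 * tp 2 3 * (tp 1 2)⁻¹)⁻¹ *
  (tq 0 2 * (tp 1 2)⁻¹)⁻¹ * (tp 1 2 * tp 2 3 * (tp 1 2)⁻¹) := rfl
private theorem b11 : bmap (1, true) = (tp 1 2 * tp 2 3 * (tp 1 2)⁻¹)⁻¹ * tp 3 1 *
  (tp 1 2 * tp 2 3 * (tp 1 2)⁻¹) := rfl
private theorem b20 : bmap (2, false) = (tp 1 2 * tp 2 3 * (tp 1 2)⁻¹)⁻¹ := rfl
private theorem b21 : bmap (2, true) = tp 3 1 * (tp 1 2 * tq 0 1)⁻¹ := rfl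

private theorem bmap_rel : ∀ r ∈ ({orientableRelator 3} : Set (FreeGroup (Fin 3 × Bool))),
    FreeGroup.lift bmap r = 1 := by
  intro r hr
  rw [Set.mem_singleton_iff] at hr
  subst hr
  have e : FreeGroup.lift bmap (orientableRelator 3) = 
    (bmap (0, false) * bmap (0, true) * (bmap (0, false))⁻¹ * (bmap (0, true))⁻¹) *
    (bmap (1, false) * bmap (1, true) * (bmap (1, false))⁻¹ * (bmap (1, true))⁻¹) *
    (bmap (2, false) * bmap (2, true) * (bmap (2, false))⁻¹ * (bmap (2, true))⁻¹) := by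
    simp only [orientableRelator, List.ofFn_succ, List.ofFn_zero, List.prod_cons, List.prod_nil,
      mul_one, map_mul, map_inv, FreeGroup.lift_apply_of]
    simp only [mul_assoc]
    rfl
  rw [e, b00, b01, b10, b11, b20, b21]
  have h := t_R
  have h1 : (tq 0 3)⁻¹ * (tp 1 2 * tq 0 3 * (tp 2 3)⁻¹ * (tq 0 2)⁻¹ * tp 3 1 * tq 0 2 *
      (tp 1 2)⁻¹ * (tq 0 1)⁻¹ *
      tp 2 3 * tq 0 1 * (tp 3 1)⁻¹ * (tq 0 3)⁻¹) * tq 0 3 = 1 := by rw [h]; group
  rw [← h1]; group

private def bwd : S3 →* TG := PresentedGroup.toGroup bmap_rel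

private theorem bwd_sg (i : Fin 3) (b : Bool) : bwd (sg i b) = bmap (i, b) :=
  PresentedGroup.toGroup.of bmap_rel

private theorem fwd_P (x y : Fin 4) : fwd (tp x y) = pfun (sg 0 true)
    ((sg 0 true)⁻¹ * (sg 2 false)⁻¹ * (sg 0 true))
    ((sg 2 false)⁻¹ * sg 1 true * sg 2 false) x y :=
  PresentedGroup.toGroup.of _

private theorem fwd_Q (x y : Fin 4) : fwd (tq x y) = qfun (sg 0 true)
    ((sg 0 true)⁻¹ * (sg 2 false)⁻¹ * (sg 0 true))
    ((sg 2 false)⁻¹ * sg 1 true * sg 2 false)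
    ((sg 0 true)⁻¹ * ((sg 2 true)⁻¹ * ((sg 2 false)⁻¹ * sg 1 true * sg 2 false)))
    ((sg 2 false)⁻¹ * (sg 1 false)⁻¹ * sg 2 false * sg 0 true)
    ((sg 0 false)⁻¹) x y :=
  PresentedGroup.toGroup.of _

private theorem fb : fwd.comp bwd = MonoidHom.id S3 := by
  apply PresentedGroup.ext
  rintro ⟨i, b⟩
  change fwd (bwd (sg i b)) = sg i b
  rw [bwd_sg]
  fin_cases i <;> cases b
  · change fwd (bmap (0, false)) = sg 0 false
    rw [b00, map_inv, fwd_Q]; simp [qfun, xfun, pfun]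
  · change fwd (bmap (0, true)) = sg 0 true
    rw [b01, fwd_P]; simp [pfun]
  · change fwd (bmap (1, false)) = sg 1 false
    rw [b10]; simp only [map_mul, map_inv, fwd_P, fwd_Q]; simp only [qfun, xfun, pfun, Matrix.cons_val]; group
  · change fwd (bmap (1, true)) = sg 1 true
    rw [b11]; simp only [map_mul, map_inv, fwd_P, fwd_Q]; simp only [qfun, xfun, pfun, Matrix.cons_val]; group
  · change fwd (bmap (2, false)) = sg 2 false
    rw [b20]; simp only [map_mul, map_inv, fwd_P, fwd_Q]; simp only [qfun, xfun, pfun, Matrix.cons_val]; group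
  · change fwd (bmap (2, true)) = sg 2 true
    rw [b21]; simp only [map_mul, map_inv, fwd_P, fwd_Q]; simp only [qfun, xfun, pfun, Matrix.cons_val]; group

private theorem map_pfun {G H : Type*} [Group G] [Group H] (f : G →* H) (A B C : G) (x y : Fin 4) :
    f (pfun A B C x y) = pfun (f A) (f B) (f C) x y := by
  fin_cases x <;> fin_cases y <;> simp [pfun]

private theorem map_xfun {G H : Type*} [Group G] [Group H] (f : G →* H) (A B C : G) (x : Fin 4) :
    f (xfun A B C x) = xfun (f A) (f B) (f C) x := by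
  fin_cases x <;> simp [xfun]

private theorem tp_pfun (x y : Fin 4) : pfun (tp 1 2) (tp 2 3) (tp 3 1) x y = tp x y := by
  have h21 := tp_sym 2 1
  have h32 := tp_sym 3 2
  have h13 := tp_sym 1 3
  have hs := tp_self
  have h0 := tp_zero
  have h0' := tp_zero'
  fin_cases x <;> fin_cases y <;> simp only [pfun]
  · exact (h0 0).symm
  · exact (h0 1).symm
  · exact (h0 2).symm
  · exact (h0 3).symm
  · exact (h0' 1).symm
  · exact (hs 1).symm
  · rfl
  · exact h13.symm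
  · exact (h0' 2).symm
  · exact h21.symm
  · exact (hs 2).symm
  · rfl
  · exact (h0' 3).symm
  · rfl
  · exact h32.symm
  · exact (hs 3).symm

private theorem tq_xfun (x : Fin 4) : xfun (tq 0 1) (tq 0 2) (tq 0 3) x = tq 0 x := by
  fin_cases x <;> simp only [xfun]
  · exact (tq_self 0).symm
  · rfl
  · rfl
  · rfl

private theorem eA : bwd (sg 0 true) = tp 1 2 := by rw [bwd_sg, b01]
private theorem eB : bwd ((sg 0 true)⁻¹ * (sg 2 false)⁻¹ * (sg 0 true)) = tp 2 3 := by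
  simp only [map_mul, map_inv, bwd_sg, b01, b20]; group
private theorem eC : bwd ((sg 2 false)⁻¹ * sg 1 true * sg 2 false) = tp 3 1 := by
  simp only [map_mul, map_inv, bwd_sg, b11, b20]; group
private theorem e1 : bwd ((sg 0 true)⁻¹ * ((sg 2 true)⁻¹ *
    ((sg 2 false)⁻¹ * sg 1 true * sg 2 false))) = tq 0 1 := by
  simp only [map_mul, map_inv, bwd_sg, b01, b11, b20, b21]; group
private theorem e2 : bwd ((sg 2 false)⁻¹ * (sg 1 false)⁻¹ * sg 2 false * sg 0 true) = tq 0 2 := by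
  simp only [map_mul, map_inv, bwd_sg, b01, b10, b20]; group
private theorem e3 : bwd ((sg 0 false)⁻¹) = tq 0 3 := by
  simp only [map_inv, bwd_sg, b00]; group

private theorem bf : bwd.comp fwd = MonoidHom.id TG := by
  apply PresentedGroup.ext
  rintro ⟨b, x, y⟩
  cases b
  · change bwd (fwd (tp x y)) = tp x y
    rw [fwd_P, map_pfun, eA, eB, eC, tp_pfun]
  · change bwd (fwd (tq x y)) = tq x y
    rw [fwd_Q]
    unfold qfun
    rw [map_mul, map_mul, map_inv, map_inv, map_pfun, map_xfun, map_xfun, eA, eB, eC, e1, e2, e3,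
      tp_pfun, tq_xfun, tq_xfun]
    exact (tq_eq x y).symm

end theta

/-- PB-5 -/
theorem theta4_iso : Nonempty (ThetaGroup (Fin 4) 0 ≃* OrientableSurfaceGroup 3) :=
  ⟨MonoidHom.toMulEquiv fwd bwd bf fb⟩

end Pool.Agent.Helper29.PB
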