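import Pool.Agent.Helper29.PB.GDefs
namespace Pool.Agent.Helper29.PB

/-! PB-7 -/

private theorem rel_eq {E : Type} {o : E} {w : FreeGroup (Bool × E × E)}
    (hw : w ∈ thetaRels E o) : (PresentedGroup.mk (thetaRels E o)) w = 1 :=
  PresentedGroup.one_of_mem hw

/-- the universal data -/
private def univData (E : Type) (o : E) : ThetaData E o (ThetaGroup E o) where
  p := ThetaGroup.P
  q := ThetaGroup.Q
  p_self x := rel_eq (Or.inl ⟨x, rfl⟩)
  p_inv x y := rel_eq (Or.inr (Or.inl ⟨x, y, rfl⟩))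
  q_self x := rel_eq (Or.inr (Or.inr (Or.inl ⟨x, rfl⟩)))
  q_inv x y := rel_eq (Or.inr (Or.inr (Or.inr (Or.inl ⟨x, y, rfl⟩))))
  hex x y z := rel_eq (Or.inr (Or.inr (Or.inr (Or.inr (Or.inl ⟨x, y, z, rfl⟩)))))
  base y := rel_eq (Or.inr (Or.inr (Or.inr (Or.inr (Or.inr ⟨y, rfl⟩)))))

/-- data pulled back to a pointed subset -/
private def pullData {E E' : Type} {o : E} {o' : E'} {X : Type*} [Group X]
    (D : ThetaData E' o' X) (e : E → E') (he : e o = o') : ThetaData E o X where
  p x y := D.p (e x) (e y)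
  q x y := D.q (e x) (e y)
  p_self x := D.p_self _
  p_inv x y := D.p_inv _ _
  q_self x := D.q_self _
  q_inv x y := D.q_inv _ _
  hex x y z := D.hex _ _ _
  base y := by rw [he]; exact D.base _

/-- The character with given values on the letters. -/
private theorem exists_char {E : Type} {o : E} (D : ThetaData E o (Multiplicative (ZMod 2))) :
    ∃ x : ThetaGroup E o →* Multiplicative (ZMod 2),
      (∀ a b, x (ThetaGroup.P a b) = D.p a b) ∧ ∀ a b, x (ThetaGroup.Q a b) = D.q a b := by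
  have h : ∀ w ∈ thetaRels E o,
      FreeGroup.lift (fun l : Bool × E × E => if l.1 then D.q l.2.1 l.2.2 else D.p l.2.1 l.2.2)
        w = 1 := by
    rintro w (⟨x, rfl⟩ | ⟨x, y, rfl⟩ | ⟨x, rfl⟩ | ⟨x, y, rfl⟩ | ⟨x, y, z, rfl⟩ | ⟨y, rfl⟩)
    · simpa using D.p_self x
    · simpa using D.p_inv x y
    · simpa using D.q_self x
    · simpa using D.q_inv x y
    · simpa using D.hex x y z
    · simpa using D.base y
  refine ⟨PresentedGroup.toGroup h, fun a b => ?_, fun a b => ?_⟩
  · exact (PresentedGroup.toGroup.of h).trans (by simp)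
  · exact (PresentedGroup.toGroup.of h).trans (by simp)

private theorem z_hex {G : Type*} [Group G] {x y : G →* Multiplicative (ZMod 2)} {z : G → ZMod 2}
    (h : ∀ g k : G, z (g * k) = z g + z k + (x g).toAdd * (y k).toAdd) {a b c d e f : G}
    (hr : a * b * c * d * e * f = 1) :
    z a + z b + z c + z d + z e + z f +
      ((x a).toAdd * (y b).toAdd + ((x a).toAdd + (x b).toAdd) * (y c).toAdd +
      ((x a).toAdd + (x b).toAdd + (x c).toAdd) * (y d).toAdd +
      ((x a).toAdd + (x b).toAdd + (x c).toAdd + (x d).toAdd) * (y e).toAdd +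
      ((x a).toAdd + (x b).toAdd + (x c).toAdd + (x d).toAdd + (x e).toAdd) * (y f).toAdd) = 0 := by
  have h1 : z 1 = 0 := by
    have := h 1 1
    simp only [mul_one, map_one, toAdd_one] at this
    linear_combination -this
  have h2 := congrArg z hr
  rw [h1] at h2
  rw [← h2, h, h, h, h, h]
  simp only [map_mul, toAdd_mul]
  ring

private theorem z_inv {G : Type*} [Group G] {x y : G →* Multiplicative (ZMod 2)} {z : G → ZMod 2}
    (h : ∀ g k : G, z (g * k) = z g + z k + (x g).toAdd * (y k).toAdd) {a b : G}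
    (hr : a * b = 1) : z a + z b + (x a).toAdd * (y b).toAdd = 0 := by
  have h1 : z 1 = 0 := by
    have := h 1 1
    simp only [mul_one, map_one, toAdd_one] at this
    linear_combination -this
  rw [← h, hr, h1]

/-- the values of the first character on the letters `q` -/
private def vx (a b : Fin 4) : ZMod 2 := if a = 1 then (if b = 1 then 0 else 1) else (if b = 1 then 1 else 0)

/-- the values of the second character on all letters -/
private def vy (a b : Fin 4) : ZMod 2 := if (a = 2 ∧ b = 3) ∨ (a = 3 ∧ b = 2) then 1 else 0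

private theorem key {G : Type*} [Group G] (D : ThetaData (Fin 4) 0 G)
    (x y : G →* Multiplicative (ZMod 2)) (hxp : ∀ a b, (x (D.p a b)).toAdd = 0)
    (hxq : ∀ a b, (x (D.q a b)).toAdd = vx a b) (hyp : ∀ a b, (y (D.p a b)).toAdd = vy a b)
    (hyq : ∀ a b, (y (D.q a b)).toAdd = vy a b) : ¬ Liftable x y := by
  rintro ⟨z, h⟩
  have e1 := z_hex h (D.hex 1 2 3)
  have e2 := z_hex h (D.hex 0 1 2)
  have e3 := z_hex h (D.hex 0 2 3)
  have e4 := z_hex h (D.hex 0 3 1)
  have p01 := z_inv h (D.p_inv 0 1)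
  have p02 := z_inv h (D.p_inv 0 2)
  have p03 := z_inv h (D.p_inv 0 3)
  have q01 := z_inv h (D.q_inv 0 1)
  have q02 := z_inv h (D.q_inv 0 2)
  have q03 := z_inv h (D.q_inv 0 3)
  simp only [hxp, hxq, hyp, hyq] at e1 e2 e3 e4 p01 p02 p03 q01 q02 q03
  simp only [vx, vy] at e1 e2 e3 e4 p01 p02 p03 q01 q02 q03
  simp at e1 e2 e3 e4 p01 p02 p03 q01 q02 q03
  have two : (2 : ZMod 2) = 0 := rfl
  have : (1 : ZMod 2) = 0 := by
    linear_combination e1 + e2 + e3 + e4 - p01 - p02 - p03 - q01 - q02 - q03 -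
      (z (D.p 1 2) + z (D.p 2 3) + z (D.p 3 1) + z (D.q 1 2) + z (D.q 2 3) + z (D.q 3 1)) * two
  exact absurd this (by decide)

/-- the values of the first character on the letters `q` -/
private def wx {n : ℕ} (a b : Fin (n + 1)) : ZMod 2 :=
  if a = 1 then (if b = 1 then 0 else 1) else (if b = 1 then 1 else 0)

/-- the values of the other characters on all letters -/
private def wy {n : ℕ} (c : Fin (n + 1)) (a b : Fin (n + 1)) : ZMod 2 :=
  if (a = 2 ∧ b = c) ∨ (a = c ∧ b = 2) then 1 else 0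

private theorem exists_x4 :
    ∃ x : ThetaGroup (Fin 4) 0 →* Multiplicative (ZMod 2),
      (∀ a b, (x (ThetaGroup.P a b)).toAdd = 0) ∧
      ∀ a b, (x (ThetaGroup.Q a b)).toAdd = wx a b := by
  obtain ⟨x, h1, h2⟩ := exists_char (E := Fin 4) (o := 0)
    { p := fun _ _ => 1
      q := fun a b => Multiplicative.ofAdd (wx a b)
      p_self := by decide
      p_inv := by decide
      q_self := by decide
      q_inv := by decide
      hex := by decide
      base := by decide }
  exact ⟨x, fun a b => by rw [h1]; rfl, fun a b => by rw [h2]; rfl⟩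

private theorem exists_y4 :
    ∃ x : ThetaGroup (Fin 4) 0 →* Multiplicative (ZMod 2),
      (∀ a b, (x (ThetaGroup.P a b)).toAdd = wy 3 a b) ∧
      ∀ a b, (x (ThetaGroup.Q a b)).toAdd = wy 3 a b := by
  obtain ⟨x, h1, h2⟩ := exists_char (E := Fin 4) (o := 0)
    { p := fun a b => Multiplicative.ofAdd (wy 3 a b)
      q := fun a b => Multiplicative.ofAdd (wy 3 a b)
      p_self := by decide
      p_inv := by decide
      q_self := by decide
      q_inv := by decide
      hex := by decide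
      base := by decide }
  exact ⟨x, fun a b => by rw [h1]; rfl, fun a b => by rw [h2]; rfl⟩

private theorem exists_x5 :
    ∃ x : ThetaGroup (Fin 5) 0 →* Multiplicative (ZMod 2),
      (∀ a b, (x (ThetaGroup.P a b)).toAdd = 0) ∧
      ∀ a b, (x (ThetaGroup.Q a b)).toAdd = wx a b := by
  obtain ⟨x, h1, h2⟩ := exists_char (E := Fin 5) (o := 0)
    { p := fun _ _ => 1
      q := fun a b => Multiplicative.ofAdd (wx a b)
      p_self := by decide
      p_inv := by decide
      q_self := by decide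
      q_inv := by decide
      hex := by decide
      base := by decide }
  exact ⟨x, fun a b => by rw [h1]; rfl, fun a b => by rw [h2]; rfl⟩

private theorem exists_y5 (c : Fin 5) (hc : c = 3 ∨ c = 4) :
    ∃ x : ThetaGroup (Fin 5) 0 →* Multiplicative (ZMod 2),
      (∀ a b, (x (ThetaGroup.P a b)).toAdd = wy c a b) ∧
      ∀ a b, (x (ThetaGroup.Q a b)).toAdd = wy c a b := by
  obtain ⟨x, h1, h2⟩ := exists_char (E := Fin 5) (o := 0)
    { p := fun a b => Multiplicative.ofAdd (wy c a b)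
      q := fun a b => Multiplicative.ofAdd (wy c a b)
      p_self := by rcases hc with rfl | rfl <;> decide
      p_inv := by rcases hc with rfl | rfl <;> decide
      q_self := by rcases hc with rfl | rfl <;> decide
      q_inv := by rcases hc with rfl | rfl <;> decide
      hex := by rcases hc with rfl | rfl <;> decide
      base := by rcases hc with rfl | rfl <;> decide }
  exact ⟨x, fun a b => by rw [h1]; rfl, fun a b => by rw [h2]; rfl⟩

theorem theta4_not_liftable :
    ∃ x y : ThetaGroup (Fin 4) 0 →* Multiplicative (ZMod 2), ¬ Liftable x y := by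
  obtain ⟨x, hx1, hx2⟩ := exists_x4
  obtain ⟨y, hy1, hy2⟩ := exists_y4
  exact ⟨x, y, key (univData (Fin 4) 0) x y hx1 hx2 hy1 hy2⟩

theorem theta5_not_liftable :
    ∃ x y₁ y₂ : ThetaGroup (Fin 5) 0 →* Multiplicative (ZMod 2),
      ¬ Liftable x y₁ ∧ ¬ Liftable x y₂ ∧ ¬ Liftable x (y₁ * y₂) := by
  obtain ⟨x, hx1, hx2⟩ := exists_x5
  obtain ⟨y₁, h1, h1'⟩ := exists_y5 3 (Or.inl rfl)
  obtain ⟨y₂, h2, h2'⟩ := exists_y5 4 (Or.inr rfl)
  have e1 : ∀ a b : Fin 4, wx (![0, 1, 2, 3] a : Fin 5) (![0, 1, 2, 3] b : Fin 5) = vx a b := by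
    decide
  have e2 : ∀ a b : Fin 4, wx (![0, 1, 2, 4] a : Fin 5) (![0, 1, 2, 4] b : Fin 5) = vx a b := by
    decide
  have e3 : ∀ a b : Fin 4, wy 3 (![0, 1, 2, 3] a : Fin 5) (![0, 1, 2, 3] b : Fin 5) = vy a b := by
    decide
  have e4 : ∀ a b : Fin 4, wy 4 (![0, 1, 2, 4] a : Fin 5) (![0, 1, 2, 4] b : Fin 5) = vy a b := by
    decide
  have e5 : ∀ a b : Fin 4, wy 3 (![0, 1, 2, 3] a : Fin 5) (![0, 1, 2, 3] b : Fin 5) +
      wy 4 (![0, 1, 2, 3] a : Fin 5) (![0, 1, 2, 3] b : Fin 5) = vy a b := by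
    decide
  refine ⟨x, y₁, y₂, ?_, ?_, ?_⟩
  · exact key (pullData (univData (Fin 5) 0) ![0, 1, 2, 3] rfl) x y₁ (fun a b => hx1 _ _)
      (fun a b => (hx2 _ _).trans (e1 a b)) (fun a b => (h1 _ _).trans (e3 a b))
      (fun a b => (h1' _ _).trans (e3 a b))
  · exact key (pullData (univData (Fin 5) 0) ![0, 1, 2, 4] rfl) x y₂ (fun a b => hx1 _ _)
      (fun a b => (hx2 _ _).trans (e2 a b)) (fun a b => (h2 _ _).trans (e4 a b))
      (fun a b => (h2' _ _).trans (e4 a b))
  · refine key (pullData (univData (Fin 5) 0) ![0, 1, 2, 3] rfl) x (y₁ * y₂) (fun a b => hx1 _ _)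
      (fun a b => (hx2 _ _).trans (e1 a b)) (fun a b => ?_) (fun a b => ?_)
    · rw [MonoidHom.mul_apply, toAdd_mul]
      refine Eq.trans ?_ (e5 a b)
      exact congrArg₂ (· + ·) (h1 _ _) (h2 _ _)
    · rw [MonoidHom.mul_apply, toAdd_mul]
      refine Eq.trans ?_ (e5 a b)
      exact congrArg₂ (· + ·) (h1' _ _) (h2' _ _)

end Pool.Agent.Helper29.PB
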