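import Pool.Agent.Helper29.PB.Union
namespace Pool.Agent.Helper29.PB

/-! PB-6 -/

/-- the homomorphism of a `ThetaData` -/
theorem ThetaData.exists_hom {E : Type} {o : E} {X : Type*} [Group X] (d : ThetaData E o X) :
    ∃ f : ThetaGroup E o →* X, (∀ x y, f (ThetaGroup.P x y) = d.p x y) ∧
      ∀ x y, f (ThetaGroup.Q x y) = d.q x y := by
  have h : ∀ w ∈ thetaRels E o,
      FreeGroup.lift (fun l : Bool × E × E => if l.1 then d.q l.2.1 l.2.2 else d.p l.2.1 l.2.2)
        w = 1 := by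
    rintro w (⟨x, rfl⟩ | ⟨x, y, rfl⟩ | ⟨x, rfl⟩ | ⟨x, y, rfl⟩ | ⟨x, y, z, rfl⟩ | ⟨y, rfl⟩)
    · simpa using d.p_self x
    · simpa using d.p_inv x y
    · simpa using d.q_self x
    · simpa using d.q_inv x y
    · simpa using d.hex x y z
    · simpa using d.base y
  refine ⟨PresentedGroup.toGroup h, fun a b => ?_, fun a b => ?_⟩
  · exact (PresentedGroup.toGroup.of h).trans (by simp)
  · exact (PresentedGroup.toGroup.of h).trans (by simp)

/-- the universal data -/
theorem exists_thetaData (E : Type) (o : E) : ∃ d : ThetaData E o (ThetaGroup E o),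
    d.p = ThetaGroup.P ∧ d.q = ThetaGroup.Q := by
  have h : ∀ {w : FreeGroup (Bool × E × E)}, w ∈ thetaRels E o →
      (PresentedGroup.mk (thetaRels E o)) w = 1 := fun hw => PresentedGroup.one_of_mem hw
  exact ⟨{  p := ThetaGroup.P
            q := ThetaGroup.Q
            p_self := fun x => h (Or.inl ⟨x, rfl⟩)
            p_inv := fun x y => h (Or.inr (Or.inl ⟨x, y, rfl⟩))
            q_self := fun x => h (Or.inr (Or.inr (Or.inl ⟨x, rfl⟩)))
            q_inv := fun x y => h (Or.inr (Or.inr (Or.inr (Or.inl ⟨x, y, rfl⟩))))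
            hex := fun x y z => h (Or.inr (Or.inr (Or.inr (Or.inr (Or.inl ⟨x, y, z, rfl⟩)))))
            base := fun y => h (Or.inr (Or.inr (Or.inr (Or.inr (Or.inr ⟨y, rfl⟩))))) }, rfl, rfl⟩

private theorem exists_map {E E' : Type} {o : E} {o' : E'} (e : E → E') (he : e o = o') :
    ∃ f : ThetaGroup E o →* ThetaGroup E' o',
      (∀ x y, f (ThetaGroup.P x y) = ThetaGroup.P (e x) (e y)) ∧
      ∀ x y, f (ThetaGroup.Q x y) = ThetaGroup.Q (e x) (e y) := by
  obtain ⟨d, h1, h2⟩ := exists_thetaData E' o'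
  obtain ⟨f, hf1, hf2⟩ := ThetaData.exists_hom (E := E) (o := o)
    { p := fun x y => d.p (e x) (e y)
      q := fun x y => d.q (e x) (e y)
      p_self := fun x => d.p_self _
      p_inv := fun x y => d.p_inv _ _
      q_self := fun x => d.q_self _
      q_inv := fun x y => d.q_inv _ _
      hex := fun x y z => d.hex _ _ _
      base := fun y => by rw [he]; exact d.base _ }
  refine ⟨f, fun x y => ?_, fun x y => ?_⟩
  · exact (hf1 x y).trans (congrFun (congrFun h1 _) _)
  · exact (hf2 x y).trans (congrFun (congrFun h2 _) _)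

private theorem hom_ext' {E : Type} {o : E} {X : Type*} [Group X] {f g : ThetaGroup E o →* X}
    (h1 : ∀ x y, f (ThetaGroup.P x y) = g (ThetaGroup.P x y))
    (h2 : ∀ x y, f (ThetaGroup.Q x y) = g (ThetaGroup.Q x y)) : f = g := by
  refine PresentedGroup.ext fun l => ?_
  obtain ⟨b, x, y⟩ := l
  cases b
  · exact h1 x y
  · exact h2 x y

private theorem exists_retract {E E' : Type} {o : E} {o' : E'} (e : E → E') (he : e o = o')
    (r : E' → E) (hr : r o' = o) (hre : ∀ x, r (e x) = x) :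
    ∃ (i : ThetaGroup E o →* ThetaGroup E' o') (ρ : ThetaGroup E' o' →* ThetaGroup E o),
      ρ.comp i = MonoidHom.id _ ∧ (∀ x y, i (ThetaGroup.P x y) = ThetaGroup.P (e x) (e y)) ∧
      ∀ x y, i (ThetaGroup.Q x y) = ThetaGroup.Q (e x) (e y) := by
  obtain ⟨i, h1, h2⟩ := exists_map e he
  obtain ⟨ρ, h3, h4⟩ := exists_map r hr
  refine ⟨i, ρ, hom_ext' (fun x y => ?_) (fun x y => ?_), h1, h2⟩
  · rw [MonoidHom.comp_apply, h1, h3, hre, hre, MonoidHom.id_apply]
  · rw [MonoidHom.comp_apply, h2, h4, hre, hre, MonoidHom.id_apply]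

theorem theta_retract (k m : ℕ) (h : k ≤ m) :
    ∃ (i : ThetaGroup (Fin (k + 1)) 0 →* ThetaGroup (Fin (m + 1)) 0)
      (ρ : ThetaGroup (Fin (m + 1)) 0 →* ThetaGroup (Fin (k + 1)) 0),
      ρ.comp i = MonoidHom.id _ := by
  obtain ⟨i, ρ, h1, -, -⟩ := exists_retract (o := (0 : Fin (k + 1))) (o' := (0 : Fin (m + 1)))
    (fun x : Fin (k + 1) => (⟨x.1, by omega⟩ : Fin (m + 1))) (by ext; simp)
    (fun x : Fin (m + 1) => if hx : x.1 ≤ k then (⟨x.1, by omega⟩ : Fin (k + 1)) else 0)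
    (by simp) (fun x => by
      have : x.1 ≤ k := by omega
      simp [this])
  exact ⟨i, ρ, h1⟩

private theorem fg_theta (n : ℕ) : Group.FG (ThetaGroup (Fin (n + 1)) 0) := by
  rw [Group.fg_iff]
  refine ⟨Set.range (PresentedGroup.of (rels := thetaRels (Fin (n + 1)) 0)),
    PresentedGroup.closure_range_of _, Set.finite_range _⟩

theorem oneEnded_theta (h3 : OneEnded (OrientableSurfaceGroup 3))
    (h4 : Nonempty (ThetaGroup (Fin 4) 0 ≃* OrientableSurfaceGroup 3))
    (m : ℕ) (hm : 3 ≤ m) : OneEnded (ThetaGroup (Fin (m + 1)) 0) := by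
  obtain ⟨e4⟩ := h4
  have hone4 : OneEnded (ThetaGroup (Fin 4) 0) := OneEnded.of_equiv e4.symm h3
  -- the index set
  let ι : Type := {x : Fin (m + 1) × Fin (m + 1) // 2 ≤ (x.1 : ℕ) ∧ 2 ≤ (x.2 : ℕ) ∧ x.1 ≠ x.2}
  have hι : Nonempty ι := ⟨⟨(⟨2, by omega⟩, ⟨3, by omega⟩), le_rfl, by simp, by simp⟩⟩
  let u : Fin (m + 1) := ⟨1, by omega⟩
  let j : ι → Fin 4 → Fin (m + 1) := fun x => ![0, u, x.1.1, x.1.2]
  have hret : ∀ x : ι, ∃ (i : ThetaGroup (Fin 4) 0 →* ThetaGroup (Fin (m + 1)) 0)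
      (ρ : ThetaGroup (Fin (m + 1)) 0 →* ThetaGroup (Fin 4) 0),
      ρ.comp i = MonoidHom.id _ ∧ (∀ a b, i (ThetaGroup.P a b) = ThetaGroup.P (j x a) (j x b)) ∧
      ∀ a b, i (ThetaGroup.Q a b) = ThetaGroup.Q (j x a) (j x b) := by
    intro x
    obtain ⟨⟨a, b⟩, ha, hb, hab⟩ := x
    have ha : 2 ≤ (a : ℕ) := ha
    have hb : 2 ≤ (b : ℕ) := hb
    have hab : a ≠ b := hab
    have h0a : (0 : Fin (m + 1)) ≠ a := fun h => by rw [← h] at ha; simp at ha
    have h0b : (0 : Fin (m + 1)) ≠ b := fun h => by rw [← h] at hb; simp at hb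
    have hua : u ≠ a := fun h => by rw [← h] at ha; simp [u] at ha
    have hub : u ≠ b := fun h => by rw [← h] at hb; simp [u] at hb
    have h0u : (0 : Fin (m + 1)) ≠ u := fun h => by
      have := congrArg Fin.val h
      simp [u] at this
    refine exists_retract (o := (0 : Fin 4)) (o' := (0 : Fin (m + 1))) (j ⟨(a, b), ha, hb, hab⟩) rfl
      (fun x => if x = a then 2 else if x = b then 3 else if x = u then 1 else 0)
      (by simp [h0a, h0b, h0u]) ?_
    intro t
    fin_cases t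
    · simp [j, h0a, h0b, h0u]
    · simp [j, hua, hub]
    · simp [j]
    · simp [j, hab.symm]
  choose i ρ h1 h2 h2' using hret
  have hinj : ∀ x, Function.Injective (i x) := fun x =>
    Function.LeftInverse.injective (g := ρ x) (fun g => DFunLike.congr_fun (h1 x) g)
  have := fg_theta 3
  refine oneEnded_of_subgroups (fun x => (i x).range) (fun x => ?_) (fun x => ?_) (fun x y => ?_) ?_
  · exact (Group.fg_iff_subgroup_fg _).1 (Group.fg_range (i x))
  · exact OneEnded.of_equiv (MonoidHom.ofInjective (hinj x)) hone4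
  · -- powers of `Q 0 1`
    obtain ⟨χ, -, hχ⟩ := ThetaData.exists_hom (E := Fin (m + 1)) (o := 0) (X := Multiplicative ℤ)
      { p := fun _ _ => 1
        q := fun a b => Multiplicative.ofAdd ((if b = u then 1 else 0) - (if a = u then 1 else 0))
        p_self := fun _ => rfl
        p_inv := fun _ _ => rfl
        q_self := fun x => by rw [sub_self]; rfl
        q_inv := fun x y => by
          rw [← ofAdd_add, ← ofAdd_zero]
          congr 1
          ring
        hex := fun x y z => by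
          rw [one_mul, mul_one, mul_one, ← ofAdd_add, ← ofAdd_add, ← ofAdd_zero]
          congr 1
          ring
        base := fun _ => rfl }
    have hmem : ∀ x : ι, ThetaGroup.Q (0 : Fin (m + 1)) u ∈ (i x).range := fun x =>
      ⟨ThetaGroup.Q 0 1, by rw [h2']; rfl⟩
    refine Set.infinite_of_injective_forall_mem
      (f := fun k : ℕ => (ThetaGroup.Q (0 : Fin (m + 1)) u : ThetaGroup (Fin (m + 1)) 0) ^ k) ?_ ?_
    · intro k l hkl
      have h5 := congrArg χ hkl
      have h0u : (0 : Fin (m + 1)) ≠ u := fun h => by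
        have := congrArg Fin.val h
        simp [u] at this
      simp only [map_pow, hχ, if_true, if_neg h0u, sub_zero] at h5
      rw [← ofAdd_nsmul, ← ofAdd_nsmul] at h5
      have h6 := Multiplicative.ofAdd.injective h5
      simpa using h6
    · intro k
      exact ⟨Subgroup.pow_mem _ (hmem x) k, Subgroup.pow_mem _ (hmem y) k⟩
  · rw [eq_top_iff, ← PresentedGroup.closure_range_of, Subgroup.closure_le]
    rintro _ ⟨⟨c, x, y⟩, rfl⟩
    -- two letters lie in a common subset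
    have hcommon : ∃ k : ι, (∃ a, j k a = x) ∧ ∃ b, j k b = y := by
      have hsmall : ∀ (k : ι) (z : Fin (m + 1)), (z : ℕ) < 2 → ∃ a, j k a = z := by
        intro k z hz
        by_cases h : (z : ℕ) = 0
        · exact ⟨0, by ext; simp [j, h]⟩
        · exact ⟨1, by ext; simp only [j, u]; simp; omega⟩
      have hother : ∀ z : Fin (m + 1), ∃ w : Fin (m + 1), 2 ≤ (w : ℕ) ∧ z ≠ w := by
        intro z
        by_cases h : (z : ℕ) = 2
        · exact ⟨⟨3, by omega⟩, by simp, fun h' => by rw [h'] at h; simp at h⟩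
        · exact ⟨⟨2, by omega⟩, by simp, fun h' => by rw [h'] at h; simp at h⟩
      by_cases hx : (x : ℕ) < 2
      · by_cases hy : (y : ℕ) < 2
        · obtain ⟨k⟩ := hι
          exact ⟨k, hsmall k x hx, hsmall k y hy⟩
        · obtain ⟨w, hw, hyw⟩ := hother y
          exact ⟨⟨(y, w), Nat.not_lt.1 hy, hw, hyw⟩, hsmall _ x hx, ⟨2, rfl⟩⟩
      · by_cases hy : (y : ℕ) < 2
        · obtain ⟨w, hw, hxw⟩ := hother x
          exact ⟨⟨(x, w), Nat.not_lt.1 hx, hw, hxw⟩, ⟨2, rfl⟩, hsmall _ y hy⟩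
        · by_cases hxy : x = y
          · obtain ⟨w, hw, hxw⟩ := hother x
            exact ⟨⟨(x, w), Nat.not_lt.1 hx, hw, hxw⟩, ⟨2, rfl⟩, ⟨2, hxy⟩⟩
          · exact ⟨⟨(x, y), Nat.not_lt.1 hx, Nat.not_lt.1 hy, hxy⟩, ⟨2, rfl⟩, ⟨3, rfl⟩⟩
    obtain ⟨k, ⟨a, rfl⟩, ⟨b, rfl⟩⟩ := hcommon
    refine Subgroup.mem_iSup_of_mem k ?_
    cases c
    · exact ⟨ThetaGroup.P a b, h2 k a b⟩
    · exact ⟨ThetaGroup.Q a b, h2' k a b⟩

end Pool.Agent.Helper29.PB
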