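import Pool.Agent.Helper29.PB.GDefs
namespace Pool.Agent.Helper29.PB

/-! PB-8 -/

section theta

variable {E : Type} {o : E}

private theorem sPP_self (x : E) : (ThetaGroup.P x x : ThetaGroup E o) = 1 :=
  PresentedGroup.one_of_mem (rels := thetaRels E o) (Or.inl ⟨x, rfl⟩)

private theorem sPP_inv (x y : E) : (ThetaGroup.P x y * ThetaGroup.P y x : ThetaGroup E o) = 1 :=
  PresentedGroup.one_of_mem (rels := thetaRels E o) (Or.inr (Or.inl ⟨x, y, rfl⟩))

private theorem sQQ_self (x : E) : (ThetaGroup.Q x x : ThetaGroup E o) = 1 :=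
  PresentedGroup.one_of_mem (rels := thetaRels E o) (Or.inr (Or.inr (Or.inl ⟨x, rfl⟩)))

private theorem sQQ_inv (x y : E) : (ThetaGroup.Q x y * ThetaGroup.Q y x : ThetaGroup E o) = 1 :=
  PresentedGroup.one_of_mem (rels := thetaRels E o) (Or.inr (Or.inr (Or.inr (Or.inl ⟨x, y, rfl⟩))))

private theorem sHex (x y z : E) : (ThetaGroup.P x y * ThetaGroup.Q y z * ThetaGroup.P z x *
    ThetaGroup.Q x y * ThetaGroup.P y z * ThetaGroup.Q z x : ThetaGroup E o) = 1 :=
  PresentedGroup.one_of_mem (rels := thetaRels E o)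
    (Or.inr (Or.inr (Or.inr (Or.inr (Or.inl ⟨x, y, z, rfl⟩)))))

private theorem sBase (y : E) : (ThetaGroup.P o y : ThetaGroup E o) = 1 :=
  PresentedGroup.one_of_mem (rels := thetaRels E o)
    (Or.inr (Or.inr (Or.inr (Or.inr (Or.inr ⟨y, rfl⟩)))))

private theorem sLift {X : Type} [Group X] (d : ThetaData E o X) :
    ∃ F : ThetaGroup E o →* X, (∀ x y, F (ThetaGroup.P x y) = d.p x y) ∧
      ∀ x y, F (ThetaGroup.Q x y) = d.q x y := by
  let l : Bool × E × E → X := fun w => if w.1 then d.q w.2.1 w.2.2 else d.p w.2.1 w.2.2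
  have h : ∀ r ∈ thetaRels E o, FreeGroup.lift l r = 1 := by
    rintro r (⟨x, rfl⟩ | ⟨x, y, rfl⟩ | ⟨x, rfl⟩ | ⟨x, y, rfl⟩ | ⟨x, y, z, rfl⟩ | ⟨y, rfl⟩)
    · simpa [l] using d.p_self x
    · simpa [l] using d.p_inv x y
    · simpa [l] using d.q_self x
    · simpa [l] using d.q_inv x y
    · simpa [l] using d.hex x y z
    · simpa [l] using d.base y
  refine ⟨PresentedGroup.toGroup h, fun x y => ?_, fun x y => ?_⟩
  · exact PresentedGroup.toGroup.of h
  · exact PresentedGroup.toGroup.of h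

private theorem sExt {X : Type} [Group X] {F G : ThetaGroup E o →* X}
    (h1 : ∀ x y, F (ThetaGroup.P x y) = G (ThetaGroup.P x y))
    (h2 : ∀ x y, F (ThetaGroup.Q x y) = G (ThetaGroup.Q x y)) : F = G := by
  apply PresentedGroup.ext
  rintro ⟨b, x, y⟩
  cases b
  · exact h1 x y
  · exact h2 x y

end theta

private theorem free1 : IsFreeGroup (ThetaGroup (Fin 1) 0) := by
  refine IsFreeGroup.ofUniqueLift Empty Empty.elim ?_
  intro H _ f
  refine ⟨1, fun a => a.elim, fun F _ => ?_⟩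
  apply sExt
  · intro x y
    rw [Subsingleton.elim x y, sPP_self, map_one, map_one]
  · intro x y
    rw [Subsingleton.elim x y, sQQ_self, map_one, map_one]

private theorem free2 : IsFreeGroup (ThetaGroup (Fin 2) 0) := by
  refine IsFreeGroup.ofUniqueLift Unit (fun _ => ThetaGroup.Q 0 1) ?_
  intro H _ f
  obtain ⟨F, hF1, hF2⟩ := sLift (E := Fin 2) (o := 0) (X := H)
    { p := fun _ _ => 1
      q := ![![1, f ()], ![(f ())⁻¹, 1]]
      p_self := fun _ => rfl
      p_inv := fun _ _ => by simp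
      q_self := fun x => by fin_cases x <;> simp
      q_inv := fun x y => by fin_cases x <;> fin_cases y <;> simp
      hex := fun x y z => by fin_cases x <;> fin_cases y <;> fin_cases z <;> simp
      base := fun _ => rfl }
  refine ⟨F, fun a => ?_, fun G hG => ?_⟩
  · rw [hF2]; rfl
  · have h01 : G (ThetaGroup.Q 0 1) = F (ThetaGroup.Q 0 1) := by
      rw [hG (), hF2]; rfl
    have e1 : (ThetaGroup.P 1 0 : ThetaGroup (Fin 2) 0) = 1 := by
      have := sPP_inv (o := (0 : Fin 2)) 0 1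
      rw [sBase, one_mul] at this
      exact this
    have e2 : (ThetaGroup.Q 1 0 : ThetaGroup (Fin 2) 0) = (ThetaGroup.Q 0 1)⁻¹ := by
      have := sQQ_inv (o := (0 : Fin 2)) 0 1
      exact (inv_eq_of_mul_eq_one_right this).symm
    apply sExt
    · intro x y
      fin_cases x <;> fin_cases y <;> simp [sBase, e1, sPP_self]
    · intro x y
      fin_cases x <;> fin_cases y <;> simp [sQQ_self, e2, h01]

private theorem fin3 {p : Fin 3 → Prop} (h0 : p 0) (h1 : p 1) (h2 : p 2) : ∀ x, p x := by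
  intro x
  match x with
  | 0 => exact h0
  | 1 => exact h1
  | 2 => exact h2

private theorem free3 : IsFreeGroup (ThetaGroup (Fin 3) 0) := by
  refine IsFreeGroup.ofUniqueLift (Fin 3)
    ![ThetaGroup.Q 0 1, ThetaGroup.Q 0 2, ThetaGroup.P 1 2] ?_
  intro H _ f
  obtain ⟨F, hF1, hF2⟩ := sLift (E := Fin 3) (o := 0) (X := H)
    { p := ![![1, 1, 1], ![1, 1, f 2], ![1, (f 2)⁻¹, 1]]
      q := ![![1, f 0, f 1], ![(f 0)⁻¹, 1, f 1 * (f 2)⁻¹ * (f 0)⁻¹],
        ![(f 1)⁻¹, f 0 * f 2 * (f 1)⁻¹, 1]]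
      p_self := fun x => by fin_cases x <;> simp
      p_inv := fun x y => by fin_cases x <;> fin_cases y <;> simp
      q_self := fun x => by fin_cases x <;> simp
      q_inv := fun x y => by fin_cases x <;> fin_cases y <;> simp [mul_assoc]
      hex := by
        refine fin3 (fin3 (fin3 ?_ ?_ ?_) (fin3 ?_ ?_ ?_) (fin3 ?_ ?_ ?_))
          (fin3 (fin3 ?_ ?_ ?_) (fin3 ?_ ?_ ?_) (fin3 ?_ ?_ ?_))
          (fin3 (fin3 ?_ ?_ ?_) (fin3 ?_ ?_ ?_) (fin3 ?_ ?_ ?_)) <;> simp [mul_assoc]
      base := fun x => by fin_cases x <;> simp }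
  refine ⟨F, fun a => ?_, fun G hG => ?_⟩
  · fin_cases a
    · simp [hF2]
    · simp [hF2]
    · simp [hF1]
  · have h0 : G (ThetaGroup.Q 0 1) = F (ThetaGroup.Q 0 1) := by
      have := hG 0
      rw [hF2]; exact this
    have h1 : G (ThetaGroup.Q 0 2) = F (ThetaGroup.Q 0 2) := by
      have := hG 1
      rw [hF2]; exact this
    have h2 : G (ThetaGroup.P 1 2) = F (ThetaGroup.P 1 2) := by
      have := hG 2
      rw [hF1]; exact this
    have e1 : ∀ x : Fin 3, (ThetaGroup.P x 0 : ThetaGroup (Fin 3) 0) = 1 := by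
      intro x
      have := sPP_inv (o := (0 : Fin 3)) 0 x
      rw [sBase, one_mul] at this
      exact this
    have e2 : ∀ x y : Fin 3, (ThetaGroup.Q x y : ThetaGroup (Fin 3) 0) = (ThetaGroup.Q y x)⁻¹ := by
      intro x y
      have := sQQ_inv (o := (0 : Fin 3)) y x
      exact (inv_eq_of_mul_eq_one_right this).symm
    have e3 : (ThetaGroup.P 2 1 : ThetaGroup (Fin 3) 0) = (ThetaGroup.P 1 2)⁻¹ := by
      have := sPP_inv (o := (0 : Fin 3)) 1 2
      exact (inv_eq_of_mul_eq_one_right this).symm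
    have e4 : (ThetaGroup.Q 1 2 : ThetaGroup (Fin 3) 0) =
        ThetaGroup.Q 0 2 * (ThetaGroup.P 1 2)⁻¹ * (ThetaGroup.Q 0 1)⁻¹ := by
      have := sHex (o := (0 : Fin 3)) 0 1 2
      rw [sBase, e1 2, one_mul, mul_one, e2 2 0] at this
      have h3 := eq_inv_of_mul_eq_one_left this
      rw [inv_inv] at h3
      rw [← h3]
      group
    have q10 := e2 1 0
    have q20 := e2 2 0
    have q21 := e2 2 1
    apply sExt
    · refine fin3 ?_ (fin3 ?_ ?_ ?_) (fin3 ?_ ?_ ?_)
      · intro y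
        rw [sBase, map_one, map_one]
      · rw [e1, map_one, map_one]
      · rw [sPP_self, map_one, map_one]
      · exact h2
      · rw [e1, map_one, map_one]
      · rw [e3, map_inv, map_inv, h2]
      · rw [sPP_self, map_one, map_one]
    · have h12 : G (ThetaGroup.Q 1 2) = F (ThetaGroup.Q 1 2) := by
        rw [e4, map_mul, map_mul, map_inv, map_inv, map_mul, map_mul, map_inv, map_inv, h0, h1, h2]
      refine fin3 (fin3 ?_ ?_ ?_) (fin3 ?_ ?_ ?_) (fin3 ?_ ?_ ?_)
      · rw [sQQ_self, map_one, map_one]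
      · exact h0
      · exact h1
      · rw [q10, map_inv, map_inv, h0]
      · rw [sQQ_self, map_one, map_one]
      · exact h12
      · rw [q20, map_inv, map_inv, h1]
      · rw [q21, map_inv, map_inv, h12]
      · rw [sQQ_self, map_one, map_one]

theorem isFreeGroup_theta_small (m : ℕ) (hm : m ≤ 2) :
    IsFreeGroup (ThetaGroup (Fin (m + 1)) 0) := by
  interval_cases m
  · exact free1
  · exact free2
  · exact free3

theorem isFreeGroup_coprod {G : Type} [Group G] [IsFreeGroup G] (κ : Type) :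
    IsFreeGroup (Monoid.Coprod G (FreeGroup κ)) := by
  refine IsFreeGroup.ofUniqueLift (IsFreeGroup.Generators G ⊕ κ)
    (Sum.elim (fun a => Monoid.Coprod.inl (IsFreeGroup.of a))
      (fun k => Monoid.Coprod.inr (FreeGroup.of k))) ?_
  intro H _ f
  refine ⟨Monoid.Coprod.lift (IsFreeGroup.lift (f ∘ Sum.inl)) (FreeGroup.lift (f ∘ Sum.inr)),
    ?_, ?_⟩
  · rintro (a | k)
    · simp
    · simp
  · intro F hF
    apply Monoid.Coprod.hom_ext
    · rw [Monoid.Coprod.lift_comp_inl]
      apply IsFreeGroup.ext_hom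
      intro a
      have := hF (Sum.inl a)
      simpa using this
    · rw [Monoid.Coprod.lift_comp_inr]
      apply FreeGroup.ext_hom
      intro k
      have := hF (Sum.inr k)
      simpa using this

end Pool.Agent.Helper29.PB
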