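import Pool.Agent.Helper29.PB.Union
import Pool.Agent.Helper29.PB.FreeLetter
import Pool.Agent.Helper29.PB.Cup
import Pool.Agent.Helper29.PB.Genus
import Pool.Agent.Helper29.PB.Theta4
import Pool.Agent.Helper29.PB.ThetaMap
import Pool.Agent.Helper29.PB.ThetaCup
import Pool.Agent.Helper29.PB.ThetaSmall
import Pool.Agent.Helper29.PB.GT
import Pool.Agent.Helper29.PB.PulsarTree
import Pool.Agent.Helper29.PB.PulsarCocycle
import Pool.Agent.Helper29.PB.PulsarIso
import Pool.Agent.Helper29.PB.SunTree
import Pool.Agent.Helper29.PB.SunExist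
import Pool.Agent.Helper29.PB.SunUnique
import Pool.Agent.Helper29.PB.SunIso

/-!
# Assembly of project PB
-/

namespace Pool.Agent.Helper29.PB
open HGraph

/-- Structure of the 3-particle braid groups of sun graphs. -/
theorem sun_structure (K N : ℕ) [NeZero K] (b : Fin N → Fin K) (s : (sun K N b).State 3) :
    ∃ κ : Type, Nonempty κ ∧ Finite κ ∧ Nonempty (Braid s ≃* FreeGroup κ) := by
  obtain ⟨T, hu, hd⟩ := exists_sunTree K N b
  obtain ⟨u⟩ := GT3 T
  obtain ⟨e⟩ := braid_base T s
  have hTr : T.Tr = STr := by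
    funext h x y
    unfold Tree3.Tr STr
    rw [hu, hd]
  rw [hTr] at u
  obtain ⟨κ, h1, h2, ⟨e'⟩⟩ := sun_iso u (fun X _ d => d.exists_cocycle)
    (fun X _ c hc => exists_sdata c hc)
  exact ⟨κ, h1, h2, ⟨e.trans e'⟩⟩

/-- Structure of the 3-particle braid groups of pulsar graphs. -/
theorem pulsar_structure (r m s : ℕ) (t : (pulsar r (m + 1) s).State 3) :
    Nonempty (Braid t ≃* Monoid.Coprod (ThetaGroup (Fin (m + 1)) 0)
      (FreeGroup (PKappa r (m + 1) s (Nat.succ_pos m)))) := by
  obtain ⟨T, hu, hd⟩ := exists_pulsarTree (r := r) (s := s) (Nat.succ_pos m)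
  obtain ⟨u⟩ := GT3 T
  obtain ⟨e⟩ := braid_base T t
  have hTr : T.Tr = fun h x y => PTup h x y ∨ PTdn (Nat.succ_pos m) h x y := by
    funext h x y
    unfold Tree3.Tr
    rw [hu, hd]
  rw [hTr] at u
  obtain ⟨e'⟩ := pulsar_iso u (fun X _ d => d.exists_cocycle) (fun X _ c hc => exists_pdata c hc)
  exact ⟨e.trans e'⟩

theorem pkappa_empty_iff (r m s : ℕ) (hm : 1 ≤ m) :
    IsEmpty (PKappa r (m + 1) s (Nat.succ_pos m)) ↔ r = 0 ∧ s = 0 := by
  constructor
  · intro h
    constructor
    · by_contra hr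
      have hr : 0 < r := Nat.pos_of_ne_zero hr
      exact h.elim (Sum.inl (Sum.inr ⟨(⟨0, by omega⟩, ⟨r + 1, by omega⟩), by
        refine ⟨hr, ?_, ?_, ?_⟩
        · show (0 : ℕ) < r + 1
          omega
        · show r + 1 < r + (m + 1)
          omega
        · intro h
          have := congrArg Fin.val h
          simp [oo] at this⟩))
    · by_contra hs
      have hs : 0 < s := Nat.pos_of_ne_zero hs
      exact h.elim (Sum.inl (Sum.inl ⟨(⟨r + 1, by omega⟩, ⟨r + (m + 1), by omega⟩), by
        refine ⟨?_, ?_, ?_, ?_⟩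
        · show r ≤ r + 1
          omega
        · show r + 1 < r + (m + 1)
          omega
        · show r + (m + 1) ≤ r + (m + 1)
          omega
        · intro h
          have := congrArg Fin.val h
          simp [oo] at this⟩))
  · rintro ⟨rfl, rfl⟩
    constructor
    rintro ((⟨⟨x, y⟩, h⟩ | ⟨⟨x, y⟩, h⟩) | (⟨⟨x, y, z⟩, h⟩ | ⟨⟨x, y, z⟩, h⟩))
    · have := y.2
      simp only at h
      omega
    · simp only at h
      omega
    · simp only at h
      omega
    · have := y.2
      simp only at h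
      omega

/-! ### Group theory for the final statement -/

theorem hasFreeLetter_of_free {G : Type} [Group G] [IsFreeGroup G] [Nontrivial G] :
    HasFreeLetter G := by
  have e := IsFreeGroup.toFreeGroup G
  have hne : Nonempty (IsFreeGroup.Generators G) := by
    by_contra hE
    rw [not_nonempty_iff] at hE
    have : Subsingleton G := e.toEquiv.subsingleton
    exact not_subsingleton G this
  exact (hasFreeLetter_freeGroup (IsFreeGroup.Generators G)).of_equiv e.symm

/-- a nontrivial character of the theta group -/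
theorem theta_nontrivial (m : ℕ) (hm : 1 ≤ m) : Nontrivial (ThetaGroup (Fin (m + 1)) 0) := by
  classical
  let g : Fin (m + 1) → ZMod 2 := fun x => if (x : ℕ) = 1 then 1 else 0
  have h2 : ∀ a : ZMod 2, a + a = 0 := by decide
  let d : ThetaData (Fin (m + 1)) 0 (Multiplicative (ZMod 2)) :=
    { p := fun _ _ => 1
      q := fun x y => Multiplicative.ofAdd (g x + g y)
      p_self := fun _ => rfl
      p_inv := fun _ _ => rfl
      q_self := fun x => by rw [h2]; rfl
      q_inv := fun x y => by
        rw [← ofAdd_add, ← ofAdd_zero]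
        congr 1
        have := h2 (g x + g y)
        rw [add_comm (g y) (g x)]
        exact this
      hex := fun x y z => by
        simp only [one_mul, mul_one]
        rw [← ofAdd_add, ← ofAdd_add, ← ofAdd_zero]
        congr 1
        generalize g x = a
        generalize g y = b
        generalize g z = c
        revert a b c
        decide
      base := fun _ => rfl }
  obtain ⟨f, _, hq⟩ := d.exists_hom
  refine ⟨⟨ThetaGroup.Q 0 ⟨1, by omega⟩, 1, ?_⟩⟩
  intro h
  have h1 := hq 0 ⟨1, by omega⟩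
  rw [h, map_one] at h1
  have h3 : (0 : ZMod 2) = g 0 + g ⟨1, by omega⟩ := congrArg Multiplicative.toAdd h1
  simp [g] at h3

theorem isFreeGroup_of_equiv {G H : Type} [Group G] [Group H] (e : G ≃* H) [IsFreeGroup G] :
    IsFreeGroup H := IsFreeGroup.ofMulEquiv e

/-- `G * 1 = G` -/
theorem coprod_empty (G : Type) [Group G] (κ : Type) [IsEmpty κ] :
    Nonempty (Monoid.Coprod G (FreeGroup κ) ≃* G) := by
  refine ⟨MonoidHom.toMulEquiv (Monoid.Coprod.fst) (Monoid.Coprod.inl) ?_ ?_⟩
  · apply Monoid.Coprod.hom_ext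
    · ext x
      simp
    · ext x
      exact isEmptyElim x
  · ext x
    simp

/-- characters of a retract that are not liftable stay not liftable -/
theorem retract_not_liftable {G H : Type} [Group G] [Group H] (i : H →* G) (ρ : G →* H)
    (h : ρ.comp i = MonoidHom.id H) {x y : H →* Multiplicative (ZMod 2)} (hxy : ¬ Liftable x y) :
    ¬ Liftable (x.comp ρ) (y.comp ρ) := by
  intro hl
  have := hl.comp i
  rw [MonoidHom.comp_assoc, MonoidHom.comp_assoc, h, MonoidHom.comp_id, MonoidHom.comp_id] at this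
  exact hxy this

/-- the theta group of a smaller number of parallel edges is a retract of the braid group -/
theorem braid_retract (r m s k : ℕ) (hk : k ≤ m) (t : (pulsar r (m + 1) s).State 3) :
    ∃ (i : ThetaGroup (Fin (k + 1)) 0 →* Braid t) (ρ : Braid t →* ThetaGroup (Fin (k + 1)) 0),
      ρ.comp i = MonoidHom.id _ := by
  obtain ⟨e⟩ := pulsar_structure r m s t
  obtain ⟨i, ρ, h⟩ := theta_retract k m hk
  refine ⟨(e.symm.toMonoidHom.comp Monoid.Coprod.inl).comp i,
    (ρ.comp Monoid.Coprod.fst).comp e.toMonoidHom, ?_⟩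
  ext x
  have := DFunLike.congr_fun h (PresentedGroup.of x)
  simpa using this

theorem pulsar_classification (r m s : ℕ) (hm : 1 ≤ m) (t : (pulsar r (m + 1) s).State 3) :
    (IsFreeGroup (Braid t) ↔ m + 1 ≤ 3) ∧
    (OneEnded (Braid t) ↔ 4 ≤ m + 1 ∧ r = 0 ∧ s = 0) ∧
    (IsSurfaceGroup (Braid t) ↔ m + 1 = 4 ∧ r = 0 ∧ s = 0) := by
  obtain ⟨e⟩ := pulsar_structure r m s t
  have hfree : m + 1 ≤ 3 → IsFreeGroup (Braid t) := by
    intro h3
    haveI := isFreeGroup_theta_small m (by omega)
    haveI := isFreeGroup_coprod (G := ThetaGroup (Fin (m + 1)) 0)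
      (PKappa r (m + 1) s (Nat.succ_pos m))
    exact isFreeGroup_of_equiv e.symm
  have hnontriv : Nontrivial (Braid t) := by
    haveI := theta_nontrivial m hm
    obtain ⟨i, ρ, h⟩ := braid_retract r m s m le_rfl t
    have hi : Function.Injective i := by
      intro a b hab
      have h1 := DFunLike.congr_fun h a
      have h2 := DFunLike.congr_fun h b
      simp only [MonoidHom.comp_apply, MonoidHom.id_apply] at h1 h2
      rw [← h1, ← h2, hab]
    exact hi.nontrivial
  have hfl3 : m + 1 ≤ 3 → HasFreeLetter (Braid t) := by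
    intro h3
    haveI := hfree h3
    exact hasFreeLetter_of_free
  have hflk : ¬ (r = 0 ∧ s = 0) → HasFreeLetter (Braid t) := by
    intro h
    rw [← pkappa_empty_iff r m s hm, not_isEmpty_iff] at h
    haveI := h
    exact (hasFreeLetter_coprod _ _).of_equiv e.symm
  have hsmall : r = 0 → s = 0 → Nonempty (Braid t ≃* ThetaGroup (Fin (m + 1)) 0) := by
    intro hr hs
    haveI := (pkappa_empty_iff r m s hm).2 ⟨hr, hs⟩
    obtain ⟨e'⟩ := coprod_empty (ThetaGroup (Fin (m + 1)) 0) (PKappa r (m + 1) s (Nat.succ_pos m))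
    exact ⟨e.trans e'⟩
  refine ⟨⟨?_, hfree⟩, ⟨?_, ?_⟩, ⟨?_, ?_⟩⟩
  · intro hF
    by_contra hlt
    obtain ⟨x, y, hxy⟩ := theta4_not_liftable
    obtain ⟨i, ρ, h⟩ := braid_retract r m s 3 (by omega) t
    exact retract_not_liftable i ρ h hxy (liftable_of_isFreeGroup _ _)
  · intro h1
    refine ⟨?_, ?_⟩
    · by_contra hlt
      exact (hfl3 (by omega)).not_oneEnded h1
    · by_contra hrs
      exact (hflk hrs).not_oneEnded h1
  · rintro ⟨h4, hr, hs⟩
    obtain ⟨e'⟩ := hsmall hr hs
    exact (oneEnded_theta oneEnded_genus3 theta4_iso m (by omega)).of_equiv e'.symm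
  · intro hS
    have h4 : 4 ≤ m + 1 := by
      by_contra hlt
      exact (hfl3 (by omega)).not_isSurfaceGroup hS
    have hrs : r = 0 ∧ s = 0 := by
      by_contra hrs
      exact (hflk hrs).not_isSurfaceGroup hS
    refine ⟨?_, hrs⟩
    by_contra hne
    obtain ⟨x, y₁, y₂, h1, h2, h3⟩ := theta5_not_liftable
    obtain ⟨i, ρ, h⟩ := braid_retract r m s 4 (by omega) t
    rcases hS.liftable_add (x.comp ρ) (y₁.comp ρ) (y₂.comp ρ) with hl | hl | hl
    · exact retract_not_liftable i ρ h h1 hl
    · exact retract_not_liftable i ρ h h2 hl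
    · exact retract_not_liftable i ρ h h3 hl
  · rintro ⟨h4, hr, hs⟩
    obtain ⟨e'⟩ := hsmall hr hs
    obtain rfl : m = 3 := by omega
    obtain ⟨e4⟩ := theta4_iso
    exact Or.inl ⟨3, ⟨e'.trans e4⟩⟩

theorem sun_classification (K N : ℕ) [NeZero K] (b : Fin N → Fin K) (s : (sun K N b).State 3) :
    IsFreeGroup (Braid s) ∧ ¬ OneEnded (Braid s) ∧ ¬ IsSurfaceGroup (Braid s) := by
  obtain ⟨κ, hne, -, ⟨e⟩⟩ := sun_structure K N b s
  have hfl : HasFreeLetter (Braid s) := (hasFreeLetter_freeGroup κ).of_equiv e.symm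
  exact ⟨isFreeGroup_of_equiv e.symm, hfl.not_oneEnded, hfl.not_isSurfaceGroup⟩

end Pool.Agent.Helper29.PB
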