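import Pool.Agent.Helper29.PB.PulsarIso
namespace Pool.Agent.Helper29.PB

/-- PB-18: the contribution of `r` arcs at a vertex of a pulsar graph with `m + 1` parallel edges
to the rank of the free factor -/
def pk (r m : ℕ) : ℕ := r.choose 2 + r * m + ∑ t ∈ Finset.range r, (t + 1) * (t + m)

private theorem h72_sum (n m : ℕ) : ∑ t : Fin n, ((t : ℕ) + m) = n.choose 2 + n * m := by
  rw [Fin.sum_univ_eq_sum_range (fun t => t + m) n, Finset.sum_add_distrib,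
    Finset.sum_range_id, Nat.choose_two_right, Finset.sum_const, Finset.card_range, smul_eq_mul]

private theorem h72_card1 (n m : ℕ) :
    Nat.card (Σ t : Fin n, Fin ((t : ℕ) + m)) = n.choose 2 + n * m := by
  rw [Nat.card_eq_fintype_card, Fintype.card_sigma]
  simp only [Fintype.card_fin]
  exact h72_sum n m

private theorem h72_card2 (n m : ℕ) :
    Nat.card (Σ t : Fin n, Fin ((t : ℕ) + 1) × Fin ((t : ℕ) + m)) =
      ∑ t ∈ Finset.range n, (t + 1) * (t + m) := by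
  rw [Nat.card_eq_fintype_card, Fintype.card_sigma]
  simp only [Fintype.card_prod, Fintype.card_fin]
  exact Fin.sum_univ_eq_sum_range (fun t => (t + 1) * (t + m)) n

private theorem h72_ne {r m s : ℕ} {x : Fin (r + (m + 1) + s)} :
    x ≠ oo (Nat.succ_pos m) ↔ (x : ℕ) ≠ r := by
  unfold oo
  rw [Ne, Fin.ext_iff]

private theorem h72_p (r m s : ℕ) :
    Nat.card {x : Fin (r + (m + 1) + s) × Fin (r + (m + 1) + s) // r ≤ (x.1 : ℕ) ∧ x.1 < x.2 ∧
      r + (m + 1) ≤ (x.2 : ℕ) ∧ x.1 ≠ oo (Nat.succ_pos m)} = s.choose 2 + s * m := by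
  rw [← h72_card1]
  symm
  refine Nat.card_congr (Equiv.ofBijective (fun z =>
    ⟨(⟨r + 1 + (z.2 : ℕ), by have := z.1.2; have := z.2.2; omega⟩,
      ⟨r + (m + 1) + (z.1 : ℕ), by have := z.1.2; omega⟩), ?_⟩) ⟨?_, ?_⟩)
  · refine ⟨?_, ?_, ?_, ?_⟩
    · simp only; omega
    · rw [Fin.lt_def]; simp only; have := z.2.2; omega
    · simp only; omega
    · rw [h72_ne]; simp only; omega
  · rintro ⟨t, u⟩ ⟨t', u'⟩ h
    simp only [Subtype.mk.injEq, Prod.mk.injEq, Fin.mk.injEq] at h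
    obtain ⟨h1, h2⟩ := h
    have e : t = t' := Fin.ext (by omega)
    subst e
    have e : u = u' := Fin.ext (by omega)
    subst e
    rfl
  · rintro ⟨⟨⟨x, hx⟩, ⟨y, hy⟩⟩, h1, h2, h3, h4⟩
    rw [h72_ne] at h4
    rw [Fin.lt_def] at h2
    simp only at h1 h2 h3 h4
    refine ⟨⟨⟨y - (r + (m + 1)), by omega⟩, ⟨x - (r + 1), by simp only; omega⟩⟩, ?_⟩
    simp only [Subtype.mk.injEq, Prod.mk.injEq, Fin.mk.injEq]
    omega

private theorem h72_q (r m s : ℕ) :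
    Nat.card {x : Fin (r + (m + 1) + s) × Fin (r + (m + 1) + s) // (x.1 : ℕ) < r ∧ x.1 < x.2 ∧
      (x.2 : ℕ) < r + (m + 1) ∧ x.2 ≠ oo (Nat.succ_pos m)} = r.choose 2 + r * m := by
  rw [← h72_card1]
  symm
  refine Nat.card_congr (Equiv.ofBijective (fun z =>
    ⟨(⟨r - 1 - (z.1 : ℕ), by have := z.1.2; omega⟩,
      ⟨if r - 1 - (z.1 : ℕ) + 1 + (z.2 : ℕ) < r then r - 1 - (z.1 : ℕ) + 1 + (z.2 : ℕ)
        else r - 1 - (z.1 : ℕ) + 2 + (z.2 : ℕ), by
          have := z.1.2; have := z.2.2; split_ifs <;> omega⟩), ?_⟩) ⟨?_, ?_⟩)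
  · have := z.1.2
    have := z.2.2
    refine ⟨?_, ?_, ?_, ?_⟩
    · simp only; omega
    · rw [Fin.lt_def]; simp only; split_ifs <;> omega
    · simp only; split_ifs <;> omega
    · rw [h72_ne]; simp only; split_ifs <;> omega
  · rintro ⟨t, u⟩ ⟨t', u'⟩ h
    simp only [Subtype.mk.injEq, Prod.mk.injEq, Fin.mk.injEq] at h
    obtain ⟨h1, h2⟩ := h
    have ht := t.2
    have ht' := t'.2
    have e : t = t' := Fin.ext (by omega)
    subst e
    have e : u = u' := by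
      apply Fin.ext
      split_ifs at h2 <;> omega
    subst e
    rfl
  · rintro ⟨⟨⟨x, hx⟩, ⟨y, hy⟩⟩, h1, h2, h3, h4⟩
    rw [h72_ne] at h4
    rw [Fin.lt_def] at h2
    simp only at h1 h2 h3 h4
    refine ⟨⟨⟨r - 1 - x, by omega⟩, ⟨if y < r then y - x - 1 else y - x - 2, by
      simp only; split_ifs <;> omega⟩⟩, ?_⟩
    simp only [Subtype.mk.injEq, Prod.mk.injEq, Fin.mk.injEq]
    refine ⟨by omega, ?_⟩
    split_ifs <;> omega

private theorem h72_f (r m s : ℕ) :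
    Nat.card {x : Fin (r + (m + 1) + s) × Fin (r + (m + 1) + s) × Fin (r + (m + 1) + s) //
      (x.1 : ℕ) < r + (m + 1) ∧ x.2.1 ≤ x.2.2 ∧ (x.2.2 : ℕ) < r ∧ x.1 ≠ oo (Nat.succ_pos m) ∧
      x.2.1 < x.1} = ∑ t ∈ Finset.range r, (t + 1) * (t + m) := by
  rw [← h72_card2]
  symm
  refine Nat.card_congr (Equiv.ofBijective (fun z =>
    ⟨(⟨if r - 1 - (z.1 : ℕ) + 1 + (z.2.2 : ℕ) < r then r - 1 - (z.1 : ℕ) + 1 + (z.2.2 : ℕ)
        else r - 1 - (z.1 : ℕ) + 2 + (z.2.2 : ℕ), by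
          have := z.1.2; have := z.2.2.2; split_ifs <;> omega⟩,
      ⟨r - 1 - (z.1 : ℕ), by have := z.1.2; omega⟩,
      ⟨r - 1 - (z.1 : ℕ) + (z.2.1 : ℕ), by have := z.1.2; have := z.2.1.2; omega⟩), ?_⟩) ⟨?_, ?_⟩)
  · have := z.1.2
    have := z.2.2.2
    have := z.2.1.2
    refine ⟨?_, ?_, ?_, ?_, ?_⟩
    · simp only; split_ifs <;> omega
    · rw [Fin.le_def]; simp only; omega
    · simp only; omega
    · rw [h72_ne]; simp only; split_ifs <;> omega
    · rw [Fin.lt_def]; simp only; split_ifs <;> omega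
  · rintro ⟨t, u, v⟩ ⟨t', u', v'⟩ h
    simp only [Subtype.mk.injEq, Prod.mk.injEq, Fin.mk.injEq] at h
    obtain ⟨h2, h1, h3⟩ := h
    have ht := t.2
    have ht' := t'.2
    have e : t = t' := Fin.ext (by omega)
    subst e
    have e : v = v' := by
      apply Fin.ext
      split_ifs at h2 <;> omega
    subst e
    have e : u = u' := Fin.ext (by omega)
    subst e
    rfl
  · rintro ⟨⟨⟨i, hi⟩, ⟨j, hj⟩, ⟨k, hk⟩⟩, h1, h2, h3, h4, h5⟩
    rw [h72_ne] at h4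
    rw [Fin.lt_def] at h5
    rw [Fin.le_def] at h2
    simp only at h1 h2 h3 h4 h5
    refine ⟨⟨⟨r - 1 - j, by omega⟩, ⟨k - j, by simp only; omega⟩,
      ⟨if i < r then i - j - 1 else i - j - 2, by simp only; split_ifs <;> omega⟩⟩, ?_⟩
    simp only [Subtype.mk.injEq, Prod.mk.injEq, Fin.mk.injEq]
    refine ⟨?_, by omega, by omega⟩
    split_ifs <;> omega

private theorem h72_g (r m s : ℕ) :
    Nat.card {x : Fin (r + (m + 1) + s) × Fin (r + (m + 1) + s) × Fin (r + (m + 1) + s) //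
      r ≤ (x.1 : ℕ) ∧ x.2.1 ≤ x.2.2 ∧ r + (m + 1) ≤ (x.2.1 : ℕ) ∧ x.1 ≠ oo (Nat.succ_pos m) ∧
      x.1 < x.2.2} = ∑ t ∈ Finset.range s, (t + 1) * (t + m) := by
  rw [← h72_card2]
  symm
  refine Nat.card_congr (Equiv.ofBijective (fun z =>
    ⟨(⟨r + 1 + (z.2.2 : ℕ), by have := z.1.2; have := z.2.2.2; omega⟩,
      ⟨r + (m + 1) + (z.2.1 : ℕ), by have := z.1.2; have := z.2.1.2; omega⟩,
      ⟨r + (m + 1) + (z.1 : ℕ), by have := z.1.2; omega⟩), ?_⟩) ⟨?_, ?_⟩)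
  · have := z.1.2
    have := z.2.2.2
    have := z.2.1.2
    refine ⟨?_, ?_, ?_, ?_, ?_⟩
    · simp only; omega
    · rw [Fin.le_def]; simp only; omega
    · simp only; omega
    · rw [h72_ne]; simp only; omega
    · rw [Fin.lt_def]; simp only; omega
  · rintro ⟨t, u, v⟩ ⟨t', u', v'⟩ h
    simp only [Subtype.mk.injEq, Prod.mk.injEq, Fin.mk.injEq] at h
    obtain ⟨h2, h1, h3⟩ := h
    have e : t = t' := Fin.ext (by omega)
    subst e
    have e : v = v' := Fin.ext (by omega)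
    subst e
    have e : u = u' := Fin.ext (by omega)
    subst e
    rfl
  · rintro ⟨⟨⟨i, hi⟩, ⟨j, hj⟩, ⟨k, hk⟩⟩, h1, h2, h3, h4, h5⟩
    rw [h72_ne] at h4
    rw [Fin.lt_def] at h5
    rw [Fin.le_def] at h2
    simp only at h1 h2 h3 h4 h5
    refine ⟨⟨⟨k - (r + (m + 1)), by omega⟩, ⟨j - (r + (m + 1)), by simp only; omega⟩,
      ⟨i - (r + 1), by simp only; omega⟩⟩, ?_⟩
    simp only [Subtype.mk.injEq, Prod.mk.injEq, Fin.mk.injEq]
    omega

theorem card_pkappa (r m s : ℕ) :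
    Nat.card (PKappa r (m + 1) s (Nat.succ_pos m)) = pk r m + pk s m := by
  unfold PKappa
  rw [Nat.card_sum, Nat.card_sum, Nat.card_sum, h72_p, h72_q, h72_f, h72_g]
  unfold pk
  ring

end Pool.Agent.Helper29.PB
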