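import Pool.Agent.Helper29.PB.SunIso
namespace Pool.Agent.Helper29.PB
open HGraph

open SunIso in
/-- PB-19 (a): the same as `sun_iso`, with the letters named -/
theorem sun_iso' {K N : ℕ} [NeZero K] {b : Fin N → Fin K} {B : Type} [Group B]
    (u : UnivCocycle (sun K N b) STr B)
    (hE : ∀ (X : Type) [Group X] (d : SData N X), ∃ c : Cocycle3 (sun K N b) X,
      c.φ = d.val ∧ c.IsNorm STr)
    (hU : ∀ (X : Type) [Group X] (c : Cocycle3 (sun K N b) X), c.IsNorm STr →
      ∃ d : SData N X, ∀ h x y, Valid h x y → c.φ h x y = d.val h x y) :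
    Nonempty (B ≃* FreeGroup (SunIso.Letter b)) := by
  obtain ⟨dB, hdB⟩ := hU B u.κ u.norm
  obtain ⟨c, hc, hcn⟩ := hE _ (fd b)
  obtain ⟨f2, hf2⟩ := u.univ _ c hcn
  have hf2' : ∀ (h : (sun K N b).H) (x y : (sun K N b).Pos), Valid h x y →
      f2 (dB.val h x y) = (fd b).val h x y := by
    intro h x y hv
    rw [← hdB h x y hv, hf2 h x y hv, hc]
  let f1 : FreeGroup (SunIso.Letter b) →* B := FreeGroup.lift
    (Sum.elim (fun _ => dB.t) (Sum.elim dB.y (Sum.elim (fun p => dB.s p.1.1 p.1.2)
      (Sum.elim (fun p => dB.x p.1.1 p.1.2) (fun p => dB.f p.1.1 p.1.2.1 p.1.2.2)))))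
  have h12 : ∀ z, f2 (f1 z) = z := by
    have : f2.comp f1 = MonoidHom.id _ := by
      refine FreeGroup.ext_hom _ _ ?_
      rintro (_ | a | ⟨⟨a, a'⟩, h1, h2⟩ | ⟨⟨a, a'⟩, h1, h2⟩ | ⟨⟨a, a', a''⟩, h1, h2, h3, h4⟩)
      · simp only [MonoidHom.comp_apply, f1, FreeGroup.lift_apply_of, Sum.elim_inl, MonoidHom.id_apply]
        rw [← val_t (b := b) dB, hf2' (hS 0) (sC 0) (sC 0) (valid_inr _ _), val_t]
        rfl
      · simp only [MonoidHom.comp_apply, f1, FreeGroup.lift_apply_of, Sum.elim_inl, Sum.elim_inr, MonoidHom.id_apply]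
        rw [← val_y (b := b) dB, hf2' (hS (b a)) (sA a) (sC 0) (valid_inr _ _), val_y]
        rfl
      · simp only [MonoidHom.comp_apply, f1, FreeGroup.lift_apply_of, Sum.elim_inl, Sum.elim_inr, MonoidHom.id_apply]
        rw [← val_s (b := b) dB a a' h1 h2, hf2' (hA a) (sA a') (sC 0) (valid_inr _ _), val_s _ _ _ h1 h2]
        exact dif_pos ⟨h1, h2⟩
      · simp only [MonoidHom.comp_apply, f1, FreeGroup.lift_apply_of, Sum.elim_inl, Sum.elim_inr, MonoidHom.id_apply]
        rw [← val_x (b := b) dB a a' h1, hf2' (hS (b a)) (sA a) (sA a') (valid_inr _ _), val_x _ _ _ h1]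
        have h2' : a ≤ a' := h2
        simp only [fd, min_eq_left h2', max_eq_right h2']
        exact dif_pos ⟨h1, h2⟩
      · simp only [MonoidHom.comp_apply, f1, FreeGroup.lift_apply_of, Sum.elim_inl, Sum.elim_inr, MonoidHom.id_apply]
        rw [← val_f (b := b) dB a a' a'' h1 h2, hf2' (hA a) (sA a') (sA a'') (valid_inr _ _), val_f _ _ _ _ h1 h2]
        have h3' : a' ≤ a'' := h3
        simp only [fd, min_eq_left h3', max_eq_right h3']
        exact dif_pos ⟨h1, h2, h3, h4⟩
    intro z
    exact DFunLike.congr_fun this z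
  have hval : ∀ (h : (sun K N b).H) (x y : (sun K N b).Pos),
      f1 ((fd b).val h x y) = dB.val h x y := by
    intro h x y
    rw [← val_map]
    refine val_congr _ _ ?_ ?_ ?_ ?_ ?_ h x y
    · simp [mapD, fd, f1]
    · intro a
      simp [mapD, fd, f1]
    · intro a a' h1 h2
      simp [mapD, fd, f1, h1, h2]
    · intro a a' h1
      have h0 : b (max a a') = b (min a a') ∧ min a a' ≤ max a a' := by
        rcases le_total a a' with h | h
        · simp [h, h1]
        · simp [h, h1]
      simp only [mapD, fd]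
      rw [dif_pos h0]
      simp only [f1, FreeGroup.lift_apply_of, Sum.elim_inl, Sum.elim_inr]
      rcases le_total a a' with h | h
      · simp [h]
      · simp only [min_eq_right h, max_eq_left h]
        exact dB.x_symm _ _
    · intro a a' a'' h1 h2
      by_cases h3 : a < max a' a''
      · have h0 : b (min a' a'') = b a ∧ b (max a' a'') = b a ∧
            min a' a'' ≤ max a' a'' ∧ a < max a' a'' := by
          rcases le_total a' a'' with h | h
          · simp only [min_eq_left h, max_eq_right h] at h3 ⊢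
            exact ⟨h1, h2, h, h3⟩
          · simp only [min_eq_right h, max_eq_left h] at h3 ⊢
            exact ⟨h2, h1, h, h3⟩
        simp only [mapD, fd]
        rw [dif_pos h0]
        simp only [f1, FreeGroup.lift_apply_of, Sum.elim_inl, Sum.elim_inr]
        rcases le_total a' a'' with h | h
        · simp [h]
        · simp only [min_eq_right h, max_eq_left h]
          exact dB.f_symm _ _ _
      · have h4 : max a' a'' ≤ a := not_lt.mp h3
        rw [dB.f_base a a' a'' (le_trans (le_max_left _ _) h4) (le_trans (le_max_right _ _) h4),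
          (mapD f1 (fd b)).f_base a a' a'' (le_trans (le_max_left _ _) h4)
            (le_trans (le_max_right _ _) h4)]
  have h21 : ∀ z, f1 (f2 z) = z := by
    have : f1.comp f2 = MonoidHom.id _ := by
      refine MonoidHom.eq_of_eqOn_dense u.gen ?_
      rintro _ ⟨h, x, y, hv, rfl⟩
      simp only [MonoidHom.comp_apply, MonoidHom.id_apply]
      rw [hf2 h x y hv, hc, hval, hdB h x y hv]
    intro z
    exact DFunLike.congr_fun this z
  exact ⟨{ toFun := f2, invFun := f1, left_inv := h21, right_inv := h12, map_mul' := map_mul f2 }⟩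

namespace RankS

theorem fiber {α : Type} [Fintype α] {K : ℕ} (P : α → Prop) [DecidablePred P] (f : α → Fin K)
    (Q : Fin K → Finset α) (h : ∀ v x, x ∈ Q v ↔ P x ∧ f x = v) :
    (Finset.univ.filter P).card = ∑ v, (Q v).card := by
  rw [Finset.card_eq_sum_card_fiberwise (f := f) (t := Finset.univ) (by intro x _; simp)]
  refine Finset.sum_congr rfl fun v _ => ?_
  congr 1
  ext x
  simp [h]

theorem card_pairs {α : Type} [LinearOrder α] (A : Finset α) :
    ((A ×ˢ A).filter (fun p => p.1 < p.2)).card + ((A ×ˢ A).filter (fun p => p.1 ≤ p.2)).card =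
      A.card ^ 2 := by
  have h1 : ((A ×ˢ A).filter (fun p => p.1 < p.2)).card =
      ((A ×ˢ A).filter (fun p => ¬ p.1 ≤ p.2)).card := by
    refine Finset.card_bij (fun p _ => (p.2, p.1)) ?_ ?_ ?_
    · rintro ⟨x, y⟩ h
      simp only [Finset.mem_filter, Finset.mem_product] at h ⊢
      exact ⟨⟨h.1.2, h.1.1⟩, not_le.2 h.2⟩
    · rintro ⟨x, y⟩ _ ⟨x', y'⟩ _ h
      simp only [Prod.mk.injEq] at h ⊢
      exact ⟨h.2, h.1⟩
    · rintro ⟨x, y⟩ h
      simp only [Finset.mem_filter, Finset.mem_product] at h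
      refine ⟨(y, x), ?_, rfl⟩
      simp only [Finset.mem_filter, Finset.mem_product]
      exact ⟨⟨h.1.2, h.1.1⟩, not_le.1 h.2⟩
  rw [h1, add_comm, Finset.card_filter_add_card_filter_not, Finset.card_product, sq]

theorem card_ranks {α : Type} [LinearOrder α] (A : Finset α) :
    ∑ z ∈ A, ((A.filter (fun x => x < z)).card * (A.filter (fun x => x ≤ z)).card) =
      ∑ t ∈ Finset.range A.card, t * (t + 1) := by
  induction A using Finset.induction_on_max with
  | empty => simp
  | insert m A hm ih =>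
    have hmA : m ∉ A := fun h => lt_irrefl _ (hm m h)
    rw [Finset.card_insert_of_notMem hmA, Finset.sum_range_succ, ← ih, Finset.sum_insert hmA,
      add_comm]
    congr 1
    · refine Finset.sum_congr rfl fun z hz => ?_
      rw [Finset.filter_insert, if_neg (not_lt.2 (hm z hz).le), Finset.filter_insert,
        if_neg (not_le.2 (hm z hz))]
    · rw [Finset.filter_insert, if_neg (lt_irrefl m), Finset.filter_insert, if_pos le_rfl,
        Finset.filter_true_of_mem (fun x hx => hm x hx),
        Finset.filter_true_of_mem (fun x hx => (hm x hx).le), Finset.card_insert_of_notMem hmA]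

theorem card_triples {α : Type} [LinearOrder α] (A : Finset α) :
    ((A ×ˢ A ×ˢ A).filter (fun p => p.2.1 ≤ p.2.2 ∧ p.1 < p.2.2)).card =
      ∑ t ∈ Finset.range A.card, t * (t + 1) := by
  rw [← card_ranks]
  rw [Finset.card_eq_sum_card_fiberwise (f := fun p => p.2.2) (t := A)
    (by rintro ⟨x, y, z⟩ h; simp only [Finset.coe_filter, Finset.mem_product, Set.mem_ofPred_eq] at h; exact h.1.2.2)]
  refine Finset.sum_congr rfl fun z hz => ?_
  have : ((A ×ˢ A ×ˢ A).filter (fun p => p.2.1 ≤ p.2.2 ∧ p.1 < p.2.2)).filter (fun p => p.2.2 = z)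
      = (A.filter (fun x => x < z)) ×ˢ (A.filter (fun x => x ≤ z)) ×ˢ ({z} : Finset α) := by
    ext ⟨x, y, w⟩
    simp only [Finset.mem_filter, Finset.mem_product, Finset.mem_singleton]
    constructor
    · rintro ⟨⟨⟨h1, h2, h3⟩, h4, h5⟩, rfl⟩
      exact ⟨⟨h1, h5⟩, ⟨h2, h4⟩, rfl⟩
    · rintro ⟨⟨h1, h5⟩, ⟨h2, h4⟩, rfl⟩
      exact ⟨⟨⟨h1, h2, hz⟩, h4, h5⟩, rfl⟩
  rw [this, Finset.card_product, Finset.card_product, Finset.card_singleton, mul_one]

end RankS

/-- PB-19 (b): the number of letters; `(Finset.univ.filter (b · = v)).card` is the number of arcs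
at `v` -/
theorem card_letter {K N : ℕ} [NeZero K] (b : Fin N → Fin K) :
    Nat.card (SunIso.Letter b) = 1 + N + ∑ v : Fin K,
      ((Finset.univ.filter (fun a => b a = v)).card ^ 2 +
        ∑ t ∈ Finset.range (Finset.univ.filter (fun a => b a = v)).card, t * (t + 1)) := by
  rw [Nat.card_eq_fintype_card]
  simp only [Fintype.card_sum, Fintype.card_unit, Fintype.card_fin, Fintype.card_subtype]
  rw [RankS.fiber (fun p : Fin N × Fin N => b p.2 = b p.1 ∧ p.1 < p.2) (fun p => b p.1)
      (fun v => ((Finset.univ.filter (fun a => b a = v)) ×ˢ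
        (Finset.univ.filter (fun a => b a = v))).filter (fun p => p.1 < p.2))
      (by
        rintro v ⟨x, y⟩
        simp only [Finset.mem_filter, Finset.mem_product, Finset.mem_univ, true_and]
        constructor
        · rintro ⟨⟨h1, h2⟩, h3⟩
          exact ⟨⟨h2.trans h1.symm, h3⟩, h1⟩
        · rintro ⟨⟨h1, h2⟩, h3⟩
          exact ⟨⟨h3, h1.trans h3⟩, h2⟩),
    RankS.fiber (fun p : Fin N × Fin N => b p.2 = b p.1 ∧ p.1 ≤ p.2) (fun p => b p.1)
      (fun v => ((Finset.univ.filter (fun a => b a = v)) ×ˢ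
        (Finset.univ.filter (fun a => b a = v))).filter (fun p => p.1 ≤ p.2))
      (by
        rintro v ⟨x, y⟩
        simp only [Finset.mem_filter, Finset.mem_product, Finset.mem_univ, true_and]
        constructor
        · rintro ⟨⟨h1, h2⟩, h3⟩
          exact ⟨⟨h2.trans h1.symm, h3⟩, h1⟩
        · rintro ⟨⟨h1, h2⟩, h3⟩
          exact ⟨⟨h3, h1.trans h3⟩, h2⟩),
    RankS.fiber (fun p : Fin N × Fin N × Fin N => b p.2.1 = b p.1 ∧ b p.2.2 = b p.1 ∧
        p.2.1 ≤ p.2.2 ∧ p.1 < p.2.2) (fun p => b p.1)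
      (fun v => ((Finset.univ.filter (fun a => b a = v)) ×ˢ
        (Finset.univ.filter (fun a => b a = v)) ×ˢ
        (Finset.univ.filter (fun a => b a = v))).filter (fun p => p.2.1 ≤ p.2.2 ∧ p.1 < p.2.2))
      (by
        rintro v ⟨x, y, z⟩
        simp only [Finset.mem_filter, Finset.mem_product, Finset.mem_univ, true_and]
        constructor
        · rintro ⟨⟨h1, h2, h3⟩, h4⟩
          exact ⟨⟨h2.trans h1.symm, h3.trans h1.symm, h4⟩, h1⟩
        · rintro ⟨⟨h1, h2, h4⟩, h3⟩
          exact ⟨⟨h3, h1.trans h3, h2.trans h3⟩, h4⟩)]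
  rw [Finset.sum_add_distrib]
  simp only [RankS.card_triples]
  have h : ∑ v : Fin K, ((Finset.univ.filter (fun a => b a = v)).card ^ 2) =
      ∑ v : Fin K, (((Finset.univ.filter (fun a => b a = v)) ×ˢ
        (Finset.univ.filter (fun a => b a = v))).filter (fun p => p.1 < p.2)).card +
      ∑ v : Fin K, (((Finset.univ.filter (fun a => b a = v)) ×ˢ
        (Finset.univ.filter (fun a => b a = v))).filter (fun p => p.1 ≤ p.2)).card := by
    rw [← Finset.sum_add_distrib]
    exact Finset.sum_congr rfl fun v _ => (RankS.card_pairs _).symm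
  rw [h]
  ring

end Pool.Agent.Helper29.PB
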