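import Pool.Agent.Helper29.PB.Final
import Pool.Agent.Helper29.PB.RankP
import Pool.Agent.Helper29.PB.RankS

/-!
# Structure of the 3-particle braid groups with explicit ranks
-/

namespace Pool.Agent.Helper29.PB
open HGraph

/-- The number of arcs at the vertex `v` of a sun graph. -/
def arcsAt {K N : ℕ} (b : Fin N → Fin K) (v : Fin K) : ℕ :=
  (Finset.univ.filter (fun a => b a = v)).card

/-- The rank of the 3-particle braid group of a sun graph:
`1 + N + ∑_v (a_v² + ∑_{t < a_v} t (t + 1))`, where `a_v` is the number of arcs at `v`. -/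
def sunRank {K N : ℕ} (b : Fin N → Fin K) : ℕ :=
  1 + N + ∑ v : Fin K, (arcsAt b v ^ 2 + ∑ t ∈ Finset.range (arcsAt b v), t * (t + 1))

theorem sun_rank (K N : ℕ) [NeZero K] (b : Fin N → Fin K) (s : (sun K N b).State 3) :
    Nonempty (Braid s ≃* FreeGroup (Fin (sunRank b))) := by
  obtain ⟨T, hu, hd⟩ := exists_sunTree K N b
  obtain ⟨u⟩ := GT3 T
  obtain ⟨e⟩ := braid_base T s
  have hTr : T.Tr = STr := by
    funext h x y
    unfold Tree3.Tr STr
    rw [hu, hd]
  rw [hTr] at u
  obtain ⟨e'⟩ := sun_iso' u (fun X _ d => d.exists_cocycle) (fun X _ c hc => exists_sdata c hc)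
  have hc : Nat.card (SunIso.Letter b) = sunRank b := card_letter b
  haveI : Finite (SunIso.Letter b) := inferInstance
  exact ⟨e.trans (e'.trans (FreeGroup.freeGroupCongr (Finite.equivFinOfCardEq hc)))⟩

theorem pulsar_rank (r m s : ℕ) (t : (pulsar r (m + 1) s).State 3) :
    Nonempty (Braid t ≃* Monoid.Coprod (ThetaGroup (Fin (m + 1)) 0)
      (FreeGroup (Fin (pk r m + pk s m)))) := by
  obtain ⟨e⟩ := pulsar_structure r m s t
  have hc := card_pkappa r m s
  haveI : Finite (PKappa r (m + 1) s (Nat.succ_pos m)) := by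
    unfold PKappa
    infer_instance
  let f := Finite.equivFinOfCardEq hc
  exact ⟨e.trans (MulEquiv.coprodCongr (MulEquiv.refl _) (FreeGroup.freeGroupCongr f))⟩

end Pool.Agent.Helper29.PB
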