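import Mathlib

/-!
# Group theoretic definitions for the project PB (3-particle braid groups of sun and pulsar graphs)
-/

namespace Pool.Agent.Helper29.PB

/-- A set `A ⊆ G` is almost invariant if `A` and `A g` differ by a finite set, for each `g`. -/
def AlmostInvariant {G : Type*} [Group G] (A : Set G) : Prop :=
  ∀ g : G, (symmDiff A ((fun x => x * g) '' A)).Finite

/-- `G` is one-ended: it is infinite and every almost invariant subset is finite or has finite
complement (for finitely generated `G` this is the usual notion: exactly one end). -/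
def OneEnded (G : Type*) [Group G] : Prop :=
  Infinite G ∧ ∀ A : Set G, AlmostInvariant A → A.Finite ∨ Aᶜ.Finite

/-- The relator `∏_{i<g} [a_i, b_i]` (letters: `(i, false) = a_i`, `(i, true) = b_i`). -/
def orientableRelator (g : ℕ) : FreeGroup (Fin g × Bool) :=
  (List.ofFn fun i : Fin g => FreeGroup.of (i, false) * FreeGroup.of (i, true) *
    (FreeGroup.of (i, false))⁻¹ * (FreeGroup.of (i, true))⁻¹).prod

/-- The fundamental group of the closed orientable surface of genus `g`. -/
abbrev OrientableSurfaceGroup (g : ℕ) : Type := PresentedGroup {orientableRelator g}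

/-- The relator `∏_{i<k} a_i²`. -/
def nonorientableRelator (k : ℕ) : FreeGroup (Fin k) :=
  (List.ofFn fun i : Fin k => FreeGroup.of i * FreeGroup.of i).prod

/-- The fundamental group of the closed nonorientable surface of genus `k ≥ 1`. -/
abbrev NonorientableSurfaceGroup (k : ℕ) : Type := PresentedGroup {nonorientableRelator k}

/-- `G` is a surface group: the fundamental group of a closed surface (by the classification of
closed surfaces and their standard presentations). -/
def IsSurfaceGroup (G : Type*) [Group G] : Prop :=
  (∃ g : ℕ, Nonempty (G ≃* OrientableSurfaceGroup g)) ∨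
    ∃ k : ℕ, 1 ≤ k ∧ Nonempty (G ≃* NonorientableSurfaceGroup k)

/-- A *free letter*: an element `t` which, together with a set `S`, generates `G`, and whose image
under a homomorphism can be changed arbitrarily keeping the images of the elements of `S`
(so `G` is the free product of `⟨S⟩` and the infinite cyclic group `⟨t⟩`). -/
def HasFreeLetter (G : Type) [Group G] : Prop :=
  ∃ (S : Set G) (t : G), Subgroup.closure (insert t S) = ⊤ ∧
    ∀ (X : Type) [Group X] (ψ : G →* X) (x : X),
      ∃ ψ' : G →* X, ψ' t = x ∧ ∀ s ∈ S, ψ' s = ψ s

/-- A pair of `ℤ/2`-valued characters `x, y` is *liftable* if `x ∪ y = 0` in `H²(G; ℤ/2)`. -/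
def Liftable {G : Type*} [Group G] (x y : G →* Multiplicative (ZMod 2)) : Prop :=
  ∃ z : G → ZMod 2, ∀ g h : G, z (g * h) = z g + z h + (x g).toAdd * (y h).toAdd

/-- Data on a pointed set `(E, o)` with values in a group `X`: elements `p x y`, `q x y`
(`x, y ∈ E`) with `p x x = 1`, `p x y * p y x = 1`, the same for `q`, the hexagon relations, and
`p o y = 1`. -/
structure ThetaData (E : Type) (o : E) (X : Type*) [Group X] where
  p : E → E → X
  q : E → E → X
  p_self : ∀ x, p x x = 1
  p_inv : ∀ x y, p x y * p y x = 1
  q_self : ∀ x, q x x = 1
  q_inv : ∀ x y, q x y * q y x = 1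
  hex : ∀ x y z, p x y * q y z * p z x * q x y * p y z * q z x = 1
  base : ∀ y, p o y = 1

/-- The relators of the theta group; the letters are `(false, x, y) = p x y` and
`(true, x, y) = q x y`. -/
def thetaRels (E : Type) (o : E) : Set (FreeGroup (Bool × E × E)) :=
  let p : E → E → FreeGroup (Bool × E × E) := fun x y => FreeGroup.of (false, x, y)
  let q : E → E → FreeGroup (Bool × E × E) := fun x y => FreeGroup.of (true, x, y)
  {w | (∃ x, w = p x x) ∨ (∃ x y, w = p x y * p y x) ∨ (∃ x, w = q x x) ∨
    (∃ x y, w = q x y * q y x) ∨
    (∃ x y z, w = p x y * q y z * p z x * q x y * p y z * q z x) ∨ (∃ y, w = p o y)}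

/-- The theta group: the group universal for `ThetaData`. -/
abbrev ThetaGroup (E : Type) (o : E) : Type := PresentedGroup (thetaRels E o)

/-- the universal letters -/
def ThetaGroup.P {E : Type} {o : E} (x y : E) : ThetaGroup E o := PresentedGroup.of (false, x, y)
/-- the universal letters -/
def ThetaGroup.Q {E : Type} {o : E} (x y : E) : ThetaGroup E o := PresentedGroup.of (true, x, y)

end Pool.Agent.Helper29.PB
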