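import Pool.Agent.Helper29.PB.Defs

/-!
# Pulsar graphs: half-edges, base state, tree predicates, data, the normalized cocycle of data
-/

namespace Pool.Agent.Helper29.PB

open HGraph

section pulsar

variable {r m s : ℕ}

/-- the half-edge at `p = false` of the edge `i` -/
def hP (i : Fin (r + m + s)) (hi : (i : ℕ) < r + m) : (pulsar r m s).H :=
  ⟨(false, i), fun _ => hi, fun h => by simp at h⟩

/-- the half-edge at `q = true` of the edge `j` -/
def hQ (j : Fin (r + m + s)) (hj : r ≤ (j : ℕ)) : (pulsar r m s).H :=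
  ⟨(true, j), fun h => by simp at h, fun _ => hj⟩

/-- the position on the vertex `v` (`false = p`, `true = q`) -/
def pV (v : Bool) : (pulsar r m s).Pos := Sum.inl v
/-- the position in the edge `e` -/
def pE (e : Fin (r + m + s)) : (pulsar r m s).Pos := Sum.inr e

/-- the first parallel edge -/
def oo (hm : 0 < m) : Fin (r + m + s) := ⟨r, by omega⟩

/-- the base state: particles on `p`, on `q` and in the edge `o` -/
def pBase (hm : 0 < m) : (pulsar r m s).State 3 :=
  ⟨{pV false, pV true, pE (oo hm)}, by simp, by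
    intro v R h
    have h1 : ({pV false, pV true, pE (oo hm)} : Multiset (pulsar r m s).Pos).Nodup := by
      simp [pV, pE]
    rw [h] at h1
    simp at h1⟩

/-- tree moves of the pulsar graph whose child is the target -/
def PTup (h : (pulsar r m s).H) (x y : (pulsar r m s).Pos) : Prop :=
  (h.1.1 = true ∧ ∃ j : Fin (r + m + s), j ≤ h.1.2 ∧
    ((x = pV false ∧ y = pE j) ∨ (y = pV false ∧ x = pE j))) ∨
  (h.1.1 = false ∧ ∃ k : Fin (r + m + s), h.1.2 ≤ k ∧
    ((x = pV true ∧ y = pE k) ∨ (y = pV true ∧ x = pE k))) ∨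
  (h.1.1 = false ∧ ∃ b c : Fin (r + m + s), h.1.2 ≤ b ∧ h.1.2 ≤ c ∧ x = pE b ∧ y = pE c) ∨
  (h.1.1 = true ∧ ∃ a b : Fin (r + m + s), r + m ≤ (a : ℕ) ∧ r + m ≤ (b : ℕ) ∧ a ≤ h.1.2 ∧
    b ≤ h.1.2 ∧ x = pE a ∧ y = pE b)

/-- tree moves of the pulsar graph whose child is the source -/
def PTdn (hm : 0 < m) (h : (pulsar r m s).H) (x y : (pulsar r m s).Pos) : Prop :=
  h.1.2 = oo hm ∧
  ((h.1.1 = true ∧ ∃ z : Fin (r + m + s), oo hm < z ∧
    ((x = pV false ∧ y = pE z) ∨ (y = pV false ∧ x = pE z))) ∨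
  (h.1.1 = false ∧ ∃ a : Fin (r + m + s), a < oo hm ∧
    ((x = pV true ∧ y = pE a) ∨ (y = pV true ∧ x = pE a))) ∨
  (h.1.1 = false ∧ ∃ j k : Fin (r + m + s), j < oo hm ∧ k < oo hm ∧ x = pE j ∧ y = pE k) ∨
  (h.1.1 = true ∧ ∃ j k : Fin (r + m + s), r + m ≤ (j : ℕ) ∧ r + m ≤ (k : ℕ) ∧
    x = pE j ∧ y = pE k))

/-- Data for a normalized cocycle on the pulsar graph. -/
structure PData (r m s : ℕ) (hm : 0 < m) (X : Type) [Group X] where
  p : Fin (r + m + s) → Fin (r + m + s) → X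
  q : Fin (r + m + s) → Fin (r + m + s) → X
  f : Fin (r + m + s) → Fin (r + m + s) → Fin (r + m + s) → X
  g : Fin (r + m + s) → Fin (r + m + s) → Fin (r + m + s) → X
  p_self : ∀ x, p x x = 1
  p_inv : ∀ x y, p x y * p y x = 1
  q_self : ∀ x, q x x = 1
  q_inv : ∀ x y, q x y * q y x = 1
  hex : ∀ a b c : Fin (r + m + s), a ≤ b → b ≤ c → r ≤ (a : ℕ) → (c : ℕ) < r + m →
    q b c * (p c a * q a b) = p b a * (q a c * p c b)
  base_p : ∀ y : Fin (r + m + s), r ≤ (y : ℕ) → p (oo hm) y = 1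
  base_q : ∀ a, a < oo hm → q a (oo hm) = 1
  f_symm : ∀ i j k, f i j k = f i k j
  g_symm : ∀ i j k, g i j k = g i k j
  f_base : ∀ i j k, j < oo hm → k < oo hm → (i = oo hm ∨ (i ≤ j ∧ i ≤ k)) → f i j k = 1
  g_base : ∀ i j k : Fin (r + m + s), r + m ≤ (j : ℕ) → r + m ≤ (k : ℕ) → (i = oo hm ∨ (j ≤ i ∧ k ≤ i)) →
    g i j k = 1

namespace PData

variable {hm : 0 < m} {X : Type} [Group X] (d : PData r m s hm X)

/-- the value on the move `p → i` with resting particles in the edges `j`, `k` -/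
def P2 (i j k : Fin (r + m + s)) : X :=
  if (j : ℕ) < r ∧ (k : ℕ) < r then d.f i j k
  else if i ≤ min j k then 1
  else if i ≤ max j k then d.q (min j k) i
  else d.q (min j k) i * d.p i (max j k)

/-- the value on the move `q → j` with resting particles in the edges `i`, `k` -/
def Q2 (j i k : Fin (r + m + s)) : X :=
  if r + m ≤ (i : ℕ) ∧ r + m ≤ (k : ℕ) then d.g j i k
  else if max i k ≤ j then 1
  else if min i k ≤ j then d.p (max i k) j
  else d.p (max i k) j * d.q j (min i k)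

/-- the values of the cocycle (`1` on invalid arguments) -/
def val : (pulsar r m s).H → (pulsar r m s).Pos → (pulsar r m s).Pos → X
  | ⟨(false, i), _⟩, Sum.inl true, Sum.inr z => d.q z (max i z)
  | ⟨(false, i), _⟩, Sum.inr z, Sum.inl true => d.q z (max i z)
  | ⟨(true, j), _⟩, Sum.inl false, Sum.inr z => d.p z (min j z)
  | ⟨(true, j), _⟩, Sum.inr z, Sum.inl false => d.p z (min j z)
  | ⟨(false, i), _⟩, Sum.inr j, Sum.inr k => d.P2 i j k
  | ⟨(true, j), _⟩, Sum.inr i, Sum.inr k => d.Q2 j i k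
  | _, _, _ => 1

end PData

end pulsar

end Pool.Agent.Helper29.PB
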