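import Pool.Agent.Helper29.PB.Defs

/-!
# Sun graphs: half-edges, base state, tree predicates, data, the normalized cocycle of data
-/

namespace Pool.Agent.Helper29.PB

open HGraph

section sun

variable {K N : ℕ} [NeZero K] {b : Fin N → Fin K}

/-- the position on the vertex `v` -/
def sV (v : Fin K) : (sun K N b).Pos := Sum.inl v
/-- the position in the cycle edge `c_j` -/
def sC (j : Fin K) : (sun K N b).Pos := Sum.inr (Sum.inl j)
/-- the position in the arc `a` -/
def sA (a : Fin N) : (sun K N b).Pos := Sum.inr (Sum.inr a)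

/-- the half-edge `τ v`: towards `c_{v-1}` for `v ≠ 0`, towards `c_0` for `v = 0` -/
def hT (v : Fin K) : (sun K N b).H := Sum.inl (v, decide (v ≠ 0))
/-- the half-edge `σ v`: towards `c_v` for `v ≠ 0`, towards `c_{K-1}` for `v = 0` -/
def hS (v : Fin K) : (sun K N b).H := Sum.inl (v, decide (v = 0))
/-- the half-edge of the arc `a` -/
def hA (a : Fin N) : (sun K N b).H := Sum.inr a

/-- the index of the cycle edge of `τ v` -/
def ix (v : Fin K) : Fin K := if v = 0 then 0 else v - 1

/-- the base state: three particles in `c_0` -/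
def sBase : (sun K N b).State 3 :=
  ⟨{sC 0, sC 0, sC 0}, by simp, by
    intro v R h
    have h1 : (Sum.inl v : (sun K N b).Pos) ∈ ({sC 0, sC 0, sC 0} : Multiset (sun K N b).Pos) := by
      rw [h]; simp
    simp [sC] at h1⟩

/-- tree moves of the sun graph whose child is the source: `τ v`, all resting vertices are `> v` -/
def STdn (h : (sun K N b).H) (x y : (sun K N b).Pos) : Prop :=
  ∃ v, h = hT v ∧ (∀ u, x = sV u → v < u) ∧ (∀ u, y = sV u → v < u)

/-- tree moves of the sun graph whose child is the target: arcs `a` with resting particles in edges,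
in arcs `≤ a`; and `σ v`, `v ≠ 0`, with resting particles in cycle edges `c_j`, `j ≤ v` -/
def STup (h : (sun K N b).H) (x y : (sun K N b).Pos) : Prop :=
  (∃ a, h = hA a ∧ ((∃ j, x = sC j) ∨ ∃ a', a' ≤ a ∧ x = sA a') ∧
    ((∃ j, y = sC j) ∨ ∃ a', a' ≤ a ∧ y = sA a')) ∨
  (∃ v, v ≠ 0 ∧ h = hS v ∧ (∃ j, j ≤ v ∧ x = sC j) ∧ (∃ j, j ≤ v ∧ y = sC j))

/-- the tree moves of the sun graph -/
def STr (h : (sun K N b).H) (x y : (sun K N b).Pos) : Prop := STup h x y ∨ STdn h x y

/-- the place of a position along the cycle -/
def loc : (sun K N b).Pos → Fin K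
  | Sum.inl u => ix u
  | Sum.inr (Sum.inl j) => j
  | Sum.inr (Sum.inr a) => ix (b a)

/-- Data for a normalized cocycle on the sun graph. -/
structure SData (N : ℕ) (X : Type) [Group X] where
  t : X
  y : Fin N → X
  s : Fin N → Fin N → X
  x : Fin N → Fin N → X
  f : Fin N → Fin N → Fin N → X
  x_symm : ∀ a a', x a a' = x a' a
  f_symm : ∀ a a' a'', f a a' a'' = f a a'' a'
  f_base : ∀ a a' a'', a' ≤ a → a'' ≤ a → f a a' a'' = 1

namespace SData

variable {X : Type} [Group X] (d : SData N X)

/-- transport of the value `w` at the vertex `v` to the place `l` -/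
def tr (v : Fin K) (w : X) (l : Fin K) : X := if v ≠ 0 ∧ v ≤ l then d.t⁻¹ * w * d.t else w

/-- the value of the move along the arc `a` with one resting particle in the arc `a'` at the same
vertex and the other one elsewhere at the place `l` -/
def arc1 (b : Fin N → Fin K) (a a' : Fin N) (l : Fin K) : X := if a' ≤ a then 1 else d.tr (b a) (d.s a a') l

/-- the values of the cocycle along the arc `a` -/
def arcVal (a : Fin N) : (sun K N b).Pos → (sun K N b).Pos → X
  | Sum.inr (Sum.inr a'), Sum.inr (Sum.inr a'') =>
      if b a' = b a then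
        (if b a'' = b a then d.f a a' a'' else d.arc1 b a a' (ix (b a'')))
      else (if b a'' = b a then d.arc1 b a a'' (ix (b a')) else 1)
  | Sum.inr (Sum.inr a'), z => if b a' = b a then d.arc1 b a a' (loc z) else 1
  | z, Sum.inr (Sum.inr a') => if b a' = b a then d.arc1 b a a' (loc z) else 1
  | _, _ => 1

/-- the values of the cocycle along `σ v` -/
def sigVal (v : Fin K) : (sun K N b).Pos → (sun K N b).Pos → X
  | Sum.inr (Sum.inr a'), Sum.inr (Sum.inr a'') =>
      if b a' = v then
        (if b a'' = v then d.x a' a'' else d.tr v (d.y a') (ix (b a'')))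
      else (if b a'' = v then d.tr v (d.y a'') (ix (b a')) else if v = 0 then d.t else 1)
  | Sum.inr (Sum.inr a'), z => if b a' = v then d.tr v (d.y a') (loc z)
      else if v = 0 then d.t else 1
  | z, Sum.inr (Sum.inr a') => if b a' = v then d.tr v (d.y a') (loc z)
      else if v = 0 then d.t else 1
  | _, _ => if v = 0 then d.t else 1

/-- the values of the cocycle -/
def val : (sun K N b).H → (sun K N b).Pos → (sun K N b).Pos → X
  | Sum.inr a => d.arcVal a
  | Sum.inl (v, e) => if e = decide (v ≠ 0) then fun _ _ => 1 else d.sigVal v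

end SData

end sun

end Pool.Agent.Helper29.PB
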