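import Pool.Agent.Helper29.PB.SDefs
namespace Pool.Agent.Helper29.PB
open HGraph

namespace SunExistAux

variable {K N : ℕ} [NeZero K] {b : Fin N → Fin K} {X : Type} [Group X]

/-- the arc at the vertex `v` in which the particle rests -/
def at' (v : Fin K) : (sun K N b).Pos → Option (Fin N)
  | Sum.inr (Sum.inr a) => if b a = v then some a else none
  | _ => none

/-- the value of the move `h` when one particle rests away from the vertex at the place `l` -/
def one (d : SData N X) : (sun K N b).H → Option (Fin N) → Fin K → X
  | Sum.inr a, some a1, l => d.arc1 b a a1 l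
  | Sum.inr _, none, _ => 1
  | Sum.inl (v, e), some a1, l => if e = decide (v ≠ 0) then 1 else d.tr v (d.y a1) l
  | Sum.inl (v, e), none, _ => if e = decide (v ≠ 0) then 1 else if v = 0 then d.t else 1

lemma sig_eq (d : SData N X) (v : Fin K) (x z : (sun K N b).Pos) :
    d.sigVal v x z = match at' v x, at' v z with
      | some a', some a'' => d.x a' a''
      | some a', none => d.tr v (d.y a') (loc z)
      | none, some a'' => d.tr v (d.y a'') (loc x)
      | none, none => if v = 0 then d.t else 1 := by
  rcases x with x | x | x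
  · rcases z with z | z | z
    · rfl
    · rfl
    · have h1 : d.sigVal (b := b) v (Sum.inl x) (Sum.inr (Sum.inr z)) =
        if b z = v then d.tr v (d.y z) (loc (b := b) (Sum.inl x)) else if v = 0 then d.t else 1 := rfl
      have h2 : at' (b := b) v (Sum.inr (Sum.inr z)) = if b z = v then some z else none := rfl
      have h3 : at' (b := b) v (Sum.inl x) = none := rfl
      rw [h1, h2, h3]
      by_cases hb : b z = v
      · rw [if_pos hb, if_pos hb]
      · rw [if_neg hb, if_neg hb]
  · rcases z with z | z | z
    · rfl
    · rfl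
    · have h1 : d.sigVal (b := b) v (Sum.inr (Sum.inl x)) (Sum.inr (Sum.inr z)) =
        if b z = v then d.tr v (d.y z) (loc (b := b) (Sum.inr (Sum.inl x))) else if v = 0 then d.t else 1 := rfl
      have h2 : at' (b := b) v (Sum.inr (Sum.inr z)) = if b z = v then some z else none := rfl
      have h3 : at' (b := b) v (Sum.inr (Sum.inl x)) = none := rfl
      rw [h1, h2, h3]
      by_cases hb : b z = v
      · rw [if_pos hb, if_pos hb]
      · rw [if_neg hb, if_neg hb]
  · rcases z with z | z | z
    · have h1 : d.sigVal (b := b) v (Sum.inr (Sum.inr x)) (Sum.inl z) =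
        if b x = v then d.tr v (d.y x) (loc (b := b) (Sum.inl z)) else if v = 0 then d.t else 1 := rfl
      have h2 : at' (b := b) v (Sum.inr (Sum.inr x)) = if b x = v then some x else none := rfl
      have h3 : at' (b := b) v (Sum.inl z) = none := rfl
      rw [h1, h2, h3]
      by_cases hb : b x = v
      · rw [if_pos hb, if_pos hb]
      · rw [if_neg hb, if_neg hb]
    · have h1 : d.sigVal (b := b) v (Sum.inr (Sum.inr x)) (Sum.inr (Sum.inl z)) =
        if b x = v then d.tr v (d.y x) (loc (b := b) (Sum.inr (Sum.inl z))) else if v = 0 then d.t else 1 := rfl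
      have h2 : at' (b := b) v (Sum.inr (Sum.inr x)) = if b x = v then some x else none := rfl
      have h3 : at' (b := b) v (Sum.inr (Sum.inl z)) = none := rfl
      rw [h1, h2, h3]
      by_cases hb : b x = v
      · rw [if_pos hb, if_pos hb]
      · rw [if_neg hb, if_neg hb]
    · have h1 : d.sigVal (b := b) v (Sum.inr (Sum.inr x)) (Sum.inr (Sum.inr z)) =
        if b x = v then (if b z = v then d.x x z else d.tr v (d.y x) (ix (b z)))
        else (if b z = v then d.tr v (d.y z) (ix (b x)) else if v = 0 then d.t else 1) := rfl
      have h2 : at' (b := b) v (Sum.inr (Sum.inr x)) = if b x = v then some x else none := rfl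
      have h3 : at' (b := b) v (Sum.inr (Sum.inr z)) = if b z = v then some z else none := rfl
      rw [h1, h2, h3]
      by_cases hb : b x = v
      · by_cases hc : b z = v
        · rw [if_pos hb, if_pos hb, if_pos hc, if_pos hc]
        · rw [if_pos hb, if_pos hb, if_neg hc, if_neg hc]; rfl
      · by_cases hc : b z = v
        · rw [if_neg hb, if_neg hb, if_pos hc, if_pos hc]; rfl
        · rw [if_neg hb, if_neg hb, if_neg hc, if_neg hc]

lemma arc_eq (d : SData N X) (a : Fin N) (x z : (sun K N b).Pos) :
    d.arcVal a x z = match at' (b a) x, at' (b a) z with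
      | some a', some a'' => d.f a a' a''
      | some a', none => d.arc1 b a a' (loc z)
      | none, some a'' => d.arc1 b a a'' (loc x)
      | none, none => 1 := by
  rcases x with x | x | x
  · rcases z with z | z | z
    · rfl
    · rfl
    · have h1 : d.arcVal (b := b) a (Sum.inl x) (Sum.inr (Sum.inr z)) =
        if b z = b a then d.arc1 b a z (loc (b := b) (Sum.inl x)) else 1 := rfl
      have h2 : at' (b := b) (b a) (Sum.inr (Sum.inr z)) = if b z = b a then some z else none := rfl
      have h3 : at' (b := b) (b a) (Sum.inl x) = none := rfl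
      rw [h1, h2, h3]
      by_cases hb : b z = b a
      · rw [if_pos hb, if_pos hb]
      · rw [if_neg hb, if_neg hb]
  · rcases z with z | z | z
    · rfl
    · rfl
    · have h1 : d.arcVal (b := b) a (Sum.inr (Sum.inl x)) (Sum.inr (Sum.inr z)) =
        if b z = b a then d.arc1 b a z (loc (b := b) (Sum.inr (Sum.inl x))) else 1 := rfl
      have h2 : at' (b := b) (b a) (Sum.inr (Sum.inr z)) = if b z = b a then some z else none := rfl
      have h3 : at' (b := b) (b a) (Sum.inr (Sum.inl x)) = none := rfl
      rw [h1, h2, h3]
      by_cases hb : b z = b a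
      · rw [if_pos hb, if_pos hb]
      · rw [if_neg hb, if_neg hb]
  · rcases z with z | z | z
    · have h1 : d.arcVal (b := b) a (Sum.inr (Sum.inr x)) (Sum.inl z) =
        if b x = b a then d.arc1 b a x (loc (b := b) (Sum.inl z)) else 1 := rfl
      have h2 : at' (b := b) (b a) (Sum.inr (Sum.inr x)) = if b x = b a then some x else none := rfl
      have h3 : at' (b := b) (b a) (Sum.inl z) = none := rfl
      rw [h1, h2, h3]
      by_cases hb : b x = b a
      · rw [if_pos hb, if_pos hb]
      · rw [if_neg hb, if_neg hb]
    · have h1 : d.arcVal (b := b) a (Sum.inr (Sum.inr x)) (Sum.inr (Sum.inl z)) =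
        if b x = b a then d.arc1 b a x (loc (b := b) (Sum.inr (Sum.inl z))) else 1 := rfl
      have h2 : at' (b := b) (b a) (Sum.inr (Sum.inr x)) = if b x = b a then some x else none := rfl
      have h3 : at' (b := b) (b a) (Sum.inr (Sum.inl z)) = none := rfl
      rw [h1, h2, h3]
      by_cases hb : b x = b a
      · rw [if_pos hb, if_pos hb]
      · rw [if_neg hb, if_neg hb]
    · have h1 : d.arcVal (b := b) a (Sum.inr (Sum.inr x)) (Sum.inr (Sum.inr z)) =
        if b x = b a then (if b z = b a then d.f a x z else d.arc1 b a x (ix (b z)))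
        else (if b z = b a then d.arc1 b a z (ix (b x)) else 1) := rfl
      have h2 : at' (b := b) (b a) (Sum.inr (Sum.inr x)) = if b x = b a then some x else none := rfl
      have h3 : at' (b := b) (b a) (Sum.inr (Sum.inr z)) = if b z = b a then some z else none := rfl
      rw [h1, h2, h3]
      by_cases hb : b x = b a
      · by_cases hc : b z = b a
        · rw [if_pos hb, if_pos hb, if_pos hc, if_pos hc]
        · rw [if_pos hb, if_pos hb, if_neg hc, if_neg hc]; rfl
      · by_cases hc : b z = b a
        · rw [if_neg hb, if_neg hb, if_pos hc, if_pos hc]; rfl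
        · rw [if_neg hb, if_neg hb, if_neg hc, if_neg hc]

lemma val_inl (d : SData N X) (v : Fin K) (e : Bool) (x z : (sun K N b).Pos) :
    d.val (b := b) (Sum.inl (v, e)) x z = if e = decide (v ≠ 0) then 1 else d.sigVal v x z := by
  have h : d.val (b := b) (Sum.inl (v, e)) x z =
    (if e = decide (v ≠ 0) then fun _ _ => 1 else d.sigVal v :
      (sun K N b).Pos → (sun K N b).Pos → X) x z := rfl
  rw [h]
  by_cases he : e = decide (v ≠ 0)
  · rw [if_pos he, if_pos he]
  · rw [if_neg he, if_neg he]

lemma val_inr (d : SData N X) (a : Fin N) (x z : (sun K N b).Pos) :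
    d.val (b := b) (Sum.inr a) x z = d.arcVal a x z := rfl

lemma val_eq_one (d : SData N X) (h : (sun K N b).H) (x z : (sun K N b).Pos)
    (hx : at' ((sun K N b).vert h) x = none) :
    d.val h x z = one d h (at' ((sun K N b).vert h) z) (loc x) := by
  rcases h with ⟨v, e⟩ | a
  · have hx' : at' v x = none := hx
    show d.val (b := b) (Sum.inl (v, e)) x z = one d (Sum.inl (v, e)) (at' v z) (loc x)
    rw [val_inl, sig_eq, hx']
    rcases at' v z with _ | a1
    · rfl
    · rfl
  · have hx' : at' (b a) x = none := hx
    show d.val (b := b) (Sum.inr a) x z = one d (Sum.inr a) (at' (b a) z) (loc x)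
    rw [val_inr, arc_eq, hx']
    rcases at' (b a) z with _ | a1
    · rfl
    · rfl

lemma val_symm (d : SData N X) (h : (sun K N b).H) (x z : (sun K N b).Pos) :
    d.val h x z = d.val h z x := by
  rcases h with ⟨v, e⟩ | a
  · rw [val_inl, val_inl, sig_eq, sig_eq]
    rcases at' v z with _ | a1 <;> rcases at' v x with _ | a2 <;> simp [d.x_symm]
  · rw [val_inr, val_inr, arc_eq, arc_eq]
    rcases at' (b a) z with _ | a1 <;> rcases at' (b a) x with _ | a2 <;> simp
    exact d.f_symm _ _ _

/-- the place of the end of a half-edge -/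
lemma loc_edge (h : (sun K N b).H) :
    loc (b := b) (Sum.inr ((sun K N b).edge h)) = ix ((sun K N b).vert h) ∨
      ∃ u : Fin K, ∃ e : Bool, h = Sum.inl (u, e) ∧ e ≠ decide (u ≠ 0) ∧
        loc (b := b) (Sum.inr ((sun K N b).edge h)) = if u = 0 then 0 - 1 else u := by
  rcases h with ⟨v, e⟩ | a
  · by_cases he : e = decide (v ≠ 0)
    · left
      by_cases hv : v = 0
      · simp [loc, ix, he, hv]
      · simp [loc, ix, he, hv]
    · right
      refine ⟨v, e, rfl, he, ?_⟩
      by_cases hv : v = 0
      · subst hv
        cases e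
        · simp at he
        · simp [loc]
      · cases e
        · simp [loc, hv]
        · simp [hv] at he
  · left
    simp [loc]

lemma at_edge_none (h' : (sun K N b).H) (v : Fin K) (hv : (sun K N b).vert h' ≠ v) :
    at' (b := b) v (Sum.inr ((sun K N b).edge h')) = none := by
  rcases h' with ⟨u, e⟩ | a
  · simp [at']
  · have h1 : at' (b := b) v (Sum.inr ((sun K N b).edge (Sum.inr a))) =
      if b a = v then some a else none := rfl
    rw [h1, if_neg]
    exact hv

lemma tr_step (d : SData N X) (v u : Fin K) (w : X) (hu : u ≠ 0) (hvu : v ≠ u) :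
    d.tr v w (u - 1) = d.tr v w u := by
  have h1 : (u - 1 : Fin K).val = u.val - 1 := by
    have h0 : 0 < u.val := by
      rcases Nat.eq_zero_or_pos u.val with h | h
      · exact absurd (Fin.ext (by simpa using h)) hu
      · exact h
    have hK : 1 < K := by have := u.isLt; omega
    have : (1 : Fin K).val = 1 := by
      rw [Fin.val_one']; exact Nat.mod_eq_of_lt hK
    rw [Fin.sub_def]
    simp only [this]
    have hlt := u.isLt
    have : K - 1 + u.val = (u.val - 1) + K := by omega
    rw [this, Nat.add_mod_right, Nat.mod_eq_of_lt (by omega)]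
  have h2 : v.val ≠ u.val := fun h => hvu (Fin.ext h)
  have h0 : 0 < u.val := by
    rcases Nat.eq_zero_or_pos u.val with h | h
    · exact absurd (Fin.ext (by simpa using h)) hu
    · exact h
  have h3 : (v ≠ 0 ∧ v ≤ u - 1) ↔ (v ≠ 0 ∧ v ≤ u) := by
    rw [Fin.le_def, Fin.le_def, h1]
    constructor
    · rintro ⟨a, c⟩; exact ⟨a, by omega⟩
    · rintro ⟨a, c⟩; exact ⟨a, by omega⟩
  unfold SData.tr
  simp only [h3]

lemma tr_zero (d : SData N X) (v : Fin K) (w : X) (hv : v ≠ 0) :
    d.tr v w 0 * d.t = d.t * d.tr v w (0 - 1) := by
  have h1 : ¬ (v ≤ 0) := by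
    intro h
    apply hv
    apply Fin.ext
    have := Fin.le_def.mp h
    simp at this ⊢
    omega
  have h2 : v ≤ (0 - 1 : Fin K) := by
    rw [Fin.le_def]
    have hv0 : 0 < v.val := by
      rcases Nat.eq_zero_or_pos v.val with h | h
      · exact absurd (Fin.ext (by simpa using h)) hv
      · exact h
    have hK : 1 < K := by have := v.isLt; omega
    have : (1 : Fin K).val = 1 := by
      rw [Fin.val_one']; exact Nat.mod_eq_of_lt hK
    rw [Fin.sub_def]
    simp only [this]
    have hlt := v.isLt
    simp only [Fin.val_zero, Nat.add_zero]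
    rw [Nat.mod_eq_of_lt (by omega)]
    omega
  unfold SData.tr
  rw [if_neg (fun h => h1 h.2), if_pos ⟨hv, h2⟩]
  group

/-- the key identity: transport across the other vertex -/
lemma key (d : SData N X) (h h' : (sun K N b).H) (a1 : Fin N)
    (hvu : (sun K N b).vert h ≠ (sun K N b).vert h') :
    one d h (some a1) (ix ((sun K N b).vert h')) * one d h' none (loc (b := b) (Sum.inr ((sun K N b).edge h))) =
      one d h' none (ix ((sun K N b).vert h)) *
        one d h (some a1) (loc (b := b) (Sum.inr ((sun K N b).edge h'))) := by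
  rcases loc_edge h' with h1 | ⟨u, e, rfl, he, h1⟩
  · rw [h1]
    by_cases hs : ∃ e, h' = Sum.inl ((0 : Fin K), e) ∧ e ≠ decide ((0 : Fin K) ≠ 0)
    · obtain ⟨e, rfl, he⟩ := hs
      -- then the place of the edge is `0 - 1`, so `0 - 1 = 0`, `K = 1`, impossible with two vertices
      have h2 : (0 : Fin K) - 1 = 0 := by
        cases e
        · simp at he
        · simpa [loc, ix] using h1
      have h3 := tr_zero d ((sun K N b).vert h)
      simp only [h2] at h3
      have hv : (sun K N b).vert h ≠ 0 := by simpa using hvu
      have h4 : one d (b := b) (Sum.inl ((0 : Fin K), e)) none (0 : Fin K) = d.t := by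
        simp only [one]; rw [if_neg he]; simp
      have h5 : ∀ l, one d (b := b) (Sum.inl ((0 : Fin K), e)) none l = d.t := by
        intro l; simp only [one]; rw [if_neg he]; simp
      rw [h5, h5]
      rcases h with ⟨v, e'⟩ | a
      · simp only [one]
        split_ifs
        · simp
        · simpa [ix] using h3 (d.y a1) hv
      · simp only [one, SData.arc1]
        split_ifs
        · simp
        · simpa [ix] using h3 (d.s a a1) hv
    · have h5 : ∀ l, one d (b := b) h' none l = 1 := by
        intro l
        rcases h' with ⟨u, e⟩ | a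
        · simp only [one]
          by_cases he : e = decide (u ≠ 0)
          · rw [if_pos he]
          · rw [if_neg he, if_neg]
            rintro rfl
            exact hs ⟨e, rfl, he⟩
        · rfl
      rw [h5, h5]; simp
  · have hvu' : (sun K N b).vert h ≠ u := by simpa using hvu
    rw [h1]
    by_cases hu : u = 0
    · subst hu
      have h5 : ∀ l, one d (b := b) (Sum.inl ((0 : Fin K), e)) none l = d.t := by
        intro l; simp only [one]; rw [if_neg he]; simp
      rw [h5, h5]
      rcases h with ⟨v, e'⟩ | a
      · simp only [one]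
        split_ifs
        · simp
        · simpa [ix] using tr_zero d v (d.y a1) (by simpa using hvu')
      · simp only [one, SData.arc1]
        split_ifs
        · simp
        · simpa [ix] using tr_zero d (b a) (d.s a a1) (by simpa using hvu')
    · have h5 : ∀ l, one d (b := b) (Sum.inl (u, e)) none l = 1 := by
        intro l; simp only [one]; rw [if_neg he, if_neg hu]
      rw [h5, h5, if_neg hu, one_mul, mul_one]
      rcases h with ⟨v, e'⟩ | a
      · simp only [one]
        split_ifs
        · rfl
        · simpa [ix, hu] using tr_step d v u (d.y a1) hu (by simpa using hvu')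
      · simp only [one, SData.arc1]
        split_ifs
        · rfl
        · simpa [ix, hu] using tr_step d (b a) u (d.s a a1) hu (by simpa using hvu')

lemma one_none (d : SData N X) (h : (sun K N b).H) :
    (∀ l, one d h none l = 1) ∨ ((sun K N b).vert h = 0 ∧ ∀ l, one d h none l = d.t) := by
  rcases h with ⟨u, e⟩ | a
  · by_cases he : e = decide (u ≠ 0)
    · left; intro l; simp only [one]; rw [if_pos he]
    · by_cases hu : u = 0
      · right; refine ⟨hu, fun l => ?_⟩
        simp only [one]; rw [if_neg he, if_pos hu]
      · left; intro l; simp only [one]; rw [if_neg he, if_neg hu]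
  · left; intro l; rfl

lemma sq (d : SData N X) (h h' : (sun K N b).H) (z : (sun K N b).Pos)
    (hvu : (sun K N b).vert h ≠ (sun K N b).vert h') :
    d.val h (Sum.inl ((sun K N b).vert h')) z * d.val h' (Sum.inr ((sun K N b).edge h)) z =
      d.val h' (Sum.inl ((sun K N b).vert h)) z * d.val h (Sum.inr ((sun K N b).edge h')) z := by
  have e1 : at' (b := b) ((sun K N b).vert h) (Sum.inl ((sun K N b).vert h')) = none := rfl
  have e2 : at' (b := b) ((sun K N b).vert h') (Sum.inl ((sun K N b).vert h)) = none := rfl
  rw [val_eq_one d h _ z e1, val_eq_one d h' _ z e2,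
    val_eq_one d h' _ z (at_edge_none h _ hvu), val_eq_one d h _ z (at_edge_none h' _ hvu.symm)]
  have l1 : loc (b := b) (Sum.inl ((sun K N b).vert h')) = ix ((sun K N b).vert h') := rfl
  have l2 : loc (b := b) (Sum.inl ((sun K N b).vert h)) = ix ((sun K N b).vert h) := rfl
  rw [l1, l2]
  rcases hz : at' ((sun K N b).vert h) z with _ | a1
  · rcases hz' : at' ((sun K N b).vert h') z with _ | a2
    · rcases one_none d h with g1 | ⟨k1, g1⟩ <;> rcases one_none d h' with g2 | ⟨k2, g2⟩
      · simp [g1, g2]
      · simp [g1, g2]
      · simp [g1, g2]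
      · exact absurd (k1.trans k2.symm) hvu
    · have := key d h' h a2 hvu.symm
      exact this.symm
  · have hz' : at' ((sun K N b).vert h') z = none := by
      rcases z with z | z | z
      · rfl
      · rfl
      · have g1 : at' (b := b) ((sun K N b).vert h) (Sum.inr (Sum.inr z)) =
          if b z = (sun K N b).vert h then some z else none := rfl
        have g2 : at' (b := b) ((sun K N b).vert h') (Sum.inr (Sum.inr z)) =
          if b z = (sun K N b).vert h' then some z else none := rfl
        rw [g1] at hz
        rw [g2, if_neg]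
        intro hb
        rw [if_neg] at hz
        · exact absurd hz (by simp)
        · rw [hb]; exact hvu.symm
    rw [hz']
    exact key d h h' a1 hvu

end SunExistAux

/-- PB-14 -/
theorem SData.exists_cocycle {K N : ℕ} [NeZero K] {b : Fin N → Fin K} {X : Type} [Group X]
    (d : SData N X) : ∃ c : Cocycle3 (sun K N b) X, c.φ = d.val ∧ c.IsNorm STr := by
  refine ⟨⟨d.val, SunExistAux.val_symm d, fun h h' z hv _ _ => SunExistAux.sq d h h' z hv⟩, rfl, ?_⟩
  rintro h x y hval (h1 | h1)
  · rcases h1 with ⟨a, rfl, hx, hy⟩ | ⟨v, hv, rfl, ⟨j, -, rfl⟩, ⟨j', -, rfl⟩⟩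
    · rcases hx with ⟨j, rfl⟩ | ⟨a', ha', rfl⟩ <;> rcases hy with ⟨j', rfl⟩ | ⟨a'', ha'', rfl⟩
      · rfl
      · simp [SData.val, SData.arcVal, hA, sC, sA, SData.arc1, ha'']
      · simp [SData.val, SData.arcVal, hA, sC, sA, SData.arc1, ha']
      · simp [SData.val, SData.arcVal, hA, sC, sA, SData.arc1, ha', ha'', d.f_base a a' a'' ha' ha'']
    · simp [SData.val, SData.sigVal, hS, sC, hv]
  · obtain ⟨v, rfl, -, -⟩ := h1
    simp [SData.val, hT]

end Pool.Agent.Helper29.PB
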