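import Pool.Agent.Helper29.PB.GDefs
namespace Pool.Agent.Helper29.PB

section
variable {G : Type} [Group G]

theorem AlmostInvariant.compl' {A : Set G} (h : AlmostInvariant A) : AlmostInvariant Aᶜ := by
  intro g
  refine (h g).subset ?_
  intro x hx
  have himg : ∀ (B : Set G), x ∈ (fun y => y * g) '' B ↔ x * g⁻¹ ∈ B := by
    intro B
    constructor
    · rintro ⟨y, hy, rfl⟩
      simpa using hy
    · intro hy
      exact ⟨_, hy, by simp⟩
  rw [Set.mem_symmDiff] at hx ⊢
  rw [himg] at hx ⊢
  simp only [Set.mem_compl_iff, not_not] at hx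
  tauto

/-- the trace of `A` on the coset `x H` -/
def trace (A : Set G) (H : Subgroup G) (x : G) : Set H := {h | x * h ∈ A}

theorem trace_almostInvariant {A : Set G} (hA : AlmostInvariant A) (H : Subgroup G) (x : G) :
    AlmostInvariant (trace A H x) := by
  intro g
  have hinj : Function.Injective (fun h : H => x * (h : G)) := by
    intro a b hab
    exact Subtype.ext (mul_left_cancel hab)
  refine ((hA g).preimage (f := fun h : H => x * (h : G)) (hinj.injOn)).subset ?_
  intro h hh
  have himg : h ∈ (fun y => y * g) '' trace A H x ↔ x * h ∈ (fun y => y * (g : G)) '' A := by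
    constructor
    · rintro ⟨y, hy, rfl⟩
      exact ⟨x * y, hy, by simp [mul_assoc]⟩
    · rintro ⟨y, hy, hyx⟩
      refine ⟨h * g⁻¹, ?_, by simp⟩
      show x * ((h * g⁻¹ : H) : G) ∈ A
      have : x * ((h * g⁻¹ : H) : G) = y := by
        simp only [Subgroup.coe_mul, InvMemClass.coe_inv, ← mul_assoc]
        rw [← hyx]
        simp
      rw [this]
      exact hy
  rw [Set.mem_preimage, Set.mem_symmDiff]
  rw [Set.mem_symmDiff, himg] at hh
  exact hh

/-- a finitely generated subgroup: a coset which is not constant meets the coboundary -/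
theorem trace_dichotomy {A : Set G} (hA : AlmostInvariant A) (H : Subgroup G) (hfg : H.FG) :
    ∃ D : Set G, D.Finite ∧ ∀ x : G, (∀ h : H, x * h ∉ A) ∨ (∀ h : H, x * h ∈ A) ∨
      ∃ h : H, x * h ∈ D := by
  obtain ⟨S, hS⟩ := hfg
  refine ⟨⋃ s ∈ (S : Set G), symmDiff A ((fun x => x * s) '' A),
    S.finite_toSet.biUnion (fun s _ => hA s), ?_⟩
  intro x
  by_cases hD : ∃ h : H, x * h ∈ ⋃ s ∈ (S : Set G), symmDiff A ((fun x => x * s) '' A)
  · exact Or.inr (Or.inr hD)
  push Not at hD
  have hSH : ∀ s ∈ S, s ∈ H := fun s hs => by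
    rw [← hS]
    exact Subgroup.subset_closure hs
  have hstep : ∀ s ∈ S, ∀ h ∈ H, (x * h ∈ A ↔ x * h * s⁻¹ ∈ A) := by
    intro s hs h hh
    have h1 := hD ⟨h, hh⟩
    simp only [Set.mem_iUnion, not_exists] at h1
    have h2 := h1 s hs
    rw [Set.mem_symmDiff] at h2
    have himg : x * h ∈ (fun y => y * s) '' A ↔ x * h * s⁻¹ ∈ A := by
      constructor
      · rintro ⟨y, hy, hy2⟩
        rw [← hy2]
        simpa using hy
      · intro hy
        exact ⟨_, hy, by simp⟩
    rw [himg] at h2
    tauto
  have hall : ∀ g ∈ H, ∀ h ∈ H, (x * h * g ∈ A ↔ x * h ∈ A) := by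
    intro g hg
    rw [← hS] at hg
    induction hg using Subgroup.closure_induction with
    | mem s hs =>
      intro h hh
      have := hstep s hs (h * s) (H.mul_mem hh (hSH s hs))
      rw [mul_assoc, this]
      simp [mul_assoc]
    | one => intro h _; simp
    | mul a b ha hb iha ihb =>
      intro h hh
      have haH : a ∈ H := by rw [← hS]; exact ha
      rw [← mul_assoc, mul_assoc x h a, ihb (h * a) (H.mul_mem hh haH), ← mul_assoc, iha h hh]
    | inv a ha iha =>
      intro h hh
      have haH : a ∈ H := by rw [← hS]; exact ha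
      have := iha (h * a⁻¹) (H.mul_mem hh (H.inv_mem haH))
      rw [mul_assoc x h a⁻¹, ← this]
      simp [mul_assoc]
  by_cases hx : x ∈ A
  · refine Or.inr (Or.inl fun h => ?_)
    have := hall h h.2 1 H.one_mem
    simp only [mul_one] at this
    exact this.2 hx
  · refine Or.inl fun h => ?_
    have := hall h h.2 1 H.one_mem
    simp only [mul_one] at this
    exact fun h' => hx (this.1 h')

end

/-- PB-1: a group generated by one-ended finitely generated subgroups with pairwise infinite
intersections is one-ended. -/
theorem oneEnded_of_subgroups {G : Type} [Group G] {ι : Type} [Nonempty ι] (H : ι → Subgroup G)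
    (hfg : ∀ i, (H i).FG) (h1 : ∀ i, OneEnded (H i))
    (hinf : ∀ i j, ((H i ⊓ H j : Subgroup G) : Set G).Infinite)
    (hgen : ⨆ i, H i = ⊤) : OneEnded G := by
  obtain ⟨i0⟩ := ‹Nonempty ι›
  have hHinf : ∀ i, Infinite (H i) := fun i => (h1 i).1
  refine ⟨?_, ?_⟩
  · haveI := hHinf i0
    exact Infinite.of_injective (fun h : H i0 => (h : G)) Subtype.val_injective
  -- if all traces are finite then `A` is finite
  have key : ∀ A : Set G, AlmostInvariant A → (∀ x, (trace A (H i0) x).Finite) → A.Finite := by
    intro A hA hfin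
    obtain ⟨D, hD, hdich⟩ := trace_dichotomy hA (H i0) (hfg i0)
    refine (hD.biUnion (t := fun d => (fun h : H i0 => d * (h : G)) '' trace A (H i0) d)
      (fun d _ => (hfin d).image _)).subset ?_
    intro a ha
    rcases hdich a with h | h | ⟨h, hh⟩
    · exact absurd (by simpa using ha) (h 1)
    · exfalso
      have h2 : trace A (H i0) a = Set.univ := Set.eq_univ_of_forall h
      have h3 := hfin a
      rw [h2] at h3
      haveI := hHinf i0
      exact Set.infinite_univ h3
    · simp only [Set.mem_iUnion]
      refine ⟨a * h, hh, h⁻¹, ?_, by simp⟩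
      show a * (h : G) * ((h⁻¹ : H i0) : G) ∈ A
      simpa using ha
  intro A hA
  -- the type of a coset
  have hdi : ∀ i x, (trace A (H i) x).Finite ∨ (trace A (H i) x)ᶜ.Finite := fun i x =>
    (h1 i).2 _ (trace_almostInvariant hA (H i) x)
  have hcompl : ∀ (i) (x : G), (trace A (H i) x)ᶜ = trace Aᶜ (H i) x := fun i x => rfl
  -- change of subgroup
  have hchange : ∀ i j x, (trace A (H i) x).Finite → (trace A (H j) x).Finite := by
    intro i j x hi
    by_contra hj
    have hj' := (hdi j x).resolve_left hj
    apply hinf i j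
    have hi2 := hi.image (fun h : H i => (h : G))
    have hj2 := hj'.image (fun h : H j => (h : G))
    refine (hi2.union hj2).subset ?_
    intro g hg
    by_cases hxg : x * g ∈ A
    · exact Or.inl ⟨⟨g, hg.1⟩, hxg, rfl⟩
    · exact Or.inr ⟨⟨g, hg.2⟩, hxg, rfl⟩
  have hinv : ∀ (g : G) (x : G), (trace A (H i0) x).Finite ↔ (trace A (H i0) (x * g)).Finite := by
    -- the set of all `g` with this property is a subgroup containing all `H i`
    have hone : ∀ i, ∀ g ∈ H i, ∀ x, (trace A (H i) x).Finite → (trace A (H i) (x * g)).Finite := by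
      intro i g hg x hx
      refine Set.Finite.subset (hx.image (fun h : H i => (⟨g, hg⟩ : H i)⁻¹ * h)) ?_
      intro h hh
      refine ⟨⟨g, hg⟩ * h, ?_, by simp⟩
      show x * (((⟨g, hg⟩ : H i) * h : H i) : G) ∈ A
      have : x * g * (h : G) ∈ A := hh
      simpa [mul_assoc] using this
    let K : Subgroup G :=
      { carrier := {g | ∀ x, (trace A (H i0) x).Finite ↔ (trace A (H i0) (x * g)).Finite}
        one_mem' := by intro x; simp
        mul_mem' := by
          intro a b ha hb x
          rw [ha x, hb (x * a), mul_assoc]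
        inv_mem' := by
          intro a ha x
          have := ha (x * a⁻¹)
          simp only [inv_mul_cancel_right] at this
          exact this.symm }
    have hK : K = ⊤ := by
      rw [eq_top_iff, ← hgen, iSup_le_iff]
      intro i g hg x
      constructor
      · intro h
        exact hchange i i0 _ (hone i g hg x (hchange i0 i x h))
      · intro h
        have h2 := hone i g⁻¹ ((H i).inv_mem hg) (x * g) (hchange i0 i _ h)
        simp only [mul_inv_cancel_right] at h2
        exact hchange i i0 _ h2
    intro g
    have : g ∈ K := by rw [hK]; trivial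
    exact this
  by_cases h0 : (trace A (H i0) 1).Finite
  · left
    apply key A hA
    intro x
    have := hinv x 1
    rw [one_mul] at this
    exact this.1 h0
  · right
    apply key Aᶜ hA.compl'
    intro x
    have := hinv x 1
    rw [one_mul] at this
    exact (hdi i0 x).resolve_left (fun h => h0 (this.2 h))

theorem OneEnded.of_equiv {G H : Type} [Group G] [Group H] (e : G ≃* H) (h : OneEnded G) :
    OneEnded H := by
  refine ⟨?_, ?_⟩
  · haveI := h.1
    exact Infinite.of_injective e e.injective
  intro A hA
  have h2 : AlmostInvariant (e ⁻¹' A) := by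
    intro g
    refine ((hA (e g)).preimage (f := e) e.injective.injOn).subset ?_
    intro x hx
    have himg : x ∈ (fun y => y * g) '' (e ⁻¹' A) ↔ e x ∈ (fun y => y * e g) '' A := by
      constructor
      · rintro ⟨y, hy, rfl⟩
        exact ⟨e y, hy, by simp⟩
      · rintro ⟨y, hy, hyx⟩
        refine ⟨e.symm y, by simpa using hy, ?_⟩
        apply e.injective
        simpa using hyx
    rw [Set.mem_preimage, Set.mem_symmDiff]
    rw [Set.mem_symmDiff, himg] at hx
    exact hx
  rcases h.2 _ h2 with h3 | h3
  · left
    have := h3.image e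
    rwa [Set.image_preimage_eq _ e.surjective] at this
  · right
    have := h3.image e
    rw [← Set.preimage_compl, Set.image_preimage_eq _ e.surjective] at this
    exact this

end Pool.Agent.Helper29.PB
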